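import Pool.Agent.helper9.Jit.Ram

/-!
# Structured commands, their semantics with cost, and the compiler
-/

set_option autoImplicit false

namespace Pool.Agent.helper9.Jit

inductive Cmd
  | skip
  | asgn (v : ℕ) (e : Expr)
  | store (a : ℕ) (i e : Expr)
  | seq (c d : Cmd)
  /-- if `e ≤ f` then `c` else `d` -/
  | ite (e f : Expr) (c d : Cmd)
  /-- while `e ≤ f` do `c` -/
  | whl (e f : Expr) (c : Cmd)

namespace Cmd

/-- Number of instructions of the compiled code. -/
def len : Cmd → ℕ
  | skip => 0
  | asgn _ e => e.len + 2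
  | store a i e => i.len + e.len + (if a = 0 then 1 else 6)
  | seq c d => c.len + d.len
  | ite e f c d => e.len + f.len + 1 + d.len + 1 + c.len
  | whl e f c => e.len + f.len + 2 + c.len + 1

end Cmd

/-- The compiler; `pc` is the address of the first instruction. -/
def compC : ℕ → Cmd → List Instr
  | _, .skip => []
  | _, .asgn v e => compE e 64 ++ [.const v 0, .add v v 64]
  | _, .store a i e => compE i 64 ++ compE e 65 ++ addrCode a 64 66 ++ [.store 64 65]
  | pc, .seq c d => compC pc c ++ compC (pc + c.len) d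
  | pc, .ite e f c d =>
    compE e 64 ++ compE f 65 ++ [.jle 64 65 (pc + e.len + f.len + 1 + d.len + 1)] ++
      compC (pc + e.len + f.len + 1) d ++ [.jle 64 64 (pc + e.len + f.len + 1 + d.len + 1 + c.len)] ++
      compC (pc + e.len + f.len + 1 + d.len + 1) c
  | pc, .whl e f c =>
    compE e 64 ++ compE f 65 ++ [.jle 64 65 (pc + e.len + f.len + 2),
      .jle 64 64 (pc + e.len + f.len + 2 + c.len + 1)] ++
      compC (pc + e.len + f.len + 2) c ++ [.jle 64 64 pc]

theorem compC_length (c : Cmd) (pc : ℕ) : (compC pc c).length = c.len := by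
  induction c generalizing pc with
  | skip => rfl
  | asgn v e => simp [compC, Cmd.len, compE_length]
  | store a i e =>
    simp only [compC, Cmd.len, List.length_append, compE_length, addrCode_length]
    split <;> simp
  | seq c d ihc ihd => simp [compC, Cmd.len, ihc, ihd]
  | ite e f c d ihc ihd =>
    simp only [compC, Cmd.len, List.length_append, compE_length, ihc, ihd]
    simp
  | whl e f c ihc =>
    simp only [compC, Cmd.len, List.length_append, compE_length, ihc]
    simp

/-- Big-step semantics: `Run E c σ σ' t` means that `c` started in `σ` ends in `σ'` after exactly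
`t` machine steps of its compiled code, never exceeding the bounds in `E`. -/
inductive Run (E : Env) : Cmd → State → State → ℕ → Prop
  | skip (σ : State) : Run E .skip σ σ 0
  | asgn {σ : State} {v : ℕ} {e : Expr} (hv : v < NV) (hok : e.ok E σ) :
      Run E (.asgn v e) σ (σ.setv v (e.eval σ)) (e.len + 2)
  | store {σ : State} {a : ℕ} {i e : Expr} (hi : i.ok E σ) (he : e.ok E σ)
      (hidx : idxok E σ a (i.eval σ)) :
      Run E (.store a i e) σ (σ.setm a (i.eval σ) (e.eval σ))
        (i.len + e.len + (if a = 0 then 1 else 6))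
  | seq {c d : Cmd} {σ σ' σ'' : State} {t t' : ℕ} (h1 : Run E c σ σ' t) (h2 : Run E d σ' σ'' t') :
      Run E (.seq c d) σ σ'' (t + t')
  | iteT {e f : Expr} {c d : Cmd} {σ σ' : State} {t : ℕ} (he : e.ok E σ) (hf : f.ok E σ)
      (hc : e.eval σ ≤ f.eval σ) (h : Run E c σ σ' t) :
      Run E (.ite e f c d) σ σ' (e.len + f.len + 1 + t)
  | iteF {e f : Expr} {c d : Cmd} {σ σ' : State} {t : ℕ} (he : e.ok E σ) (hf : f.ok E σ)
      (hc : ¬ e.eval σ ≤ f.eval σ) (h : Run E d σ σ' t) :
      Run E (.ite e f c d) σ σ' (e.len + f.len + 1 + t + 1)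
  | whlT {e f : Expr} {c : Cmd} {σ σ' σ'' : State} {t t' : ℕ} (he : e.ok E σ) (hf : f.ok E σ)
      (hc : e.eval σ ≤ f.eval σ) (h : Run E c σ σ' t) (h' : Run E (.whl e f c) σ' σ'' t') :
      Run E (.whl e f c) σ σ'' (e.len + f.len + 1 + t + 1 + t')
  | whlF {e f : Expr} {c : Cmd} {σ : State} (he : e.ok E σ) (hf : f.ok E σ)
      (hc : ¬ e.eval σ ≤ f.eval σ) :
      Run E (.whl e f c) σ σ (e.len + f.len + 2)

theorem Bd.jle {W : ℕ} {s : Conf} (h : Bd W s) {a b t : ℕ} : Bd W ((Instr.jle a b t).exec s) := h

/-- comparing two expressions -/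
theorem compE2_correct {P : List Instr} {E : Env} {e f : Expr} {s : Conf} {σ : State}
    (hP : At P s.pc (compE e 64 ++ compE f 65)) (hs : Bd E.W s)
    (hsim : Sim E.B σ s) (hok : e.ok E σ) (hok' : f.ok E σ) :
    ∃ s', St P E.W s (e.len + f.len) s' ∧ s'.pc = s.pc + (e.len + f.len) ∧ Sim E.B σ s' ∧
      s'.reg 64 = e.eval σ ∧ s'.reg 65 = f.eval σ := by
  obtain ⟨s1, st1, pc1, mem1, val1, oth1⟩ :=
    compE_correct e hP.left hs (le_refl 64) hsim.1 hsim.2 hok
  have hP2 := hP.right
  rw [compE_length, ← pc1] at hP2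
  obtain ⟨s2, st2, pc2, mem2, val2, oth2⟩ :=
    compE_correct f hP2 st1.bd (by decide) (fun v hv => by rw [oth1 v hv]; exact hsim.1 v hv)
      (mem1 ▸ hsim.2) hok'
  refine ⟨s2, st1.trans st2, by rw [pc2, pc1]; omega, ⟨?_, ?_⟩, ?_, val2⟩
  · intro v hv
    rw [oth2 v (by simp only [NV] at hv; omega), oth1 v hv]
    exact hsim.1 v hv
  · rw [mem2, mem1]; exact hsim.2
  · rw [oth2 64 (by omega), val1]

theorem compC_correct {E : Env} {c : Cmd} {σ σ' : State} {t : ℕ} (hrun : Run E c σ σ' t)
    {P : List Instr} {s : Conf} (hP : At P s.pc (compC s.pc c)) (hs : Bd E.W s)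
    (hsim : Sim E.B σ s) :
    ∃ s', St P E.W s t s' ∧ s'.pc = s.pc + c.len ∧ Sim E.B σ' s' := by
  induction hrun generalizing s with
  | skip σ => exact ⟨s, St.refl hs, rfl, hsim⟩
  | @asgn σ v e hv hok =>
    simp only [compC] at hP
    obtain ⟨s1, st1, pc1, mem1, val1, oth1⟩ :=
      compE_correct e hP.left hs (le_refl 64) hsim.1 hsim.2 hok
    have hP2 := hP.right
    rw [compE_length, ← pc1] at hP2
    set s2 := (Instr.const v 0).exec s1 with hs2
    have b2 : Bd E.W s2 := st1.bd.update_reg (Nat.zero_le _)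
    have st2 : St P E.W s1 1 s2 := St.one hP2.head st1.bd b2
    have hv64 : (64 : ℕ) ≠ v := by simp only [NV] at hv; omega
    have k2 : s2.reg 64 = e.eval σ := by
      simp only [hs2, Instr.exec]; rw [Function.update_of_ne hv64, val1]
    have k3 : s2.reg v = 0 := by simp [hs2, Instr.exec]
    set s3 := (Instr.add v v 64).exec s2 with hs3
    have b3 : Bd E.W s3 := b2.update_reg (by
      rw [k3, Nat.zero_add]; exact b2.1 64)
    have st3 : St P E.W s2 1 s3 := St.one hP2.tail.head b2 b3
    refine ⟨s3, (st1.trans st2).trans st3, ?_, ?_, ?_⟩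
    · simp only [hs3, hs2, Instr.exec, Cmd.len]; rw [pc1]; omega
    · intro w hw
      simp only [hs3, Instr.exec, State.setv_v]
      by_cases hwv : w = v
      · subst hwv
        rw [if_pos rfl, Function.update_self, k3, k2, Nat.zero_add]
      · rw [if_neg hwv, Function.update_of_ne hwv]
        simp only [hs2, Instr.exec]
        rw [Function.update_of_ne hwv, oth1 w hw]
        exact hsim.1 w hw
    · simp only [hs3, hs2, Instr.exec]; rw [mem1]; exact hsim.2
  | @store σ a i e hi he hidx =>
    simp only [compC] at hP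
    obtain ⟨s1, st1, pc1, sim1, val1, val1'⟩ := compE2_correct hP.left.left hs hsim hi he
    have hP2 := hP.left.right
    rw [List.length_append, compE_length, compE_length, ← pc1] at hP2
    obtain ⟨s2, st2, pc2, mem2, val2, oth2⟩ :=
      addrCode_correct hP2 st1.bd (le_refl 64) (by omega) (sim1.1 63 (by simp)) val1 hidx
    have hP3 := hP.right
    rw [List.length_append, List.length_append, compE_length, compE_length, addrCode_length,
      ← Nat.add_assoc, ← pc1, ← pc2] at hP3
    set s3 := (Instr.store 64 65).exec s2 with hs3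
    have v65 : s2.reg 65 = e.eval σ := by rw [oth2 65 (by omega) (by omega), val1']
    have b3 : Bd E.W s3 := by
      refine ⟨st2.bd.1, fun x => ?_⟩
      show Function.update s2.mem (s2.reg 64) (s2.reg 65) x ≤ E.W
      rw [Function.update_apply]
      split
      · exact st2.bd.1 65
      · exact st2.bd.2 x
    have st3 : St P E.W s2 1 s3 := St.one hP3.head st2.bd b3
    refine ⟨s3, ?_, ?_, ?_, ?_⟩
    · have := (st1.trans st2).trans st3
      convert this using 1
      split <;> omega
    · simp only [hs3, Instr.exec, Cmd.len]; rw [pc2, pc1]; split <;> omega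
    · intro w hw
      simp only [hs3, Instr.exec, State.setm_v]
      rw [oth2 w (by simp only [NV] at hw; omega) (by simp only [NV] at hw; omega)]
      exact sim1.1 w hw
    · simp only [hs3, Instr.exec]
      rw [val2, v65, mem2]
      exact sim1.2.write rfl hidx
  | @seq c d σ σ' σ'' t t' h1 h2 ih1 ih2 =>
    simp only [compC] at hP
    obtain ⟨s1, st1, pc1, sim1⟩ := ih1 hP.left hs hsim
    have hP2 := hP.right
    rw [compC_length, ← pc1] at hP2
    obtain ⟨s2, st2, pc2, sim2⟩ := ih2 hP2 st1.bd sim1
    refine ⟨s2, st1.trans st2, ?_, sim2⟩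
    rw [pc2, pc1]; simp only [Cmd.len]; omega
  | @iteT e f c d σ σ' t he hf hc h ih =>
    simp only [compC] at hP
    obtain ⟨s1, st1, pc1, sim1, val1, val1'⟩ :=
      compE2_correct hP.left.left.left.left hs hsim he hf
    have hP2 := hP.left.left.left.right
    rw [List.length_append, compE_length, compE_length, ← pc1] at hP2
    set s2 := (Instr.jle 64 65 (s.pc + e.len + f.len + 1 + d.len + 1)).exec s1 with hs2
    have b2 : Bd E.W s2 := st1.bd.jle
    have st2 : St P E.W s1 1 s2 := St.one hP2.head st1.bd b2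
    have pc2 : s2.pc = s.pc + e.len + f.len + 1 + d.len + 1 := by
      simp only [hs2, Instr.exec]; rw [val1, val1', if_pos hc]
    have hP3 := hP.right
    simp only [List.length_append, compE_length, compC_length, List.length_cons,
      List.length_nil] at hP3
    have e1 : s.pc + (e.len + f.len + (0 + 1) + d.len + (0 + 1)) = s2.pc := by rw [pc2]; omega
    rw [e1, ← pc2] at hP3
    obtain ⟨s3, st3, pc3, sim3⟩ := ih hP3 b2 ⟨sim1.1, sim1.2⟩
    refine ⟨s3, ?_, ?_, sim3⟩
    · exact (st1.trans st2).trans st3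
    · rw [pc3, pc2]; simp only [Cmd.len]; omega
  | @iteF e f c d σ σ' t he hf hc h ih =>
    simp only [compC] at hP
    obtain ⟨s1, st1, pc1, sim1, val1, val1'⟩ :=
      compE2_correct hP.left.left.left.left hs hsim he hf
    have hP2 := hP.left.left.left.right
    rw [List.length_append, compE_length, compE_length, ← pc1] at hP2
    set s2 := (Instr.jle 64 65 (s.pc + e.len + f.len + 1 + d.len + 1)).exec s1 with hs2
    have b2 : Bd E.W s2 := st1.bd.jle
    have st2 : St P E.W s1 1 s2 := St.one hP2.head st1.bd b2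
    have pc2 : s2.pc = s.pc + e.len + f.len + 1 := by
      simp only [hs2, Instr.exec]; rw [val1, val1', if_neg hc, pc1]; omega
    have hP3 := hP.left.left.right
    simp only [List.length_append, compE_length, compC_length, List.length_cons,
      List.length_nil] at hP3
    have e1 : s.pc + (e.len + f.len + (0 + 1)) = s2.pc := by rw [pc2]; omega
    rw [e1, ← pc2] at hP3
    obtain ⟨s3, st3, pc3, sim3⟩ := ih hP3 b2 ⟨sim1.1, sim1.2⟩
    have hP4 := hP.left.right
    simp only [List.length_append, compE_length, compC_length, List.length_cons,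
      List.length_nil] at hP4
    have e2 : s.pc + (e.len + f.len + (0 + 1) + d.len) = s3.pc := by rw [pc3, pc2]; omega
    rw [e2] at hP4
    set s4 := (Instr.jle 64 64 (s.pc + e.len + f.len + 1 + d.len + 1 + c.len)).exec s3 with hs4
    have b4 : Bd E.W s4 := st3.bd.jle
    have st4 : St P E.W s3 1 s4 := St.one hP4.head st3.bd b4
    refine ⟨s4, ?_, ?_, ⟨sim3.1, sim3.2⟩⟩
    · exact ((st1.trans st2).trans st3).trans st4
    · simp only [hs4, Instr.exec, Cmd.len, le_refl, if_true]; omega
  | @whlT e f c σ σ' σ'' t t' he hf hc h h' ih ih' =>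
    have hP0 := hP
    simp only [compC] at hP
    obtain ⟨s1, st1, pc1, sim1, val1, val1'⟩ :=
      compE2_correct hP.left.left.left hs hsim he hf
    have hP2 := hP.left.left.right
    rw [List.length_append, compE_length, compE_length, ← pc1] at hP2
    set s2 := (Instr.jle 64 65 (s.pc + e.len + f.len + 2)).exec s1 with hs2
    have b2 : Bd E.W s2 := st1.bd.jle
    have st2 : St P E.W s1 1 s2 := St.one hP2.head st1.bd b2
    have pc2 : s2.pc = s.pc + e.len + f.len + 2 := by
      simp only [hs2, Instr.exec]; rw [val1, val1', if_pos hc]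
    have hP3 := hP.left.right
    simp only [List.length_append, compE_length, compC_length, List.length_cons,
      List.length_nil] at hP3
    have e1 : s.pc + (e.len + f.len + (0 + 1 + 1)) = s2.pc := by rw [pc2]; omega
    rw [e1, ← pc2] at hP3
    obtain ⟨s3, st3, pc3, sim3⟩ := ih hP3 b2 ⟨sim1.1, sim1.2⟩
    have hP4 := hP.right
    simp only [List.length_append, compE_length, compC_length, List.length_cons,
      List.length_nil] at hP4
    have e2 : s.pc + (e.len + f.len + (0 + 1 + 1) + c.len) = s3.pc := by rw [pc3, pc2]; omega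
    rw [e2] at hP4
    set s4 := (Instr.jle 64 64 s.pc).exec s3 with hs4
    have b4 : Bd E.W s4 := st3.bd.jle
    have st4 : St P E.W s3 1 s4 := St.one hP4.head st3.bd b4
    have pc4 : s4.pc = s.pc := by simp [hs4, Instr.exec]
    obtain ⟨s5, st5, pc5, sim5⟩ := ih' (by rw [pc4]; exact hP0) b4 ⟨sim3.1, sim3.2⟩
    refine ⟨s5, ?_, by rw [pc5, pc4], sim5⟩
    exact (((st1.trans st2).trans st3).trans st4).trans st5
  | @whlF e f c σ he hf hc =>
    simp only [compC] at hP
    obtain ⟨s1, st1, pc1, sim1, val1, val1'⟩ :=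
      compE2_correct hP.left.left.left hs hsim he hf
    have hP2 := hP.left.left.right
    rw [List.length_append, compE_length, compE_length, ← pc1] at hP2
    set s2 := (Instr.jle 64 65 (s.pc + e.len + f.len + 2)).exec s1 with hs2
    have b2 : Bd E.W s2 := st1.bd.jle
    have st2 : St P E.W s1 1 s2 := St.one hP2.head st1.bd b2
    have pc2 : s2.pc = s1.pc + 1 := by
      simp only [hs2, Instr.exec]; rw [val1, val1', if_neg hc]
    have hP3 := hP2.tail
    rw [← pc2] at hP3
    set s3 := (Instr.jle 64 64 (s.pc + e.len + f.len + 2 + c.len + 1)).exec s2 with hs3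
    have b3 : Bd E.W s3 := b2.jle
    have st3 : St P E.W s2 1 s3 := St.one hP3.head b2 b3
    refine ⟨s3, ?_, ?_, ⟨sim1.1, sim1.2⟩⟩
    · exact (st1.trans st2).trans st3
    · simp only [hs3, Instr.exec, Cmd.len, le_refl, if_true]; omega

/-- The whole program for a command. -/
def prog (c : Cmd) : List Instr := compC 0 c

theorem prog_correct {E : Env} {c : Cmd} {σ σ' : State} {t : ℕ} (hrun : Run E c σ σ' t)
    {s : Conf} (hpc : s.pc = 0) (hs : Bd E.W s) (hsim : Sim E.B σ s) :
    ∃ s', St (prog c) E.W s t s' ∧ (prog c).length ≤ s'.pc ∧ Sim E.B σ' s' := by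
  have hP : At (prog c) s.pc (compC s.pc c) := by
    rw [hpc]
    intro i hi
    simp [prog]
  obtain ⟨s', h1, h2, h3⟩ := compC_correct hrun hP hs hsim
  refine ⟨s', h1, ?_, h3⟩
  rw [h2, prog, compC_length]
  omega

end Pool.Agent.helper9.Jit
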