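import Pool.Agent.helper9.Jit.Math2

/-!
# Basic loops on summaries: clearing, histograms, rebasing
-/

set_option autoImplicit false

namespace Pool.Agent.helper9.Jit

open Finset

namespace Inst
variable (A : Inst)

def hist (P : ℕ → Prop) [DecidablePred P] (K : ℕ → ℕ) (k c : ℕ) : ℕ :=
  ((range k).filter (fun i => P i ∧ 1 ≤ K i ∧ A.n + 1 - K i = c)).card

def hcum (P : ℕ → Prop) [DecidablePred P] (K : ℕ → ℕ) (c : ℕ) : ℕ :=
  ((range A.n).filter (fun i => P i ∧ 1 ≤ K i ∧ A.n + 1 - K i ≤ c)).card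

variable {A}
variable {P : ℕ → Prop} [DecidablePred P] {K : ℕ → ℕ}

theorem hist_zero (c : ℕ) : A.hist P K 0 c = 0 := by simp [hist]

theorem hist_succ (k c : ℕ) : A.hist P K (k + 1) c = A.hist P K k c +
    if P k ∧ 1 ≤ K k ∧ A.n + 1 - K k = c then 1 else 0 := by
  unfold hist
  rw [show range (k + 1) = insert k (range k) from range_add_one, filter_insert]
  split
  · rw [card_insert_of_notMem (by simp)]
  · rfl

theorem hist_le (k c : ℕ) : A.hist P K k c ≤ k := by
  unfold hist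
  simpa using card_le_card (filter_subset (fun i => P i ∧ 1 ≤ K i ∧ A.n + 1 - K i = c) (range k))

theorem hcum_le (c : ℕ) : A.hcum P K c ≤ A.n := by
  unfold hcum
  simpa using card_le_card (filter_subset (fun i => P i ∧ 1 ≤ K i ∧ A.n + 1 - K i ≤ c) (range A.n))

theorem hcum_zero : A.hcum P K 0 = A.hist P K A.n 0 := by
  unfold hcum hist
  congr 1
  ext i
  simp only [mem_filter, mem_range, Nat.le_zero]

theorem hcum_succ (c : ℕ) : A.hcum P K (c + 1) = A.hist P K A.n (c + 1) + A.hcum P K c := by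
  unfold hcum hist
  rw [← card_union_of_disjoint]
  · congr 1
    ext i
    simp only [mem_filter, mem_union, mem_range]
    constructor
    · rintro ⟨h1, h2, h3, h4⟩
      by_cases h5 : A.n + 1 - K i = c + 1
      · exact Or.inl ⟨h1, h2, h3, h5⟩
      · exact Or.inr ⟨h1, h2, h3, by omega⟩
    · rintro (⟨h1, h2, h3, h4⟩ | ⟨h1, h2, h3, h4⟩)
      · exact ⟨h1, h2, h3, by omega⟩
      · exact ⟨h1, h2, h3, by omega⟩
  · rw [disjoint_left]
    intro k hk hk'
    simp only [mem_filter] at hk hk'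
    omega

theorem Hh_eq {t t' c : ℕ} (hc : c ≤ A.n) :
    Hh A t t' K c = A.hcum (fun i => A.q i t' ≤ A.q i t) K c := by
  unfold Hh hcum
  congr 1
  ext i
  simp only [mem_filter, mem_range]
  constructor
  · rintro ⟨h1, h2, h3⟩; exact ⟨h1, h2, by omega, by omega⟩
  · rintro ⟨h1, h2, h3, h4⟩; exact ⟨h1, h2, by omega⟩

theorem Hn_eq {b t c : ℕ} (hc : c ≤ A.n) :
    Hn A b t K c = A.hcum (fun i => b < A.f i t) K c := by
  unfold Hn hcum
  congr 1
  ext i
  simp only [mem_filter, mem_range]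
  constructor
  · rintro ⟨h1, h2, h3⟩; exact ⟨h1, h2, by omega, by omega⟩
  · rintro ⟨h1, h2, h3, h4⟩; exact ⟨h1, h2, by omega⟩

theorem q_le_d {i t : ℕ} (ht : t ≤ A.D) : A.q i t ≤ A.d i := by
  rw [← A.q_D i]; exact A.q_mono i ht

theorem sum_q_le {k t : ℕ} (hk : k ≤ A.n) (ht : t ≤ A.D) :
    ∑ i ∈ range k, A.q i t ≤ A.D := by
  calc _ ≤ ∑ i ∈ range k, A.d i := sum_le_sum fun i _ => q_le_d ht
    _ ≤ ∑ i ∈ range A.n, A.d i := sum_le_sum_of_subset (range_mono hk)
    _ = A.D := A.hD.symm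

theorem gs_le {b t s : ℕ} (ht : t ≤ A.D) (hst : s ≤ t) : A.gs b t s ≤ 2 * A.D + 1 := by
  unfold gs
  have : ∑ i ∈ range A.n, (A.q i t - A.U b i s) ≤ ∑ i ∈ range A.n, A.q i t :=
    sum_le_sum fun i _ => Nat.sub_le _ _
  have h2 := sum_q_le (A := A) le_rfl ht
  omega

theorem IsSum.G_le {b : ℕ} {X : ℕ → Prop} {t : ℕ} {G K : ℕ → ℕ}
    (h : A.IsSum b X t G K) (ht : t ≤ A.D) {c : ℕ} (hc : c ≤ A.n) : G c ≤ 2 * A.D + 1 := by
  by_cases h1 : 1 ≤ G c
  · obtain ⟨s, hs, -, h3⟩ := h.G2 c hc h1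
    rw [h3]; exact gs_le ht (h.le s hs)
  · omega

theorem IsSum.K_le {b : ℕ} {X : ℕ → Prop} {t : ℕ} {G K : ℕ → ℕ}
    (h : A.IsSum b X t G K) {i : ℕ} (hi : i < A.n) : K i ≤ A.n := by
  by_cases h1 : 1 ≤ K i
  · obtain ⟨s, hs, h2, h3⟩ := h.K2 i hi h1
    have : 0 < (A.O b t s).card := card_pos.2 ⟨i, h2⟩
    omega
  · omega

end Inst

/-- clear the cells `0,…,n` of an array -/
def clr (a : ℕ) : Cmd := forr 15 ((Expr.var 0) + 1) (.store a (Expr.var 15) 0)

def pfx : Cmd := forr 15 (Expr.var 0) (.store 14 ((Expr.var 15) + 1) ((Expr.arr 14 ((Expr.var 15) + 1)) + (Expr.arr 14 ((Expr.var 15)))))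

def rb2 : Cmd := forr 6 (Expr.var 0) (
    Cmd.seq (.asgn 8 ((Expr.var 7) * (Expr.arr 1 ((Expr.var 6))) / (Expr.var 1))) <|
    Cmd.seq (.asgn 16 ((Expr.var 16) + (Expr.arr 16 ((Expr.var 6))))) <|
    Cmd.seq (.asgn 17 ((Expr.var 17) + (Expr.var 8))) <|
    Cmd.seq (.ite (Expr.var 8) ((Expr.arr 16 ((Expr.var 6))))
       (.ite 1 ((Expr.arr 13 ((Expr.var 6)))) (.store 14 ((Expr.var 0) + 1 - (Expr.arr 13 ((Expr.var 6)))) ((Expr.arr 14 ((Expr.var 0) + 1 - (Expr.arr 13 ((Expr.var 6))))) + 1)) .skip)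
       (.store 13 (Expr.var 6) 0)) <|
    .store 16 (Expr.var 6) (Expr.var 8))

def rb5 : Cmd := forr 15 ((Expr.var 0) + 1) (
  .ite 1 ((Expr.arr 12 ((Expr.var 15)))) (
    Cmd.seq (.asgn 8 (((Expr.arr 12 ((Expr.var 15))) + (Expr.var 17) + (Expr.var 14)) - ((Expr.var 16) + (Expr.var 7) + ((Expr.var 15) - (Expr.arr 14 ((Expr.var 15))))))) <|
    .ite ((Expr.arr 15 ((Expr.arr 14 ((Expr.var 15)))))) (Expr.var 8) (.store 15 ((Expr.arr 14 ((Expr.var 15)))) (Expr.var 8)) .skip)
  .skip)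

def rb6 : Cmd := forr 15 ((Expr.var 0) + 1) (.store 12 (Expr.var 15) ((Expr.arr 15 ((Expr.var 15)))))

def rb7 : Cmd := forr 6 (Expr.var 0) (
  .ite 1 ((Expr.arr 13 ((Expr.var 6)))) (.store 13 (Expr.var 6) ((Expr.var 0) + 1 - (Expr.arr 14 ((Expr.var 0) + 1 - (Expr.arr 13 ((Expr.var 6))))))) .skip)

/-- Move the base time of the current summary from `vbp` to `vt`. -/
def rebase : Cmd :=
  Cmd.seq (.asgn 16 0) <| Cmd.seq (.asgn 17 0) <| Cmd.seq (clr 14) <| Cmd.seq (rb2) <| Cmd.seq (pfx) <| Cmd.seq (clr 15) <| Cmd.seq (rb5) <| Cmd.seq (rb6) <| Cmd.seq (rb7) <|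
    .asgn 14 (Expr.var 7)

section
variable {E : Env} {A : Inst}

theorem clr_spec (hs : Sz E A) {σ : State} (ctx : Ctx E A σ) {a : ℕ} (ha : 3 ≤ a) (ha' : a ≤ 16) :
    Ex E (clr a) σ (26 * (A.n + 1) + 16) (fun σ' => ∀ u ≤ A.n, σ'.m a u = 0) := by
  obtain ⟨z1, z2, z3, z4, z5, z6⟩ := hs.facts
  unfold clr
  refine (Ex.forr (T1 := 10) (A.n + 1) (fun k σ' => ∀ u < k, σ'.m a u = 0)
      (by decide) (by simp [Cmd.wv]) (by omega) ?_ ?_ ?_).mono ?_ ?_
  · intro u hu; omega
  · intro k hk σ' hfr _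
    simp [hfr.1 0 (by simp [Cmd.wv]), ctx.n]
    omega
  · intro k hk σ1 hfr1 hinv1 hv1
    have hB : σ1.v 63 = E.B := by rw [hfr1.1 63 (by simp [Cmd.wv]), ctx.B]
    refine Ex.sto1 k 0 (by (simp <;> omega)) (by simp) (by simp) (by simp [hv1]) (by simp)
      (idxok_arr (by omega) ha' hB (by omega)) ?_
    intro u hu
    simp only [State.setv_m, State.setm_m, if_true]
    split
    · rfl
    · exact hinv1 u (by omega)
  · (simp <;> omega)
  · rintro σ' ⟨-, h, -⟩ u hu
    exact h u (by omega)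

theorem pfx_spec (hs : Sz E A) {σ : State} (ctx : Ctx E A σ) {P : ℕ → Prop} [DecidablePred P]
    {K : ℕ → ℕ} (h0 : ∀ u ≤ A.n, σ.m 14 u = A.hist P K A.n u) :
    Ex E pfx σ (60 * A.n + 14) (fun σ' => ∀ u ≤ A.n, σ'.m 14 u = A.hcum P K u) := by
  obtain ⟨z1, z2, z3, z4, z5, z6⟩ := hs.facts
  unfold pfx
  refine (Ex.forr (T1 := 46) A.n (fun k σ' => (∀ u ≤ k, σ'.m 14 u = A.hcum P K u) ∧
      ∀ u, k < u → u ≤ A.n → σ'.m 14 u = A.hist P K A.n u)
      (by decide) (by decide) (by omega) ?_ ?_ ?_).mono ?_ (fun σ' h => h.2.1.1)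
  · refine ⟨?_, ?_⟩
    · intro u hu
      have : u = 0 := by omega
      subst this
      rw [Inst.hcum_zero]
      simpa using h0 0 (Nat.zero_le _)
    · intro u _ hu'; simpa using h0 u hu'
  · intro k hk σ' hfr _
    simp [hfr.1 0 (by decide), ctx.n]
  · intro k hk σ1 hfr1 hinv1 hv1
    have ctx1 := ctx.fr hfr1 (by decide)
    have e1 := hinv1.1 k le_rfl
    have e2 := hinv1.2 (k + 1) (by omega) (by omega)
    have e3 := Inst.hcum_succ (A := A) (P := P) (K := K) k
    have e4 := Inst.hcum_le (A := A) (P := P) (K := K) (k + 1)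
    refine Ex.sto1 (k + 1) (A.hcum P K (k + 1)) (by (simp <;> omega)) (by simp [hv1]; omega) ?_
      (by simp [hv1]) ?_
      (idxok_arr (by decide) (by decide) ctx1.B (by omega)) ?_
    · simp [idxok, KA, ctx1.B, hv1, e1, e2]
      omega
    · simp [hv1, e1, e2, e3]
    · refine ⟨?_, ?_⟩
      · intro u hu
        simp only [State.setv_m, State.setm_m, if_true]
        split
        · rename_i h; rw [h]
        · exact hinv1.1 u (by omega)
      · intro u hu hu'
        simp only [State.setv_m, State.setm_m, if_true]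
        rw [if_neg (by omega)]
        exact hinv1.2 u (by omega) hu'
  · (simp <;> omega)

theorem rb2_spec (hs : Sz E A) {σ : State} (ctx : Ctx E A σ) {t t' : ℕ} (ht : t ≤ A.D)
    (ht' : t' ≤ A.D) (hvt : σ.v 7 = t') (h1 : σ.v 16 = 0) (h2 : σ.v 17 = 0)
    (hH : ∀ u ≤ A.n, σ.m 14 u = 0) (hPB : ∀ i < A.n, σ.m 16 i = A.q i t) {K : ℕ → ℕ}
    (hK : σ.m 13 = K) :
    Ex E rb2 σ (200 * A.n + 14) (fun σ' =>
      (∀ u ≤ A.n, σ'.m 14 u = A.hist (fun i => A.q i t' ≤ A.q i t) K A.n u) ∧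
      σ'.v 16 = ∑ i ∈ range A.n, A.q i t ∧ σ'.v 17 = ∑ i ∈ range A.n, A.q i t' ∧
      (∀ i < A.n, σ'.m 16 i = A.q i t') ∧
      (∀ i < A.n, σ'.m 13 i = if A.q i t' ≤ A.q i t then K i else 0)) := by
  obtain ⟨z1, z2, z3, z4, z5, z6⟩ := hs.facts
  unfold rb2
  refine (Ex.forr (T1 := 186) A.n (fun k σ' =>
      (∀ u ≤ A.n, σ'.m 14 u = A.hist (fun i => A.q i t' ≤ A.q i t) K k u) ∧
      σ'.v 16 = ∑ i ∈ range k, A.q i t ∧ σ'.v 17 = ∑ i ∈ range k, A.q i t' ∧
      (∀ i < A.n, σ'.m 16 i = if i < k then A.q i t' else A.q i t) ∧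
      (∀ i < A.n, σ'.m 13 i = if i < k then (if A.q i t' ≤ A.q i t then K i else 0) else K i))
      (by decide) (by decide) (by omega) ?_ ?_ ?_).mono ?_ ?_
  · refine ⟨?_, by simpa using h1, by simpa using h2, ?_, ?_⟩
    · intro u hu; rw [Inst.hist_zero]; simpa using hH u hu
    · intro i hi; simpa using hPB i hi
    · intro i hi; simp [hK]
  · intro k hk σ' hfr _
    simp [hfr.1 0 (by decide), ctx.n]
  · intro k hk σ1 hfr1 hinv1 hv1
    obtain ⟨i1, i2, i3, i4, i5⟩ := hinv1
    have ctx1 := ctx.fr hfr1 (by decide)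
    have hdi := ctx1.d k hk
    have hdD := A.hdD hk
    have hvt1 : σ1.v 7 = t' := by rw [hfr1.1 7 (by decide), hvt]
    have hPB1 : σ1.m 16 k = A.q k t := by rw [i4 k hk, if_neg (lt_irrefl _)]
    have hK1 : σ1.m 13 k = K k := by rw [i5 k hk, if_neg (lt_irrefl _)]
    have htd : t' * A.d k ≤ A.D * A.D := Nat.mul_le_mul ht' hdD
    have hsum1 : ∑ i ∈ range (k + 1), A.q i t ≤ A.D := Inst.sum_q_le hk ht
    have hsum2 : ∑ i ∈ range (k + 1), A.q i t' ≤ A.D := Inst.sum_q_le hk ht'
    rw [sum_range_succ] at hsum1 hsum2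
    have hq : t' * A.d k / A.D = A.q k t' := rfl
    refine Ex.asg (A.q k t') (by (simp <;> omega)) (by decide) ?_ (by simp [hv1, hvt1, hdi, ctx1.D, hq]) ?_
    · simp [idxok, KA, hv1, ctx1.B, hdi, hvt1]
      omega
    refine Ex.asg (∑ i ∈ range (k + 1), A.q i t) (by (simp <;> omega)) (by decide) ?_ ?_ ?_
    · simp [idxok, KA, hv1, ctx1.B, i2, hPB1]
      omega
    · simp [hv1, i2, hPB1, sum_range_succ]
    refine Ex.asg (∑ i ∈ range (k + 1), A.q i t') (by (simp <;> omega)) (by decide) ?_ ?_ ?_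
    · simp [i3]
      omega
    · simp [i3, sum_range_succ]
    refine Ex.conds (A.q k t') (A.q k t) (by (simp <;> omega)) (by simp) ?_ (by simp) (by simp [hv1, hPB1])
      (fun hle => ?_) (fun hle => ?_)
    · simp [idxok, KA, hv1, ctx1.B]
      omega
    · -- q k t' ≤ q k t
      refine Ex.conds 1 (K k) (by (simp <;> omega)) (by simp; omega) ?_ (by simp) (by simp [hv1, hK1])
        (fun hle2 => ?_) (fun hle2 => ?_)
      · simp [idxok, KA, hv1, ctx1.B]
        omega
      · have hidx : A.n + 1 - K k ≤ A.n := by omega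
        have hHk := i1 _ hidx
        have hh := Inst.hist_le (A := A) (P := fun i => A.q i t' ≤ A.q i t) (K := K) k
          (A.n + 1 - K k)
        refine Ex.sto (A.n + 1 - K k) (A.hist (fun i => A.q i t' ≤ A.q i t) K k
          (A.n + 1 - K k) + 1) (by (simp <;> omega)) ?_ ?_ ?_ ?_ (idxok_arr (by decide) (by decide)
          (by simpa using ctx1.B) (by omega)) ?_
        · simp [idxok, KA, hv1, ctx1.B, ctx1.n]
          omega
        · simp [idxok, KA, hv1, ctx1.B, ctx1.n, hK1, hHk]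
          omega
        · simp [hv1, ctx1.n, hK1]
        · simp [hv1, ctx1.n, hK1, hHk]
        refine Ex.sto1 k (A.q k t') (by (simp <;> omega)) (by simp) (by simp) (by simp [hv1])
          (by simp) (idxok_arr (by decide) (by decide) (by simpa using ctx1.B) (by omega)) ?_
        refine ⟨?_, by simp, by simp, ?_, ?_⟩
        · intro u hu
          rw [Inst.hist_succ]
          by_cases hu2 : A.n + 1 - K k = u
          · subst hu2
            simp [hle, hle2]
          · have hu3 : u ≠ A.n + 1 - K k := fun h => hu2 h.symm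
            simp [hu2, hu3, i1 u hu]
        · intro i hi
          by_cases hik : i = k
          · subst hik; simp
          · have : i < k + 1 ↔ i < k := by omega
            simp only [this]
            simp [hik, i4 i hi]
        · intro i hi
          by_cases hik : i = k
          · subst hik; simp [hK1, hle]
          · have : i < k + 1 ↔ i < k := by omega
            simp only [this]
            simp [i5 i hi]
      · refine Ex.skips ?_
        refine Ex.sto1 k (A.q k t') (by (simp <;> omega)) (by simp) (by simp) (by simp [hv1])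
          (by simp) (idxok_arr (by decide) (by decide) (by simpa using ctx1.B) (by omega)) ?_
        refine ⟨?_, by simp, by simp, ?_, ?_⟩
        · intro u hu
          rw [Inst.hist_succ]
          simp [hle2, i1 u hu]
        · intro i hi
          by_cases hik : i = k
          · subst hik; simp
          · have : i < k + 1 ↔ i < k := by omega
            simp only [this]
            simp [hik, i4 i hi]
        · intro i hi
          by_cases hik : i = k
          · subst hik; simp [hK1, hle]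
          · have : i < k + 1 ↔ i < k := by omega
            simp only [this]
            simp [i5 i hi]
    · refine Ex.sto k 0 (by (simp <;> omega)) (by simp) (by simp) (by simp [hv1])
          (by simp) (idxok_arr (by decide) (by decide) (by simpa using ctx1.B) (by omega)) ?_
      refine Ex.sto1 k (A.q k t') (by (simp <;> omega)) (by simp) (by simp) (by simp [hv1])
          (by simp) (idxok_arr (by decide) (by decide) (by simpa using ctx1.B) (by omega)) ?_
      refine ⟨?_, by simp, by simp, ?_, ?_⟩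
      · intro u hu
        rw [Inst.hist_succ]
        simp [hle, i1 u hu]
      · intro i hi
        by_cases hik : i = k
        · subst hik; simp
        · have : i < k + 1 ↔ i < k := by omega
          simp only [this]
          simp [hik, i4 i hi]
      · intro i hi
        by_cases hik : i = k
        · subst hik; simp [hle]
        · have : i < k + 1 ↔ i < k := by omega
          simp only [this]
          simp [hik, i5 i hi]
  · (simp <;> omega)
  · rintro σ' ⟨-, ⟨i1, i2, i3, i4, i5⟩, -⟩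
    refine ⟨i1, i2, i3, ?_, ?_⟩
    · intro i hi; rw [i4 i hi, if_pos hi]
    · intro i hi; rw [i5 i hi, if_pos hi]

/-- The current summary: base time `t`, set `X`. -/
structure CB (A : Inst) (b : ℕ) (X : ℕ → Prop) (t : ℕ) (σ : State) : Prop where
  bp : σ.v 14 = t
  PB : ∀ i < A.n, σ.m 16 i = A.q i t
  sum : A.IsSum b X t (σ.m 12) (σ.m 13)

def nv (A : Inst) (G H : ℕ → ℕ) (t t' c : ℕ) : ℕ :=
  (G c + A.Sq t' + t) - (A.Sq t + t' + (c - H c))

theorem rb5_spec (hs : Sz E A) {σ : State} (ctx : Ctx E A σ) {t t' : ℕ} (ht : t ≤ A.D)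
    (ht' : t' ≤ A.D) (hvt : σ.v 7 = t') (hbp : σ.v 14 = t) (h1 : σ.v 16 = A.Sq t)
    (h2 : σ.v 17 = A.Sq t') {G H : ℕ → ℕ} (hG : σ.m 12 = G) (hH : σ.m 14 = H)
    (hGle : ∀ c ≤ A.n, G c ≤ 2 * A.D + 1) (hHle : ∀ c ≤ A.n, H c ≤ A.n)
    (hG2 : ∀ u ≤ A.n, σ.m 15 u = 0) :
    Ex E rb5 σ (200 * (A.n + 1) + 16) (fun σ' =>
      (∀ c ≤ A.n, 1 ≤ G c → nv A G H t t' c ≤ σ'.m 15 (H c)) ∧
      (∀ u ≤ A.n, 1 ≤ σ'.m 15 u → ∃ c ≤ A.n, 1 ≤ G c ∧ H c = u ∧ σ'.m 15 u = nv A G H t t' c) ∧
      (∀ u ≤ A.n, σ'.m 15 u ≤ 4 * A.D + 1)) := by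
  obtain ⟨z1, z2, z3, z4, z5, z6⟩ := hs.facts
  have hSq : A.Sq t ≤ A.D := Inst.sum_q_le le_rfl ht
  have hSq' : A.Sq t' ≤ A.D := Inst.sum_q_le le_rfl ht'
  unfold rb5
  refine (Ex.forr (T1 := 184) (A.n + 1) (fun k σ' =>
      (∀ c < k, 1 ≤ G c → nv A G H t t' c ≤ σ'.m 15 (H c)) ∧
      (∀ u ≤ A.n, 1 ≤ σ'.m 15 u → ∃ c < k, 1 ≤ G c ∧ H c = u ∧ σ'.m 15 u = nv A G H t t' c) ∧
      (∀ u ≤ A.n, σ'.m 15 u ≤ 4 * A.D + 1))
      (by decide) (by decide) (by omega) ?_ ?_ ?_).mono ?_ ?_
  · refine ⟨?_, ?_, ?_⟩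
    · intro c hc; omega
    · intro u hu hu'
      simp only [State.setv_m, hG2 u hu] at hu'
      omega
    · intro u hu
      simp only [State.setv_m, hG2 u hu]
      omega
  · intro k hk σ' hfr _
    simp [hfr.1 0 (by decide), ctx.n]
    omega
  · intro k hk σ1 hfr1 hinv1 hv1
    obtain ⟨i1, i2, i3⟩ := hinv1
    have ctx1 := ctx.fr hfr1 (by decide)
    have hvt1 : σ1.v 7 = t' := by rw [hfr1.1 7 (by decide), hvt]
    have hbp1 : σ1.v 14 = t := by rw [hfr1.1 14 (by decide), hbp]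
    have hs1 : σ1.v 16 = A.Sq t := by rw [hfr1.1 16 (by decide), h1]
    have hs2 : σ1.v 17 = A.Sq t' := by rw [hfr1.1 17 (by decide), h2]
    have hG1 : σ1.m 12 = G := by rw [hfr1.2 12 (by decide), hG]
    have hH1 : σ1.m 14 = H := by rw [hfr1.2 14 (by decide), hH]
    have hGk := hGle k (by omega)
    have hHk := hHle k (by omega)
    have hnv : nv A G H t t' k = (G k + A.Sq t' + t) - (A.Sq t + t' + (k - H k)) := rfl
    have hg2 := i3 (H k) hHk
    refine Ex.cond 1 (G k) (by (simp <;> omega)) (by simp; omega) ?_ (by simp) (by simp [hv1, hG1])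
      (fun hle => ?_) (fun hle => ?_)
    · simp [idxok, KA, hv1, ctx1.B]
      omega
    · refine Ex.asg (nv A G H t t' k) (by (simp <;> omega)) (by decide) ?_ ?_ ?_
      · simp [idxok, KA, hv1, ctx1.B, hG1, hH1, hs1, hs2, hvt1, hbp1]
        omega
      · simp [hv1, hG1, hH1, hs1, hs2, hvt1, hbp1, hnv]
      refine Ex.cond (σ1.m 15 (H k)) (nv A G H t t' k) (by (simp <;> omega)) ?_ (by simp)
        (by simp [hv1, hH1]) (by simp) (fun hle2 => ?_) (fun hle2 => ?_)
      · simp [idxok, KA, hv1, ctx1.B, hH1]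
        omega
      · refine Ex.sto1 (H k) (nv A G H t t' k) (by (simp <;> omega)) ?_ (by simp) (by simp [hv1, hH1])
          (by simp) (idxok_arr (by decide) (by decide) (by simpa using ctx1.B) (by omega)) ?_
        · simp [idxok, KA, hv1, ctx1.B]
          omega
        · refine ⟨?_, ?_, ?_⟩
          · intro c hc h3
            simp only [State.setv_m, State.setm_m, if_true]
            split
            · rename_i h4
              by_cases hck : c = k
              · rw [hck]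
              · have := i1 c (by omega) h3
                rw [h4] at this
                exact this.trans hle2
            · rename_i h4
              have hck : c ≠ k := by rintro rfl; exact h4 rfl
              exact i1 c (by omega) h3
          · intro u hu
            simp only [State.setv_m, State.setm_m, if_true]
            split
            · rename_i h4
              intro h5
              exact ⟨k, by omega, hle, h4.symm, rfl⟩
            · intro h5
              obtain ⟨c, hc, h6, h7, h8⟩ := i2 u hu h5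
              exact ⟨c, by omega, h6, h7, h8⟩
          · intro u hu
            simp only [State.setv_m, State.setm_m, if_true]
            split
            · omega
            · exact i3 u hu
      · refine Ex.skip1 ⟨?_, ?_, ?_⟩
        · intro c hc h3
          simp only [State.setv_m]
          by_cases hck : c = k
          · subst hck; omega
          · exact i1 c (by omega) h3
        · intro u hu
          simp only [State.setv_m]
          intro h5
          obtain ⟨c, hc, h6, h7, h8⟩ := i2 u hu h5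
          exact ⟨c, by omega, h6, h7, h8⟩
        · intro u hu
          simp only [State.setv_m]
          exact i3 u hu
    · refine Ex.skip1 ⟨?_, ?_, ?_⟩
      · intro c hc h3
        simp only [State.setv_m]
        have hck : c ≠ k := by rintro rfl; exact hle h3
        exact i1 c (by omega) h3
      · intro u hu
        simp only [State.setv_m]
        intro h5
        obtain ⟨c, hc, h6, h7, h8⟩ := i2 u hu h5
        exact ⟨c, by omega, h6, h7, h8⟩
      · intro u hu
        simp only [State.setv_m]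
        exact i3 u hu
  · (simp <;> omega)
  · rintro σ' ⟨-, ⟨i1, i2, i3⟩, -⟩
    refine ⟨fun c hc => i1 c (by omega), ?_, i3⟩
    intro u hu h5
    obtain ⟨c, hc, h6, h7, h8⟩ := i2 u hu h5
    exact ⟨c, by omega, h6, h7, h8⟩

theorem rb6_spec (hs : Sz E A) {σ : State} (ctx : Ctx E A σ) :
    Ex E rb6 σ (40 * (A.n + 1) + 16) (fun σ' => ∀ u ≤ A.n, σ'.m 12 u = σ.m 15 u) := by
  obtain ⟨z1, z2, z3, z4, z5, z6⟩ := hs.facts
  unfold rb6
  refine (Ex.forr (T1 := 24) (A.n + 1) (fun k σ' => ∀ u < k, σ'.m 12 u = σ.m 15 u)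
      (by decide) (by decide) (by omega) ?_ ?_ ?_).mono ?_ ?_
  · intro u hu; omega
  · intro k hk σ' hfr _
    simp [hfr.1 0 (by decide), ctx.n]
    omega
  · intro k hk σ1 hfr1 hinv1 hv1
    have hB : σ1.v 63 = E.B := by rw [hfr1.1 63 (by decide), ctx.B]
    have hG2 : σ1.m 15 = σ.m 15 := by rw [hfr1.2 15 (by decide)]
    refine Ex.sto1 k (σ.m 15 k) (by (simp <;> omega)) (by simp) ?_ (by simp [hv1]) (by simp [hv1, hG2])
      (idxok_arr (by decide) (by decide) hB (by omega)) ?_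
    · simp [idxok, KA, hv1, hB]
      omega
    intro u hu
    simp only [State.setv_m, State.setm_m, if_true]
    split
    · rename_i h; rw [h]
    · exact hinv1 u (by omega)
  · (simp <;> omega)
  · rintro σ' ⟨-, h, -⟩ u hu
    exact h u (by omega)

theorem rb7_spec (hs : Sz E A) {σ : State} (ctx : Ctx E A σ) {H K : ℕ → ℕ}
    (hH : σ.m 14 = H) (hK : σ.m 13 = K) :
    Ex E rb7 σ (100 * A.n + 14) (fun σ' => ∀ i < A.n,
      σ'.m 13 i = if 1 ≤ K i then A.n + 1 - H (A.n + 1 - K i) else 0) := by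
  obtain ⟨z1, z2, z3, z4, z5, z6⟩ := hs.facts
  unfold rb7
  refine (Ex.forr (T1 := 86) A.n (fun k σ' =>
      (∀ i < k, σ'.m 13 i = if 1 ≤ K i then A.n + 1 - H (A.n + 1 - K i) else 0) ∧
      ∀ i, k ≤ i → σ'.m 13 i = K i)
      (by decide) (by decide) (by omega) ?_ ?_ ?_).mono ?_ (fun σ' h => h.2.1.1)
  · exact ⟨fun i hi => by omega, fun i _ => by simp [hK]⟩
  · intro k hk σ' hfr _
    simp [hfr.1 0 (by decide), ctx.n]
  · intro k hk σ1 hfr1 hinv1 hv1
    obtain ⟨i1, i2⟩ := hinv1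
    have ctx1 := ctx.fr hfr1 (by decide)
    have hB := ctx1.B
    have hH1 : σ1.m 14 = H := by rw [hfr1.2 14 (by decide), hH]
    have hKk := i2 k le_rfl
    refine Ex.cond 1 (K k) (by (simp <;> omega)) (by simp; omega) ?_ (by simp) (by simp [hv1, hKk])
      (fun hle => ?_) (fun hle => ?_)
    · simp [idxok, KA, hv1, hB]
      omega
    · refine Ex.sto1 k (A.n + 1 - H (A.n + 1 - K k)) (by (simp <;> omega)) (by simp) ?_ (by simp [hv1]) ?_
        (idxok_arr (by decide) (by decide) hB (by omega)) ?_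
      · simp [idxok, KA, hv1, hB, ctx1.n, hKk]
        omega
      · simp [hv1, ctx1.n, hKk, hH1]
      · refine ⟨?_, ?_⟩
        · intro i hi
          simp only [State.setv_m, State.setm_m, if_true]
          by_cases hik : i = k
          · subst hik; simp [hle]
          · rw [if_neg hik]; exact i1 i (by omega)
        · intro i hi
          simp only [State.setv_m, State.setm_m, if_true]
          rw [if_neg (by omega)]; exact i2 i (by omega)
    · refine Ex.skip1 ⟨?_, ?_⟩
      · intro i hi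
        simp only [State.setv_m]
        by_cases hik : i = k
        · subst hik; rw [hKk, if_neg hle]; omega
        · exact i1 i (by omega)
      · intro i hi
        simp only [State.setv_m]
        exact i2 i (by omega)
  · (simp <;> omega)

theorem rebase_spec (hs : Sz E A) {σ : State} (ctx : Ctx E A σ) {b : ℕ} (hb : b < A.D)
    {X : ℕ → Prop} {t t' : ℕ} (htt : t ≤ t') (ht' : t' ≤ A.D) (hvt : σ.v 7 = t')
    (h : CB A b X t σ) :
    Ex E rebase σ (800 * (A.n + 1)) (CB A b X t') := by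
  obtain ⟨z1, z2, z3, z4, z5, z6⟩ := hs.facts
  have ht : t ≤ A.D := htt.trans ht'
  unfold rebase
  refine Ex.asg 0 (by (simp <;> omega)) (by decide) (by simp) (by simp) ?_
  refine Ex.asg 0 (by (simp <;> omega)) (by decide) (by simp) (by simp) ?_
  set σ1 := (σ.setv 16 0).setv 17 0 with hσ1
  have ctx1 : Ctx E A σ1 := (ctx.setv (by decide) (by decide) (by decide)).setv
    (by decide) (by decide) (by decide)
  refine Ex.sq (26 * (A.n + 1) + 16) (by (simp <;> omega)) ((clr_spec hs ctx1 (a := 14) (by decide)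
    (by decide)).frame.mono le_rfl ?_)
  rintro σ2 ⟨hfr2, hH2⟩
  have ctx2 := ctx1.fr hfr2 (by decide)
  refine Ex.sq (200 * A.n + 14) (by (simp <;> omega)) ((rb2_spec hs ctx2 (t := t) (t' := t')
    (K := σ.m 13) ht ht' ?_ ?_ ?_ hH2 ?_ ?_).frame.mono le_rfl ?_)
  · rw [hfr2.1 7 (by decide)]; simp [hσ1, hvt]
  · rw [hfr2.1 16 (by decide)]; simp [hσ1]
  · rw [hfr2.1 17 (by decide)]; simp [hσ1]
  · intro i hi
    rw [hfr2.2 16 (by decide)]; simp [hσ1, h.PB i hi]
  · rw [hfr2.2 13 (by decide)]; simp [hσ1]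
  rintro σ3 ⟨hfr3, h31, h32, h33, h34, h35⟩
  have ctx3 := ctx2.fr hfr3 (by decide)
  refine Ex.sq (60 * A.n + 14) (by (simp <;> omega)) ((pfx_spec hs ctx3 h31).frame.mono le_rfl ?_)
  rintro σ4 ⟨hfr4, hH4⟩
  have ctx4 := ctx3.fr hfr4 (by decide)
  refine Ex.sq (26 * (A.n + 1) + 16) (by (simp <;> omega)) ((clr_spec hs ctx4 (a := 15) (by decide)
    (by decide)).frame.mono le_rfl ?_)
  rintro σ5 ⟨hfr5, hG25⟩
  have ctx5 := ctx4.fr hfr5 (by decide)
  have e51 : σ5.v 7 = t' := by
    rw [hfr5.1 7 (by decide), hfr4.1 7 (by decide), hfr3.1 7 (by decide), hfr2.1 7 (by decide)]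
    simp [hσ1, hvt]
  have e52 : σ5.v 14 = t := by
    rw [hfr5.1 14 (by decide), hfr4.1 14 (by decide), hfr3.1 14 (by decide),
      hfr2.1 14 (by decide)]
    simp [hσ1, h.bp]
  have e53 : σ5.v 16 = A.Sq t := by
    rw [hfr5.1 16 (by decide), hfr4.1 16 (by decide), h32]; rfl
  have e54 : σ5.v 17 = A.Sq t' := by
    rw [hfr5.1 17 (by decide), hfr4.1 17 (by decide), h33]; rfl
  have e55 : σ5.m 12 = σ.m 12 := by
    rw [hfr5.2 12 (by decide), hfr4.2 12 (by decide), hfr3.2 12 (by decide), hfr2.2 12 (by decide)]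
    simp [hσ1]
  have e56 : ∀ u ≤ A.n, σ5.m 14 u = A.hcum (fun i => A.q i t' ≤ A.q i t) (σ.m 13) u := by
    intro u hu
    rw [hfr5.2 14 (by decide)]; exact hH4 u hu
  have e57 : σ5.m 13 = σ3.m 13 := by
    rw [hfr5.2 13 (by decide), hfr4.2 13 (by decide)]
  have e58 : ∀ i < A.n, σ5.m 16 i = A.q i t' := by
    intro i hi
    rw [hfr5.2 16 (by decide), hfr4.2 16 (by decide)]
    exact h34 i hi
  refine Ex.sq (200 * (A.n + 1) + 16) (by (simp <;> omega)) ((rb5_spec hs ctx5 ht ht' e51 e52 e53 e54 e55 rfl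
    (fun c hc => h.sum.G_le ht hc) (fun c hc => by rw [e56 c hc]; exact Inst.hcum_le _)
    hG25).frame.mono le_rfl ?_)
  rintro σ6 ⟨hfr6, h61, h62, h63⟩
  have ctx6 := ctx5.fr hfr6 (by decide)
  refine Ex.sq (40 * (A.n + 1) + 16) (by (simp <;> omega)) ((rb6_spec hs ctx6).frame.mono le_rfl ?_)
  rintro σ7 ⟨hfr7, h71⟩
  have ctx7 := ctx6.fr hfr7 (by decide)
  have e71 : σ7.m 14 = σ5.m 14 := by rw [hfr7.2 14 (by decide), hfr6.2 14 (by decide)]
  have e72 : σ7.m 13 = σ3.m 13 := by rw [hfr7.2 13 (by decide), hfr6.2 13 (by decide), e57]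
  have e73 : ∀ i < A.n, σ7.m 16 i = A.q i t' := by
    intro i hi
    rw [hfr7.2 16 (by decide), hfr6.2 16 (by decide)]
    exact e58 i hi
  have e74 : σ7.v 7 = t' := by rw [hfr7.1 7 (by decide), hfr6.1 7 (by decide), e51]
  refine Ex.sq (100 * A.n + 14) (by (simp <;> omega)) ((rb7_spec hs ctx7 e71 e72).frame.mono le_rfl ?_)
  rintro σ8 ⟨hfr8, h81⟩
  refine Ex.asg1 t' (by (simp <;> omega)) (by decide) (by simp) ?_ ?_
  · simp only [Expr.eval_var]
    rw [hfr8.1 7 (by decide), e74]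
  refine ⟨by simp, ?_, ?_⟩
  · intro i hi
    simp only [State.setv_m]
    rw [hfr8.2 16 (by decide)]
    exact e73 i hi
  · simp only [State.setv_m]
    have eG : ∀ u ≤ A.n, σ8.m 12 u = σ6.m 15 u := by
      intro u hu
      rw [hfr8.2 12 (by decide)]; exact h71 u hu
    have eHh : ∀ c ≤ A.n, Inst.Hh A t t' (σ.m 13) c = σ5.m 14 c := by
      intro c hc
      rw [Inst.Hh_eq hc, e56 c hc]
    refine h.sum.rebase hb htt ht' ?_ ?_ ?_
    · intro c hc h1
      rw [eHh c hc, eG _ (by rw [e56 c hc]; exact Inst.hcum_le _)]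
      exact h61 c hc h1
    · intro c' hc' h1
      rw [eG c' hc'] at h1
      obtain ⟨c, hc, h2, h3, h4⟩ := h62 c' hc' h1
      refine ⟨c, hc, h2, ?_, ?_⟩
      · rw [eHh c hc, h3]
      · rw [eG c' hc', h4, eHh c hc]; rfl
    · intro i hi
      rw [h81 i hi, h35 i hi]
      by_cases hq : A.q i t' ≤ A.q i t
      · simp only [if_pos hq]
        by_cases h1 : 1 ≤ σ.m 13 i
        · rw [if_pos h1, if_pos ⟨hq, h1⟩, eHh _ (by omega)]
        · rw [if_neg h1, if_neg (fun h => h1 h.2)]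
      · simp [if_neg hq]
        intro h; exact absurd h hq

end

end Pool.Agent.helper9.Jit
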