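import Pool.Agent.helper9.Jit.Comp1

/-!
# Merging, inserting and checking
-/

set_option autoImplicit false

namespace Pool.Agent.helper9.Jit

open Finset

def mrg1 : Cmd := forr 15 ((Expr.var 0) + 1) (
    Cmd.seq (.asgn 8 ((Expr.arr 10 ((Expr.var 13) * ((Expr.var 0) + 1) + (Expr.var 15))))) <|
    .ite ((Expr.var 8)) ((Expr.arr 12 ((Expr.var 15)))) .skip (.store 12 (Expr.var 15) (Expr.var 8)))

def mrg2 : Cmd := forr 6 (Expr.var 0) (
    Cmd.seq (.asgn 8 ((Expr.arr 11 ((Expr.var 13) * (Expr.var 0) + (Expr.var 6))))) <|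
    .ite ((Expr.var 8)) ((Expr.arr 13 ((Expr.var 6)))) .skip (.store 13 (Expr.var 6) (Expr.var 8)))

/-- Merge row `vidx` into the current summary. -/
def mrg : Cmd := Cmd.seq (mrg1) <| mrg2

/-- fractional part times `D` of letter `vi` at the base time -/
def fex : Expr := (Expr.var 14) * (Expr.arr 1 ((Expr.var 6))) - (Expr.arr 16 ((Expr.var 6))) * (Expr.var 1)

def ins1 : Cmd := forr 6 (Expr.var 0) (.ite (Expr.var 1) (fex + (Expr.var 2)) (.asgn 16 ((Expr.var 16) + 1)) .skip)

def ins2 : Cmd := forr 6 (Expr.var 0) (.ite (Expr.var 1) (fex + (Expr.var 2))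
      (.ite ((Expr.var 0) + 1 - (Expr.var 16)) ((Expr.arr 13 ((Expr.var 6)))) .skip (.store 13 (Expr.var 6) ((Expr.var 0) + 1 - (Expr.var 16)))) .skip)

/-- Insert the base time, with bound `vb`. -/
def ins : Cmd :=
  Cmd.seq (.asgn 16 0) <| Cmd.seq (ins1) <| Cmd.seq (ins2) <|
  .ite ((Expr.var 1) + 1) ((Expr.arr 12 ((Expr.var 16)))) .skip (.store 12 (Expr.var 16) ((Expr.var 1) + 1))

def chk1 : Cmd := forr 6 (Expr.var 0) (
    .ite ((Expr.var 2) + 1) fex (
       Cmd.seq (.asgn 16 ((Expr.var 16) + 1)) <|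
       .ite 1 ((Expr.arr 13 ((Expr.var 6)))) (.store 14 ((Expr.var 0) + 1 - (Expr.arr 13 ((Expr.var 6)))) ((Expr.arr 14 ((Expr.var 0) + 1 - (Expr.arr 13 ((Expr.var 6))))) + 1)) .skip)
    .skip)

def chk2 : Cmd := forr 15 ((Expr.var 0) + 1) (
    .ite 1 ((Expr.arr 12 ((Expr.var 15)))) (.ite ((Expr.arr 12 ((Expr.var 15))) + (Expr.var 16)) ((Expr.var 1) + 1 + (Expr.arr 14 ((Expr.var 15)))) .skip (.asgn 3 0)) .skip)

/-- Check the Hall condition between the summarised times and the base time, bound `vb`. -/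
def chk : Cmd := Cmd.seq (clr 14) <| Cmd.seq (.asgn 16 0) <| Cmd.seq (chk1) <| Cmd.seq (pfx) <| chk2

section
variable {E : Env} {A : Inst}

theorem mrg1_spec (hs : Sz E A) {σ : State} (ctx : Ctx E A σ) {idx : ℕ} (hidx : σ.v 13 = idx)
    (hidx' : idx ≤ A.D) {G RG : ℕ → ℕ} (hG : σ.m 12 = G) (hRG : σ.m 10 = RG) :
    Ex E mrg1 σ (100 * (A.n + 1) + 16) (fun σ' =>
      ∀ c ≤ A.n, σ'.m 12 c = max (G c) (RG (idx * (A.n + 1) + c))) := by
  obtain ⟨z1, z2, z3, z4, z5, z6⟩ := hs.facts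
  unfold mrg1
  refine (Ex.forr (T1 := 84) (A.n + 1) (fun k σ' =>
      (∀ c < k, σ'.m 12 c = max (G c) (RG (idx * (A.n + 1) + c))) ∧
      ∀ c, k ≤ c → σ'.m 12 c = G c)
      (by decide) (by decide) (by omega) ?_ ?_ ?_).mono ?_ ?_
  · exact ⟨fun i hi => by omega, fun i _ => by simp [hG]⟩
  · intro k hk σ' hfr _
    simp [hfr.1 0 (by decide), ctx.n]
    omega
  · intro k hk σ1 hfr1 hinv1 hv1
    obtain ⟨i1, i2⟩ := hinv1
    have ctx1 := ctx.fr hfr1 (by decide)
    have hB := ctx1.B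
    have hx1 : σ1.v 13 = idx := by rw [hfr1.1 13 (by decide), hidx]
    have hR1 : σ1.m 10 = RG := by rw [hfr1.2 10 (by decide), hRG]
    have hGk := i2 k le_rfl
    have hmul : idx * (A.n + 1) ≤ A.D * A.n + A.D := by
      calc idx * (A.n + 1) ≤ A.D * (A.n + 1) := Nat.mul_le_mul_right _ hidx'
        _ = _ := by ring
    refine Ex.asg (RG (idx * (A.n + 1) + k)) (by (simp <;> omega)) (by decide) ?_ ?_ ?_
    · simp [idxok, KA, hv1, hB, hx1, ctx1.n]
      omega
    · simp [hv1, hx1, ctx1.n, hR1]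
    refine Ex.cond (RG (idx * (A.n + 1) + k)) (G k) (by (simp <;> omega)) (by simp) ?_ (by simp)
      (by simp [hv1, hGk]) (fun hle => ?_) (fun hle => ?_)
    · simp [idxok, KA, hv1, hB]
      omega
    · refine Ex.skip1 ⟨?_, ?_⟩
      · intro c hc
        simp only [State.setv_m]
        by_cases hck : c = k
        · subst hck; rw [hGk, max_eq_left hle]
        · exact i1 c (by omega)
      · intro c hc
        simp only [State.setv_m]
        exact i2 c (by omega)
    · refine Ex.sto1 k (RG (idx * (A.n + 1) + k)) (by (simp <;> omega)) (by simp) (by simp) (by simp [hv1])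
        (by simp) (idxok_arr (by decide) (by decide) (by simpa using hB) (by omega)) ?_
      refine ⟨?_, ?_⟩
      · intro c hc
        simp only [State.setv_m, State.setm_m, if_true]
        by_cases hck : c = k
        · subst hck; rw [if_pos rfl, max_eq_right (by omega)]
        · rw [if_neg hck]; exact i1 c (by omega)
      · intro c hc
        simp only [State.setv_m, State.setm_m, if_true]
        rw [if_neg (by omega)]
        exact i2 c (by omega)
  · (simp <;> omega)
  · rintro σ' ⟨-, ⟨h, -⟩, -⟩ u hu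
    exact h u (by omega)

theorem mrg2_spec (hs : Sz E A) {σ : State} (ctx : Ctx E A σ) {idx : ℕ} (hidx : σ.v 13 = idx)
    (hidx' : idx ≤ A.D) {K RK : ℕ → ℕ} (hK : σ.m 13 = K) (hRK : σ.m 11 = RK) :
    Ex E mrg2 σ (100 * A.n + 16) (fun σ' =>
      ∀ i < A.n, σ'.m 13 i = max (K i) (RK (idx * A.n + i))) := by
  obtain ⟨z1, z2, z3, z4, z5, z6⟩ := hs.facts
  unfold mrg2
  refine (Ex.forr (T1 := 84) A.n (fun k σ' =>
      (∀ c < k, σ'.m 13 c = max (K c) (RK (idx * A.n + c))) ∧
      ∀ c, k ≤ c → σ'.m 13 c = K c)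
      (by decide) (by decide) (by omega) ?_ ?_ ?_).mono ?_ (fun σ' h => h.2.1.1)
  · exact ⟨fun i hi => by omega, fun i _ => by simp [hK]⟩
  · intro k hk σ' hfr _
    simp [hfr.1 0 (by decide), ctx.n]
  · intro k hk σ1 hfr1 hinv1 hv1
    obtain ⟨i1, i2⟩ := hinv1
    have ctx1 := ctx.fr hfr1 (by decide)
    have hB := ctx1.B
    have hx1 : σ1.v 13 = idx := by rw [hfr1.1 13 (by decide), hidx]
    have hR1 : σ1.m 11 = RK := by rw [hfr1.2 11 (by decide), hRK]
    have hGk := i2 k le_rfl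
    have hmul : idx * A.n ≤ A.D * A.n := Nat.mul_le_mul_right _ hidx'
    refine Ex.asg (RK (idx * A.n + k)) (by (simp <;> omega)) (by decide) ?_ ?_ ?_
    · simp [idxok, KA, hv1, hB, hx1, ctx1.n]
      omega
    · simp [hv1, hx1, ctx1.n, hR1]
    refine Ex.cond (RK (idx * A.n + k)) (K k) (by (simp <;> omega)) (by simp) ?_ (by simp)
      (by simp [hv1, hGk]) (fun hle => ?_) (fun hle => ?_)
    · simp [idxok, KA, hv1, hB]
      omega
    · refine Ex.skip1 ⟨?_, ?_⟩
      · intro c hc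
        simp only [State.setv_m]
        by_cases hck : c = k
        · subst hck; rw [hGk, max_eq_left hle]
        · exact i1 c (by omega)
      · intro c hc
        simp only [State.setv_m]
        exact i2 c (by omega)
    · refine Ex.sto1 k (RK (idx * A.n + k)) (by (simp <;> omega)) (by simp) (by simp) (by simp [hv1])
        (by simp) (idxok_arr (by decide) (by decide) (by simpa using hB) (by omega)) ?_
      refine ⟨?_, ?_⟩
      · intro c hc
        simp only [State.setv_m, State.setm_m, if_true]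
        by_cases hck : c = k
        · subst hck; rw [if_pos rfl, max_eq_right (by omega)]
        · rw [if_neg hck]; exact i1 c (by omega)
      · intro c hc
        simp only [State.setv_m, State.setm_m, if_true]
        rw [if_neg (by omega)]
        exact i2 c (by omega)
  · (simp <;> omega)

theorem mrg_spec (hs : Sz E A) {σ : State} (ctx : Ctx E A σ) {b : ℕ} {X Y : ℕ → Prop} {t idx : ℕ}
    (hidx : σ.v 13 = idx) (hidx' : idx ≤ A.D) (h : CB A b X t σ) {RG RK : ℕ → ℕ}
    (hRG : σ.m 10 = RG) (hRK : σ.m 11 = RK)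
    (hY : A.IsSum b Y t (fun c => RG (idx * (A.n + 1) + c)) (fun i => RK (idx * A.n + i))) :
    Ex E mrg σ (300 * (A.n + 1)) (CB A b (fun s => X s ∨ Y s) t) := by
  obtain ⟨z1, z2, z3, z4, z5, z6⟩ := hs.facts
  unfold mrg
  refine Ex.sq (100 * (A.n + 1) + 16) (by omega)
    ((mrg1_spec hs ctx hidx hidx' rfl hRG).frame.mono le_rfl ?_)
  rintro σ1 ⟨hfr1, h1⟩
  have ctx1 := ctx.fr hfr1 (by decide)
  refine (mrg2_spec hs ctx1 (idx := idx) (K := σ.m 13) (RK := RK) ?_ hidx' ?_ ?_).frame.mono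
    (by omega) ?_
  · rw [hfr1.1 13 (by decide), hidx]
  · rw [hfr1.2 13 (by decide)]
  · rw [hfr1.2 11 (by decide), hRK]
  rintro σ2 ⟨hfr2, h2⟩
  refine ⟨?_, ?_, ?_⟩
  · rw [hfr2.1 14 (by decide), hfr1.1 14 (by decide), h.bp]
  · intro i hi
    rw [hfr2.2 16 (by decide), hfr1.2 16 (by decide), h.PB i hi]
  · refine (h.sum.union hY).congrGK ?_ h2
    intro c hc
    rw [hfr2.2 12 (by decide)]; exact h1 c hc

theorem fex_ok (hs : Sz E A) {σ : State} (ctx : Ctx E A σ) {t i : ℕ} (ht : t ≤ A.D)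
    (hbp : σ.v 14 = t) (hi : i < A.n) (hvi : σ.v 6 = i) (hPB : σ.m 16 i = A.q i t) :
    fex.ok E σ := by
  obtain ⟨z1, z2, z3, z4, z5, z6⟩ := hs.facts
  have hdi := ctx.d i hi
  have hdD := A.hdD hi
  have h1 : t * A.d i ≤ A.D * A.D := Nat.mul_le_mul ht hdD
  have h2 := A.qf i t
  have h3 : A.q i t * A.D = A.D * A.q i t := Nat.mul_comm _ _
  simp [fex, idxok, KA, hvi, ctx.B, hdi, ctx.D, hbp, hPB]
  omega

theorem fex_eval {σ : State} (ctx : Ctx E A σ) {t i : ℕ}
    (hbp : σ.v 14 = t) (hi : i < A.n) (hvi : σ.v 6 = i) (hPB : σ.m 16 i = A.q i t) :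
    fex.eval σ = A.f i t := by
  have hdi := ctx.d i hi
  have h2 := A.qf i t
  have h3 : A.q i t * A.D = A.D * A.q i t := Nat.mul_comm _ _
  simp [fex, hvi, hdi, ctx.D, hbp, hPB]
  omega

@[simp] theorem fex_len : fex.len = 23 := by decide

/-- number of letters below `k` open at their own time -/
def oc (A : Inst) (b t k : ℕ) : ℕ := ((range k).filter (fun i => A.D ≤ A.f i t + b)).card

theorem oc_succ (b t k : ℕ) : oc A b t (k + 1) = oc A b t k + if A.D ≤ A.f k t + b then 1 else 0 := by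
  unfold oc
  rw [show range (k + 1) = insert k (range k) from range_add_one, filter_insert]
  split
  · rw [card_insert_of_notMem (by simp)]
  · rfl

theorem oc_le (b t k : ℕ) : oc A b t k ≤ k := by
  unfold oc
  simpa using card_le_card (filter_subset (fun i => A.D ≤ A.f i t + b) (range k))

theorem oc_eq (b t : ℕ) : (A.O b t t).card = oc A b t A.n := by
  unfold oc
  congr 1
  ext i
  rw [mem_filter, mem_range]
  constructor
  · intro h
    have h1 := (A.mem_O.1 h).1
    exact ⟨h1, (Inst.mem_O_self h1).1 h⟩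
  · rintro ⟨h1, h2⟩
    exact (Inst.mem_O_self h1).2 h2

theorem ins1_spec (hs : Sz E A) {σ : State} (ctx : Ctx E A σ) {t b : ℕ} (hb : b < A.D)
    (ht : t ≤ A.D) (hvb : σ.v 2 = b) (hbp : σ.v 14 = t) (hPB : ∀ i < A.n, σ.m 16 i = A.q i t)
    (h0 : σ.v 16 = 0) :
    Ex E ins1 σ (100 * A.n + 14) (fun σ' => σ'.v 16 = oc A b t A.n) := by
  obtain ⟨z1, z2, z3, z4, z5, z6⟩ := hs.facts
  unfold ins1
  refine (Ex.forr (T1 := 60) A.n (fun k σ' => σ'.v 16 = oc A b t k)
      (by decide) (by decide) (by omega) ?_ ?_ ?_).mono ?_ (fun σ' h => h.2.1)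
  · simp [h0, oc]
  · intro k hk σ' hfr _
    simp [hfr.1 0 (by decide), ctx.n]
  · intro k hk σ1 hfr1 hinv1 hv1
    have ctx1 := ctx.fr hfr1 (by decide)
    have hB := ctx1.B
    have hb1 : σ1.v 2 = b := by rw [hfr1.1 2 (by decide), hvb]
    have ht1 : σ1.v 14 = t := by rw [hfr1.1 14 (by decide), hbp]
    have hP1 : σ1.m 16 k = A.q k t := by rw [hfr1.2 16 (by decide), hPB k hk]
    have hfl := A.f_lt k t
    have hoc := oc_le (A := A) b t k
    refine Ex.cond A.D (A.f k t + b) (by (simp <;> omega)) (by simp) ?_ (by simp [ctx1.D]) ?_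
      (fun hle => ?_) (fun hle => ?_)
    · simp [fex_ok hs ctx1 ht ht1 hk hv1 hP1, fex_eval ctx1 ht1 hk hv1 hP1, hb1]
      omega
    · simp [fex_eval ctx1 ht1 hk hv1 hP1, hb1]
    · refine Ex.asg1 (oc A b t (k + 1)) (by (simp <;> omega)) (by decide) (by simp [hinv1]; omega) ?_ ?_
      · simp [hinv1, oc_succ, hle]
      · simp
    · refine Ex.skip1 ?_
      simp [hinv1, oc_succ, hle]
  · (simp <;> omega)

theorem ins2_spec (hs : Sz E A) {σ : State} (ctx : Ctx E A σ) {t b c : ℕ} (hb : b < A.D)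
    (ht : t ≤ A.D) (hvb : σ.v 2 = b) (hbp : σ.v 14 = t) (hPB : ∀ i < A.n, σ.m 16 i = A.q i t)
    (h0 : σ.v 16 = c) {K : ℕ → ℕ} (hK : σ.m 13 = K) :
    Ex E ins2 σ (100 * A.n + 14) (fun σ' => ∀ i < A.n,
      σ'.m 13 i = max (K i) (if A.D ≤ A.f i t + b then A.n + 1 - c else 0)) := by
  obtain ⟨z1, z2, z3, z4, z5, z6⟩ := hs.facts
  unfold ins2
  refine (Ex.forr (T1 := 80) A.n (fun k σ' =>
      (∀ i < k, σ'.m 13 i = max (K i) (if A.D ≤ A.f i t + b then A.n + 1 - c else 0)) ∧
      ∀ i, k ≤ i → σ'.m 13 i = K i)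
      (by decide) (by decide) (by omega) ?_ ?_ ?_).mono ?_ (fun σ' h => h.2.1.1)
  · exact ⟨fun i hi => by omega, fun i _ => by simp [hK]⟩
  · intro k hk σ' hfr _
    simp [hfr.1 0 (by decide), ctx.n]
  · intro k hk σ1 hfr1 hinv1 hv1
    obtain ⟨i1, i2⟩ := hinv1
    have ctx1 := ctx.fr hfr1 (by decide)
    have hB := ctx1.B
    have hb1 : σ1.v 2 = b := by rw [hfr1.1 2 (by decide), hvb]
    have ht1 : σ1.v 14 = t := by rw [hfr1.1 14 (by decide), hbp]
    have hs1 : σ1.v 16 = c := by rw [hfr1.1 16 (by decide), h0]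
    have hP1 : σ1.m 16 k = A.q k t := by rw [hfr1.2 16 (by decide), hPB k hk]
    have hfl := A.f_lt k t
    have hKk := i2 k le_rfl
    refine Ex.cond A.D (A.f k t + b) (by (simp <;> omega)) (by simp) ?_ (by simp [ctx1.D]) ?_
      (fun hle => ?_) (fun hle => ?_)
    · simp [fex_ok hs ctx1 ht ht1 hk hv1 hP1, fex_eval ctx1 ht1 hk hv1 hP1, hb1]
      omega
    · simp [fex_eval ctx1 ht1 hk hv1 hP1, hb1]
    · refine Ex.cond (A.n + 1 - c) (K k) (by (simp <;> omega)) (by simp [ctx1.n]; omega) ?_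
        (by simp [ctx1.n, hs1]) (by simp [hv1, hKk]) (fun hle2 => ?_) (fun hle2 => ?_)
      · simp [idxok, KA, hv1, hB]
        omega
      · refine Ex.skip1 ⟨?_, ?_⟩
        · intro i hi
          simp only [State.setv_m]
          by_cases hik : i = k
          · subst hik; rw [hKk, if_pos hle, max_eq_left hle2]
          · exact i1 i (by omega)
        · intro i hi
          simp only [State.setv_m]
          exact i2 i (by omega)
      · refine Ex.sto1 k (A.n + 1 - c) (by (simp <;> omega)) (by simp) (by simp [ctx1.n]; omega)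
          (by simp [hv1]) (by simp [ctx1.n, hs1])
          (idxok_arr (by decide) (by decide) (by simpa using hB) (by omega)) ?_
        refine ⟨?_, ?_⟩
        · intro i hi
          simp only [State.setv_m, State.setm_m, if_true]
          by_cases hik : i = k
          · subst hik; rw [if_pos rfl, if_pos hle, max_eq_right (by omega)]
          · rw [if_neg hik]; exact i1 i (by omega)
        · intro i hi
          simp only [State.setv_m, State.setm_m, if_true]
          rw [if_neg (by omega)]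
          exact i2 i (by omega)
    · refine Ex.skip1 ⟨?_, ?_⟩
      · intro i hi
        simp only [State.setv_m]
        by_cases hik : i = k
        · subst hik; rw [hKk, if_neg hle, max_eq_left (Nat.zero_le _)]
        · exact i1 i (by omega)
      · intro i hi
        simp only [State.setv_m]
        exact i2 i (by omega)
  · (simp <;> omega)

theorem ins_spec (hs : Sz E A) {σ : State} (ctx : Ctx E A σ) {b : ℕ} (hb : b < A.D)
    {X : ℕ → Prop} {t : ℕ} (ht : t ≤ A.D) (hvb : σ.v 2 = b) (h : CB A b X t σ) :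
    Ex E ins σ (300 * (A.n + 1)) (CB A b (fun s => X s ∨ s = t) t) := by
  obtain ⟨z1, z2, z3, z4, z5, z6⟩ := hs.facts
  unfold ins
  refine Ex.asg 0 (by (simp <;> omega)) (by decide) (by simp) (by simp) ?_
  have ctx1 := ctx.setv (x := 16) (y := 0) (by decide) (by decide) (by decide)
  refine Ex.sq (100 * A.n + 14) (by (simp <;> omega))
    ((ins1_spec hs ctx1 hb ht (by simpa using hvb) (by simpa using h.bp) (by simpa using h.PB)
      (by simp)).frame.mono le_rfl ?_)
  rintro σ2 ⟨hfr2, h2⟩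
  have ctx2 := ctx1.fr hfr2 (by decide)
  refine Ex.sq (100 * A.n + 14) (by (simp <;> omega))
    ((ins2_spec hs ctx2 (b := b) (t := t) (c := oc A b t A.n) (K := σ.m 13) hb ht ?_ ?_ ?_
      h2 ?_).frame.mono le_rfl ?_)
  · rw [hfr2.1 2 (by decide)]; simp [hvb]
  · rw [hfr2.1 14 (by decide)]; simp [h.bp]
  · intro i hi; rw [hfr2.2 16 (by decide)]; simp [h.PB i hi]
  · rw [hfr2.2 13 (by decide)]; simp
  rintro σ3 ⟨hfr3, h3⟩
  have ctx3 := ctx2.fr hfr3 (by decide)
  have hoc := oc_le (A := A) b t A.n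
  have hG3 : σ3.m 12 = σ.m 12 := by rw [hfr3.2 12 (by decide), hfr2.2 12 (by decide)]; simp
  have hs3 : σ3.v 16 = oc A b t A.n := by rw [hfr3.1 16 (by decide), h2]
  have hbp3 : σ3.v 14 = t := by
    rw [hfr3.1 14 (by decide), hfr2.1 14 (by decide)]; simp [h.bp]
  have hPB3 : ∀ i < A.n, σ3.m 16 i = A.q i t := by
    intro i hi
    rw [hfr3.2 16 (by decide), hfr2.2 16 (by decide)]; simp [h.PB i hi]
  have hB := ctx3.B
  -- the mathematical part
  have key : ∀ G' : ℕ → ℕ, (∀ c ≤ A.n, G' c = max (σ.m 12 c)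
      (if c = oc A b t A.n then A.D + 1 else 0)) →
      A.IsSum b (fun s => X s ∨ s = t) t G' (σ3.m 13) := by
    intro G' hG'
    have hsing := Inst.IsSum.single (A := A) b t
      (G := fun c => if c = oc A b t A.n then A.D + 1 else 0)
      (K := fun i => if A.D ≤ A.f i t + b then A.n + 1 - oc A b t A.n else 0) ?_ ?_
    · exact (h.sum.union hsing).congrGK hG' h3
    · intro c _; rw [oc_eq]
    · intro i hi
      simp only [Inst.mem_O_self hi, oc_eq]
  refine Ex.cond (A.D + 1) (σ.m 12 (oc A b t A.n)) (by (simp <;> omega)) (by simp [ctx3.D]; omega) ?_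
    (by simp [ctx3.D]) (by simp [hs3, hG3]) (fun hle => ?_) (fun hle => ?_)
  · simp [idxok, KA, hB, hs3]
    omega
  · refine Ex.skip1 ⟨hbp3, hPB3, ?_⟩
    rw [hG3]
    apply key
    intro c hc
    split
    · rename_i h; subst h; rw [max_eq_left hle]
    · rw [max_eq_left (Nat.zero_le _)]
  · refine Ex.sto1 (oc A b t A.n) (A.D + 1) (by (simp <;> omega)) (by simp) (by simp [ctx3.D]; omega)
      (by simp [hs3]) (by simp [ctx3.D])
      (idxok_arr (by decide) (by decide) hB (by omega)) ?_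
    refine ⟨by simpa using hbp3, by simpa using hPB3, ?_⟩
    have e1 : ((σ3.setm 12 (oc A b t A.n) (A.D + 1)).m 13) = σ3.m 13 := by
      funext x; simp
    rw [e1]
    apply key
    intro c hc
    simp only [State.setm_m, if_true, hG3]
    split
    · rename_i h; subst h; rw [max_eq_right (by omega)]
    · rw [max_eq_left (Nat.zero_le _)]

/-- number of letters below `k` whose deadline has just passed -/
def nc (A : Inst) (b t k : ℕ) : ℕ := ((range k).filter (fun i => b < A.f i t)).card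

theorem nc_succ (b t k : ℕ) : nc A b t (k + 1) = nc A b t k + if b < A.f k t then 1 else 0 := by
  unfold nc
  rw [show range (k + 1) = insert k (range k) from range_add_one, filter_insert]
  split
  · rw [card_insert_of_notMem (by simp)]
  · rfl

theorem nc_le (b t k : ℕ) : nc A b t k ≤ k := by
  unfold nc
  simpa using card_le_card (filter_subset (fun i => b < A.f i t) (range k))

theorem chk1_spec (hs : Sz E A) {σ : State} (ctx : Ctx E A σ) {t b : ℕ} (hb : b < A.D)
    (ht : t ≤ A.D) (hvb : σ.v 2 = b) (hbp : σ.v 14 = t) (hPB : ∀ i < A.n, σ.m 16 i = A.q i t)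
    (h0 : σ.v 16 = 0) (hH : ∀ u ≤ A.n, σ.m 14 u = 0) {K : ℕ → ℕ} (hK : σ.m 13 = K) :
    Ex E chk1 σ (140 * A.n + 14) (fun σ' => σ'.v 16 = nc A b t A.n ∧
      ∀ u ≤ A.n, σ'.m 14 u = A.hist (fun i => b < A.f i t) K A.n u) := by
  obtain ⟨z1, z2, z3, z4, z5, z6⟩ := hs.facts
  unfold chk1
  refine (Ex.forr (T1 := 126) A.n (fun k σ' => σ'.v 16 = nc A b t k ∧
      ∀ u ≤ A.n, σ'.m 14 u = A.hist (fun i => b < A.f i t) K k u)
      (by decide) (by decide) (by omega) ?_ ?_ ?_).mono ?_ (fun σ' h => h.2.1)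
  · refine ⟨by simp [h0, nc], ?_⟩
    intro u hu; rw [Inst.hist_zero]; simpa using hH u hu
  · intro k hk σ' hfr _
    simp [hfr.1 0 (by decide), ctx.n]
  · intro k hk σ1 hfr1 hinv1 hv1
    obtain ⟨i1, i2⟩ := hinv1
    have ctx1 := ctx.fr hfr1 (by decide)
    have hB := ctx1.B
    have hb1 : σ1.v 2 = b := by rw [hfr1.1 2 (by decide), hvb]
    have ht1 : σ1.v 14 = t := by rw [hfr1.1 14 (by decide), hbp]
    have hP1 : σ1.m 16 k = A.q k t := by rw [hfr1.2 16 (by decide), hPB k hk]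
    have hK1 : σ1.m 13 = K := by rw [hfr1.2 13 (by decide), hK]
    have hfl := A.f_lt k t
    have hnc := nc_le (A := A) b t k
    refine Ex.cond (b + 1) (A.f k t) (by (simp <;> omega)) (by simp [hb1]; omega)
      (fex_ok hs ctx1 ht ht1 hk hv1 hP1) (by simp [hb1]) (fex_eval ctx1 ht1 hk hv1 hP1)
      (fun hle => ?_) (fun hle => ?_)
    · refine Ex.asg (nc A b t (k + 1)) (by (simp <;> omega)) (by decide) (by simp [i1]; omega) ?_ ?_
      · have : b < A.f k t := hle
        simp [i1, nc_succ, this]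
      refine Ex.cond 1 (K k) (by (simp <;> omega)) (by simp; omega) ?_ (by simp) (by simp [hv1, hK1])
        (fun hle2 => ?_) (fun hle2 => ?_)
      · simp [idxok, KA, hv1, hB]
        omega
      · have hidx : A.n + 1 - K k ≤ A.n := by omega
        have hHk := i2 _ hidx
        have hh := Inst.hist_le (A := A) (P := fun i => b < A.f i t) (K := K) k
          (A.n + 1 - K k)
        refine Ex.sto1 (A.n + 1 - K k) (A.hist (fun i => b < A.f i t) K k
          (A.n + 1 - K k) + 1) (by (simp <;> omega)) ?_ ?_ ?_ ?_ (idxok_arr (by decide) (by decide)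
          (by simpa using ctx1.B) (by omega)) ?_
        · simp [idxok, KA, hv1, hB, ctx1.n]
          omega
        · simp [idxok, KA, hv1, hB, ctx1.n, hK1, hHk]
          omega
        · simp [hv1, ctx1.n, hK1]
        · simp [hv1, ctx1.n, hK1, hHk]
        refine ⟨by simp, ?_⟩
        intro u hu
        rw [Inst.hist_succ]
        have : b < A.f k t := hle
        by_cases hu2 : A.n + 1 - K k = u
        · subst hu2
          simp [this, hle2]
        · have hu3 : u ≠ A.n + 1 - K k := fun h => hu2 h.symm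
          simp [hu2, hu3, i2 u hu]
      · refine Ex.skip1 ⟨by simp, ?_⟩
        intro u hu
        rw [Inst.hist_succ]
        simp [hle2, i2 u hu]
    · refine Ex.skip1 ⟨?_, ?_⟩
      · have : ¬ b < A.f k t := hle
        simp [i1, nc_succ, this]
      · intro u hu
        rw [Inst.hist_succ]
        have : ¬ b < A.f k t := hle
        simp [this, i2 u hu]
  · (simp <;> omega)

theorem chk2_spec (hs : Sz E A) {σ : State} (ctx : Ctx E A σ) {G H : ℕ → ℕ} (hG : σ.m 12 = G)
    (hH : σ.m 14 = H) {w : ℕ} (hw : σ.v 16 = w) (hw' : w ≤ A.n)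
    (hGle : ∀ c ≤ A.n, G c ≤ 2 * A.D + 1) (hHle : ∀ c ≤ A.n, H c ≤ A.n) {o : ℕ}
    (hok : σ.v 3 = o) :
    Ex E chk2 σ (100 * (A.n + 1) + 16) (fun σ' =>
      (σ'.v 3 = o ∧ ∀ c ≤ A.n, 1 ≤ G c → G c + w ≤ A.D + 1 + H c) ∨
      (σ'.v 3 = 0 ∧ ¬ ∀ c ≤ A.n, 1 ≤ G c → G c + w ≤ A.D + 1 + H c)) := by
  obtain ⟨z1, z2, z3, z4, z5, z6⟩ := hs.facts
  unfold chk2
  refine (Ex.forr (T1 := 84) (A.n + 1) (fun k σ' =>
      (σ'.v 3 = o ∧ ∀ c < k, 1 ≤ G c → G c + w ≤ A.D + 1 + H c) ∨
      (σ'.v 3 = 0 ∧ ¬ ∀ c ≤ A.n, 1 ≤ G c → G c + w ≤ A.D + 1 + H c))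
      (by decide) (by decide) (by omega) ?_ ?_ ?_).mono ?_ ?_
  · left; exact ⟨by simp [hok], fun c hc => by omega⟩
  · intro k hk σ' hfr _
    simp [hfr.1 0 (by decide), ctx.n]
    omega
  · intro k hk σ1 hfr1 hinv1 hv1
    have ctx1 := ctx.fr hfr1 (by decide)
    have hB := ctx1.B
    have hG1 : σ1.m 12 = G := by rw [hfr1.2 12 (by decide), hG]
    have hH1 : σ1.m 14 = H := by rw [hfr1.2 14 (by decide), hH]
    have hw1 : σ1.v 16 = w := by rw [hfr1.1 16 (by decide), hw]
    have hGk := hGle k (by omega)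
    have hHk := hHle k (by omega)
    refine Ex.cond 1 (G k) (by (simp <;> omega)) (by simp; omega) ?_ (by simp) (by simp [hv1, hG1])
      (fun hle => ?_) (fun hle => ?_)
    · simp [idxok, KA, hv1, hB]
      omega
    · refine Ex.cond (G k + w) (A.D + 1 + H k) (by (simp <;> omega)) ?_ ?_ (by simp [hv1, hG1, hw1])
        (by simp [hv1, ctx1.D, hH1]) (fun hle2 => ?_) (fun hle2 => ?_)
      · simp [idxok, KA, hv1, hB, hG1, hw1]
        omega
      · simp [idxok, KA, hv1, hB, hH1, ctx1.D]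
        omega
      · refine Ex.skip1 ?_
        rcases hinv1 with ⟨h1, h2⟩ | ⟨h1, h2⟩
        · left
          refine ⟨by simpa using h1, ?_⟩
          intro c hc hc'
          by_cases hck : c = k
          · subst hck; exact hle2
          · exact h2 c (by omega) hc'
        · right
          exact ⟨by simpa using h1, h2⟩
      · refine Ex.asg1 0 (by (simp <;> omega)) (by decide) (by simp) (by simp) ?_
        right
        refine ⟨by simp, ?_⟩
        intro hcon
        exact hle2 (hcon k (by omega) hle)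
    · refine Ex.skip1 ?_
      rcases hinv1 with ⟨h1, h2⟩ | ⟨h1, h2⟩
      · left
        refine ⟨by simpa using h1, ?_⟩
        intro c hc hc'
        by_cases hck : c = k
        · subst hck; exact absurd hc' hle
        · exact h2 c (by omega) hc'
      · right
        exact ⟨by simpa using h1, h2⟩
  · (simp <;> omega)
  · rintro σ' ⟨-, h, -⟩
    rcases h with ⟨h1, h2⟩ | h
    · exact Or.inl ⟨h1, fun c hc => h2 c (by omega)⟩
    · exact Or.inr h

theorem chk_spec (hs : Sz E A) {σ : State} (ctx : Ctx E A σ) {b : ℕ} (hb : b < A.D)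
    {X : ℕ → Prop} {t o : ℕ} (ht : t ≤ A.D) (hvb : σ.v 2 = b) (hok : σ.v 3 = o)
    (h : CB A b X t σ) :
    Ex E chk σ (500 * (A.n + 1)) (fun σ' => CB A b X t σ' ∧
      ((σ'.v 3 = o ∧ ∀ s, X s → A.Hp b s t) ∨ (σ'.v 3 = 0 ∧ ¬ ∀ s, X s → A.Hp b s t))) := by
  obtain ⟨z1, z2, z3, z4, z5, z6⟩ := hs.facts
  unfold chk
  refine Ex.sq (26 * (A.n + 1) + 16) (by omega) ((clr_spec hs ctx (a := 14) (by decide)
    (by decide)).frame.mono le_rfl ?_)
  rintro σ1 ⟨hfr1, hH1⟩
  have ctx1 := ctx.fr hfr1 (by decide)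
  refine Ex.asg 0 (by (simp <;> omega)) (by decide) (by simp) (by simp) ?_
  have ctx2 := ctx1.setv (x := 16) (y := 0) (by decide) (by decide) (by decide)
  refine Ex.sq (140 * A.n + 14) (by (simp <;> omega))
    ((chk1_spec hs ctx2 (b := b) (t := t) (K := σ.m 13) hb ht ?_ ?_ ?_ (by simp) ?_
      ?_).frame.mono le_rfl ?_)
  · simp [hfr1.1 2 (by decide), hvb]
  · simp [hfr1.1 14 (by decide), h.bp]
  · intro i hi; simp [hfr1.2 16 (by decide), h.PB i hi]
  · simpa using hH1
  · simp [hfr1.2 13 (by decide)]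
  rintro σ3 ⟨hfr3, h31, h32⟩
  have ctx3 := ctx2.fr hfr3 (by decide)
  refine Ex.sq (60 * A.n + 14) (by (simp <;> omega)) ((pfx_spec hs ctx3 h32).frame.mono le_rfl ?_)
  rintro σ4 ⟨hfr4, hH4⟩
  have ctx4 := ctx3.fr hfr4 (by decide)
  have hG4 : σ4.m 12 = σ.m 12 := by
    rw [hfr4.2 12 (by decide), hfr3.2 12 (by decide)]; simp [hfr1.2 12 (by decide)]
  have hK4 : σ4.m 13 = σ.m 13 := by
    rw [hfr4.2 13 (by decide), hfr3.2 13 (by decide)]; simp [hfr1.2 13 (by decide)]
  have hP4 : σ4.m 16 = σ.m 16 := by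
    rw [hfr4.2 16 (by decide), hfr3.2 16 (by decide)]; simp [hfr1.2 16 (by decide)]
  have hb4 : σ4.v 14 = t := by
    rw [hfr4.1 14 (by decide), hfr3.1 14 (by decide)]; simp [hfr1.1 14 (by decide), h.bp]
  refine (chk2_spec hs ctx4 (G := σ.m 12) (w := nc A b t A.n) (o := o) hG4 rfl ?_ (nc_le _ _ _)
    (fun c hc => h.sum.G_le ht hc) (fun c hc => by rw [hH4 c hc]; exact Inst.hcum_le _)
    ?_).frame.mono (by (simp <;> omega)) ?_
  · rw [hfr4.1 16 (by decide), h31]
  · rw [hfr4.1 3 (by decide), hfr3.1 3 (by decide)]; simp [hfr1.1 3 (by decide), hok]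
  rintro σ5 ⟨hfr5, h5⟩
  have hiff : (∀ c ≤ A.n, 1 ≤ σ.m 12 c → σ.m 12 c + nc A b t A.n ≤ A.D + 1 + σ4.m 14 c) ↔
      ∀ s, X s → A.Hp b s t := by
    rw [← h.sum.check hb ht]
    constructor
    · intro h1 c hc h2
      have := h1 c hc h2
      rw [hH4 c hc, ← Inst.Hn_eq hc] at this
      exact this
    · intro h1 c hc h2
      have := h1 c hc h2
      rw [hH4 c hc, ← Inst.Hn_eq hc]
      exact this
  refine ⟨⟨?_, ?_, ?_⟩, ?_⟩
  · rw [hfr5.1 14 (by decide), hb4]
  · intro i hi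
    rw [hfr5.2 16 (by decide), hP4, h.PB i hi]
  · rw [hfr5.2 12 (by decide), hfr5.2 13 (by decide), hG4, hK4]
    exact h.sum
  · rw [hiff] at h5; exact h5

end

end Pool.Agent.helper9.Jit
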