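import Pool.Agent.helper9.Jit.Comp2

/-!
# The compressed test and the compression
-/

set_option autoImplicit false

namespace Pool.Agent.helper9.Jit

open Finset

/-- The compressed data: uncertain times `QP`, summaries of the runs between them. -/
structure CS (A : Inst) (lo hi m : ℕ) (QP RG RK : ℕ → ℕ) : Prop where
  m_le : m ≤ A.D + 1
  mono : ∀ i j, i < j → j < m → QP i < QP j
  QP_le : ∀ i < m, QP i ≤ A.D
  mem : ∀ t ≤ A.D, A.Unc lo hi t → ∃ i < m, QP i = t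
  sum : ∀ idx < m, ∀ b, lo ≤ b → b ≤ hi →
    A.IsSum b (fun s => (∀ j < idx, QP j < s) ∧ s < QP idx) (QP idx)
      (fun c => RG (idx * (A.n + 1) + c)) (fun i => RK (idx * A.n + i))

/-- base time before step `idx` -/
def bpf (QP : ℕ → ℕ) (idx : ℕ) : ℕ := if idx = 0 then 0 else QP (idx - 1)

def init0 : Cmd := Cmd.seq (clr 12) <| Cmd.seq (clr 13) <| Cmd.seq (clr 16) <| .asgn 14 0

def ctestBody : Cmd := Cmd.seq (.asgn 7 ((Expr.arr 9 ((Expr.var 13))))) <| Cmd.seq (rebase) <| Cmd.seq (mrg) <| Cmd.seq (ins) <| chk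

/-- Feasibility test for `vb` on the compressed data. -/
def ctest : Cmd := Cmd.seq (init0) <| Cmd.seq (.asgn 3 1) <| forr 13 (Expr.var 12) ctestBody

def unc : Cmd := Cmd.seq (.asgn 21 0) <| forr 6 (Expr.var 0) (
   Cmd.seq (.asgn 8 fex) <|
   Cmd.seq (.ite (Expr.var 19) (Expr.var 8) (.ite (Expr.var 8) (Expr.var 20) (.asgn 21 1) .skip) .skip) <|
   .ite (Expr.var 19) ((Expr.var 1) - (Expr.var 8)) (.ite ((Expr.var 1) - (Expr.var 8)) (Expr.var 20) (.asgn 21 1) .skip) .skip)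

def sav1 : Cmd := forr 15 ((Expr.var 0) + 1) (
  Cmd.seq (.store 10 ((Expr.var 18) * ((Expr.var 0) + 1) + (Expr.var 15)) ((Expr.arr 12 ((Expr.var 15))))) <| .store 12 (Expr.var 15) 0)

def sav2 : Cmd := forr 6 (Expr.var 0) (
  Cmd.seq (.store 11 ((Expr.var 18) * (Expr.var 0) + (Expr.var 6)) ((Expr.arr 13 ((Expr.var 6))))) <| .store 13 (Expr.var 6) 0)

def sav : Cmd := Cmd.seq (sav1) <| Cmd.seq (sav2) <| Cmd.seq (.store 9 (Expr.var 18) (Expr.var 7)) <| .asgn 18 ((Expr.var 18) + 1)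

def recBody : Cmd := Cmd.seq (.asgn 7 ((Expr.arr 9 ((Expr.var 13))))) <| Cmd.seq (rebase) <| Cmd.seq (mrg) <| Cmd.seq (unc) <| .ite 1 (Expr.var 21) sav ins

/-- Compress the data to the bracket `[vlo, vhi]`. -/
def recompress : Cmd :=
  Cmd.seq (init0) <| Cmd.seq (.asgn 18 0) <| Cmd.seq (.asgn 2 (Expr.var 20)) <| Cmd.seq (forr 13 (Expr.var 12) recBody) <| .asgn 12 (Expr.var 18)

section
variable {E : Env} {A : Inst}

theorem CS.bpf_le {lo hi m : ℕ} {QP RG RK : ℕ → ℕ} (h : CS A lo hi m QP RG RK) {idx : ℕ}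
    (hidx : idx < m) : bpf QP idx ≤ QP idx := by
  unfold bpf
  split
  · exact Nat.zero_le _
  · exact (h.mono _ _ (by omega) hidx).le

theorem CS.mono_le {lo hi m : ℕ} {QP RG RK : ℕ → ℕ} (h : CS A lo hi m QP RG RK) {i j : ℕ}
    (hij : i ≤ j) (hj : j < m) : QP i ≤ QP j := by
  rcases hij.lt_or_eq with h1 | rfl
  · exact (h.mono _ _ h1 hj).le
  · exact le_rfl

theorem init0_spec (hs : Sz E A) {σ : State} (ctx : Ctx E A σ) (b : ℕ) :
    Ex E init0 σ (120 * (A.n + 1)) (CB A b (fun _ => False) 0) := by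
  obtain ⟨z1, z2, z3, z4, z5, z6⟩ := hs.facts
  unfold init0
  refine Ex.sq (26 * (A.n + 1) + 16) (by omega) ((clr_spec hs ctx (a := 12) (by decide)
    (by decide)).frame.mono le_rfl ?_)
  rintro σ1 ⟨hfr1, h1⟩
  have ctx1 := ctx.fr hfr1 (by decide)
  refine Ex.sq (26 * (A.n + 1) + 16) (by omega) ((clr_spec hs ctx1 (a := 13) (by decide)
    (by decide)).frame.mono le_rfl ?_)
  rintro σ2 ⟨hfr2, h2⟩
  have ctx2 := ctx1.fr hfr2 (by decide)
  refine Ex.sq (26 * (A.n + 1) + 16) (by omega) ((clr_spec hs ctx2 (a := 16) (by decide)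
    (by decide)).frame.mono le_rfl ?_)
  rintro σ3 ⟨hfr3, h3⟩
  refine Ex.asg1 0 (by (simp <;> omega)) (by decide) (by simp) (by simp) ?_
  refine ⟨by simp, ?_, ?_⟩
  · intro i hi
    simp [h3 i hi.le]
  · refine (Inst.IsSum.empty (A := A) b 0).congrGK ?_ ?_
    · intro c hc
      simp only [State.setv_m]
      rw [hfr3.2 12 (by decide), hfr2.2 12 (by decide)]
      exact h1 c hc
    · intro i hi
      simp only [State.setv_m]
      rw [hfr3.2 13 (by decide)]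
      exact h2 i hi.le

theorem ctestBody_spec (hs : Sz E A) {σ : State} (ctx : Ctx E A σ) {lo hi m b idx : ℕ}
    (hcs : CS A lo hi m (σ.m 9) (σ.m 10) (σ.m 11)) (hlo : lo ≤ b) (hbhi : b ≤ hi)
    (hb : b < A.D) (hvb : σ.v 2 = b) (hidx : σ.v 13 = idx) (hidx' : idx < m)
    (h : CB A b (fun s => ∃ i < idx, s ≤ σ.m 9 i) (bpf (σ.m 9) idx) σ)
    (hok : (σ.v 3 = 1 ∧ ∀ i < idx, ∀ s ≤ σ.m 9 i, A.Hp b s (σ.m 9 i)) ∨
      (σ.v 3 = 0 ∧ ¬ A.Feas b)) :
    Ex E ctestBody σ (2000 * (A.n + 1)) (fun σ' =>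
      CB A b (fun s => ∃ i < idx + 1, s ≤ σ.m 9 i) (bpf (σ.m 9) (idx + 1)) σ' ∧
      ((σ'.v 3 = 1 ∧ ∀ i < idx + 1, ∀ s ≤ σ.m 9 i, A.Hp b s (σ.m 9 i)) ∨
      (σ'.v 3 = 0 ∧ ¬ A.Feas b))) := by
  obtain ⟨z1, z2, z3, z4, z5, z6⟩ := hs.facts
  have hmle := hcs.m_le
  set QP := σ.m 9 with hQP
  set t := QP idx with ht
  have htD : t ≤ A.D := hcs.QP_le idx hidx'
  unfold ctestBody
  refine Ex.asg t (by (simp <;> omega)) (by decide) ?_ (by simp [hidx, ht, hQP]) ?_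
  · simp [idxok, KA, ctx.B, hidx]
    omega
  have ctx1 := ctx.setv (x := 7) (y := t) (by decide) (by decide) (by decide)
  refine Ex.sq (800 * (A.n + 1)) (by (simp <;> omega)) ((rebase_spec hs ctx1 hb
    (X := fun s => ∃ i < idx, s ≤ QP i) (t := bpf QP idx) (t' := t) (hcs.bpf_le hidx') htD
    (by simp) ?_).frame.mono le_rfl ?_)
  · exact ⟨by simpa using h.bp, by simpa using h.PB, by simpa using h.sum⟩
  rintro σ2 ⟨hfr2, h2⟩
  have ctx2 := ctx1.fr hfr2 (by decide)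
  have hRG2 : σ2.m 10 = σ.m 10 := by rw [hfr2.2 10 (by decide)]; simp
  have hRK2 : σ2.m 11 = σ.m 11 := by rw [hfr2.2 11 (by decide)]; simp
  refine Ex.sq (300 * (A.n + 1)) (by (simp <;> omega)) ((mrg_spec hs ctx2 (idx := idx)
    (Y := fun s => (∀ j < idx, QP j < s) ∧ s < QP idx) ?_ (by omega) h2 hRG2 hRK2
    (hcs.sum idx hidx' b hlo hbhi)).frame.mono le_rfl ?_)
  · rw [hfr2.1 13 (by decide)]; simp [hidx]
  rintro σ3 ⟨hfr3, h3⟩
  have ctx3 := ctx2.fr hfr3 (by decide)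
  have hvb3 : σ3.v 2 = b := by
    rw [hfr3.1 2 (by decide), hfr2.1 2 (by decide)]; simp [hvb]
  refine Ex.sq (300 * (A.n + 1)) (by (simp <;> omega)) ((ins_spec hs ctx3 hb htD hvb3 h3).frame.mono le_rfl ?_)
  rintro σ4 ⟨hfr4, h4⟩
  have ctx4 := ctx3.fr hfr4 (by decide)
  have hvb4 : σ4.v 2 = b := by rw [hfr4.1 2 (by decide), hvb3]
  have hok4 : σ4.v 3 = σ.v 3 := by
    rw [hfr4.1 3 (by decide), hfr3.1 3 (by decide), hfr2.1 3 (by decide)]; simp
  refine (chk_spec hs ctx4 hb htD hvb4 rfl h4).mono (by (simp <;> omega)) ?_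
  rintro σ5 ⟨h5, h6⟩
  have hX : ∀ s, ((((∃ i < idx, s ≤ QP i) ∨ (∀ j < idx, QP j < s) ∧ s < QP idx) ∨ s = t)) ↔
      ∃ i < idx + 1, s ≤ QP i := by
    intro s
    constructor
    · rintro ((⟨i, hi, hs⟩ | ⟨-, hs⟩) | hs)
      · exact ⟨i, by omega, hs⟩
      · exact ⟨idx, by omega, hs.le⟩
      · exact ⟨idx, by omega, hs.le⟩
    · rintro ⟨i, hi, hs⟩
      by_cases hst : s = t
      · exact Or.inr hst
      · left
        by_cases hex : ∃ i < idx, s ≤ QP i
        · exact Or.inl hex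
        · right
          push Not at hex
          refine ⟨hex, ?_⟩
          have hi' : i = idx := by
            by_contra hcon
            have := hex i (by omega)
            omega
          subst hi'
          omega
  have hbpf : bpf QP (idx + 1) = t := by simp [bpf, ht]
  refine ⟨?_, ?_⟩
  · rw [hbpf]
    exact ⟨h5.bp, h5.PB, h5.sum.congrX hX⟩
  · rw [hok4] at h6
    rcases hok with ⟨k1, k2⟩ | ⟨k1, k2⟩
    · rcases h6 with ⟨l1, l2⟩ | ⟨l1, l2⟩
      · left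
        refine ⟨by rw [l1, k1], ?_⟩
        intro i hi s hs
        by_cases hii : i = idx
        · subst hii
          exact l2 s ((hX s).2 ⟨i, by omega, hs⟩)
        · exact k2 i (by omega) s hs
      · right
        refine ⟨l1, ?_⟩
        intro hfeas
        rw [A.feas_iff hb] at hfeas
        apply l2
        intro s hs
        exact hfeas s t (h4.sum.le s hs) htD
    · right
      rcases h6 with ⟨l1, l2⟩ | ⟨l1, l2⟩
      · exact ⟨by rw [l1, k1], k2⟩
      · exact ⟨l1, k2⟩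

set_option maxRecDepth 20000 in
theorem ctest_spec (hs : Sz E A) {σ : State} (ctx : Ctx E A σ) {lo hi m b : ℕ}
    (hm : σ.v 12 = m) (hcs : CS A lo hi m (σ.m 9) (σ.m 10) (σ.m 11)) (hlo : lo ≤ b)
    (hbhi : b ≤ hi) (hhi : hi < A.D) (hfeas : A.Feas hi) (hvb : σ.v 2 = b) :
    Ex E ctest σ ((m + 1) * (2100 * (A.n + 1))) (fun σ' => Fr ctest.wv ctest.wa σ σ' ∧
      ((σ'.v 3 = 1 ∧ A.Feas b) ∨ (σ'.v 3 = 0 ∧ ¬ A.Feas b))) := by
  obtain ⟨z1, z2, z3, z4, z5, z6⟩ := hs.facts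
  have hmle := hcs.m_le
  refine Ex.frame ?_
  have hT : (m + 1) * (2100 * (A.n + 1)) = m * (2100 * (A.n + 1)) + 2100 * (A.n + 1) := by ring
  unfold ctest
  refine Ex.sq (120 * (A.n + 1)) (by omega) ((init0_spec hs ctx b).frame.mono le_rfl ?_)
  rintro σ1 ⟨hfr1, h1⟩
  have ctx1 := ctx.fr hfr1 (by decide)
  refine Ex.asg 1 (by (simp <;> omega)) (by decide) (by simp; omega) (by simp) ?_
  have ctx2 := ctx1.setv (x := 3) (y := 1) (by decide) (by decide) (by decide)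
  set σ2 := σ1.setv 3 1 with hσ2
  have hQP2 : σ2.m 9 = σ.m 9 := by rw [hσ2]; simp [hfr1.2 9 (by decide)]
  have hRG2 : σ2.m 10 = σ.m 10 := by rw [hσ2]; simp [hfr1.2 10 (by decide)]
  have hRK2 : σ2.m 11 = σ.m 11 := by rw [hσ2]; simp [hfr1.2 11 (by decide)]
  have hvb2 : σ2.v 2 = b := by rw [hσ2]; simp [hfr1.1 2 (by decide), hvb]
  have hvm2 : σ2.v 12 = m := by rw [hσ2]; simp [hfr1.1 12 (by decide), hm]
  refine (Ex.forr (T1 := 2000 * (A.n + 1)) m (fun idx σ' =>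
      CB A b (fun s => ∃ i < idx, s ≤ σ.m 9 i) (bpf (σ.m 9) idx) σ' ∧
      ((σ'.v 3 = 1 ∧ ∀ i < idx, ∀ s ≤ σ.m 9 i, A.Hp b s (σ.m 9 i)) ∨
      (σ'.v 3 = 0 ∧ ¬ A.Feas b)))
      (by decide) (by decide) (by omega) ?_ ?_ ?_).mono ?_ ?_
  · refine ⟨⟨?_, ?_, ?_⟩, ?_⟩
    · simp [hσ2, bpf, h1.bp]
    · simpa [hσ2, bpf] using h1.PB
    · have := h1.sum.congrX (Y := fun s => ∃ i < 0, s ≤ σ.m 9 i) (by simp)
      simpa [hσ2, bpf] using this
    · left
      refine ⟨by simp [hσ2], ?_⟩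
      intro i hi; omega
  · intro k hk σ' hfr _
    simp [hfr.1 12 (by decide), hvm2]
  · intro idx hidx σ3 hfr3 hinv3 hv3
    have ctx3 := ctx2.fr hfr3 (by decide)
    have hQP3 : σ3.m 9 = σ.m 9 := by rw [hfr3.2 9 (by decide), hQP2]
    have hRG3 : σ3.m 10 = σ.m 10 := by rw [hfr3.2 10 (by decide), hRG2]
    have hRK3 : σ3.m 11 = σ.m 11 := by rw [hfr3.2 11 (by decide), hRK2]
    have hvb3 : σ3.v 2 = b := by rw [hfr3.1 2 (by decide), hvb2]
    refine (ctestBody_spec hs ctx3 (lo := lo) (hi := hi) (m := m) (b := b) (idx := idx) ?_ hlo hbhi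
      (by omega) hvb3 hv3 hidx ?_ ?_).mono le_rfl ?_
    · rw [hQP3, hRG3, hRK3]; exact hcs
    · rw [hQP3]; exact hinv3.1
    · rw [hQP3]; exact hinv3.2
    · rintro σ4 ⟨h4, h5⟩
      rw [hQP3] at h4 h5
      refine ⟨⟨by simpa using h4.bp, by simpa using h4.PB, by simpa using h4.sum⟩, by simpa using h5⟩
  · have e1 : (Expr.var 12).len = 2 := rfl
    have e2 : (1 : Expr).len = 1 := rfl
    rw [hT, e1, e2]
    have : m * (2000 * (A.n + 1) + (2 + 12)) ≤ m * (2100 * (A.n + 1)) :=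
      Nat.mul_le_mul_left _ (by omega)
    omega
  · rintro σ3 ⟨-, ⟨-, h3⟩, -⟩
    rcases h3 with ⟨h4, h5⟩ | h3
    · left
      refine ⟨h4, ?_⟩
      refine Inst.feas_of_unc hlo hbhi hhi hfeas ?_
      intro t ht hunc s hst
      obtain ⟨i, hi, hit⟩ := hcs.mem t ht hunc
      subst hit
      exact h5 i hi s hst
    · exact Or.inr h3

/-! ### compression -/

theorem unc_spec (hs : Sz E A) {σ : State} (ctx : Ctx E A σ) {t lo hi : ℕ}
    (ht : t ≤ A.D) (hlo : σ.v 19 = lo) (hhi : σ.v 20 = hi) (hbp : σ.v 14 = t)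
    (hPB : ∀ i < A.n, σ.m 16 i = A.q i t) :
    Ex E unc σ (200 * (A.n + 1)) (fun σ' => (σ'.v 21 = 1 ∧ A.Unc lo hi t) ∨
      (σ'.v 21 = 0 ∧ ¬ A.Unc lo hi t)) := by
  obtain ⟨z1, z2, z3, z4, z5, z6⟩ := hs.facts
  unfold unc
  refine Ex.asg 0 (by (simp <;> omega)) (by decide) (by simp) (by simp) ?_
  have ctx0 := ctx.setv (x := 21) (y := 0) (by decide) (by decide) (by decide)
  refine (Ex.forr (T1 := 110) A.n (fun k σ' =>
      (σ'.v 21 = 1 ∧ A.Unc lo hi t) ∨ (σ'.v 21 = 0 ∧ ∀ i < k,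
        ¬ ((lo ≤ A.f i t ∧ A.f i t ≤ hi) ∨ (lo ≤ A.D - A.f i t ∧ A.D - A.f i t ≤ hi))))
      (by decide) (by decide) (by omega) ?_ ?_ ?_).mono ?_ ?_
  · right; exact ⟨by simp, fun i hi => by omega⟩
  · intro k hk σ' hfr _
    simp [hfr.1 0 (by decide), ctx.n]
  · intro k hk σ1 hfr1 hinv1 hv1
    have ctx1 := ctx0.fr hfr1 (by decide)
    have hB := ctx1.B
    have hlo1 : σ1.v 19 = lo := by rw [hfr1.1 19 (by decide)]; simp [hlo]
    have hhi1 : σ1.v 20 = hi := by rw [hfr1.1 20 (by decide)]; simp [hhi]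
    have ht1 : σ1.v 14 = t := by rw [hfr1.1 14 (by decide)]; simp [hbp]
    have hP1 : σ1.m 16 k = A.q k t := by rw [hfr1.2 16 (by decide)]; simp [hPB k hk]
    have hfl := A.f_lt k t
    have yes : ∀ σ' : State, ((lo ≤ A.f k t ∧ A.f k t ≤ hi) ∨
        (lo ≤ A.D - A.f k t ∧ A.D - A.f k t ≤ hi)) → σ'.v 21 = 1 →
        ((σ'.v 21 = 1 ∧ A.Unc lo hi t) ∨ (σ'.v 21 = 0 ∧ ∀ i < k + 1,
        ¬ ((lo ≤ A.f i t ∧ A.f i t ≤ hi) ∨ (lo ≤ A.D - A.f i t ∧ A.D - A.f i t ≤ hi)))) := by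
      intro σ' h1 h2
      exact Or.inl ⟨h2, k, hk, h1⟩
    have no : ∀ σ' : State, ¬ ((lo ≤ A.f k t ∧ A.f k t ≤ hi) ∨
        (lo ≤ A.D - A.f k t ∧ A.D - A.f k t ≤ hi)) → σ'.v 21 = σ1.v 21 →
        ((σ'.v 21 = 1 ∧ A.Unc lo hi t) ∨ (σ'.v 21 = 0 ∧ ∀ i < k + 1,
        ¬ ((lo ≤ A.f i t ∧ A.f i t ≤ hi) ∨ (lo ≤ A.D - A.f i t ∧ A.D - A.f i t ≤ hi)))) := by
      intro σ' h1 h2
      rw [h2]
      rcases hinv1 with h3 | ⟨h3, h4⟩
      · exact Or.inl h3
      · right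
        refine ⟨h3, ?_⟩
        intro i hi'
        by_cases hik : i = k
        · subst hik; exact h1
        · exact h4 i (by omega)
    refine Ex.asg (A.f k t) (by (simp <;> omega)) (by decide) (fex_ok hs ctx1 ht ht1 hk hv1 hP1)
      (fex_eval ctx1 ht1 hk hv1 hP1) ?_
    refine Ex.conds lo (A.f k t) (by (simp <;> omega)) (by simp) (by simp) (by simp [hlo1]) (by simp)
      (fun c1 => ?_) (fun c1 => ?_)
    · refine Ex.conds (A.f k t) hi (by (simp <;> omega)) (by simp) (by simp) (by simp) (by simp [hhi1])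
        (fun c2 => ?_) (fun c2 => ?_)
      · refine Ex.asg 1 (by (simp <;> omega)) (by decide) (by simp; omega) (by simp) ?_
        refine Ex.cond lo (A.D - A.f k t) (by (simp <;> omega)) (by simp) (by simp) (by simp [hlo1])
          (by simp [ctx1.D]) (fun c3 => ?_) (fun c3 => ?_)
        · refine Ex.cond (A.D - A.f k t) hi (by (simp <;> omega)) (by simp) (by simp) (by simp [ctx1.D])
            (by simp [hhi1]) (fun c4 => ?_) (fun c4 => ?_)
          · refine Ex.asg1 1 (by (simp <;> omega)) (by decide) (by simp; omega) (by simp) ?_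
            exact yes _ (by omega) (by simp)
          · exact Ex.skip1 (yes _ (by omega) (by simp))
        · exact Ex.skip1 (yes _ (by omega) (by simp))
      · refine Ex.skips ?_
        refine Ex.cond lo (A.D - A.f k t) (by (simp <;> omega)) (by simp) (by simp) (by simp [hlo1])
          (by simp [ctx1.D]) (fun c3 => ?_) (fun c3 => ?_)
        · refine Ex.cond (A.D - A.f k t) hi (by (simp <;> omega)) (by simp) (by simp) (by simp [ctx1.D])
            (by simp [hhi1]) (fun c4 => ?_) (fun c4 => ?_)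
          · refine Ex.asg1 1 (by (simp <;> omega)) (by decide) (by simp; omega) (by simp) ?_
            exact yes _ (by omega) (by simp)
          · exact Ex.skip1 (no _ (by omega) (by simp))
        · exact Ex.skip1 (no _ (by omega) (by simp))
    · refine Ex.skips ?_
      refine Ex.cond lo (A.D - A.f k t) (by (simp <;> omega)) (by simp) (by simp) (by simp [hlo1])
        (by simp [ctx1.D]) (fun c3 => ?_) (fun c3 => ?_)
      · refine Ex.cond (A.D - A.f k t) hi (by (simp <;> omega)) (by simp) (by simp) (by simp [ctx1.D])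
          (by simp [hhi1]) (fun c4 => ?_) (fun c4 => ?_)
        · refine Ex.asg1 1 (by (simp <;> omega)) (by decide) (by simp; omega) (by simp) ?_
          exact yes _ (by omega) (by simp)
        · exact Ex.skip1 (no _ (by omega) (by simp))
      · exact Ex.skip1 (no _ (by omega) (by simp))
  · (simp <;> omega)
  · rintro σ' ⟨-, h, -⟩
    rcases h with h | ⟨h1, h2⟩
    · exact Or.inl h
    · right
      refine ⟨h1, ?_⟩
      rintro ⟨i, hi', h3⟩
      exact h2 i hi' h3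

theorem sav1_spec (hs : Sz E A) {σ : State} (ctx : Ctx E A σ) {mp : ℕ} (hmp : σ.v 18 = mp)
    (hmp' : mp ≤ A.D) {G RG : ℕ → ℕ} (hG : σ.m 12 = G) (hRG : σ.m 10 = RG) :
    Ex E sav1 σ (100 * (A.n + 1) + 16) (fun σ' =>
      (∀ c ≤ A.n, σ'.m 12 c = 0) ∧
      (∀ c ≤ A.n, σ'.m 10 (mp * (A.n + 1) + c) = G c) ∧
      ∀ x, (x < mp * (A.n + 1) ∨ mp * (A.n + 1) + A.n < x) → σ'.m 10 x = RG x) := by
  obtain ⟨z1, z2, z3, z4, z5, z6⟩ := hs.facts
  unfold sav1
  refine (Ex.forr (T1 := 84) (A.n + 1) (fun k σ' =>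
      (∀ c < k, σ'.m 12 c = 0) ∧ (∀ c, k ≤ c → σ'.m 12 c = G c) ∧
      (∀ c < k, σ'.m 10 (mp * (A.n + 1) + c) = G c) ∧
      ∀ x, (x < mp * (A.n + 1) ∨ mp * (A.n + 1) + A.n < x) → σ'.m 10 x = RG x)
      (by decide) (by decide) (by omega) ?_ ?_ ?_).mono ?_ ?_
  · exact ⟨fun i hi => by omega, fun i _ => by simp [hG], fun i hi => by omega,
      fun x _ => by simp [hRG]⟩
  · intro k hk σ' hfr _
    simp [hfr.1 0 (by decide), ctx.n]
    omega
  · intro k hk σ1 hfr1 hinv1 hv1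
    obtain ⟨i1, i2, i3, i4⟩ := hinv1
    have ctx1 := ctx.fr hfr1 (by decide)
    have hB := ctx1.B
    have hx1 : σ1.v 18 = mp := by rw [hfr1.1 18 (by decide), hmp]
    have hGk := i2 k le_rfl
    have hmul : mp * (A.n + 1) ≤ A.D * A.n + A.D := by
      calc mp * (A.n + 1) ≤ A.D * (A.n + 1) := Nat.mul_le_mul_right _ hmp'
        _ = _ := by ring
    refine Ex.sto (mp * (A.n + 1) + k) (G k) (by (simp <;> omega)) ?_ ?_ (by simp [hx1, ctx1.n, hv1])
      (by simp [hv1, hGk]) (idxok_arr (by decide) (by decide) hB (by omega)) ?_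
    · simp [hx1, ctx1.n, hv1]
      omega
    · simp [idxok, KA, hv1, hB]
      omega
    refine Ex.sto1 k 0 (by (simp <;> omega)) (by simp) (by simp) (by simp [hv1])
      (by simp) (idxok_arr (by decide) (by decide) (by simpa using hB) (by omega)) ?_
    refine ⟨?_, ?_, ?_, ?_⟩
    · intro c hc
      simp only [State.setv_m, State.setm_m, if_true]
      by_cases hck : c = k
      · subst hck; rw [if_pos rfl]
      · rw [if_neg hck]
        simpa using i1 c (by omega)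
    · intro c hc
      simp only [State.setv_m, State.setm_m, if_true]
      rw [if_neg (by omega)]
      simpa using i2 c (by omega)
    · intro c hc
      by_cases hck : c = k
      · subst hck; simp
      · simp [hck, i3 c (by omega)]
    · intro x hx
      have e1 : ¬ x = mp * (A.n + 1) + k := by omega
      simp [e1, i4 x hx]
  · (simp <;> omega)
  · rintro σ' ⟨-, ⟨h1, h2, h3, h4⟩, -⟩
    exact ⟨fun c hc => h1 c (by omega), fun c hc => h3 c (by omega), h4⟩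

theorem sav2_spec (hs : Sz E A) {σ : State} (ctx : Ctx E A σ) {mp : ℕ} (hmp : σ.v 18 = mp)
    (hmp' : mp ≤ A.D) {K RK : ℕ → ℕ} (hK : σ.m 13 = K) (hRK : σ.m 11 = RK) :
    Ex E sav2 σ (100 * A.n + 16) (fun σ' =>
      (∀ c < A.n, σ'.m 13 c = 0) ∧
      (∀ c < A.n, σ'.m 11 (mp * A.n + c) = K c) ∧
      ∀ x, (x < mp * A.n ∨ mp * A.n + A.n ≤ x) → σ'.m 11 x = RK x) := by
  obtain ⟨z1, z2, z3, z4, z5, z6⟩ := hs.facts
  unfold sav2
  refine (Ex.forr (T1 := 84) A.n (fun k σ' =>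
      (∀ c < k, σ'.m 13 c = 0) ∧ (∀ c, k ≤ c → σ'.m 13 c = K c) ∧
      (∀ c < k, σ'.m 11 (mp * A.n + c) = K c) ∧
      ∀ x, (x < mp * A.n ∨ mp * A.n + A.n ≤ x) → σ'.m 11 x = RK x)
      (by decide) (by decide) (by omega) ?_ ?_ ?_).mono ?_ ?_
  · exact ⟨fun i hi => by omega, fun i _ => by simp [hK], fun i hi => by omega,
      fun x _ => by simp [hRK]⟩
  · intro k hk σ' hfr _
    simp [hfr.1 0 (by decide), ctx.n]
  · intro k hk σ1 hfr1 hinv1 hv1
    obtain ⟨i1, i2, i3, i4⟩ := hinv1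
    have ctx1 := ctx.fr hfr1 (by decide)
    have hB := ctx1.B
    have hx1 : σ1.v 18 = mp := by rw [hfr1.1 18 (by decide), hmp]
    have hGk := i2 k le_rfl
    have hmul : mp * A.n ≤ A.D * A.n := Nat.mul_le_mul_right _ hmp'
    refine Ex.sto (mp * A.n + k) (K k) (by (simp <;> omega)) ?_ ?_ (by simp [hx1, ctx1.n, hv1])
      (by simp [hv1, hGk]) (idxok_arr (by decide) (by decide) hB (by omega)) ?_
    · simp [hx1, ctx1.n, hv1]
      omega
    · simp [idxok, KA, hv1, hB]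
      omega
    refine Ex.sto1 k 0 (by (simp <;> omega)) (by simp) (by simp) (by simp [hv1])
      (by simp) (idxok_arr (by decide) (by decide) (by simpa using hB) (by omega)) ?_
    refine ⟨?_, ?_, ?_, ?_⟩
    · intro c hc
      simp only [State.setv_m, State.setm_m, if_true]
      by_cases hck : c = k
      · subst hck; rw [if_pos rfl]
      · rw [if_neg hck]
        simpa using i1 c (by omega)
    · intro c hc
      simp only [State.setv_m, State.setm_m, if_true]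
      rw [if_neg (by omega)]
      simpa using i2 c (by omega)
    · intro c hc
      by_cases hck : c = k
      · subst hck; simp
      · simp [hck, i3 c (by omega)]
    · intro x hx
      have e1 : ¬ x = mp * A.n + k := by omega
      simp [e1, i4 x hx]
  · (simp <;> omega)
  · rintro σ' ⟨-, ⟨h1, h2, h3, h4⟩, -⟩
    exact ⟨h1, h3, h4⟩

/-- Invariant of the compression loop (pure part). -/
structure RI (A : Inst) (lo hi : ℕ) (QP0 RG0 RK0 : ℕ → ℕ) (idx mp : ℕ) (QP RG RK : ℕ → ℕ) :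
    Prop where
  mp_le : mp ≤ idx
  QPo : ∀ j, idx ≤ j → QP j = QP0 j
  RGo : ∀ x, idx * (A.n + 1) ≤ x → RG x = RG0 x
  RKo : ∀ x, idx * A.n ≤ x → RK x = RK0 x
  mono : ∀ i j, i < j → j < mp → QP i < QP j
  mem1 : ∀ j < mp, ∃ i < idx, QP0 i = QP j
  mem2 : ∀ i < idx, A.Unc lo hi (QP0 i) → ∃ j < mp, QP j = QP0 i
  full : ∀ j < mp, A.Unc lo hi (QP j)
  sum : ∀ j < mp, A.IsSum hi (fun s => (∀ j' < j, QP j' < s) ∧ s < QP j) (QP j)
    (fun c => RG (j * (A.n + 1) + c)) (fun i => RK (j * A.n + i))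

theorem RI.init (lo hi : ℕ) (QP RG RK : ℕ → ℕ) : RI A lo hi QP RG RK 0 0 QP RG RK := by
  refine ⟨le_rfl, fun _ _ => rfl, fun _ _ => rfl, fun _ _ => rfl, ?_, ?_, ?_, ?_, ?_⟩ <;>
    · intros; omega

theorem RI.skip {lo hi : ℕ} {QP0 RG0 RK0 : ℕ → ℕ} {idx mp : ℕ} {QP RG RK : ℕ → ℕ}
    (h : RI A lo hi QP0 RG0 RK0 idx mp QP RG RK) (hn : ¬ A.Unc lo hi (QP0 idx)) :
    RI A lo hi QP0 RG0 RK0 (idx + 1) mp QP RG RK := by
  refine ⟨by have := h.mp_le; omega, fun j hj => h.QPo j (by omega), fun x hx => h.RGo x ?_,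
    fun x hx => h.RKo x ?_, h.mono, ?_, ?_, h.full, h.sum⟩
  · rw [Nat.add_mul] at hx; omega
  · rw [Nat.add_mul] at hx; omega
  · intro j hj
    obtain ⟨i, hi', h1⟩ := h.mem1 j hj
    exact ⟨i, by omega, h1⟩
  · intro i hi' hu
    by_cases hii : i = idx
    · subst hii; exact absurd hu hn
    · exact h.mem2 i (by omega) hu

theorem RI.store {lo hi m : ℕ} {QP0 RG0 RK0 : ℕ → ℕ} {idx mp : ℕ} {QP RG RK : ℕ → ℕ}
    (h : RI A lo hi QP0 RG0 RK0 idx mp QP RG RK) (hu : A.Unc lo hi (QP0 idx))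
    (hmono : ∀ i j, i < j → j < m → QP0 i < QP0 j) (hidx : idx < m)
    {G K : ℕ → ℕ} (hsum : A.IsSum hi (fun s => (∀ j < mp, QP j < s) ∧ s < QP0 idx) (QP0 idx) G K)
    {QP' RG' RK' : ℕ → ℕ} (hQP : ∀ j, QP' j = if j = mp then QP0 idx else QP j)
    (hRG1 : ∀ c ≤ A.n, RG' (mp * (A.n + 1) + c) = G c)
    (hRG2 : ∀ x, (x < mp * (A.n + 1) ∨ mp * (A.n + 1) + A.n < x) → RG' x = RG x)
    (hRK1 : ∀ i < A.n, RK' (mp * A.n + i) = K i)
    (hRK2 : ∀ x, (x < mp * A.n ∨ mp * A.n + A.n ≤ x) → RK' x = RK x) :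
    RI A lo hi QP0 RG0 RK0 (idx + 1) (mp + 1) QP' RG' RK' := by
  have hmp := h.mp_le
  have hlt : ∀ j < mp, QP j < QP0 idx := by
    intro j hj
    obtain ⟨i, hi', h1⟩ := h.mem1 j hj
    rw [← h1]; exact hmono i idx hi' hidx
  have hm1 : mp * (A.n + 1) ≤ idx * (A.n + 1) := Nat.mul_le_mul_right _ hmp
  have hm2 : mp * A.n ≤ idx * A.n := Nat.mul_le_mul_right _ hmp
  refine ⟨by omega, ?_, ?_, ?_, ?_, ?_, ?_, ?_, ?_⟩
  · intro j hj
    rw [hQP, if_neg (by omega)]; exact h.QPo j (by omega)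
  · intro x hx
    rw [Nat.add_mul] at hx
    rw [hRG2 x (by omega)]; exact h.RGo x (by omega)
  · intro x hx
    rw [Nat.add_mul] at hx
    rw [hRK2 x (by omega)]; exact h.RKo x (by omega)
  · intro i j hij hj
    rw [hQP, hQP, if_neg (show ¬ i = mp by omega)]
    by_cases hjm : j = mp
    · rw [if_pos hjm]; exact hlt i (by omega)
    · rw [if_neg hjm]; exact h.mono i j hij (by omega)
  · intro j hj
    rw [hQP]
    by_cases hjm : j = mp
    · rw [if_pos hjm]; exact ⟨idx, by omega, rfl⟩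
    · rw [if_neg hjm]
      obtain ⟨i, hi', h1⟩ := h.mem1 j (by omega)
      exact ⟨i, by omega, h1⟩
  · intro i hi' hu'
    by_cases hii : i = idx
    · subst hii; exact ⟨mp, by omega, by rw [hQP, if_pos rfl]⟩
    · obtain ⟨j, hj, h1⟩ := h.mem2 i (by omega) hu'
      exact ⟨j, by omega, by rw [hQP, if_neg (by omega), h1]⟩
  · intro j hj
    rw [hQP]
    by_cases hjm : j = mp
    · rw [if_pos hjm]; exact hu
    · rw [if_neg hjm]; exact h.full j (by omega)
  · intro j hj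
    rw [hQP]
    by_cases hjm : j = mp
    · subst hjm
      rw [if_pos rfl]
      refine (hsum.congrX ?_).congrGK hRG1 hRK1
      intro s
      have : ∀ j' < j, QP' j' = QP j' := fun j' hj' => by rw [hQP, if_neg (by omega)]
      constructor
      · rintro ⟨h1, h2⟩
        exact ⟨fun j' hj' => by rw [this j' hj']; exact h1 j' hj', h2⟩
      · rintro ⟨h1, h2⟩
        exact ⟨fun j' hj' => by rw [← this j' hj']; exact h1 j' hj', h2⟩
    · rw [if_neg hjm]
      have hj2 : j < mp := by omega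
      have hj3 : (j + 1) * (A.n + 1) ≤ mp * (A.n + 1) := Nat.mul_le_mul_right _ hj2
      have hj4 : (j + 1) * A.n ≤ mp * A.n := Nat.mul_le_mul_right _ hj2
      rw [Nat.add_mul] at hj3 hj4
      refine ((h.sum j hj2).congrX ?_).congrGK ?_ ?_
      · intro s
        have : ∀ j' < j, QP' j' = QP j' := fun j' hj' => by rw [hQP, if_neg (by omega)]
        constructor
        · rintro ⟨h1, h2⟩
          exact ⟨fun j' hj' => by rw [this j' hj']; exact h1 j' hj', h2⟩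
        · rintro ⟨h1, h2⟩
          exact ⟨fun j' hj' => by rw [← this j' hj']; exact h1 j' hj', h2⟩
      · intro c hc
        exact hRG2 _ (by omega)
      · intro i hi'
        exact hRK2 _ (by omega)

theorem RI.final {lo0 hi0 lo hi m : ℕ} {QP0 RG0 RK0 : ℕ → ℕ} {mp : ℕ} {QP RG RK : ℕ → ℕ}
    (h : RI A lo hi QP0 RG0 RK0 m mp QP RG RK) (hcs : CS A lo0 hi0 m QP0 RG0 RK0)
    (h1 : lo0 ≤ lo) (h2 : hi ≤ hi0) : CS A lo hi mp QP RG RK := by
  have hQPle : ∀ j < mp, QP j ≤ A.D := by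
    intro j hj
    obtain ⟨i, hi', h3⟩ := h.mem1 j hj
    rw [← h3]; exact hcs.QP_le i hi'
  have hmem : ∀ t ≤ A.D, A.Unc lo hi t → ∃ i < mp, QP i = t := by
    intro t ht hu
    obtain ⟨i, hi', h3⟩ := hcs.mem t ht (Inst.Unc.mono A h1 h2 hu)
    subst h3
    exact h.mem2 i hi' hu
  refine ⟨by have := h.mp_le; have := hcs.m_le; omega, h.mono, hQPle, hmem, ?_⟩
  intro j hj b hlo hhi
  refine (h.sum j hj).congrU ?_
  rintro s ⟨hs1, hs2⟩ i hi'
  have hnu : ¬ A.Unc lo hi s := by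
    intro hu
    have := hQPle j hj
    obtain ⟨j2, hj2, h3⟩ := hmem s (by omega) hu
    by_cases hjj : j2 < j
    · have := hs1 j2 hjj; omega
    · rcases (Nat.le_of_not_lt hjj).lt_or_eq with h4 | h4
      · have := h.mono j j2 h4 hj2; omega
      · subst h4; omega
  exact (Inst.U_certain hnu hlo hhi hi').symm

/-- number of uncertain times -/
theorem RI.card {lo hi m : ℕ} {QP0 RG0 RK0 : ℕ → ℕ} {mp : ℕ} {QP RG RK : ℕ → ℕ}
    (h : RI A lo hi QP0 RG0 RK0 m mp QP RG RK) (hQP : ∀ i < m, QP0 i ≤ A.D) (hhi : hi < A.D)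
    (hlo : lo ≤ hi) : mp ≤ 2 * (A.cnt (hi + 1) - A.cnt lo) := by
  refine le_trans ?_ (A.card_unc hhi hlo)
  have : mp = (range mp).card := (card_range mp).symm
  rw [this]
  apply card_le_card_of_injOn QP
  · intro j hj
    rw [coe_range, Set.mem_Iio] at hj
    rw [mem_coe, mem_filter, mem_range]
    obtain ⟨i, hi', h3⟩ := h.mem1 j hj
    have := hQP i hi'
    exact ⟨by omega, h.full j hj⟩
  · intro i hi' j hj hij
    rw [coe_range, Set.mem_Iio] at hi' hj
    rcases lt_trichotomy i j with h4 | h4 | h4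
    · have := h.mono i j h4 hj; omega
    · exact h4
    · have := h.mono j i h4 hi'; omega

end

end Pool.Agent.helper9.Jit
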