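import Pool.Agent.helper9.Jit.Comp3

/-!
# The compression procedure
-/

set_option autoImplicit false

namespace Pool.Agent.helper9.Jit

open Finset

section
variable {E : Env} {A : Inst}

theorem sav_spec (hs : Sz E A) {σ : State} (ctx : Ctx E A σ) {mp t : ℕ} (hmp : σ.v 18 = mp)
    (hmp' : mp ≤ A.D) (hvt : σ.v 7 = t) :
    Ex E sav σ (300 * (A.n + 1)) (fun σ' => σ'.v 18 = mp + 1 ∧
      (∀ j, σ'.m 9 j = if j = mp then t else σ.m 9 j) ∧
      (∀ c ≤ A.n, σ'.m 12 c = 0) ∧ (∀ i < A.n, σ'.m 13 i = 0) ∧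
      (∀ c ≤ A.n, σ'.m 10 (mp * (A.n + 1) + c) = σ.m 12 c) ∧
      (∀ x, (x < mp * (A.n + 1) ∨ mp * (A.n + 1) + A.n < x) → σ'.m 10 x = σ.m 10 x) ∧
      (∀ c < A.n, σ'.m 11 (mp * A.n + c) = σ.m 13 c) ∧
      (∀ x, (x < mp * A.n ∨ mp * A.n + A.n ≤ x) → σ'.m 11 x = σ.m 11 x)) := by
  obtain ⟨z1, z2, z3, z4, z5, z6⟩ := hs.facts
  unfold sav
  refine Ex.sq (100 * (A.n + 1) + 16) (by omega) ((sav1_spec hs ctx hmp hmp' rfl
    rfl).frame.mono le_rfl ?_)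
  rintro σ1 ⟨hfr1, h11, h12, h13⟩
  have ctx1 := ctx.fr hfr1 (by decide)
  refine Ex.sq (100 * A.n + 16) (by omega) ((sav2_spec hs ctx1 (mp := mp) (K := σ.m 13)
    (RK := σ.m 11) ?_ hmp' ?_ ?_).frame.mono le_rfl ?_)
  · rw [hfr1.1 18 (by decide), hmp]
  · rw [hfr1.2 13 (by decide)]
  · rw [hfr1.2 11 (by decide)]
  rintro σ2 ⟨hfr2, h21, h22, h23⟩
  have ctx2 := ctx1.fr hfr2 (by decide)
  have hB := ctx2.B
  have e1 : σ2.v 18 = mp := by rw [hfr2.1 18 (by decide), hfr1.1 18 (by decide), hmp]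
  have e2 : σ2.v 7 = t := by rw [hfr2.1 7 (by decide), hfr1.1 7 (by decide), hvt]
  have e3 : σ2.m 9 = σ.m 9 := by rw [hfr2.2 9 (by decide), hfr1.2 9 (by decide)]
  have e4 : σ2.m 12 = σ1.m 12 := by rw [hfr2.2 12 (by decide)]
  have e5 : σ2.m 10 = σ1.m 10 := by rw [hfr2.2 10 (by decide)]
  refine Ex.sto mp t (by (simp <;> omega)) (by simp) (by simp) (by simp [e1]) (by simp [e2])
    (idxok_arr (by decide) (by decide) hB (by omega)) ?_
  refine Ex.asg1 (mp + 1) (by (simp <;> omega)) (by decide) (by simp [e1]; omega) (by simp [e1]) ?_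
  refine ⟨by simp, ?_, ?_, ?_, ?_, ?_, ?_, ?_⟩
  · intro j; simp [e3]
  · intro c hc; simp [e4, h11 c hc]
  · intro i hi; simp [h21 i hi]
  · intro c hc; simp [e5, h12 c hc]
  · intro x hx; simp [e5, h13 x hx]
  · intro c hc; simp [h22 c hc]
  · intro x hx; simp [h23 x hx]

theorem recBody_spec (hs : Sz E A) {σ : State} (ctx : Ctx E A σ) {lo0 hi0 lo hi m idx mp : ℕ}
    {QP0 RG0 RK0 : ℕ → ℕ} (hcs : CS A lo0 hi0 m QP0 RG0 RK0) (h1 : lo0 ≤ lo) (h2 : lo ≤ hi)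
    (h3 : hi ≤ hi0) (h4 : hi0 < A.D) (hidx : idx < m) (hvx : σ.v 13 = idx) (hvb : σ.v 2 = hi)
    (hvlo : σ.v 19 = lo) (hvhi : σ.v 20 = hi) (hmp : σ.v 18 = mp)
    (hRI : RI A lo hi QP0 RG0 RK0 idx mp (σ.m 9) (σ.m 10) (σ.m 11))
    (h : CB A hi (fun s => (∀ j < mp, σ.m 9 j < s) ∧ ∃ i < idx, s ≤ QP0 i) (bpf QP0 idx) σ) :
    Ex E recBody σ (1800 * (A.n + 1)) (fun σ' => ∃ mp', σ'.v 18 = mp' ∧
      RI A lo hi QP0 RG0 RK0 (idx + 1) mp' (σ'.m 9) (σ'.m 10) (σ'.m 11) ∧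
      CB A hi (fun s => (∀ j < mp', σ'.m 9 j < s) ∧ ∃ i < idx + 1, s ≤ QP0 i)
        (bpf QP0 (idx + 1)) σ') := by
  obtain ⟨z1, z2, z3, z4, z5, z6⟩ := hs.facts
  have hmle := hcs.m_le
  have hmpi := hRI.mp_le
  set t := QP0 idx with ht
  have htD : t ≤ A.D := hcs.QP_le idx hidx
  have hQPt : σ.m 9 idx = t := hRI.QPo idx le_rfl
  have hb : hi < A.D := by omega
  have hlt : ∀ j < mp, σ.m 9 j < t := by
    intro j hj
    obtain ⟨i, hi', h5⟩ := hRI.mem1 j hj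
    rw [← h5]; exact hcs.mono i idx hi' hidx
  unfold recBody
  refine Ex.asg t (by (simp <;> omega)) (by decide) ?_ (by simp [hvx, hQPt]) ?_
  · simp [idxok, KA, ctx.B, hvx]
    omega
  have ctx1 := ctx.setv (x := 7) (y := t) (by decide) (by decide) (by decide)
  refine Ex.sq (800 * (A.n + 1)) (by (simp <;> omega)) ((rebase_spec hs ctx1 hb
    (X := fun s => (∀ j < mp, σ.m 9 j < s) ∧ ∃ i < idx, s ≤ QP0 i) (t := bpf QP0 idx) (t' := t)
    (hcs.bpf_le hidx) htD (by simp) ?_).frame.mono le_rfl ?_)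
  · exact ⟨by simpa using h.bp, by simpa using h.PB, by simpa using h.sum⟩
  rintro σ2 ⟨hfr2, g2⟩
  have ctx2 := ctx1.fr hfr2 (by decide)
  have hRG2 : σ2.m 10 = σ.m 10 := by rw [hfr2.2 10 (by decide)]; simp
  have hRK2 : σ2.m 11 = σ.m 11 := by rw [hfr2.2 11 (by decide)]; simp
  have hrow : A.IsSum hi (fun s => (∀ j < idx, QP0 j < s) ∧ s < t) t
      (fun c => σ.m 10 (idx * (A.n + 1) + c)) (fun i => σ.m 11 (idx * A.n + i)) := by
    refine (hcs.sum idx hidx hi (by omega) h3).congrGK ?_ ?_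
    · intro c _; exact hRI.RGo _ (Nat.le_add_right _ _)
    · intro i _; exact hRI.RKo _ (Nat.le_add_right _ _)
  refine Ex.sq (300 * (A.n + 1)) (by (simp <;> omega)) ((mrg_spec hs ctx2 (idx := idx)
    (Y := fun s => (∀ j < idx, QP0 j < s) ∧ s < t) ?_ (by omega) g2 hRG2 hRK2
    hrow).frame.mono le_rfl ?_)
  · rw [hfr2.1 13 (by decide)]; simp [hvx]
  rintro σ3 ⟨hfr3, g3⟩
  have ctx3 := ctx2.fr hfr3 (by decide)
  have hX : ∀ s, (((∀ j < mp, σ.m 9 j < s) ∧ ∃ i < idx, s ≤ QP0 i) ∨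
      ((∀ j < idx, QP0 j < s) ∧ s < t)) ↔ ((∀ j < mp, σ.m 9 j < s) ∧ s < t) := by
    intro s
    constructor
    · rintro (⟨k1, i, hi', k2⟩ | ⟨k1, k2⟩)
      · have := hcs.mono i idx hi' hidx
        exact ⟨k1, by omega⟩
      · refine ⟨?_, k2⟩
        intro j hj
        obtain ⟨i, hi', h5⟩ := hRI.mem1 j hj
        rw [← h5]; exact k1 i hi'
    · rintro ⟨k1, k2⟩
      by_cases hex : ∃ i < idx, s ≤ QP0 i
      · exact Or.inl ⟨k1, hex⟩
      · right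
        push Not at hex
        exact ⟨hex, k2⟩
  have g3' := g3.sum.congrX hX
  have vlo3 : σ3.v 19 = lo := by
    rw [hfr3.1 19 (by decide), hfr2.1 19 (by decide)]; simp [hvlo]
  have vhi3 : σ3.v 20 = hi := by
    rw [hfr3.1 20 (by decide), hfr2.1 20 (by decide)]; simp [hvhi]
  refine Ex.sq (200 * (A.n + 1)) (by (simp <;> omega)) ((unc_spec hs ctx3 htD vlo3 vhi3 g3.bp
    g3.PB).frame.mono le_rfl ?_)
  rintro σ4 ⟨hfr4, g4⟩
  have ctx4 := ctx3.fr hfr4 (by decide)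
  have vmp4 : σ4.v 18 = mp := by
    rw [hfr4.1 18 (by decide), hfr3.1 18 (by decide), hfr2.1 18 (by decide)]; simp [hmp]
  have vb4 : σ4.v 2 = hi := by
    rw [hfr4.1 2 (by decide), hfr3.1 2 (by decide), hfr2.1 2 (by decide)]; simp [hvb]
  have vt4 : σ4.v 7 = t := by
    rw [hfr4.1 7 (by decide), hfr3.1 7 (by decide), hfr2.1 7 (by decide)]; simp
  have bp4 : σ4.v 14 = t := by rw [hfr4.1 14 (by decide), g3.bp]
  have PB4 : ∀ i < A.n, σ4.m 16 i = A.q i t := by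
    intro i hi'; rw [hfr4.2 16 (by decide), g3.PB i hi']
  have G4 : σ4.m 12 = σ3.m 12 := by rw [hfr4.2 12 (by decide)]
  have K4 : σ4.m 13 = σ3.m 13 := by rw [hfr4.2 13 (by decide)]
  have QP4 : σ4.m 9 = σ.m 9 := by
    rw [hfr4.2 9 (by decide), hfr3.2 9 (by decide), hfr2.2 9 (by decide)]; simp
  have RG4 : σ4.m 10 = σ.m 10 := by
    rw [hfr4.2 10 (by decide), hfr3.2 10 (by decide), hfr2.2 10 (by decide)]; simp
  have RK4 : σ4.m 11 = σ.m 11 := by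
    rw [hfr4.2 11 (by decide), hfr3.2 11 (by decide), hfr2.2 11 (by decide)]; simp
  have hbpf : bpf QP0 (idx + 1) = t := by simp [bpf, ht]
  refine Ex.cond 1 (σ4.v 21) (by (simp <;> omega)) (by simp; omega) (by simp) (by simp) (by simp)
    (fun hle => ?_) (fun hle => ?_)
  · -- store
    have hu : A.Unc lo hi t := by
      rcases g4 with ⟨_, h5⟩ | ⟨h5, _⟩
      · exact h5
      · omega
    refine (sav_spec hs ctx4 vmp4 (by omega) vt4).frame.mono (by (simp <;> omega)) ?_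
    rintro σ5 ⟨hfr5, k1, k2, k3, k4, k5, k6, k7, k8⟩
    refine ⟨mp + 1, k1, ?_, ?_, ?_, ?_⟩
    · rw [G4] at k5
      rw [K4] at k7
      rw [QP4] at k2
      rw [RG4] at k6
      rw [RK4] at k8
      exact hRI.store hu hcs.mono hidx g3' k2 k5 k6 k7 k8
    · rw [hbpf, hfr5.1 14 (by decide), bp4]
    · intro i hi'
      rw [hbpf, hfr5.2 16 (by decide)]
      exact PB4 i hi'
    · rw [hbpf]
      refine ((Inst.IsSum.empty (A := A) hi t).congrX ?_).congrGK k3 k4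
      intro s
      constructor
      · exact fun h => h.elim
      · rintro ⟨l1, i, hi', l2⟩
        have l3 := l1 mp (by omega)
        rw [k2, if_pos rfl] at l3
        have := hcs.mono_le (show i ≤ idx by omega) hidx
        omega
  · have hu : ¬ A.Unc lo hi t := by
      rcases g4 with ⟨h5, _⟩ | ⟨_, h5⟩
      · omega
      · exact h5
    have g4' : CB A hi (fun s => (∀ j < mp, σ.m 9 j < s) ∧ s < t) t σ4 :=
      ⟨bp4, PB4, by rw [G4, K4]; exact g3'⟩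
    refine (ins_spec hs ctx4 hb htD vb4 g4').frame.mono (by (simp <;> omega)) ?_
    rintro σ5 ⟨hfr5, g5⟩
    have QP5 : σ5.m 9 = σ.m 9 := by rw [hfr5.2 9 (by decide), QP4]
    have RG5 : σ5.m 10 = σ.m 10 := by rw [hfr5.2 10 (by decide), RG4]
    have RK5 : σ5.m 11 = σ.m 11 := by rw [hfr5.2 11 (by decide), RK4]
    refine ⟨mp, by rw [hfr5.1 18 (by decide), vmp4], ?_, ?_⟩
    · rw [QP5, RG5, RK5]; exact hRI.skip hu
    · rw [hbpf, QP5]
      refine ⟨g5.bp, g5.PB, g5.sum.congrX ?_⟩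
      intro s
      constructor
      · rintro (⟨l1, l2⟩ | l1)
        · exact ⟨l1, idx, by omega, by omega⟩
        · subst l1
          exact ⟨hlt, idx, by omega, le_rfl⟩
      · rintro ⟨l1, i, hi', l2⟩
        have := hcs.mono_le (show i ≤ idx by omega) hidx
        by_cases hst : s = t
        · exact Or.inr hst
        · exact Or.inl ⟨l1, by omega⟩

set_option maxRecDepth 20000 in
theorem recompress_spec (hs : Sz E A) {σ : State} (ctx : Ctx E A σ) {lo0 hi0 lo hi m : ℕ}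
    (hcs : CS A lo0 hi0 m (σ.m 9) (σ.m 10) (σ.m 11)) (h1 : lo0 ≤ lo) (h2 : lo ≤ hi)
    (h3 : hi ≤ hi0) (h4 : hi0 < A.D) (hvm : σ.v 12 = m)
    (hvlo : σ.v 19 = lo) (hvhi : σ.v 20 = hi) :
    Ex E recompress σ (m * (2000 * (A.n + 1)) + 2000 * (A.n + 1)) (fun σ' =>
      Fr recompress.wv recompress.wa σ σ' ∧ ∃ m', σ'.v 12 = m' ∧
      CS A lo hi m' (σ'.m 9) (σ'.m 10) (σ'.m 11) ∧ m' ≤ 2 * (A.cnt (hi + 1) - A.cnt lo)) := by
  obtain ⟨z1, z2, z3, z4, z5, z6⟩ := hs.facts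
  have hmle := hcs.m_le
  refine Ex.frame ?_
  unfold recompress
  refine Ex.sq (120 * (A.n + 1)) (by omega) ((init0_spec hs ctx hi).frame.mono le_rfl ?_)
  rintro σ1 ⟨hfr1, g1⟩
  have ctx1 := ctx.fr hfr1 (by decide)
  refine Ex.asg 0 (by (simp <;> omega)) (by decide) (by simp) (by simp) ?_
  refine Ex.asg hi (by (simp <;> omega)) (by decide) (by simp) (by simp [hfr1.1 20 (by decide), hvhi]) ?_
  have ctx2 := (ctx1.setv (x := 18) (y := 0) (by decide) (by decide) (by decide)).setv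
    (x := 2) (y := hi) (by decide) (by decide) (by decide)
  set σ2 := (σ1.setv 18 0).setv 2 hi with hσ2
  have hQP2 : σ2.m 9 = σ.m 9 := by rw [hσ2]; simp [hfr1.2 9 (by decide)]
  have hRG2 : σ2.m 10 = σ.m 10 := by rw [hσ2]; simp [hfr1.2 10 (by decide)]
  have hRK2 : σ2.m 11 = σ.m 11 := by rw [hσ2]; simp [hfr1.2 11 (by decide)]
  have hvb2 : σ2.v 2 = hi := by rw [hσ2]; simp
  have hvmp2 : σ2.v 18 = 0 := by rw [hσ2]; simp
  have hvm2 : σ2.v 12 = m := by rw [hσ2]; simp [hfr1.1 12 (by decide), hvm]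
  have hlo2 : σ2.v 19 = lo := by rw [hσ2]; simp [hfr1.1 19 (by decide), hvlo]
  have hhi2 : σ2.v 20 = hi := by rw [hσ2]; simp [hfr1.1 20 (by decide), hvhi]
  have e1 : (Expr.var 12).len = 2 := rfl
  refine Ex.sq (m * (1800 * (A.n + 1) + ((Expr.var 12).len + 12)) + ((Expr.var 12).len + 12)) ?_
    ((Ex.forr (T1 := 1800 * (A.n + 1)) m (fun idx σ' =>
      ∃ mp, σ'.v 18 = mp ∧
      RI A lo hi (σ.m 9) (σ.m 10) (σ.m 11) idx mp (σ'.m 9) (σ'.m 10) (σ'.m 11) ∧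
      CB A hi (fun s => (∀ j < mp, σ'.m 9 j < s) ∧ ∃ i < idx, s ≤ σ.m 9 i)
        (bpf (σ.m 9) idx) σ')
      (by decide) (by decide) (by omega) ?_ ?_ ?_).mono le_rfl ?_)
  · have : m * (1800 * (A.n + 1) + ((Expr.var 12).len + 12)) ≤ m * (2000 * (A.n + 1)) :=
      Nat.mul_le_mul_left _ (by rw [e1]; omega)
    simp only [Expr.len_var, Expr.len_ofNat] at this ⊢
    omega
  · refine ⟨0, by simp [hvmp2], ?_, ?_, ?_, ?_⟩
    · have : RI A lo hi (σ.m 9) (σ.m 10) (σ.m 11) 0 0 (σ2.m 9) (σ2.m 10) (σ2.m 11) := by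
        rw [hQP2, hRG2, hRK2]; exact RI.init _ _ _ _ _
      simpa using this
    · simp [hσ2, bpf, g1.bp]
    · simpa [hσ2, bpf] using g1.PB
    · have := g1.sum.congrX (Y := fun s => (∀ j < 0, σ2.m 9 j < s) ∧ ∃ i < 0, s ≤ σ.m 9 i)
        (by simp)
      simpa [hσ2, bpf] using this
  · intro k hk σ' hfr _
    simp [hfr.1 12 (by decide), hvm2]
  · rintro idx hidx σ3 hfr3 ⟨mp, k1, k2, k3⟩ hv3
    have ctx3 := ctx2.fr hfr3 (by decide)
    refine (recBody_spec hs ctx3 (lo := lo) (hi := hi) (mp := mp) (idx := idx) hcs h1 h2 h3 h4 hidx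
      hv3 ?_ ?_ ?_ k1 k2 k3).mono le_rfl ?_
    · rw [hfr3.1 2 (by decide), hvb2]
    · rw [hfr3.1 19 (by decide), hlo2]
    · rw [hfr3.1 20 (by decide), hhi2]
    · rintro σ4 ⟨mp', l1, l2, l3⟩
      exact ⟨mp', by simpa using l1, by simpa using l2, by simpa using l3.bp, by simpa using l3.PB,
        by simpa using l3.sum⟩
  · rintro σ3 ⟨hfr3, ⟨mp, k1, k2, k3⟩, -⟩
    refine Ex.asg1 mp ?_ (by decide) (by simp) (by simp [k1]) ?_
    · have e2 : (0 : Expr).len = 1 := rfl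
      have e3 : (Expr.var 20).len = 2 := rfl
      have e4 : (Expr.var 18).len = 2 := rfl
      have : m * (1800 * (A.n + 1) + ((Expr.var 12).len + 12)) ≤ m * (2000 * (A.n + 1)) :=
        Nat.mul_le_mul_left _ (by rw [e1]; omega)
      simp only [Expr.len_var, Expr.len_ofNat] at this ⊢
      omega
    · refine ⟨mp, by simp, ?_, ?_⟩
      · simpa using k2.final hcs h1 h3
      · exact k2.card hcs.QP_le (by omega) h2

end

end Pool.Agent.helper9.Jit
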