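import Pool.Agent.helper9.Jit.Hoare

/-!
# Variables and arrays of the program; tournament trees
-/

set_option autoImplicit false

namespace Pool.Agent.helper9.Jit

/-- Tournament-tree invariant: internal nodes `1,…,n-1`, leaves `n,…,2n-1`. -/
def TI (n : ℕ) (T : ℕ → ℕ) : Prop := ∀ u, 1 ≤ u → u < n → T u = min (T (2 * u)) (T (2 * u + 1))

theorem TI.root_le {n : ℕ} {T : ℕ → ℕ} (h : TI n T) : ∀ u, 1 ≤ u → u < 2 * n → T 1 ≤ T u := by
  intro u
  induction u using Nat.strong_induction_on with
  | _ u ih =>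
    intro h1 h2
    by_cases hu : u = 1
    · subst hu; exact le_rfl
    · have h3 := ih (u / 2) (by omega) (by omega) (by omega)
      have h4 := h (u / 2) (by omega) (by omega)
      rcases Nat.mod_two_eq_zero_or_one u with hm | hm
      · have : 2 * (u / 2) = u := by omega
        rw [this] at h4
        have := min_le_left (T u) (T (u + 1))
        omega
      · have : 2 * (u / 2) + 1 = u := by omega
        rw [this] at h4
        have := min_le_right (T (2 * (u / 2))) (T u)
        omega

theorem TI.root_ex {n : ℕ} {T : ℕ → ℕ} (h : TI n T) (hn : 0 < n) : ∃ i < n, T 1 = T (n + i) := by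
  have key : ∀ m u, 1 ≤ u → u < 2 * n → 2 * n - u ≤ m → ∃ i < n, T u = T (n + i) := by
    intro m
    induction m with
    | zero => intro u h1 h2 h3; omega
    | succ m ih =>
      intro u h1 h2 h3
      by_cases hu : n ≤ u
      · exact ⟨u - n, by omega, by congr 1; omega⟩
      · have h4 := h u h1 (by omega)
        rcases le_total (T (2 * u)) (T (2 * u + 1)) with hc | hc
        · obtain ⟨i, hi, hi'⟩ := ih (2 * u) (by omega) (by omega) (by omega)
          exact ⟨i, hi, by rw [h4, min_eq_left hc, hi']⟩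
        · obtain ⟨i, hi, hi'⟩ := ih (2 * u + 1) (by omega) (by omega) (by omega)
          exact ⟨i, hi, by rw [h4, min_eq_right hc, hi']⟩
  exact key (2 * n) 1 le_rfl (by omega) (by omega)

/-- Write `vx` into leaf `vt` of the tree in array `a` and repair the path to the root. -/
def upd (a : ℕ) : Cmd :=
  Cmd.seq (.store a (Expr.var 7) (Expr.var 8)) <|
  .whl 2 (Expr.var 7) (
    Cmd.seq (.asgn 7 ((Expr.var 7) / 2)) <|
    .ite ((Expr.arr a (2 * (Expr.var 7)))) ((Expr.arr a (2 * (Expr.var 7) + 1)))
      (.store a (Expr.var 7) ((Expr.arr a (2 * (Expr.var 7)))))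
      (.store a (Expr.var 7) ((Expr.arr a (2 * (Expr.var 7) + 1)))))

@[simp] theorem upd_wv (a : ℕ) : (upd a).wv = [7] := rfl
theorem upd_wa (a : ℕ) : (upd a).wa = [a, a, a] := rfl

theorem upd_spec {E : Env} {a n v0 x : ℕ} {σ : State} (ha : a ≠ 0) (ha' : a ≤ 16)
    (h63 : σ.v 63 = E.B) (hI : 2 * n + 1 ≤ E.I) (hW : 4 * n + 4 ≤ E.W)
    (hv : σ.v 7 = v0) (hx : σ.v 8 = x) (hv1 : n ≤ v0) (hv2 : v0 < 2 * n) (hT : TI n (σ.m a)) :
    Ex E (upd a) σ (15 + Nat.log 2 v0 * 55) (fun σ' => Fr [7] [a] σ σ' ∧ TI n (σ'.m a) ∧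
      ∀ u, n ≤ u → u < 2 * n → σ'.m a u = if u = v0 then x else σ.m a u) := by
  have hn : 0 < n := by omega
  have main : Ex E (upd a) σ (15 + Nat.log 2 v0 * 55) (fun σ' => TI n (σ'.m a) ∧
      ∀ u, n ≤ u → u < 2 * n → σ'.m a u = if u = v0 then x else σ.m a u) := by
    refine Ex.mono (T := (2 + 2 + 6) + (Nat.log 2 v0 * 55 + (1 + 2 + 2))) ?_ (by omega) (fun _ h => h)
    refine Ex.seq (Ex.store (by simp) (by simp) (idxok_arr ha ha' h63 (by simp; omega)) ?_)
    simp only [Expr.eval_var, hv, hx]
    set σ1 := σ.setm a v0 x with hσ1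
    have hw := Ex.whl (E := E) (e := 2) (f := (Expr.var 7)) (c := Cmd.seq (.asgn 7 ((Expr.var 7) / 2)) <|
      .ite ((Expr.arr a (2 * (Expr.var 7)))) ((Expr.arr a (2 * (Expr.var 7) + 1)))
        (.store a (Expr.var 7) ((Expr.arr a (2 * (Expr.var 7)))))
        (.store a (Expr.var 7) ((Expr.arr a (2 * (Expr.var 7) + 1))))) (σ0 := σ1)
      (Inv := fun σ' => 1 ≤ σ'.v 7 ∧ σ'.v 7 < 2 * n ∧
        (∀ u, 1 ≤ u → u < n → (σ'.m a u = min (σ'.m a (2 * u)) (σ'.m a (2 * u + 1)) ∨
          ∃ j, 1 ≤ j ∧ σ'.v 7 / 2 ^ j = u)) ∧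
        ∀ u, n ≤ u → u < 2 * n → σ'.m a u = if u = v0 then x else σ.m a u)
      (Φ := fun σ' => Nat.log 2 (σ'.v 7) * 55) ?_ ?_
    · refine hw.mono ?_ ?_
      · simp [hσ1, hv]
      · rintro σ' ⟨-, ⟨h1, h2, h3, h4⟩, h5⟩
        refine ⟨?_, h4⟩
        simp only [Expr.eval_ofNat, Expr.eval_var] at h5
        have h6 : σ'.v 7 = 1 := by omega
        intro u hu1 hu2
        rcases h3 u hu1 hu2 with h | ⟨j, hj1, hj2⟩
        · exact h
        · rw [h6, Nat.div_eq_of_lt (Nat.one_lt_two_pow (by omega))] at hj2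
          omega
    · refine ⟨by simp [hσ1, hv]; omega, by simp [hσ1, hv]; omega, ?_, ?_⟩
      · intro u hu1 hu2
        by_cases h2u : v0 / 2 = u
        · right; exact ⟨1, le_rfl, by simp [hσ1, hv, h2u]⟩
        · left
          have e1 : u ≠ v0 := by omega
          have e2 : 2 * u ≠ v0 := by omega
          have e3 : 2 * u + 1 ≠ v0 := by omega
          simp only [hσ1, State.setm_m, if_true, if_neg e1, if_neg e2, if_neg e3]
          exact hT u hu1 hu2
      · intro u hu1 hu2
        simp [hσ1]
    · rintro σ2 hfr ⟨h1, h2, h3, h4⟩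
      have h63' : σ2.v 63 = E.B := by
        rw [hfr.1 63 (by simp [Cmd.wv])]; simp [hσ1, h63]
      refine ⟨by simp; omega, by simp, ?_⟩
      simp only [Expr.eval_ofNat, Expr.eval_var]
      intro hc
      set v := σ2.v 7 with hvdef
      refine ⟨6 + (10 + 12 + 2 + 20), ?_⟩
      refine Ex.seq (Ex.asgn (by simp) (by simp; omega) ?_)
      simp only [Expr.eval_div, Expr.eval_var, Expr.eval_ofNat, ← hvdef]
      have hvv : v / 2 < n := by omega
      have hv1' : 1 ≤ v / 2 := by omega
      have ok1 : idxok E (σ2.setv 7 (v / 2)) a (2 * (v / 2)) :=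
        idxok_arr ha ha' (by simpa using h63') (by omega)
      have ok2 : idxok E (σ2.setv 7 (v / 2)) a (2 * (v / 2) + 1) :=
        idxok_arr ha ha' (by simpa using h63') (by omega)
      have ok3 : idxok E (σ2.setv 7 (v / 2)) a (v / 2) :=
        idxok_arr ha ha' (by simpa using h63') (by omega)
      -- the general step
      have step : ∀ σ3 : State, σ3 = (σ2.setv 7 (v / 2)).setm a (v / 2)
          (min (σ2.m a (2 * (v / 2))) (σ2.m a (2 * (v / 2) + 1))) →
          (1 ≤ σ3.v 7 ∧ σ3.v 7 < 2 * n ∧
        (∀ u, 1 ≤ u → u < n → (σ3.m a u = min (σ3.m a (2 * u)) (σ3.m a (2 * u + 1)) ∨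
          ∃ j, 1 ≤ j ∧ σ3.v 7 / 2 ^ j = u)) ∧
        ∀ u, n ≤ u → u < 2 * n → σ3.m a u = if u = v0 then x else σ.m a u) ∧
        Nat.log 2 (σ3.v 7) * 55 + (6 + (10 + 12 + 2 + 20)) + (1 + 2 + 2) ≤ Nat.log 2 v * 55 := by
        intro σ3 hσ3
        have hvt : σ3.v 7 = v / 2 := by simp [hσ3]
        refine ⟨⟨by omega, by omega, ?_, ?_⟩, ?_⟩
        · intro u hu1 hu2
          rw [hvt]
          by_cases huv : u = v / 2
          · left
            have e2 : 2 * u ≠ v / 2 := by omega
            have e3 : 2 * u + 1 ≠ v / 2 := by omega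
            subst huv
            simp only [hσ3, State.setm_m, State.setv_m, if_true, if_neg e2, if_neg e3]
          · rcases h3 u hu1 hu2 with h | ⟨j, hj1, hj2⟩
            · by_cases hu4 : u = v / 2 / 2
              · right; exact ⟨1, le_rfl, by simp [hu4]⟩
              · left
                have e2 : 2 * u ≠ v / 2 := by omega
                have e3 : 2 * u + 1 ≠ v / 2 := by omega
                simp only [hσ3, State.setm_m, State.setv_m, if_true, if_neg e2, if_neg e3,
                  if_neg huv]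
                exact h
            · right
              have hj3 : j ≠ 1 := by
                rintro rfl
                simp only [pow_one] at hj2
                exact huv hj2.symm
              refine ⟨j - 1, by omega, ?_⟩
              rw [Nat.div_div_eq_div_mul, ← pow_succ', show j - 1 + 1 = j by omega]
              exact hj2
        · intro u hu1 hu2
          have e1 : u ≠ v / 2 := by omega
          simp only [hσ3, State.setm_m, State.setv_m, if_true, if_neg e1]
          exact h4 u hu1 hu2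
        · rw [hvt, Nat.log_div_base]
          have : 1 ≤ Nat.log 2 v := Nat.log_pos (by norm_num) hc
          omega
      refine Ex.le (Ex.ite (T := 20) ?_ ?_ ?_ ?_) (by simp [ha])
      · simp only [Expr.ok_arr, Expr.ok_mul, Expr.ok_ofNat, Expr.ok_var, Expr.eval_mul,
          Expr.eval_ofNat, Expr.eval_var, State.setv_v, if_true]
        exact ⟨⟨by omega, by omega, by omega⟩, ok1⟩
      · simp only [Expr.ok_arr, Expr.ok_mul, Expr.ok_ofNat, Expr.ok_var, Expr.eval_mul,
          Expr.eval_ofNat, Expr.eval_var, State.setv_v, if_true, Expr.ok_add, Expr.eval_add]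
        exact ⟨⟨⟨by omega, by omega, by omega⟩, by omega, by omega⟩, ok2⟩
      · intro hle
        simp only [Expr.eval_arr, Expr.eval_mul, Expr.eval_ofNat, Expr.eval_var, State.setv_v,
          if_true, State.setv_m, Expr.eval_add] at hle
        refine Ex.le (Ex.store (by simp) ?_ ?_ ?_) (by simp [ha])
        · simp only [Expr.ok_arr, Expr.ok_mul, Expr.ok_ofNat, Expr.ok_var, Expr.eval_mul,
            Expr.eval_ofNat, Expr.eval_var, State.setv_v, if_true]
          exact ⟨⟨by omega, by omega, by omega⟩, ok1⟩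
        · simpa using ok3
        · apply step
          simp only [Expr.eval_arr, Expr.eval_mul, Expr.eval_ofNat, Expr.eval_var, State.setv_v,
            if_true, State.setv_m, Expr.eval_add]
          rw [min_eq_left hle]
      · intro hle
        simp only [Expr.eval_arr, Expr.eval_mul, Expr.eval_ofNat, Expr.eval_var, State.setv_v,
          if_true, State.setv_m, Expr.eval_add] at hle
        refine Ex.le (Ex.store (by simp) ?_ ?_ ?_) (by simp [ha])
        · simp only [Expr.ok_arr, Expr.ok_mul, Expr.ok_ofNat, Expr.ok_var, Expr.eval_mul,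
            Expr.eval_ofNat, Expr.eval_var, State.setv_v, if_true, Expr.ok_add, Expr.eval_add]
          exact ⟨⟨⟨by omega, by omega, by omega⟩, by omega, by omega⟩, ok2⟩
        · simpa using ok3
        · apply step
          simp only [Expr.eval_arr, Expr.eval_mul, Expr.eval_ofNat, Expr.eval_var, State.setv_v,
            if_true, State.setv_m, Expr.eval_add]
          rw [min_eq_right (by omega)]
  refine main.frame.mono le_rfl ?_
  rintro σ' ⟨hfr, h⟩
  refine ⟨hfr.mono (fun x hx => hx) ?_, h⟩
  intro y hy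
  rw [upd_wa] at hy
  simpa using hy

end Pool.Agent.helper9.Jit
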