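import Pool.Agent.helper9.Jit.Math1
import Pool.Agent.helper9.Jit.Tree

/-!
# The earliest-deadline-first rule: mathematical part
-/

set_option autoImplicit false

namespace Pool.Agent.helper9.Jit

open Finset

namespace Inst

variable (A : Inst)

/-- offset of letter `i` in the list of copies -/
def S (i : ℕ) : ℕ := ∑ l ∈ range i, A.d l

theorem S_succ (i : ℕ) : A.S (i + 1) = A.S i + A.d i := by
  unfold S; rw [sum_range_succ]

theorem S_mono {i j : ℕ} (h : i ≤ j) : A.S i ≤ A.S j := by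
  unfold S
  exact sum_le_sum_of_subset (range_subset_range.2 h)

theorem S_n : A.S A.n = A.D := A.hD.symm

theorem S_lt {i j : ℕ} (hi : i < A.n) (hj : j < A.d i) : A.S i + j < A.D := by
  have h1 := A.S_succ i
  have h2 := A.S_mono (show i + 1 ≤ A.n from hi)
  rw [A.S_n] at h2
  omega

theorem S_inj {i j i' j' : ℕ} (hj : j < A.d i) (hj' : j' < A.d i')
    (h : A.S i + j = A.S i' + j') : i = i' ∧ j = j' := by
  have h1 := A.S_succ i
  have h2 := A.S_succ i'
  rcases Nat.lt_trichotomy i i' with hlt | heq | hgt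
  · have := A.S_mono (show i + 1 ≤ i' from hlt); omega
  · subst heq; exact ⟨rfl, by omega⟩
  · have := A.S_mono (show i' + 1 ≤ i from hgt); omega

/-- release position (1-based) of copy `(i,j)` -/
def rel (b i j : ℕ) : ℕ := ((j + 1) * A.D - b + A.d i - 1) / A.d i
/-- deadline (1-based) of copy `(i,j)` -/
def dl (b i j : ℕ) : ℕ := (j * A.D + b) / A.d i + 1

theorem rel_le_iff {b i j k : ℕ} (hb : b < A.D) (hi : i < A.n) :
    A.rel b i j ≤ k ↔ j < A.U b i k := by
  have hd := A.hd i hi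
  have hD := A.hDpos
  rw [A.lt_U_iff hb, rel, Nat.div_le_iff_le_mul_add_pred hd]
  have h1 : (j + 1) * A.D = A.D * (j + 1) := Nat.mul_comm _ _
  have h2 : A.d i * k = k * A.d i := Nat.mul_comm _ _
  have h3 : A.D ≤ A.D * (j + 1) := Nat.le_mul_of_pos_right _ (Nat.succ_pos _)
  rw [h1, h2]
  omega

theorem le_dl_iff {b i j p : ℕ} (hb : b < A.D) (hi : i < A.n) :
    p + 1 ≤ A.dl b i j ↔ A.L b i p ≤ j := by
  have hd := A.hd i hi
  rw [A.L_le_iff hb, dl, Nat.add_le_add_iff_right, Nat.le_div_iff_mul_le hd, Nat.mul_comm A.D j]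

theorem rel_pos {b i j : ℕ} (hb : b < A.D) (hi : i < A.n) : 1 ≤ A.rel b i j := by
  by_contra h
  have : A.rel b i j ≤ 0 := by omega
  rw [A.rel_le_iff hb hi, A.U_zero hb] at this
  omega

theorem rel_le_D {b i j : ℕ} (hb : b < A.D) (hi : i < A.n) (hj : j < A.d i) :
    A.rel b i j ≤ A.D := by
  rw [A.rel_le_iff hb hi, A.U_D hb]; exact hj

theorem dl_le_D {b i j : ℕ} (hb : b < A.D) (hi : i < A.n) (hj : j < A.d i) :
    A.dl b i j ≤ A.D := by
  by_contra h
  have : A.D + 1 ≤ A.dl b i j := by omega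
  rw [A.le_dl_iff hb hi, A.L_D] at this
  omega

theorem rel_mono {b i j j' : ℕ} (h : j ≤ j') : A.rel b i j ≤ A.rel b i j' := by
  unfold rel
  apply Nat.div_le_div_right
  have := Nat.mul_le_mul_right A.D (show j + 1 ≤ j' + 1 by omega)
  omega

theorem dl_mono {b i j j' : ℕ} (h : j ≤ j') : A.dl b i j ≤ A.dl b i j' := by
  unfold dl
  have := Nat.mul_le_mul_right A.D h
  have := Nat.div_le_div_right (c := A.d i) (show j * A.D + b ≤ j' * A.D + b by omega)
  omega

theorem valid_iff {b i j p : ℕ} (hb : b < A.D) (hi : i < A.n) :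
    A.valid b i j p ↔ A.rel b i j ≤ p + 1 ∧ p + 1 ≤ A.dl b i j := by
  unfold valid
  rw [A.rel_le_iff hb hi, A.le_dl_iff hb hi]
  tauto

/-- placed copies -/
def Pl (X : ℕ → ℕ) : Finset (ℕ × ℕ) := A.Cs.filter (fun c => c.2 < X c.1)

theorem card_Pl {X : ℕ → ℕ} (hX : ∀ i < A.n, X i ≤ A.d i) :
    (A.Pl X).card = ∑ i ∈ range A.n, X i := by
  unfold Pl
  rw [A.card_filter_Cs]
  refine sum_congr rfl fun i hi => ?_
  have h := card_Ico_filter 0 (X i) (A.d i) (hX i (mem_range.1 hi))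
  simp only [Nat.zero_le, true_and, Nat.sub_zero] at h
  exact h

/-- `π` extends the partial placement. -/
def Ext (X P : ℕ → ℕ) (π : ℕ × ℕ → ℕ) : Prop :=
  ∀ i < A.n, ∀ j < X i, π (i, j) + 1 = P (A.S i + j)

/-- An unplaced copy sits at a position `≥ k - 1`. -/
theorem ext_unplaced {b k : ℕ} {X P : ℕ → ℕ} {π : ℕ × ℕ → ℕ} (hX : ∀ i < A.n, X i ≤ A.d i)
    (hk : k = 1 + ∑ i ∈ range A.n, X i) (hP : ∀ i < A.n, ∀ j < X i, P (A.S i + j) < k)
    (hπ : A.Good b π) (hext : A.Ext X P π) {c : ℕ × ℕ} (hc : c ∈ A.Cs) (hcX : X c.1 ≤ c.2) :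
    k ≤ π c + 1 := by
  by_contra hcon
  have himg : (A.Pl X).image π = range (k - 1) := by
    apply eq_of_subset_of_card_le
    · intro y hy
      obtain ⟨c', hc', rfl⟩ := mem_image.1 hy
      obtain ⟨h1, h2⟩ := mem_filter.1 hc'
      have h3 := (A.mem_Cs.1 h1).1
      have h4 := hext c'.1 h3 c'.2 h2
      have h5 := hP c'.1 h3 c'.2 h2
      rw [mem_range]
      have : π c' + 1 < k := by
        have h6 : π (c'.1, c'.2) = π c' := rfl
        rw [h6] at h4; omega
      omega
    · rw [card_image_of_injOn (hπ.2.mono (by intro c hc; exact (mem_filter.1 (mem_coe.1 hc)).1)),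
        A.card_Pl hX, card_range]
      omega
  have hmem : π c ∈ (A.Pl X).image π := by
    rw [himg, mem_range]; omega
  obtain ⟨c', hc', hcc'⟩ := mem_image.1 hmem
  obtain ⟨h1, h2⟩ := mem_filter.1 hc'
  have := hπ.2 (mem_coe.2 h1) (mem_coe.2 hc) hcc'
  subst this
  omega

/-- Every position is used. -/
theorem good_surj {b : ℕ} {π : ℕ × ℕ → ℕ} (hπ : A.Good b π) {p : ℕ} (hp : p < A.D) :
    ∃ c ∈ A.Cs, π c = p := by
  have himg : A.Cs.image π = range A.D := by
    apply eq_of_subset_of_card_le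
    · intro y hy
      obtain ⟨c', hc', rfl⟩ := mem_image.1 hy
      exact mem_range.2 (hπ.1 c' hc').1
    · rw [card_image_of_injOn hπ.2, A.card_Cs, card_range]
  have : p ∈ A.Cs.image π := by rw [himg]; exact mem_range.2 hp
  obtain ⟨c, hc, h⟩ := mem_image.1 this
  exact ⟨c, hc, h⟩

/-- The exchange argument. -/
theorem place_ext {b k i0 : ℕ} {X P : ℕ → ℕ} {π : ℕ × ℕ → ℕ} (hb : b < A.D)
    (hX : ∀ i < A.n, X i ≤ A.d i)
    (hk : k = 1 + ∑ i ∈ range A.n, X i) (hkD : k ≤ A.D)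
    (hP : ∀ i < A.n, ∀ j < X i, P (A.S i + j) < k)
    (hπ : A.Good b π) (hext : A.Ext X P π) (hi0 : i0 < A.n) (hX0 : X i0 < A.d i0)
    (hrel : A.rel b i0 (X i0) ≤ k) (hdl : k ≤ A.dl b i0 (X i0))
    (hmin : ∀ i < A.n, X i < A.d i → A.rel b i (X i) ≤ k → A.dl b i0 (X i0) ≤ A.dl b i (X i)) :
    ∃ π', A.Good b π' ∧ A.Ext X P π' ∧ π' (i0, X i0) + 1 = k := by
  have hk1 : 1 ≤ k := by omega
  set c : ℕ × ℕ := (i0, X i0) with hc
  have hcC : c ∈ A.Cs := A.mem_Cs.2 ⟨hi0, hX0⟩
  obtain ⟨c', hc'C, hc'⟩ := A.good_surj hπ (show k - 1 < A.D by omega)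
  have hc'X : X c'.1 ≤ c'.2 := by
    by_contra hcon
    have h3 := (A.mem_Cs.1 hc'C).1
    have h4 := hext c'.1 h3 c'.2 (by omega)
    have h5 := hP c'.1 h3 c'.2 (by omega)
    have h6 : π (c'.1, c'.2) = π c' := rfl
    rw [h6] at h4; omega
  by_cases hcc : c' = c
  · exact ⟨π, hπ, hext, by rw [← hcc, hc']; omega⟩
  · have hm1 : k ≤ π c + 1 := A.ext_unplaced hX hk hP hπ hext hcC le_rfl
    have hm2 : π c ≠ k - 1 := by
      intro h
      exact hcc (hπ.2 (mem_coe.2 hc'C) (mem_coe.2 hcC) (by rw [hc', h]))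
    refine ⟨fun x => π (Equiv.swap c c' x), ⟨?_, ?_⟩, ?_, ?_⟩
    · intro x hx
      by_cases h1 : x = c
      · subst h1
        simp only [Equiv.swap_apply_left, hc']
        refine ⟨by omega, ?_⟩
        rw [A.valid_iff hb hi0]
        rw [Nat.sub_add_cancel hk1]
        exact ⟨hrel, hdl⟩
      · by_cases h2 : x = c'
        · subst h2
          simp only [Equiv.swap_apply_right]
          have h3 := hπ.1 c hcC
          refine ⟨h3.1, ?_⟩
          have hi' := (A.mem_Cs.1 hc'C)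
          have hval := hπ.1 x hc'C
          rw [hc'] at hval
          have hv1 := (A.valid_iff hb hi'.1).1 hval.2
          rw [Nat.sub_add_cancel hk1] at hv1
          have hv2 := (A.valid_iff hb hi0).1 h3.2
          rw [A.valid_iff hb hi'.1]
          refine ⟨by omega, ?_⟩
          have h4 := hmin x.1 hi'.1 (by omega) ((A.rel_mono hc'X).trans hv1.1)
          have h5 := A.dl_mono (b := b) (i := x.1) hc'X
          have h6 : π c + 1 ≤ A.dl b i0 (X i0) := hv2.2
          omega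
        · simp only [Equiv.swap_apply_of_ne_of_ne h1 h2]
          exact hπ.1 x hx
    · intro x hx y hy hxy
      have hmem : ∀ z ∈ A.Cs, Equiv.swap c c' z ∈ A.Cs := by
        intro z hz
        by_cases h1 : z = c
        · subst h1; simpa using hc'C
        · by_cases h2 : z = c'
          · subst h2; simpa using hcC
          · rwa [Equiv.swap_apply_of_ne_of_ne h1 h2]
      have := hπ.2 (mem_coe.2 (hmem x (mem_coe.1 hx))) (mem_coe.2 (hmem y (mem_coe.1 hy))) hxy
      exact (Equiv.swap c c').injective this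
    · intro i hi j hj
      have h1 : (i, j) ≠ c := by
        rintro h
        rw [hc, Prod.mk.injEq] at h
        obtain ⟨h1, h2⟩ := h
        subst h1; omega
      have h2 : (i, j) ≠ c' := by
        rintro h
        rw [← h] at hc'X
        simp only at hc'X
        omega
      simp only [Equiv.swap_apply_of_ne_of_ne h1 h2]
      exact hext i hi j hj
    · simp only [Equiv.swap_apply_left, hc']
      omega

/-- The state of the EDF procedure (while it has not failed). -/
structure EI (b it k : ℕ) (X TA TB P : ℕ → ℕ) : Prop where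
  hk : k = 1 + ∑ i ∈ range A.n, X i
  hX : ∀ i < A.n, X i ≤ A.d i
  tiA : TI A.n TA
  tiB : TI A.n TB
  leaf : ∀ i < A.n,
    (X i = A.d i ∧ TA (A.n + i) = (A.D + 2) * A.n ∧ TB (A.n + i) = (A.D + 2) * A.n) ∨
    (X i < A.d i ∧ TB (A.n + i) = (A.D + 2) * A.n ∧ ∃ w, TA (A.n + i) = w * A.n + i ∧
      A.rel b i (X i) ≤ w ∧ w ≤ max (A.rel b i (X i)) k) ∨
    (X i < A.d i ∧ TA (A.n + i) = (A.D + 2) * A.n ∧ TB (A.n + i) = A.dl b i (X i) * A.n + i ∧
      A.rel b i (X i) ≤ k)
  hit : it = 2 * (k - 1) + ((range A.n).filter (fun i => TB (A.n + i) ≠ (A.D + 2) * A.n)).card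
  placed : ∀ i < A.n, ∀ j < X i, 1 ≤ P (A.S i + j) ∧ P (A.S i + j) < k ∧
    A.valid b i j (P (A.S i + j) - 1)
  inj : ∀ i < A.n, ∀ j < X i, ∀ i' < A.n, ∀ j' < X i', P (A.S i + j) = P (A.S i' + j') →
    i = i' ∧ j = j'
  ext : A.Feas b → ∃ π, A.Good b π ∧ A.Ext X P π

variable {A}

theorem EI.sum_le {b it k : ℕ} {X TA TB P : ℕ → ℕ} (h : A.EI b it k X TA TB P) :
    ∑ i ∈ range A.n, X i ≤ A.D := by
  rw [A.hD]; exact sum_le_sum fun i hi => h.hX i (mem_range.1 hi)

theorem EI.k_le {b it k : ℕ} {X TA TB P : ℕ → ℕ} (h : A.EI b it k X TA TB P) :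
    k ≤ A.D + 1 := by have := h.sum_le; have := h.hk; omega

theorem EI.k_pos {b it k : ℕ} {X TA TB P : ℕ → ℕ} (h : A.EI b it k X TA TB P) :
    1 ≤ k := by have := h.hk; omega

/-- number of letters in state C -/
theorem EI.card_le {b it k : ℕ} {X TA TB P : ℕ → ℕ} (h : A.EI b it k X TA TB P) :
    ((range A.n).filter (fun i => TB (A.n + i) ≠ (A.D + 2) * A.n)).card + (k - 1) ≤ A.D := by
  have h1 : ((range A.n).filter (fun i => TB (A.n + i) ≠ (A.D + 2) * A.n)).card ≤
      ∑ i ∈ range A.n, (A.d i - X i) := by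
    rw [card_filter]
    refine sum_le_sum fun i hi => ?_
    rw [mem_range] at hi
    split
    · rename_i hne
      rcases h.leaf i hi with ⟨-, -, h2⟩ | ⟨-, h2, -⟩ | ⟨h2, -⟩
      · exact absurd h2 hne
      · exact absurd h2 hne
      · omega
    · exact Nat.zero_le _
  have h2 : ∑ i ∈ range A.n, (A.d i - X i) + ∑ i ∈ range A.n, X i = A.D := by
    rw [← sum_add_distrib, A.hD]
    refine sum_congr rfl fun i hi => ?_
    have := h.hX i (mem_range.1 hi)
    omega
  have := h.hk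
  omega

theorem EI.k_le_D {b it k : ℕ} {X TA TB P : ℕ → ℕ} (h : A.EI b it k X TA TB P)
    (hit : it < 2 * A.D) : k ≤ A.D := by
  have h1 := h.card_le
  have h2 := h.hit
  have h3 := h.hk
  by_contra hcon
  omega

theorem EI.final {b k : ℕ} {X TA TB P : ℕ → ℕ} (h : A.EI b (2 * A.D) k X TA TB P) :
    ∀ i < A.n, X i = A.d i := by
  have h1 := h.card_le
  have h2 := h.hit
  have h3 := h.hk
  have h4 : ∑ i ∈ range A.n, X i = ∑ i ∈ range A.n, A.d i := by
    rw [← A.hD]; have := h.sum_le; omega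
  intro i hi
  exact (sum_eq_sum_iff_of_le (fun i hi => h.hX i (mem_range.1 hi))).1 h4 i (mem_range.2 hi)

theorem EI.good {b k : ℕ} {X TA TB P : ℕ → ℕ} (h : A.EI b (2 * A.D) k X TA TB P) :
    A.Good b (fun c => P (A.S c.1 + c.2) - 1) := by
  have hf := h.final
  refine ⟨?_, ?_⟩
  · intro c hc
    obtain ⟨h1, h2⟩ := A.mem_Cs.1 hc
    obtain ⟨h3, h4, h5⟩ := h.placed c.1 h1 c.2 (by rw [hf c.1 h1]; exact h2)
    have := h.k_le
    refine ⟨?_, h5⟩
    show P (A.S c.1 + c.2) - 1 < A.D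
    omega
  · intro c hc c' hc' hcc'
    obtain ⟨h1, h2⟩ := A.mem_Cs.1 (mem_coe.1 hc)
    obtain ⟨h1', h2'⟩ := A.mem_Cs.1 (mem_coe.1 hc')
    obtain ⟨h3, h4, h5⟩ := h.placed c.1 h1 c.2 (by rw [hf c.1 h1]; exact h2)
    obtain ⟨h3', h4', h5'⟩ := h.placed c'.1 h1' c'.2 (by rw [hf c'.1 h1']; exact h2')
    simp only at hcc'
    obtain ⟨e1, e2⟩ := h.inj c.1 h1 c.2 (by rw [hf c.1 h1]; exact h2) c'.1 h1' c'.2
      (by rw [hf c'.1 h1']; exact h2') (by omega)
    exact Prod.ext e1 e2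

theorem key_mod {n w i : ℕ} (hi : i < n) : w * n + i - (w * n + i) / n * n = i := by
  have h1 : (w * n + i) / n = w := by
    rw [Nat.add_comm, Nat.add_mul_div_right _ _ (by omega), Nat.div_eq_of_lt hi, Nat.zero_add]
  rw [h1]; omega

theorem key_lt {n w i k : ℕ} (hi : i < n) : w * n + i < k * n ↔ w < k := by
  constructor
  · intro h
    by_contra hcon
    have := Nat.mul_le_mul_right n (show k ≤ w by omega)
    omega
  · intro h
    have := Nat.mul_le_mul_right n (show w + 1 ≤ k from h)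
    rw [Nat.add_mul] at this
    omega

/-- Decoding the root of the first tree. -/
theorem EI.rootA {b it k : ℕ} {X TA TB P : ℕ → ℕ} (h : A.EI b it k X TA TB P)
    (hr : TA 1 < (k + 1) * A.n) :
    TA 1 - TA 1 / A.n * A.n < A.n ∧
    X (TA 1 - TA 1 / A.n * A.n) < A.d (TA 1 - TA 1 / A.n * A.n) ∧
    TB (A.n + (TA 1 - TA 1 / A.n * A.n)) = (A.D + 2) * A.n ∧
    A.rel b (TA 1 - TA 1 / A.n * A.n) (X (TA 1 - TA 1 / A.n * A.n)) ≤ k := by
  obtain ⟨i, hi, hroot⟩ := h.tiA.root_ex A.hn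
  have hk := h.k_le
  have hinf : (k + 1) * A.n ≤ (A.D + 2) * A.n := Nat.mul_le_mul_right _ (by omega)
  rcases h.leaf i hi with ⟨-, h1, -⟩ | ⟨h1, h2, w, h3, h4, h5⟩ | ⟨-, h1, -⟩
  · omega
  · have e : TA 1 - TA 1 / A.n * A.n = i := by rw [hroot, h3]; exact key_mod hi
    rw [e]
    rw [hroot, h3, key_lt hi] at hr
    exact ⟨hi, h1, h2, by omega⟩
  · omega

/-- The move step. -/
theorem EI.move {b it k : ℕ} {X TA TB P : ℕ → ℕ} (h : A.EI b it k X TA TB P)
    (hb : b < A.D)
    {i0 : ℕ} (hi0 : i0 < A.n) (hX0 : X i0 < A.d i0) (hTB0 : TB (A.n + i0) = (A.D + 2) * A.n)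
    (hrel : A.rel b i0 (X i0) ≤ k) {TA' TB' : ℕ → ℕ} (hA : TI A.n TA') (hB : TI A.n TB')
    (hA' : ∀ u, A.n ≤ u → u < 2 * A.n → TA' u = if u = A.n + i0 then (A.D + 2) * A.n else TA u)
    (hB' : ∀ u, A.n ≤ u → u < 2 * A.n →
      TB' u = if u = A.n + i0 then A.dl b i0 (X i0) * A.n + i0 else TB u) :
    A.EI b (it + 1) k X TA' TB' P := by
  have hlt : A.dl b i0 (X i0) * A.n + i0 < (A.D + 2) * A.n := by
    rw [key_lt hi0]; have := A.dl_le_D hb hi0 hX0; omega
  refine ⟨h.hk, h.hX, hA, hB, ?_, ?_, h.placed, h.inj, h.ext⟩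
  · intro i hi
    rw [hA' _ (by omega) (by omega), hB' _ (by omega) (by omega)]
    by_cases hii : i = i0
    · subst hii
      right; right
      rw [if_pos rfl, if_pos rfl]
      exact ⟨hX0, rfl, rfl, hrel⟩
    · rw [if_neg (by omega), if_neg (by omega)]
      exact h.leaf i hi
  · rw [h.hit]
    have : (range A.n).filter (fun i => TB' (A.n + i) ≠ (A.D + 2) * A.n) =
        insert i0 ((range A.n).filter (fun i => TB (A.n + i) ≠ (A.D + 2) * A.n)) := by
      ext i
      simp only [mem_filter, mem_range, mem_insert]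
      constructor
      · rintro ⟨h1, h2⟩
        rw [hB' _ (by omega) (by omega)] at h2
        by_cases hii : i = i0
        · left; exact hii
        · right
          rw [if_neg (by omega)] at h2
          exact ⟨h1, h2⟩
      · rintro (h1 | ⟨h1, h2⟩)
        · subst h1
          refine ⟨hi0, ?_⟩
          rw [hB' _ (by omega) (by omega), if_pos rfl]
          omega
        · refine ⟨h1, ?_⟩
          rw [hB' _ (by omega) (by omega)]
          split
          · omega
          · exact h2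
    rw [this, card_insert_of_notMem]
    · omega
    · simp only [mem_filter, not_and, not_not]
      intro _
      exact hTB0

/-- Decoding the root of the second tree. -/
theorem EI.rootB {b it k : ℕ} {X TA TB P : ℕ → ℕ} (h : A.EI b it k X TA TB P) (hb : b < A.D)
    (hr : TB 1 < (A.D + 2) * A.n) (hr2 : k * A.n ≤ TB 1) :
    TB 1 - TB 1 / A.n * A.n < A.n ∧
    X (TB 1 - TB 1 / A.n * A.n) < A.d (TB 1 - TB 1 / A.n * A.n) ∧
    TB (A.n + (TB 1 - TB 1 / A.n * A.n)) ≠ (A.D + 2) * A.n ∧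
    TA (A.n + (TB 1 - TB 1 / A.n * A.n)) = (A.D + 2) * A.n ∧
    A.rel b (TB 1 - TB 1 / A.n * A.n) (X (TB 1 - TB 1 / A.n * A.n)) ≤ k ∧
    k ≤ A.dl b (TB 1 - TB 1 / A.n * A.n) (X (TB 1 - TB 1 / A.n * A.n)) ∧
    (∀ i < A.n, X i < A.d i → TB (A.n + i) ≠ (A.D + 2) * A.n →
      A.dl b (TB 1 - TB 1 / A.n * A.n) (X (TB 1 - TB 1 / A.n * A.n)) ≤ A.dl b i (X i)) := by
  obtain ⟨i, hi, hroot⟩ := h.tiB.root_ex A.hn
  rcases h.leaf i hi with ⟨-, -, h1⟩ | ⟨h1, h2, -⟩ | ⟨h1, h2, h3, h4⟩
  · omega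
  · omega
  · have e : TB 1 - TB 1 / A.n * A.n = i := by rw [hroot, h3]; exact key_mod hi
    rw [e]
    refine ⟨hi, h1, by omega, h2, h4, ?_, ?_⟩
    · by_contra hcon
      have := (key_lt hi (k := k)).2 (show A.dl b i (X i) < k by omega)
      omega
    · intro i' hi' hX' hTB'
      rcases h.leaf i' hi' with ⟨-, -, h1'⟩ | ⟨h1', h2', -⟩ | ⟨h1', h2', h3', h4'⟩
      · omega
      · omega
      · have h5 := h.tiB.root_le (A.n + i') (by have := A.hn; omega) (by omega)
        by_contra hcon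
        have h6 := (key_lt hi' (w := A.dl b i' (X i')) (k := A.dl b i (X i))).2 (by omega)
        omega

theorem EI.relC {b it k : ℕ} {X TA TB P : ℕ → ℕ} (h : A.EI b it k X TA TB P)
    (hr : ¬ TA 1 < (k + 1) * A.n) {i : ℕ} (hi : i < A.n) (hX : X i < A.d i)
    (hrel : A.rel b i (X i) ≤ k) : TB (A.n + i) = A.dl b i (X i) * A.n + i := by
  rcases h.leaf i hi with ⟨h1, -⟩ | ⟨h1, h2, w, h3, h4, h5⟩ | ⟨h1, h2, h3, h4⟩
  · omega
  · exfalso
    have h6 := h.tiA.root_le (A.n + i) (by omega) (by omega)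
    have h7 : w < k + 1 := by omega
    have h8 := (key_lt hi (k := k + 1)).2 h7
    omega
  · exact h3

/-- The failure step. -/
theorem EI.fail {b it k : ℕ} {X TA TB P : ℕ → ℕ} (h : A.EI b it k X TA TB P) (hb : b < A.D)
    (hit : it < 2 * A.D) (hr : ¬ TA 1 < (k + 1) * A.n)
    (hr2 : ¬ TB 1 < (A.D + 2) * A.n ∨ ¬ k * A.n ≤ TB 1) : ¬ A.Feas b := by
  intro hfeas
  obtain ⟨π, hπ, hext⟩ := h.ext hfeas
  have hkD := h.k_le_D hit
  have hk1 := h.k_pos
  obtain ⟨c', hc'C, hc'⟩ := A.good_surj hπ (show k - 1 < A.D by omega)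
  have hc := A.mem_Cs.1 hc'C
  have hc'X : X c'.1 ≤ c'.2 := by
    by_contra hcon
    have h4 := hext c'.1 hc.1 c'.2 (by omega)
    have h5 := (h.placed c'.1 hc.1 c'.2 (by omega)).2.1
    have h6 : π (c'.1, c'.2) = π c' := rfl
    rw [h6] at h4; omega
  have hval := hπ.1 c' hc'C
  rw [hc'] at hval
  have hv1 := (A.valid_iff hb hc.1).1 hval.2
  rw [Nat.sub_add_cancel hk1] at hv1
  have h1 : X c'.1 < A.d c'.1 := by omega
  have h2 := h.relC hr hc.1 h1 ((A.rel_mono hc'X).trans hv1.1)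
  have h3 := h.tiB.root_le (A.n + c'.1) (by have := A.hn; omega) (by omega)
  have h4 : A.dl b c'.1 (X c'.1) * A.n + c'.1 < (A.D + 2) * A.n := by
    rw [key_lt hc.1]; have := A.dl_le_D hb hc.1 h1; omega
  rcases hr2 with hr2 | hr2
  · omega
  · obtain ⟨i, hi, hroot⟩ := h.tiB.root_ex A.hn
    rcases h.leaf i hi with ⟨-, -, g1⟩ | ⟨g1, g2, -⟩ | ⟨g1, g2, g3, g4⟩
    · omega
    · omega
    · rw [hroot, g3] at hr2
      have g5 : A.dl b i (X i) < k := by
        by_contra hcon
        have := (key_lt hi (w := A.dl b i (X i)) (k := k)).not.2 hcon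
        omega
      have g6 : (i, X i) ∈ A.Cs := A.mem_Cs.2 ⟨hi, g1⟩
      have g7 := A.ext_unplaced h.hX h.hk (fun i hi j hj => (h.placed i hi j hj).2.1) hπ hext g6
        le_rfl
      have g8 := (A.valid_iff hb hi).1 (hπ.1 _ g6).2
      simp only at g8
      omega

/-- The place step. -/
theorem EI.place {b it k : ℕ} {X TA TB P : ℕ → ℕ} (h : A.EI b it k X TA TB P) (hb : b < A.D)
    (hit : it < 2 * A.D) (hr : ¬ TA 1 < (k + 1) * A.n)
    {i0 : ℕ} (hi0 : i0 < A.n) (hX0 : X i0 < A.d i0)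
    (hTB0 : TB (A.n + i0) ≠ (A.D + 2) * A.n) (hTA0 : TA (A.n + i0) = (A.D + 2) * A.n)
    (hrel : A.rel b i0 (X i0) ≤ k) (hdl : k ≤ A.dl b i0 (X i0))
    (hmin : ∀ i < A.n, X i < A.d i → TB (A.n + i) ≠ (A.D + 2) * A.n →
      A.dl b i0 (X i0) ≤ A.dl b i (X i))
    {TA' TB' X' P' : ℕ → ℕ} (hA : TI A.n TA') (hB : TI A.n TB')
    (hX' : ∀ i, X' i = if i = i0 then X i0 + 1 else X i)
    (hP' : ∀ u, P' u = if u = A.S i0 + X i0 then k else P u)
    (hA' : ∀ u, A.n ≤ u → u < 2 * A.n → TA' u = if u = A.n + i0 then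
      (if X i0 + 1 < A.d i0 then max (A.rel b i0 (X i0 + 1)) (k + 1) * A.n + i0
        else (A.D + 2) * A.n) else TA u)
    (hB' : ∀ u, A.n ≤ u → u < 2 * A.n → TB' u = if u = A.n + i0 then (A.D + 2) * A.n else TB u) :
    A.EI b (it + 1) (k + 1) X' TA' TB' P' := by
  have hXle : ∀ i < A.n, X' i ≤ A.d i := by
    intro i hi
    rw [hX']
    split
    · rename_i h1; subst h1; omega
    · exact h.hX i hi
  have hidx : ∀ i < A.n, ∀ j < X i, A.S i + j ≠ A.S i0 + X i0 := by
    intro i hi j hj heq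
    have hj' : j < A.d i := lt_of_lt_of_le hj (h.hX i hi)
    obtain ⟨e1, e2⟩ := A.S_inj hj' hX0 heq
    subst e1; omega
  have hkD := h.k_le_D hit
  refine ⟨?_, hXle, hA, hB, ?_, ?_, ?_, ?_, ?_⟩
  · have : ∑ i ∈ range A.n, X' i = ∑ i ∈ range A.n, X i + 1 := by
      have h1 : ∀ i ∈ range A.n, X' i = X i + if i = i0 then 1 else 0 := by
        intro i _
        rw [hX']
        split
        · rename_i h1; subst h1; rfl
        · rfl
      rw [sum_congr rfl h1, sum_add_distrib, sum_ite_eq' (range A.n) i0 (fun _ => 1),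
        if_pos (mem_range.2 hi0)]
    rw [this, h.hk]; omega
  · intro i hi
    rw [hA' _ (by omega) (by omega), hB' _ (by omega) (by omega), hX']
    by_cases hii : i = i0
    · subst hii
      simp only [if_true]
      by_cases hlast : X i + 1 < A.d i
      · right; left
        rw [if_pos hlast]
        exact ⟨hlast, trivial, _, rfl, le_max_left _ _, le_rfl⟩
      · left
        rw [if_neg hlast]
        exact ⟨by omega, rfl, trivial⟩
    · rw [if_neg (show ¬ A.n + i = A.n + i0 by omega), if_neg hii,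
        if_neg (show ¬ A.n + i = A.n + i0 by omega)]
      rcases h.leaf i hi with ⟨h1, h2, h3⟩ | ⟨h1, h2, w, h3, h4, h5⟩ | ⟨h1, h2, h3, h4⟩
      · exact Or.inl ⟨h1, h2, h3⟩
      · exact Or.inr (Or.inl ⟨h1, h2, w, h3, h4, by omega⟩)
      · exact Or.inr (Or.inr ⟨h1, h2, h3, by omega⟩)
  · have h1 := h.hit
    have h2 := h.k_pos
    have : (range A.n).filter (fun i => TB (A.n + i) ≠ (A.D + 2) * A.n) =
        insert i0 ((range A.n).filter (fun i => TB' (A.n + i) ≠ (A.D + 2) * A.n)) := by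
      ext i
      simp only [mem_filter, mem_range, mem_insert]
      constructor
      · rintro ⟨h1, h2⟩
        by_cases hii : i = i0
        · left; exact hii
        · right
          refine ⟨h1, ?_⟩
          rw [hB' _ (by omega) (by omega), if_neg (by omega)]
          exact h2
      · rintro (h1 | ⟨h1, h2⟩)
        · subst h1
          exact ⟨hi0, hTB0⟩
        · refine ⟨h1, ?_⟩
          rw [hB' _ (by omega) (by omega)] at h2
          split at h2
          · exact absurd rfl h2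
          · exact h2
    rw [this, card_insert_of_notMem] at h1
    · omega
    · simp only [mem_filter, not_and, not_not]
      intro _
      rw [hB' _ (by omega) (by omega), if_pos rfl]
  · intro i hi j hj
    rw [hX'] at hj
    rw [hP']
    by_cases hnew : A.S i + j = A.S i0 + X i0
    · rw [if_pos hnew]
      have hj' : j < A.d i := by
        split at hj
        · rename_i h1; subst h1; omega
        · exact lt_of_lt_of_le hj (h.hX i hi)
      obtain ⟨e1, e2⟩ := A.S_inj hj' hX0 hnew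
      subst e1; subst e2
      refine ⟨h.k_pos, Nat.lt_succ_self k, ?_⟩
      rw [A.valid_iff hb hi, Nat.sub_add_cancel h.k_pos]
      exact ⟨hrel, hdl⟩
    · rw [if_neg hnew]
      have hj' : j < X i := by
        split at hj
        · rename_i h1; subst h1
          by_contra hcon
          exact hnew (by omega)
        · exact hj
      obtain ⟨h1, h2, h3⟩ := h.placed i hi j hj'
      exact ⟨h1, by omega, h3⟩
  · have aux : ∀ i < A.n, ∀ j < X' i, (i = i0 ∧ j = X i0) ∨ j < X i := by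
      intro i hi j hj
      rw [hX'] at hj
      split at hj
      · rename_i h1; subst h1
        by_cases hjj : j = X i
        · exact Or.inl ⟨rfl, hjj⟩
        · right; omega
      · exact Or.inr hj
    intro i hi j hj i' hi' j' hj' heq
    rw [hP', hP'] at heq
    rcases aux i hi j hj with ⟨e1, e2⟩ | h1
    · rcases aux i' hi' j' hj' with ⟨e1', e2'⟩ | h1'
      · exact ⟨e1.trans e1'.symm, e2.trans e2'.symm⟩
      · exfalso
        rw [if_neg (hidx i' hi' j' h1'), if_pos (by rw [e1, e2])] at heq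
        have := (h.placed i' hi' j' h1').2.1
        omega
    · rcases aux i' hi' j' hj' with ⟨e1', e2'⟩ | h1'
      · exfalso
        rw [if_neg (hidx i hi j h1), if_pos (by rw [e1', e2'])] at heq
        have := (h.placed i hi j h1).2.1
        omega
      · rw [if_neg (hidx i hi j h1), if_neg (hidx i' hi' j' h1')] at heq
        exact h.inj i hi j h1 i' hi' j' h1' heq
  · intro hfeas
    obtain ⟨π, hπ, hext⟩ := h.ext hfeas
    obtain ⟨π', h1, h2, h3⟩ := A.place_ext hb h.hX h.hk hkD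
      (fun i hi j hj => (h.placed i hi j hj).2.1) hπ hext hi0 hX0 hrel hdl (by
        intro i hi hXi hreli
        refine hmin i hi hXi ?_
        rw [h.relC hr hi hXi hreli]
        have := A.dl_le_D hb hi hXi
        have := (key_lt hi (w := A.dl b i (X i)) (k := A.D + 2)).2 (by omega)
        omega)
    refine ⟨π', h1, ?_⟩
    intro i hi j hj
    rw [hX'] at hj
    rw [hP']
    by_cases hnew : A.S i + j = A.S i0 + X i0
    · rw [if_pos hnew]
      have hj' : j < A.d i := by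
        split at hj
        · rename_i h1; subst h1; omega
        · exact lt_of_lt_of_le hj (h.hX i hi)
      obtain ⟨e1, e2⟩ := A.S_inj hj' hX0 hnew
      subst e1; subst e2
      exact h3
    · rw [if_neg hnew]
      have hj' : j < X i := by
        split at hj
        · rename_i h1; subst h1
          by_contra hcon
          exact hnew (by omega)
        · exact hj
      exact h2 i hi j hj'

/-- The initial state. -/
theorem EI.init {b : ℕ} {X TA TB P : ℕ → ℕ} (hX : ∀ i < A.n, X i = 0)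
    (hA : TI A.n TA) (hB : TI A.n TB) (hb : b < A.D)
    (hA' : ∀ i < A.n, TA (A.n + i) = A.rel b i 0 * A.n + i)
    (hB' : ∀ i < A.n, TB (A.n + i) = (A.D + 2) * A.n) :
    A.EI b 0 1 X TA TB P := by
  refine ⟨?_, ?_, hA, hB, ?_, ?_, ?_, ?_, ?_⟩
  · rw [sum_eq_zero (fun i hi => hX i (mem_range.1 hi)), Nat.add_zero]
  · intro i hi; rw [hX i hi]; exact Nat.zero_le _
  · intro i hi
    right; left
    rw [hX i hi]
    exact ⟨A.hd i hi, hB' i hi, _, hA' i hi, le_rfl, le_max_left _ _⟩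
  · rw [card_eq_zero.2]
    rw [filter_eq_empty_iff]
    intro i hi
    rw [hB' i (mem_range.1 hi)]
    simp
  · intro i hi j hj; rw [hX i hi] at hj; omega
  · intro i hi j hj; rw [hX i hi] at hj; omega
  · rintro ⟨π, hπ⟩
    refine ⟨π, hπ, ?_⟩
    intro i hi j hj; rw [hX i hi] at hj; omega

end Inst

end Pool.Agent.helper9.Jit
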