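import Pool.Agent.helper9.Jit.Edf1

/-!
# The earliest-deadline-first procedure: the program and its verification
-/

set_option autoImplicit false

namespace Pool.Agent.helper9.Jit

open Finset

/-- The fixed part of the state. -/
structure Ctx (E : Env) (A : Inst) (σ : State) : Prop where
  n : σ.v 0 = A.n
  D : σ.v 1 = A.D
  B : σ.v 63 = E.B
  d : ∀ i < A.n, σ.m 1 i = A.d i
  S : ∀ i < A.n, σ.m 2 i = A.S i

/-- Sizes. -/
structure Sz (E : Env) (A : Inst) : Prop where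
  W : 100 * (A.D * A.D) ≤ E.W
  I : 10 * (A.D * A.D) ≤ E.I

theorem Ctx.fr {E : Env} {A : Inst} {σ σ' : State} (h : Ctx E A σ) {wv wa : List ℕ}
    (hfr : Fr wv wa σ σ') (hd : (0 ∉ wv ∧ 1 ∉ wv ∧ 63 ∉ wv) ∧ (1 ∉ wa ∧ 2 ∉ wa)) :
    Ctx E A σ' := by
  obtain ⟨⟨h1, h2, h3⟩, h4, h5⟩ := hd
  refine ⟨?_, ?_, ?_, ?_, ?_⟩
  · rw [hfr.1 _ h1, h.n]
  · rw [hfr.1 _ h2, h.D]
  · rw [hfr.1 _ h3, h.B]
  · intro i hi; rw [hfr.2 _ h4, h.d i hi]
  · intro i hi; rw [hfr.2 _ h5, h.S i hi]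

/-! ## The program -/

def edfMove : Cmd :=
  Cmd.seq (.asgn 6 ((Expr.var 9) - (Expr.var 9) / (Expr.var 0) * (Expr.var 0))) <|
  Cmd.seq (.asgn 7 ((Expr.var 0) + (Expr.var 6))) <|
  Cmd.seq (.asgn 8 (Expr.var 10)) <|
  Cmd.seq (upd 5) <|
  Cmd.seq (.asgn 7 ((Expr.var 0) + (Expr.var 6))) <|
  Cmd.seq (.asgn 8 ((((Expr.arr 7 ((Expr.var 6))) * (Expr.var 1) + (Expr.var 2)) / (Expr.arr 1 ((Expr.var 6))) + 1) * (Expr.var 0) + (Expr.var 6))) <|
  upd 6

def edfNext : Cmd :=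
  Cmd.seq (.asgn 8 ((((Expr.arr 7 ((Expr.var 6))) + 1) * (Expr.var 1) - (Expr.var 2) + (Expr.arr 1 ((Expr.var 6))) - 1) / (Expr.arr 1 ((Expr.var 6))))) <|
  Cmd.seq (.ite (Expr.var 8) (Expr.var 4) (.asgn 8 ((Expr.var 4) + 1)) .skip) <|
  Cmd.seq (.asgn 8 ((Expr.var 8) * (Expr.var 0) + (Expr.var 6))) <|
  Cmd.seq (.asgn 7 ((Expr.var 0) + (Expr.var 6))) <|
  upd 5

def edfPlace : Cmd :=
  Cmd.seq (.asgn 6 ((Expr.var 9) - (Expr.var 9) / (Expr.var 0) * (Expr.var 0))) <|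
  Cmd.seq (.asgn 7 ((Expr.var 0) + (Expr.var 6))) <|
  Cmd.seq (.asgn 8 (Expr.var 10)) <|
  Cmd.seq (upd 6) <|
  Cmd.seq (.store 8 ((Expr.arr 2 ((Expr.var 6))) + (Expr.arr 7 ((Expr.var 6)))) (Expr.var 4)) <|
  Cmd.seq (.store 7 (Expr.var 6) ((Expr.arr 7 ((Expr.var 6))) + 1)) <|
  Cmd.seq (.ite ((Expr.arr 7 ((Expr.var 6))) + 1) ((Expr.arr 1 ((Expr.var 6)))) edfNext .skip) <|
  .asgn 4 ((Expr.var 4) + 1)

def edfBody : Cmd :=
  .ite 1 (Expr.var 3) (
    Cmd.seq (.asgn 9 ((Expr.arr 5 (1)))) <|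
    .ite ((Expr.var 9) + 1) (((Expr.var 4) + 1) * (Expr.var 0)) edfMove (
      Cmd.seq (.asgn 9 ((Expr.arr 6 (1)))) <|
      .ite ((Expr.var 9) + 1) (Expr.var 10)
        (.ite ((Expr.var 4) * (Expr.var 0)) (Expr.var 9) edfPlace (.asgn 3 0))
        (.asgn 3 0)))
    .skip

def edfInit1 : Cmd := forr 6 (2 * (Expr.var 0)) (Cmd.seq (.store 5 (Expr.var 6) (Expr.var 10)) <| .store 6 (Expr.var 6) (Expr.var 10))

def edfInit2 : Cmd := forr 6 (Expr.var 0) (
  Cmd.seq (.store 7 (Expr.var 6) 0) <|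
  Cmd.seq (.asgn 7 ((Expr.var 0) + (Expr.var 6))) <|
  Cmd.seq (.asgn 8 (((Expr.var 1) - (Expr.var 2) + (Expr.arr 1 ((Expr.var 6))) - 1) / (Expr.arr 1 ((Expr.var 6))) * (Expr.var 0) + (Expr.var 6))) <|
  upd 5)

/-- The feasibility test for the bound `vb`: the result is in `vok`; the placement in `aPOS`. -/
def edf : Cmd :=
  Cmd.seq (.asgn 10 (((Expr.var 1) + 2) * (Expr.var 0))) <|
  Cmd.seq (.asgn 3 1) <|
  Cmd.seq (.asgn 4 1) <|
  Cmd.seq (edfInit1) <|
  Cmd.seq (edfInit2) <|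
  forr 5 (2 * (Expr.var 1)) edfBody

/-! ## Verification -/

/-- logarithmic factor -/
def lg (A : Inst) : ℕ := Nat.log 2 (2 * A.n)

section
variable {E : Env} {A : Inst}

theorem Sz.facts (hs : Sz E A) : A.n ≤ A.D ∧ 1 ≤ A.n ∧ A.D ≤ A.D * A.D ∧ A.D * A.n ≤ A.D * A.D ∧
    100 * (A.D * A.D) ≤ E.W ∧ 10 * (A.D * A.D) ≤ E.I := by
  have hn := A.hn
  have hnD := A.hnD
  exact ⟨hnD, hn, Nat.le_mul_of_pos_left _ A.hDpos, Nat.mul_le_mul_left _ hnD, hs.W, hs.I⟩

/-- The running state of the EDF loop. -/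
structure ES (E : Env) (A : Inst) (b it : ℕ) (σ : State) : Prop where
  ctx : Ctx E A σ
  hb : σ.v 2 = b
  inf : σ.v 10 = (A.D + 2) * A.n
  ok : (σ.v 3 = 1 ∧ A.EI b it (σ.v 4) (σ.m 7) (σ.m 5) (σ.m 6) (σ.m 8)) ∨
    (σ.v 3 = 0 ∧ ¬ A.Feas b)

theorem log_le {u : ℕ} (hu : u < 2 * A.n) : Nat.log 2 u ≤ lg A :=
  Nat.log_mono_right hu.le

theorem edfMove_spec (hs : Sz E A) {b it : ℕ} (hbD : b < A.D) {σ : State} (ctx : Ctx E A σ)
    (hb : σ.v 2 = b) (inf : σ.v 10 = (A.D + 2) * A.n) (hok : σ.v 3 = 1)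
    (h : A.EI b it (σ.v 4) (σ.m 7) (σ.m 5) (σ.m 6) (σ.m 8))
    (ha : σ.v 9 = σ.m 5 1) (hr : σ.m 5 1 < (σ.v 4 + 1) * A.n) :
    Ex E edfMove σ (200 + 110 * lg A) (fun σ' => ES E A b (it + 1) σ') := by
  obtain ⟨z1, z2, z3, z4, z5, z6⟩ := hs.facts
  obtain ⟨r1, r2, r3, r4⟩ := h.rootA hr
  set i0 := σ.m 5 1 - σ.m 5 1 / A.n * A.n with hi0
  have hdi := ctx.d i0 r1
  have hXD : σ.m 7 i0 * A.D ≤ A.D * A.D := Nat.mul_le_mul_right _ (r2.le.trans (A.hdD r1))
  have hdl := A.dl_le_D hbD r1 r2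
  have hkey := (Inst.key_lt r1 (w := A.dl b i0 (σ.m 7 i0)) (k := A.D + 2)).2 (by omega)
  have hD2 : (A.D + 2) * A.n ≤ 3 * (A.D * A.D) := by
    rw [Nat.add_mul]; omega
  have hdiv := Nat.div_mul_le_self (σ.m 5 1) A.n
  have hk := h.k_le
  have hk2 : (σ.v 4 + 1) * A.n ≤ (A.D + 2) * A.n := Nat.mul_le_mul_right _ (by omega)
  unfold edfMove
  refine Ex.asg i0 (by (simp <;> omega)) (by decide) (by simp [ha, ctx.n]; omega) (by simp [ha, ctx.n, hi0]) ?_
  refine Ex.asg (A.n + i0) (by (simp <;> omega)) (by decide) (by simp [ctx.n]; omega) (by simp [ctx.n]) ?_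
  refine Ex.asg ((A.D + 2) * A.n) (by (simp <;> omega)) (by decide) (by simp) (by simp [inf]) ?_
  refine Ex.sq (15 + lg A * 55) (by (simp <;> omega)) ((upd_spec (n := A.n) (v0 := A.n + i0)
    (x := (A.D + 2) * A.n) (by decide)
    (by decide) (by simp [ctx.B]) (by omega) (by omega) (by simp) (by simp) (by omega) (by omega)
    (by simpa using h.tiA)).mono (by
      have := log_le (A := A) (show A.n + i0 < 2 * A.n by omega)
      have := Nat.mul_le_mul_right 55 this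
      omega) ?_)
  rintro σ4 ⟨hfr4, hT4, hl4⟩
  have ctx4 : Ctx E A σ4 := by
    refine Ctx.fr ?_ hfr4 (by decide)
    exact ⟨by simp [ctx.n], by simp [ctx.D], by simp [ctx.B], by simpa using ctx.d,
      by simpa using ctx.S⟩
  have k1 : σ4.v 6 = i0 := by rw [hfr4.1 6 (by decide)]; simp
  have k2 : σ4.v 2 = b := by rw [hfr4.1 2 (by decide)]; simp [hb]
  have k3 : σ4.m 7 = σ.m 7 := by rw [hfr4.2 7 (by decide)]; simp
  have k4 : σ4.m 6 = σ.m 6 := by rw [hfr4.2 6 (by decide)]; simp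
  have k5 : σ4.v 10 = (A.D + 2) * A.n := by rw [hfr4.1 10 (by decide)]; simp [inf]
  have k6 : σ4.v 3 = 1 := by rw [hfr4.1 3 (by decide)]; simp [hok]
  have k7 : σ4.v 4 = σ.v 4 := by rw [hfr4.1 4 (by decide)]; simp
  have k8 : σ4.m 8 = σ.m 8 := by rw [hfr4.2 8 (by decide)]; simp
  have hdi4 := ctx4.d i0 r1
  have hddD := A.hdD r1
  refine Ex.asg (A.n + i0) (by (simp <;> omega)) (by decide) (by simp [ctx4.n, k1]; omega)
    (by simp [ctx4.n, k1]) ?_
  have hd : A.dl b i0 (σ.m 7 i0) = (σ.m 7 i0 * A.D + b) / A.d i0 + 1 := rfl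
  have hdn : A.dl b i0 (σ.m 7 i0) * A.n ≤ (A.D + 2) * A.n := by omega
  refine Ex.asg (A.dl b i0 (σ.m 7 i0) * A.n + i0) (by (simp <;> omega)) (by decide) ?_ ?_ ?_
  · simp [idxok, KA, k1, k2, k3, ctx4.n, ctx4.D, ctx4.B, hdi4]
    rw [← hd]
    omega
  · simp [k1, k2, k3, ctx4.n, ctx4.D, hdi4, Inst.dl]
  · refine (upd_spec (n := A.n) (v0 := A.n + i0)
      (x := A.dl b i0 (σ.m 7 i0) * A.n + i0) (by decide)
      (by decide) (by simp [ctx4.B]) (by omega) (by omega) (by simp) (by simp) (by omega) (by omega)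
      (by simpa [k4] using h.tiB)).mono (by
        have := log_le (A := A) (show A.n + i0 < 2 * A.n by omega)
        have := Nat.mul_le_mul_right 55 this
        simp; omega) ?_
    rintro σ5 ⟨hfr5, hT5, hl5⟩
    have ctx5 : Ctx E A σ5 := by
      refine Ctx.fr ?_ hfr5 (by decide)
      exact ⟨by simp [ctx4.n], by simp [ctx4.D], by simp [ctx4.B], by simpa using ctx4.d,
        by simpa using ctx4.S⟩
    refine ⟨ctx5, ?_, ?_, Or.inl ⟨?_, ?_⟩⟩
    · rw [hfr5.1 2 (by decide)]; simp [k2]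
    · rw [hfr5.1 10 (by decide)]; simp [k5]
    · rw [hfr5.1 3 (by decide)]; simp [k6]
    · have e1 : σ5.v 4 = σ.v 4 := by rw [hfr5.1 4 (by decide)]; simp [k7]
      have e2 : σ5.m 7 = σ.m 7 := by rw [hfr5.2 7 (by decide)]; simp [k3]
      have e3 : σ5.m 8 = σ.m 8 := by rw [hfr5.2 8 (by decide)]; simp [k8]
      have e4 : σ5.m 5 = σ4.m 5 := by rw [hfr5.2 5 (by decide)]; simp
      rw [e1, e2, e3, e4]
      refine h.move hbD r1 r2 r3 r4 hT4 hT5 ?_ ?_
      · intro u hu1 hu2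
        rw [hl4 u hu1 hu2]; simp
      · intro u hu1 hu2
        rw [hl5 u hu1 hu2]; simp [k4]

theorem edfNext_spec (hs : Sz E A) {b i0 : ℕ} (hbD : b < A.D) {σ : State} (ctx : Ctx E A σ)
    (hb : σ.v 2 = b) (hi : σ.v 6 = i0) (hi0 : i0 < A.n) (hX : σ.m 7 i0 < A.d i0)
    (hk : σ.v 4 ≤ A.D) (hT : TI A.n (σ.m 5)) :
    Ex E edfNext σ (150 + 55 * lg A) (fun σ' => Fr [8, 7] [5] σ σ' ∧ TI A.n (σ'.m 5) ∧
      ∀ u, A.n ≤ u → u < 2 * A.n → σ'.m 5 u = if u = A.n + i0 then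
        max (A.rel b i0 (σ.m 7 i0)) (σ.v 4 + 1) * A.n + i0 else σ.m 5 u) := by
  obtain ⟨z1, z2, z3, z4, z5, z6⟩ := hs.facts
  have hdi := ctx.d i0 hi0
  have hddD := A.hdD hi0
  have hdpos := A.hd i0 hi0
  have hXD : (σ.m 7 i0 + 1) * A.D ≤ A.D * A.D := Nat.mul_le_mul_right _ (by omega)
  have hrel := A.rel_le_D hbD hi0 hX
  have hm : max (A.rel b i0 (σ.m 7 i0)) (σ.v 4 + 1) ≤ A.D + 1 := by omega
  have hmn : max (A.rel b i0 (σ.m 7 i0)) (σ.v 4 + 1) * A.n ≤ 2 * (A.D * A.D) := by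
    refine (Nat.mul_le_mul_right A.n hm).trans ?_
    rw [Nat.add_mul]; omega
  have hrdef : ((σ.m 7 i0 + 1) * A.D - b + A.d i0 - 1) / A.d i0 = A.rel b i0 (σ.m 7 i0) := rfl
  have main : Ex E edfNext σ (150 + 55 * lg A) (fun σ' => TI A.n (σ'.m 5) ∧
      ∀ u, A.n ≤ u → u < 2 * A.n → σ'.m 5 u = if u = A.n + i0 then
        max (A.rel b i0 (σ.m 7 i0)) (σ.v 4 + 1) * A.n + i0 else σ.m 5 u) := by
    unfold edfNext
    refine Ex.asg (A.rel b i0 (σ.m 7 i0)) (by (simp <;> omega)) (by decide)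
      (by simp [idxok, KA, hi, ctx.B, ctx.D, hb, hdi]; omega)
      (by simp [hi, ctx.D, hb, hdi, Inst.rel]) ?_
    refine Ex.conds (A.rel b i0 (σ.m 7 i0)) (σ.v 4) (by (simp <;> omega)) (by simp) (by simp) (by simp)
      (by simp) (fun hle => ?_) (fun hle => ?_)
    · refine Ex.asg (σ.v 4 + 1) (by (simp <;> omega)) (by decide) (by simp; omega) (by simp) ?_
      have hmax : max (A.rel b i0 (σ.m 7 i0)) (σ.v 4 + 1) = σ.v 4 + 1 := by omega
      rw [hmax] at hmn ⊢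
      refine Ex.asg ((σ.v 4 + 1) * A.n + i0) (by (simp <;> omega)) (by decide)
        (by simp [ctx.n, hi]; omega) (by simp [ctx.n, hi]) ?_
      refine Ex.asg (A.n + i0) (by (simp <;> omega)) (by decide)
        (by simp [ctx.n, hi]; omega) (by simp [ctx.n, hi]) ?_
      refine (upd_spec (n := A.n) (v0 := A.n + i0) (x := (σ.v 4 + 1) * A.n + i0) (by decide)
        (by decide) (by simp [ctx.B]) (by omega) (by omega) (by simp) (by simp) (by omega)
        (by omega) (by simpa using hT)).mono (by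
          have := log_le (A := A) (show A.n + i0 < 2 * A.n by omega)
          have := Nat.mul_le_mul_right 55 this
          simp; omega) ?_
      rintro σ' ⟨-, h1, h2⟩
      exact ⟨h1, fun u hu1 hu2 => by rw [h2 u hu1 hu2]; simp⟩
    · apply Ex.skips
      have hmax : max (A.rel b i0 (σ.m 7 i0)) (σ.v 4 + 1) = A.rel b i0 (σ.m 7 i0) := by omega
      rw [hmax] at hmn ⊢
      refine Ex.asg (A.rel b i0 (σ.m 7 i0) * A.n + i0) (by (simp <;> omega)) (by decide)
        (by simp [ctx.n, hi]; omega) (by simp [ctx.n, hi]) ?_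
      refine Ex.asg (A.n + i0) (by (simp <;> omega)) (by decide)
        (by simp [ctx.n, hi]; omega) (by simp [ctx.n, hi]) ?_
      refine (upd_spec (n := A.n) (v0 := A.n + i0) (x := A.rel b i0 (σ.m 7 i0) * A.n + i0)
        (by decide) (by decide) (by simp [ctx.B]) (by omega) (by omega) (by simp) (by simp)
        (by omega) (by omega) (by simpa using hT)).mono (by
          have := log_le (A := A) (show A.n + i0 < 2 * A.n by omega)
          have := Nat.mul_le_mul_right 55 this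
          simp; omega) ?_
      rintro σ' ⟨-, h1, h2⟩
      exact ⟨h1, fun u hu1 hu2 => by rw [h2 u hu1 hu2]; simp⟩
  refine main.frame.mono le_rfl ?_
  rintro σ' ⟨hfr, h⟩
  exact ⟨hfr.mono (by decide) (by decide), h⟩

theorem edfPlace_spec (hs : Sz E A) {b it : ℕ} (hbD : b < A.D) (hit : it < 2 * A.D) {σ : State}
    (ctx : Ctx E A σ)
    (hb : σ.v 2 = b) (inf : σ.v 10 = (A.D + 2) * A.n) (hok : σ.v 3 = 1)
    (h : A.EI b it (σ.v 4) (σ.m 7) (σ.m 5) (σ.m 6) (σ.m 8))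
    (ha : σ.v 9 = σ.m 6 1) (hrA : ¬ σ.m 5 1 < (σ.v 4 + 1) * A.n)
    (hr : σ.m 6 1 < (A.D + 2) * A.n) (hr2 : σ.v 4 * A.n ≤ σ.m 6 1) :
    Ex E edfPlace σ (300 + 110 * lg A) (fun σ' => ES E A b (it + 1) σ') := by
  obtain ⟨z1, z2, z3, z4, z5, z6⟩ := hs.facts
  obtain ⟨r1, r2, r3, r4, r5, r6, r7⟩ := h.rootB hbD hr hr2
  set i0 := σ.m 6 1 - σ.m 6 1 / A.n * A.n with hi0
  have hdi := ctx.d i0 r1
  have hSi := ctx.S i0 r1
  have hddD := A.hdD r1
  have hXD : σ.m 7 i0 * A.D ≤ A.D * A.D := Nat.mul_le_mul_right _ (r2.le.trans (A.hdD r1))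
  have hD2 : (A.D + 2) * A.n ≤ 3 * (A.D * A.D) := by
    rw [Nat.add_mul]; omega
  have hdiv := Nat.div_mul_le_self (σ.m 6 1) A.n
  have hk := h.k_le_D hit
  have hS := A.S_lt r1 r2
  unfold edfPlace
  refine Ex.asg i0 (by (simp <;> omega)) (by decide) (by simp [ha, ctx.n]; omega) (by simp [ha, ctx.n, hi0]) ?_
  refine Ex.asg (A.n + i0) (by (simp <;> omega)) (by decide) (by simp [ctx.n]; omega) (by simp [ctx.n]) ?_
  refine Ex.asg ((A.D + 2) * A.n) (by (simp <;> omega)) (by decide) (by simp) (by simp [inf]) ?_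
  refine Ex.sq (15 + lg A * 55) (by (simp <;> omega)) ((upd_spec (n := A.n) (v0 := A.n + i0)
    (x := (A.D + 2) * A.n) (by decide)
    (by decide) (by simp [ctx.B]) (by omega) (by omega) (by simp) (by simp) (by omega) (by omega)
    (by simpa using h.tiB)).mono (by
      have := log_le (A := A) (show A.n + i0 < 2 * A.n by omega)
      have := Nat.mul_le_mul_right 55 this
      omega) ?_)
  rintro σ4 ⟨hfr4, hT4, hl4⟩
  have ctx4 : Ctx E A σ4 := by
    refine Ctx.fr ?_ hfr4 (by decide)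
    exact ⟨by simp [ctx.n], by simp [ctx.D], by simp [ctx.B], by simpa using ctx.d,
      by simpa using ctx.S⟩
  have k1 : σ4.v 6 = i0 := by rw [hfr4.1 6 (by decide)]; simp
  have k2 : σ4.v 2 = b := by rw [hfr4.1 2 (by decide)]; simp [hb]
  have k3 : σ4.m 7 = σ.m 7 := by rw [hfr4.2 7 (by decide)]; simp
  have k4 : σ4.m 5 = σ.m 5 := by rw [hfr4.2 5 (by decide)]; simp
  have k5 : σ4.v 10 = (A.D + 2) * A.n := by rw [hfr4.1 10 (by decide)]; simp [inf]
  have k6 : σ4.v 3 = 1 := by rw [hfr4.1 3 (by decide)]; simp [hok]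
  have k7 : σ4.v 4 = σ.v 4 := by rw [hfr4.1 4 (by decide)]; simp
  have k8 : σ4.m 8 = σ.m 8 := by rw [hfr4.2 8 (by decide)]; simp
  have hdi4 := ctx4.d i0 r1
  have hSi4 := ctx4.S i0 r1
  refine Ex.sto (A.S i0 + σ.m 7 i0) (σ.v 4) (by (simp <;> omega))
    (by simp [idxok, KA, k1, k3, ctx4.B, hSi4]; omega) (by simp) (by simp [k1, k3, hSi4])
    (by simp [k7]) (idxok_arr (by decide) (by decide) ctx4.B (by omega)) ?_
  refine Ex.sto i0 (σ.m 7 i0 + 1) (by (simp <;> omega)) (by simp)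
    (by simp [idxok, KA, k1, k3, ctx4.B]; omega) (by simp [k1])
    (by simp [k1, k3]) (idxok_arr (by decide) (by decide) (by simpa using ctx4.B) (by omega)) ?_
  have ctx5 : Ctx E A ((σ4.setm 8 (A.S i0 + σ.m 7 i0) (σ.v 4)).setm 7 i0
      (σ.m 7 i0 + 1)) := by
    exact ⟨by simp [ctx4.n], by simp [ctx4.D], by simp [ctx4.B], by simpa using ctx4.d,
      by simpa using ctx4.S⟩
  set σ5 := (σ4.setm 8 (A.S i0 + σ.m 7 i0) (σ.v 4)).setm 7 i0 (σ.m 7 i0 + 1) with hσ5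
  have l1 : σ5.v 6 = i0 := by simp [hσ5, k1]
  have l2 : σ5.v 2 = b := by simp [hσ5, k2]
  have l3 : σ5.m 7 i0 = σ.m 7 i0 + 1 := by simp [hσ5]
  have l3' : ∀ u, σ5.m 7 u = if u = i0 then σ.m 7 i0 + 1 else σ.m 7 u := by
    intro u; simp [hσ5, k3]
  have l4 : σ5.m 5 = σ.m 5 := by funext u; simp [hσ5, k4]
  have l5 : σ5.v 10 = (A.D + 2) * A.n := by simp [hσ5, k5]
  have l6 : σ5.v 3 = 1 := by simp [hσ5, k6]
  have l7 : σ5.v 4 = σ.v 4 := by simp [hσ5, k7]
  have l8 : ∀ u, σ5.m 8 u = if u = A.S i0 + σ.m 7 i0 then σ.v 4 else σ.m 8 u := by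
    intro u; simp [hσ5, k8]
  have l9 : ∀ u, σ5.m 6 u = σ4.m 6 u := by intro u; simp [hσ5]
  have hdi5 := ctx5.d i0 r1
  -- the common end
  have fin : ∀ σ6 : State, Ctx E A σ6 → σ6.v 2 = b → σ6.v 10 = (A.D + 2) * A.n →
      σ6.v 3 = 1 → σ6.v 4 = σ.v 4 → (∀ u, σ6.m 7 u = σ5.m 7 u) →
      (∀ u, σ6.m 8 u = σ5.m 8 u) → (∀ u, σ6.m 6 u = σ5.m 6 u) →
      TI A.n (σ6.m 5) →
      (∀ u, A.n ≤ u → u < 2 * A.n → σ6.m 5 u = if u = A.n + i0 then
        (if σ.m 7 i0 + 1 < A.d i0 then max (A.rel b i0 (σ.m 7 i0 + 1)) (σ.v 4 + 1) * A.n + i0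
        else (A.D + 2) * A.n) else σ.m 5 u) →
      ∀ T, 7 ≤ T → Ex E (.asgn 4 ((Expr.var 4) + 1)) σ6 T (fun σ' => ES E A b (it + 1) σ') := by
    intro σ6 g1 g2 g3 g4 g5 g6 g7 g8 g9 g10 T hT
    refine Ex.asg1 (σ.v 4 + 1) (by simp; omega) (by decide) (by simp [g5]; omega) (by simp [g5]) ?_
    refine ⟨⟨by simp [g1.n], by simp [g1.D], by simp [g1.B], by simpa using g1.d,
      by simpa using g1.S⟩, by simp [g2], by simp [g3], Or.inl ⟨by simp [g4], ?_⟩⟩
    simp only [State.setv_v, State.setv_m, if_true]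
    refine h.place hbD hit hrA r1 r2 r3 r4 r5 r6 r7 g9 ?_ ?_ ?_ g10 ?_
    · have : σ6.m 6 = σ4.m 6 := funext fun u => by rw [g8, l9]
      rw [this]; exact hT4
    · intro u; rw [g6, l3']
    · intro u; rw [g7, l8]
    · intro u hu1 hu2
      rw [g8, l9, hl4 u hu1 hu2]
      simp
  refine Ex.conds (σ.m 7 i0 + 1 + 1) (A.d i0) (by (simp <;> omega))
    (by simp [idxok, KA, l1, l3, ctx5.B]; omega) (by simp [idxok, KA, l1, ctx5.B]; omega)
    (by simp [l1, l3]) (by simp [l1, hdi5]) (fun hle => ?_) (fun hle => ?_)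
  · refine Ex.sq (150 + 55 * lg A) (by (simp <;> omega)) ((edfNext_spec hs hbD ctx5 l2 l1 r1
      (by rw [l3]; omega) (by omega) (by rw [l4]; exact h.tiA)).mono le_rfl ?_)
    rintro σ6 ⟨hfr6, hT6, hl6⟩
    refine fin σ6 (ctx5.fr hfr6 (by decide)) (by rw [hfr6.1 2 (by decide), l2])
      (by rw [hfr6.1 10 (by decide), l5]) (by rw [hfr6.1 3 (by decide), l6])
      (by rw [hfr6.1 4 (by decide), l7]) (fun u => by rw [hfr6.2 7 (by decide)])
      (fun u => by rw [hfr6.2 8 (by decide)]) (fun u => by rw [hfr6.2 6 (by decide)])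
      hT6 ?_ _ (by simp; omega)
    intro u hu1 hu2
    rw [hl6 u hu1 hu2, l3, l7, l4, if_pos (show σ.m 7 i0 + 1 < A.d i0 by omega)]
  · apply Ex.skips
    refine fin σ5 ctx5 l2 l5 l6 l7 (fun _ => rfl) (fun _ => rfl) (fun _ => rfl)
      (by rw [l4]; exact h.tiA) ?_ _ (by simp; omega)
    intro u hu1 hu2
    rw [l4, if_neg (show ¬ σ.m 7 i0 + 1 < A.d i0 by omega)]
    split
    · rename_i hu; rw [hu, r4]
    · rfl

theorem edfBody_spec (hs : Sz E A) {b it : ℕ} (hbD : b < A.D) (hit : it < 2 * A.D) {σ : State}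
    (h : ES E A b it σ) :
    Ex E edfBody σ (400 + 110 * lg A) (fun σ' => ES E A b (it + 1) σ') := by
  obtain ⟨z1, z2, z3, z4, z5, z6⟩ := hs.facts
  obtain ⟨ctx, hb, inf, hor⟩ := h
  have hD2 : (A.D + 2) * A.n ≤ 3 * (A.D * A.D) := by
    rw [Nat.add_mul]; omega
  unfold edfBody
  rcases hor with ⟨hok, h⟩ | ⟨hok, hnf⟩
  · refine Ex.cond 1 1 (by (simp <;> omega)) (by simp; omega) (by simp) (by simp) (by simp [hok])
      (fun _ => ?_) (fun hcon => absurd le_rfl hcon)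
    have hk := h.k_le_D hit
    have hkn : (σ.v 4 + 1) * A.n ≤ (A.D + 2) * A.n := Nat.mul_le_mul_right _ (by omega)
    have hkn2 : σ.v 4 * A.n ≤ (A.D + 2) * A.n := Nat.mul_le_mul_right _ (by omega)
    have hTAW : σ.m 5 1 ≤ (A.D + 2) * A.n := by
      obtain ⟨i, hi, he⟩ := h.tiA.root_ex A.hn
      rw [he]
      rcases h.leaf i hi with ⟨-, g1, -⟩ | ⟨g0, -, w, g1, -, g2⟩ | ⟨-, g1, -⟩
      · omega
      · rw [g1]
        have := A.rel_le_D hbD hi g0
        have := (Inst.key_lt hi (w := w) (k := A.D + 2)).2 (by omega)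
        omega
      · omega
    have hTBW : σ.m 6 1 ≤ (A.D + 2) * A.n := by
      obtain ⟨i, hi, he⟩ := h.tiB.root_ex A.hn
      rw [he]
      rcases h.leaf i hi with ⟨-, -, g1⟩ | ⟨-, g1, -⟩ | ⟨g0, -, g1, -⟩
      · omega
      · omega
      · rw [g1]
        have := A.dl_le_D hbD hi g0
        have := (Inst.key_lt hi (w := A.dl b i (σ.m 7 i)) (k := A.D + 2)).2 (by omega)
        omega
    refine Ex.asg (σ.m 5 1) (by (simp <;> omega)) (by decide) (by simp [idxok, KA, ctx.B]; omega)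
      (by simp) ?_
    refine Ex.cond (σ.m 5 1 + 1) ((σ.v 4 + 1) * A.n) (by (simp <;> omega)) (by simp; omega)
      (by simp [ctx.n]; omega) (by simp) (by simp [ctx.n]) (fun hle => ?_) (fun hle => ?_)
    · refine (edfMove_spec hs hbD (σ := σ.setv 9 (σ.m 5 1)) (it := it) (b := b)
        ⟨by simp [ctx.n], by simp [ctx.D], by simp [ctx.B], by simpa using ctx.d,
          by simpa using ctx.S⟩ (by simp [hb]) (by simp [inf]) (by simp [hok])
          (by simpa using h) (by simp) (by simp; omega)).le (by simp; omega)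
    · refine Ex.asg (σ.m 6 1) (by (simp <;> omega)) (by decide) (by simp [idxok, KA, ctx.B]; omega)
        (by simp) ?_
      refine Ex.cond (σ.m 6 1 + 1) ((A.D + 2) * A.n) (by (simp <;> omega)) (by simp; omega)
        (by simp) (by simp) (by simp [inf]) (fun hle2 => ?_) (fun hle2 => ?_)
      · refine Ex.cond (σ.v 4 * A.n) (σ.m 6 1) (by (simp <;> omega)) (by simp [ctx.n]; omega)
          (by simp) (by simp [ctx.n]) (by simp) (fun hle3 => ?_) (fun hle3 => ?_)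
        · refine (edfPlace_spec hs hbD hit (σ := (σ.setv 9 (σ.m 5 1)).setv 9 (σ.m 6 1))
            (b := b)
            ⟨by simp [ctx.n], by simp [ctx.D], by simp [ctx.B], by simpa using ctx.d,
              by simpa using ctx.S⟩ (by simp [hb]) (by simp [inf]) (by simp [hok])
              (by simpa using h) (by simp) (by simp; omega) (by simp; omega)
              (by simpa using hle3)).le (by simp; omega)
        · refine Ex.asg1 0 (by (simp <;> omega)) (by decide) (by simp) (by simp) ?_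
          refine ⟨⟨by simp [ctx.n], by simp [ctx.D], by simp [ctx.B], by simpa using ctx.d,
              by simpa using ctx.S⟩, by simp [hb], by simp [inf], Or.inr ⟨by simp, ?_⟩⟩
          exact h.fail hbD hit (by omega) (Or.inr hle3)
      · refine Ex.asg1 0 (by (simp <;> omega)) (by decide) (by simp) (by simp) ?_
        refine ⟨⟨by simp [ctx.n], by simp [ctx.D], by simp [ctx.B], by simpa using ctx.d,
            by simpa using ctx.S⟩, by simp [hb], by simp [inf], Or.inr ⟨by simp, ?_⟩⟩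
        exact h.fail hbD hit (by omega) (Or.inl (by omega))
  · refine Ex.cond 1 0 (by (simp <;> omega)) (by simp; omega) (by simp) (by simp) (by simp [hok])
      (fun hcon => by omega) (fun _ => ?_)
    exact Ex.skip1 ⟨ctx, hb, inf, Or.inr ⟨hok, hnf⟩⟩

theorem edfInit1_spec (hs : Sz E A) {σ : State}
    (ctx : Ctx E A σ) (inf : σ.v 10 = (A.D + 2) * A.n) :
    Ex E edfInit1 σ (72 * A.n + 16) (fun σ' => ∀ u < 2 * A.n,
      σ'.m 5 u = (A.D + 2) * A.n ∧ σ'.m 6 u = (A.D + 2) * A.n) := by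
  obtain ⟨z1, z2, z3, z4, z5, z6⟩ := hs.facts
  have hD2 : (A.D + 2) * A.n ≤ 3 * (A.D * A.D) := by
    rw [Nat.add_mul]; omega
  unfold edfInit1
  refine (Ex.forr (T1 := 20) (2 * A.n) (fun k σ' => ∀ u < k,
      σ'.m 5 u = (A.D + 2) * A.n ∧ σ'.m 6 u = (A.D + 2) * A.n) (by decide) (by decide)
      (by omega) (fun u hu => absurd hu (Nat.not_lt_zero u)) ?_ ?_).mono (by simp; omega)
      (fun σ' h => h.2.1)
  · intro k hk σ' hfr _
    have h0 := hfr.1 0 (by decide)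
    simp [h0, ctx.n]
    omega
  · intro k hk σ' hfr hinv hv
    have ctx' := ctx.fr hfr (by decide)
    have inf' : σ'.v 10 = (A.D + 2) * A.n := by rw [hfr.1 10 (by decide), inf]
    refine Ex.sto k ((A.D + 2) * A.n) (by (simp <;> omega)) (by simp) (by simp) (by simp [hv])
      (by simp [inf']) (idxok_arr (by decide) (by decide) ctx'.B (by omega)) ?_
    refine Ex.sto1 k ((A.D + 2) * A.n) (by (simp <;> omega)) (by simp) (by simp) (by simp [hv])
      (by simp [inf']) (idxok_arr (by decide) (by decide) (by simpa using ctx'.B) (by omega)) ?_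
    intro u hu
    simp only [State.setv_m, State.setm_m]
    by_cases huk : u = k
    · simp [huk]
    · have := hinv u (by omega)
      simp [huk, this]

theorem edfInit2_spec (hs : Sz E A) {σ : State} {b : ℕ} (hbD : b < A.D)
    (ctx : Ctx E A σ) (hb : σ.v 2 = b)
    (hini : ∀ u < 2 * A.n, σ.m 5 u = (A.D + 2) * A.n ∧ σ.m 6 u = (A.D + 2) * A.n) :
    Ex E edfInit2 σ (A.n * (84 + 55 * lg A) + 14) (fun σ' => (∀ i < A.n, σ'.m 7 i = 0) ∧
      TI A.n (σ'.m 5) ∧ (∀ i < A.n, σ'.m 5 (A.n + i) = A.rel b i 0 * A.n + i) ∧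
      (∀ u < 2 * A.n, σ'.m 6 u = (A.D + 2) * A.n)) := by
  obtain ⟨z1, z2, z3, z4, z5, z6⟩ := hs.facts
  have hD2 : (A.D + 2) * A.n ≤ 3 * (A.D * A.D) := by
    rw [Nat.add_mul]; omega
  unfold edfInit2
  refine (Ex.forr (T1 := 70 + 55 * lg A) A.n (fun k σ' => (∀ i < k, σ'.m 7 i = 0) ∧
      TI A.n (σ'.m 5) ∧ (∀ i < k, σ'.m 5 (A.n + i) = A.rel b i 0 * A.n + i))
      (by decide) (by decide) (by omega) ⟨?_, ?_, ?_⟩ ?_ ?_).mono (by
        simp only [Expr.len_var]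
        have : A.n * (70 + 55 * lg A + (2 + 12)) = A.n * (84 + 55 * lg A) := by
          congr 1; omega
        rw [this]) ?_
  · intro i hi; omega
  · intro u hu1 hu2
    simp only [State.setv_m]
    rw [(hini u (by omega)).1, (hini (2 * u) (by omega)).1, (hini (2 * u + 1) (by omega)).1,
      min_self]
  · intro i hi; omega
  · intro k hk σ' hfr _
    have h0 := hfr.1 0 (by decide)
    simp [h0, ctx.n]
  · intro k hk σ' hfr hinv hv
    obtain ⟨h1, h2, h3⟩ := hinv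
    have ctx' := ctx.fr hfr (by decide)
    have hb' : σ'.v 2 = b := by rw [hfr.1 2 (by decide), hb]
    have hdk := ctx'.d k hk
    have hddD := A.hdD hk
    have hrel := A.rel_le_D (j := 0) hbD hk (A.hd k hk)
    have hrn : A.rel b k 0 * A.n ≤ A.D * A.D := (Nat.mul_le_mul_right _ hrel).trans z4
    have hrd : A.rel b k 0 = (A.D - b + A.d k - 1) / A.d k := by simp [Inst.rel]
    refine Ex.sto k 0 (by (simp <;> omega)) (by simp) (by simp) (by simp [hv])
      (by simp) (idxok_arr (by decide) (by decide) ctx'.B (by omega)) ?_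
    refine Ex.asg (A.n + k) (by (simp <;> omega)) (by decide) (by simp [ctx'.n, hv]; omega)
      (by simp [ctx'.n, hv]) ?_
    refine Ex.asg (A.rel b k 0 * A.n + k) (by (simp <;> omega)) (by decide) ?_
      (by simp [ctx'.n, ctx'.D, hb', hv, hdk, hrd]) ?_
    · simp [idxok, KA, ctx'.n, ctx'.D, ctx'.B, hb', hv, hdk]
      rw [← hrd]
      omega
    · refine (upd_spec (n := A.n) (v0 := A.n + k) (x := A.rel b k 0 * A.n + k)
        (by decide) (by decide) (by simp [ctx'.B]) (by omega) (by omega) (by simp) (by simp)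
        (by omega) (by omega) (by
          have : ∀ u, ((((σ'.setm 7 k 0).setv 7 (A.n + k)).setv 8 (A.rel b k 0 * A.n + k)).m 5) u
            = σ'.m 5 u := by intro u; simp
          rw [show (((σ'.setm 7 k 0).setv 7 (A.n + k)).setv 8 (A.rel b k 0 * A.n + k)).m 5 = σ'.m 5
            from funext this]
          exact h2)).mono (by
          have := log_le (A := A) (show A.n + k < 2 * A.n by omega)
          have := Nat.mul_le_mul_right 55 this
          simp; omega) ?_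
      rintro σ2 ⟨hfr2, hT2, hl2⟩
      have e1 : ∀ u, σ2.m 7 u = if u = k then 0 else σ'.m 7 u := by
        intro u
        rw [hfr2.2 7 (by decide)]; simp
      refine ⟨?_, by simpa using hT2, ?_⟩
      · intro i hi
        simp only [State.setv_m]
        rw [e1]
        split
        · rfl
        · exact h1 i (by omega)
      · intro i hi
        simp only [State.setv_m]
        rw [hl2 (A.n + i) (by omega) (by omega)]
        by_cases hik : i = k
        · subst hik; simp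
        · rw [if_neg (by omega)]
          simp only [State.setv_m, State.setm_m]
          rw [if_neg (by decide)]
          exact h3 i (by omega)
  · rintro σ' ⟨hfr, ⟨h1, h2, h3⟩, -⟩
    refine ⟨h1, h2, h3, ?_⟩
    intro u hu
    rw [hfr.2 6 (by decide)]
    exact (hini u hu).2

theorem lg_pos : 1 ≤ lg A := by
  have := A.hn
  exact Nat.log_pos (by norm_num) (by omega)

/-- Verification of the test. -/
theorem edf_spec (hs : Sz E A) {σ : State} {b : ℕ} (hbD : b < A.D)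
    (ctx : Ctx E A σ) (hb : σ.v 2 = b) :
    Ex E edf σ (1400 * (A.D * lg A)) (fun σ' => Fr edf.wv edf.wa σ σ' ∧
      ((σ'.v 3 = 1 ∧ A.Feas b ∧ A.Good b (fun c => σ'.m 8 (A.S c.1 + c.2) - 1) ∧
        ∀ i < A.n, ∀ j < A.d i, 1 ≤ σ'.m 8 (A.S i + j) ∧ σ'.m 8 (A.S i + j) ≤ A.D) ∨
      (σ'.v 3 = 0 ∧ ¬ A.Feas b))) := by
  obtain ⟨z1, z2, z3, z4, z5, z6⟩ := hs.facts
  have hlg := lg_pos (A := A)
  have hD2 : (A.D + 2) * A.n ≤ 3 * (A.D * A.D) := by
    rw [Nat.add_mul]; omega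
  refine Ex.frame ?_
  have t1 : A.n * (84 + 55 * lg A) ≤ A.D * (84 + 55 * lg A) := Nat.mul_le_mul_right _ z1
  have t2 : A.D * (84 + 55 * lg A) = 84 * A.D + 55 * (A.D * lg A) := by ring
  have t3 : 2 * A.D * (416 + 110 * lg A) = 832 * A.D + 220 * (A.D * lg A) := by ring
  have t4 : A.D ≤ A.D * lg A := Nat.le_mul_of_pos_right _ hlg
  have t5 : 1 ≤ A.D := A.hDpos
  unfold edf
  refine Ex.asg ((A.D + 2) * A.n) (by (simp <;> omega)) (by decide) (by simp [ctx.n, ctx.D]; omega)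
    (by simp [ctx.n, ctx.D]) ?_
  refine Ex.asg 1 (by (simp <;> omega)) (by decide) (by simp; omega) (by simp) ?_
  refine Ex.asg 1 (by (simp <;> omega)) (by decide) (by simp; omega) (by simp) ?_
  set σ1 := ((σ.setv 10 ((A.D + 2) * A.n)).setv 3 1).setv 4 1 with hσ1
  have ctx1 : Ctx E A σ1 := ⟨by simp [hσ1, ctx.n], by simp [hσ1, ctx.D], by simp [hσ1, ctx.B],
    by simpa [hσ1] using ctx.d, by simpa [hσ1] using ctx.S⟩
  have i1 : σ1.v 10 = (A.D + 2) * A.n := by simp [hσ1]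
  have b1 : σ1.v 2 = b := by simp [hσ1, hb]
  have o1 : σ1.v 3 = 1 := by simp [hσ1]
  have k1 : σ1.v 4 = 1 := by simp [hσ1]
  refine Ex.sq (72 * A.n + 16) (by (simp <;> omega)) ((edfInit1_spec hs ctx1 i1).frame.mono le_rfl ?_)
  rintro σ2 ⟨hfr2, hini⟩
  have ctx2 := ctx1.fr hfr2 (by decide)
  have i2 : σ2.v 10 = (A.D + 2) * A.n := by rw [hfr2.1 10 (by decide), i1]
  have b2 : σ2.v 2 = b := by rw [hfr2.1 2 (by decide), b1]
  have o2 : σ2.v 3 = 1 := by rw [hfr2.1 3 (by decide), o1]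
  have k2 : σ2.v 4 = 1 := by rw [hfr2.1 4 (by decide), k1]
  refine Ex.sq (A.n * (84 + 55 * lg A) + 14) (by (simp <;> omega))
    ((edfInit2_spec hs hbD ctx2 b2 hini).frame.mono le_rfl ?_)
  rintro σ3 ⟨hfr3, hX3, hT3, hA3, hB3⟩
  have ctx3 := ctx2.fr hfr3 (by decide)
  have i3 : σ3.v 10 = (A.D + 2) * A.n := by rw [hfr3.1 10 (by decide), i2]
  have b3 : σ3.v 2 = b := by rw [hfr3.1 2 (by decide), b2]
  have o3 : σ3.v 3 = 1 := by rw [hfr3.1 3 (by decide), o2]
  have k3 : σ3.v 4 = 1 := by rw [hfr3.1 4 (by decide), k2]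
  have hEI : A.EI b 0 1 (σ3.m 7) (σ3.m 5) (σ3.m 6) (σ3.m 8) := by
    refine Inst.EI.init hX3 hT3 ?_ hbD hA3 (fun i hi => hB3 _ (by omega))
    intro u hu1 hu2
    rw [hB3 u (by omega), hB3 (2 * u) (by omega), hB3 (2 * u + 1) (by omega), min_self]
  refine (Ex.forr (T1 := 400 + 110 * lg A) (2 * A.D) (fun it σ' => ES E A b it σ')
      (by decide) (by decide) (by omega) ?_ ?_ ?_).mono ?_ ?_
  · exact ⟨⟨by simp [ctx3.n], by simp [ctx3.D], by simp [ctx3.B], by simpa using ctx3.d,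
      by simpa using ctx3.S⟩, by simp [b3], by simp [i3],
      Or.inl ⟨by simp [o3], by simpa [k3] using hEI⟩⟩
  · intro k hk σ' hfr h
    simp [h.ctx.D]
    omega
  · intro it hit σ' hfr h hv
    refine (edfBody_spec hs hbD hit h).mono le_rfl ?_
    rintro σ4 ⟨c4, c5, c6, c7⟩
    exact ⟨⟨by simp [c4.n], by simp [c4.D], by simp [c4.B], by simpa using c4.d,
      by simpa using c4.S⟩, by simp [c5], by simp [c6], by simpa using c7⟩
  · simp only [Expr.len_mul, Expr.len_ofNat, Expr.len_var, Expr.len_add]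
    have : 2 * A.D * (400 + 110 * lg A + (1 + 2 + 1 + 12)) = 2 * A.D * (416 + 110 * lg A) := by
      congr 1; omega
    rw [this, t3]
    omega
  · rintro σ4 ⟨hfr4, ⟨c4, c5, c6, c7⟩, -⟩
    rcases c7 with ⟨c8, c9⟩ | ⟨c8, c9⟩
    · left
      refine ⟨c8, ⟨_, c9.good⟩, c9.good, ?_⟩
      intro i hi j hj
      have := c9.final i hi
      obtain ⟨p1, p2, -⟩ := c9.placed i hi j (by rw [this]; exact hj)
      have := c9.k_le
      exact ⟨p1, by omega⟩
    · exact Or.inr ⟨c8, c9⟩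

end

end Pool.Agent.helper9.Jit
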