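import Pool.Agent.helper9.Jit.Cmd

/-!
# Reasoning rules for structured commands with time bounds
-/

set_option autoImplicit false

namespace Pool.Agent.helper9.Jit

instance : Add Expr := ⟨Expr.add⟩
instance : Sub Expr := ⟨Expr.sub⟩
instance : Mul Expr := ⟨Expr.mul⟩
instance : Div Expr := ⟨Expr.div⟩
instance (k : ℕ) : OfNat Expr k := ⟨Expr.lit k⟩

section simp_lemmas
variable (e f : Expr) (σ : State) (E : Env) (k : ℕ)
@[simp] theorem Expr.eval_add : (e + f).eval σ = e.eval σ + f.eval σ := rfl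
@[simp] theorem Expr.eval_sub : (e - f).eval σ = e.eval σ - f.eval σ := rfl
@[simp] theorem Expr.eval_mul : (e * f).eval σ = e.eval σ * f.eval σ := rfl
@[simp] theorem Expr.eval_div : (e / f).eval σ = e.eval σ / f.eval σ := rfl
@[simp] theorem Expr.eval_ofNat : (no_index (OfNat.ofNat k) : Expr).eval σ = OfNat.ofNat k := rfl
@[simp] theorem Expr.eval_lit : (Expr.lit k).eval σ = k := rfl
@[simp] theorem Expr.eval_var : (Expr.var k).eval σ = σ.v k := rfl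
@[simp] theorem Expr.eval_arr : (Expr.arr k e).eval σ = σ.m k (e.eval σ) := rfl
@[simp] theorem Expr.ok_add : (e + f).ok E σ ↔ e.ok E σ ∧ f.ok E σ ∧ e.eval σ + f.eval σ ≤ E.W :=
  Iff.rfl
@[simp] theorem Expr.ok_sub : (e - f).ok E σ ↔ e.ok E σ ∧ f.ok E σ := Iff.rfl
@[simp] theorem Expr.ok_mul : (e * f).ok E σ ↔ e.ok E σ ∧ f.ok E σ ∧ e.eval σ * f.eval σ ≤ E.W :=
  Iff.rfl
@[simp] theorem Expr.ok_div : (e / f).ok E σ ↔ e.ok E σ ∧ f.ok E σ := Iff.rfl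
@[simp] theorem Expr.ok_ofNat : (no_index (OfNat.ofNat k) : Expr).ok E σ ↔ OfNat.ofNat k ≤ E.W := Iff.rfl
@[simp] theorem Expr.ok_lit : (Expr.lit k).ok E σ ↔ k ≤ E.W := Iff.rfl
@[simp] theorem Expr.ok_var : (Expr.var k).ok E σ ↔ k < 64 := Iff.rfl
@[simp] theorem Expr.ok_arr : (Expr.arr k e).ok E σ ↔ e.ok E σ ∧ idxok E σ k (e.eval σ) := Iff.rfl
@[simp] theorem Expr.len_add : (e + f).len = e.len + f.len + 1 := rfl
@[simp] theorem Expr.len_sub : (e - f).len = e.len + f.len + 1 := rfl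
@[simp] theorem Expr.len_mul : (e * f).len = e.len + f.len + 1 := rfl
@[simp] theorem Expr.len_div : (e / f).len = e.len + f.len + 1 := rfl
@[simp] theorem Expr.len_ofNat : (no_index (OfNat.ofNat k) : Expr).len = 1 := rfl
@[simp] theorem Expr.len_lit : (Expr.lit k).len = 1 := rfl
@[simp] theorem Expr.len_var : (Expr.var k).len = 2 := rfl
@[simp] theorem Expr.len_arr : (Expr.arr k e).len = e.len + (if k = 0 then 1 else 6) := rfl
end simp_lemmas

/-- Legal access to a proper array. -/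
theorem idxok_arr {E : Env} {σ : State} {a x : ℕ} (ha : a ≠ 0) (ha' : a ≤ 16) (h63 : σ.v 63 = E.B)
    (hx : x ≤ E.I) : idxok E σ a x := by
  unfold idxok; rw [if_neg ha]; exact ⟨ha', hx, h63⟩

theorem idxok_raw {E : Env} {σ : State} {x : ℕ} (hx : x < E.B) : idxok E σ 0 x := by
  unfold idxok; rw [if_pos rfl]; exact hx

/-! ### Frames -/

namespace Cmd

def wv : Cmd → List ℕ
  | skip => []
  | asgn v _ => [v]
  | store _ _ _ => []
  | seq c d => c.wv ++ d.wv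
  | ite _ _ c d => c.wv ++ d.wv
  | whl _ _ c => c.wv

def wa : Cmd → List ℕ
  | skip => []
  | asgn _ _ => []
  | store a _ _ => [a]
  | seq c d => c.wa ++ d.wa
  | ite _ _ c d => c.wa ++ d.wa
  | whl _ _ c => c.wa

end Cmd

/-- `σ'` agrees with `σ` outside the listed variables and arrays. -/
def Fr (wv wa : List ℕ) (σ σ' : State) : Prop :=
  (∀ x, x ∉ wv → σ'.v x = σ.v x) ∧ (∀ a, a ∉ wa → σ'.m a = σ.m a)

theorem Fr.refl (wv wa : List ℕ) (σ : State) : Fr wv wa σ σ := ⟨fun _ _ => rfl, fun _ _ => rfl⟩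

theorem Fr.trans {wv wa : List ℕ} {σ σ' σ'' : State} (h : Fr wv wa σ σ') (h' : Fr wv wa σ' σ'') :
    Fr wv wa σ σ'' :=
  ⟨fun x hx => (h'.1 x hx).trans (h.1 x hx), fun x hx => (h'.2 x hx).trans (h.2 x hx)⟩

theorem Fr.mono {wv wa wv' wa' : List ℕ} {σ σ' : State} (h : Fr wv wa σ σ')
    (h1 : ∀ x ∈ wv, x ∈ wv') (h2 : ∀ x ∈ wa, x ∈ wa') : Fr wv' wa' σ σ' :=
  ⟨fun x hx => h.1 x fun hx' => hx (h1 x hx'), fun x hx => h.2 x fun hx' => hx (h2 x hx')⟩

theorem Run.fr {E : Env} {c : Cmd} {σ σ' : State} {t : ℕ} (h : Run E c σ σ' t) :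
    Fr c.wv c.wa σ σ' := by
  induction h with
  | skip σ => exact Fr.refl _ _ _
  | @asgn σ v e hv hok =>
    refine ⟨fun x hx => ?_, fun a _ => rfl⟩
    simp only [Cmd.wv, List.mem_singleton] at hx
    simp [hx]
  | @store σ a i e hi he hidx =>
    refine ⟨fun x _ => rfl, fun b hb => ?_⟩
    simp only [Cmd.wa, List.mem_singleton] at hb
    funext j
    simp [hb]
  | seq h1 h2 ih1 ih2 =>
    refine Fr.trans (ih1.mono ?_ ?_) (ih2.mono ?_ ?_) <;> intro x hx <;>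
      simp only [Cmd.wv, Cmd.wa, List.mem_append] <;> first | exact Or.inl hx | exact Or.inr hx
  | iteT he hf hc h ih =>
    refine ih.mono ?_ ?_ <;> intro x hx <;>
      simp only [Cmd.wv, Cmd.wa, List.mem_append] <;> exact Or.inl hx
  | iteF he hf hc h ih =>
    refine ih.mono ?_ ?_ <;> intro x hx <;>
      simp only [Cmd.wv, Cmd.wa, List.mem_append] <;> exact Or.inr hx
  | whlT he hf hc h h' ih ih' => exact ih.trans ih'
  | whlF he hf hc => exact Fr.refl _ _ _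

/-! ### Total correctness with a time bound -/

/-- Started in `σ`, the command terminates within `T` machine steps in a state satisfying `Q`. -/
def Ex (E : Env) (c : Cmd) (σ : State) (T : ℕ) (Q : State → Prop) : Prop :=
  ∃ σ' t, Run E c σ σ' t ∧ t ≤ T ∧ Q σ'

variable {E : Env}

theorem Ex.mono {c : Cmd} {σ : State} {T T' : ℕ} {Q Q' : State → Prop} (h : Ex E c σ T Q)
    (hT : T ≤ T') (hQ : ∀ σ', Q σ' → Q' σ') : Ex E c σ T' Q' := by
  obtain ⟨σ', t, h1, h2, h3⟩ := h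
  exact ⟨σ', t, h1, h2.trans hT, hQ _ h3⟩

theorem Ex.le {c : Cmd} {σ : State} {T T' : ℕ} {Q : State → Prop} (h : Ex E c σ T Q)
    (hT : T ≤ T') : Ex E c σ T' Q := h.mono hT (fun _ h => h)

theorem Ex.frame {c : Cmd} {σ : State} {T : ℕ} {Q : State → Prop} (h : Ex E c σ T Q) :
    Ex E c σ T (fun σ' => Fr c.wv c.wa σ σ' ∧ Q σ') := by
  obtain ⟨σ', t, h1, h2, h3⟩ := h
  exact ⟨σ', t, h1, h2, h1.fr, h3⟩

theorem Ex.skip {σ : State} {Q : State → Prop} (h : Q σ) : Ex E .skip σ 0 Q :=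
  ⟨σ, 0, Run.skip σ, le_rfl, h⟩

theorem Ex.asgn {σ : State} {v : ℕ} {e : Expr} {Q : State → Prop} (hv : v < 64) (hok : e.ok E σ)
    (h : Q (σ.setv v (e.eval σ))) : Ex E (.asgn v e) σ (e.len + 2) Q :=
  ⟨_, _, Run.asgn hv hok, le_rfl, h⟩

theorem Ex.store {σ : State} {a : ℕ} {i e : Expr} {Q : State → Prop} (hi : i.ok E σ)
    (he : e.ok E σ) (hidx : idxok E σ a (i.eval σ))
    (h : Q (σ.setm a (i.eval σ) (e.eval σ))) :
    Ex E (.store a i e) σ (i.len + e.len + 6) Q := by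
  refine ⟨_, _, Run.store hi he hidx, ?_, h⟩
  split <;> omega

theorem Ex.seq {c d : Cmd} {σ : State} {T T' : ℕ} {Q : State → Prop}
    (h : Ex E c σ T (fun σ' => Ex E d σ' T' Q)) : Ex E (.seq c d) σ (T + T') Q := by
  obtain ⟨σ', t, h1, h2, σ'', t', h3, h4, h5⟩ := h
  exact ⟨σ'', _, Run.seq h1 h3, by omega, h5⟩

theorem Ex.ite {c d : Cmd} {e f : Expr} {σ : State} {T : ℕ} {Q : State → Prop}
    (he : e.ok E σ) (hf : f.ok E σ) (h1 : e.eval σ ≤ f.eval σ → Ex E c σ T Q)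
    (h2 : ¬ e.eval σ ≤ f.eval σ → Ex E d σ T Q) :
    Ex E (.ite e f c d) σ (e.len + f.len + 2 + T) Q := by
  by_cases hc : e.eval σ ≤ f.eval σ
  · obtain ⟨σ', t, h3, h4, h5⟩ := h1 hc
    exact ⟨σ', _, Run.iteT he hf hc h3, by omega, h5⟩
  · obtain ⟨σ', t, h3, h4, h5⟩ := h2 hc
    exact ⟨σ', _, Run.iteF he hf hc h3, by omega, h5⟩

theorem Ex.whl {e f : Expr} {c : Cmd} {Inv : State → Prop} {Φ : State → ℕ} {σ0 : State}
    (h0 : Inv σ0)
    (h : ∀ σ, Fr c.wv c.wa σ0 σ → Inv σ → e.ok E σ ∧ f.ok E σ ∧ (e.eval σ ≤ f.eval σ →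
      ∃ T, Ex E c σ T (fun σ' => Inv σ' ∧ Φ σ' + T + (e.len + f.len + 2) ≤ Φ σ))) :
    Ex E (.whl e f c) σ0 (Φ σ0 + (e.len + f.len + 2))
      (fun σ' => Fr c.wv c.wa σ0 σ' ∧ Inv σ' ∧ ¬ e.eval σ' ≤ f.eval σ') := by
  have key : ∀ N : ℕ, ∀ σ, Φ σ ≤ N → Fr c.wv c.wa σ0 σ → Inv σ →
      Ex E (.whl e f c) σ (Φ σ + (e.len + f.len + 2))
        (fun σ' => Fr c.wv c.wa σ0 σ' ∧ Inv σ' ∧ ¬ e.eval σ' ≤ f.eval σ') := by
    intro N
    induction N with
    | zero =>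
      intro σ hN hfr hinv
      obtain ⟨h1, h2, h3⟩ := h σ hfr hinv
      by_cases hc : e.eval σ ≤ f.eval σ
      · obtain ⟨T, σ', t, -, -, -, h7⟩ := h3 hc
        omega
      · exact ⟨σ, _, Run.whlF h1 h2 hc, by omega, hfr, hinv, hc⟩
    | succ N ih =>
      intro σ hN hfr hinv
      obtain ⟨h1, h2, h3⟩ := h σ hfr hinv
      by_cases hc : e.eval σ ≤ f.eval σ
      · obtain ⟨T, σ', t, h4, h5, h6, h7⟩ := h3 hc
        obtain ⟨σ'', t'', h8, h9, h10⟩ := ih σ' (by omega) (hfr.trans h4.fr) h6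
        exact ⟨σ'', _, Run.whlT h1 h2 hc h4 h8, by omega, h10⟩
      · exact ⟨σ, _, Run.whlF h1 h2 hc, by omega, hfr, hinv, hc⟩
  exact key _ σ0 le_rfl (Fr.refl _ _ _) h0

/-- `for v = 0, …, hi - 1 do c` -/
def forr (v : ℕ) (hi : Expr) (c : Cmd) : Cmd :=
  .seq (.asgn v (.lit 0)) (.whl (.add (.var v) (.lit 1)) hi
    (.seq c (.asgn v (.add (.var v) (.lit 1)))))

@[simp] theorem forr_wv (v : ℕ) (hi : Expr) (c : Cmd) : (forr v hi c).wv = v :: (c.wv ++ [v]) := rfl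
@[simp] theorem forr_wa (v : ℕ) (hi : Expr) (c : Cmd) : (forr v hi c).wa = c.wa ++ [] := rfl

theorem Ex.forr {v : ℕ} {hi : Expr} {c : Cmd} {σ0 : State} {T1 : ℕ} (N : ℕ)
    (Inv : ℕ → State → Prop) (hv : v < 64) (hvc : v ∉ c.wv) (hN : N + 1 ≤ E.W)
    (h0 : Inv 0 (σ0.setv v 0))
    (hhi : ∀ k ≤ N, ∀ σ, Fr (v :: c.wv) c.wa σ0 σ → Inv k σ → hi.ok E σ ∧ hi.eval σ = N)
    (h : ∀ k < N, ∀ σ, Fr (v :: c.wv) c.wa σ0 σ → Inv k σ → σ.v v = k →
      Ex E c σ T1 (fun σ' => Inv (k + 1) (σ'.setv v (k + 1)))) :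
    Ex E (forr v hi c) σ0 (N * (T1 + (hi.len + 12)) + (hi.len + 12))
      (fun σ' => Fr (v :: c.wv) c.wa σ0 σ' ∧ Inv N σ' ∧ σ'.v v = N) := by
  have hstart : Fr (v :: c.wv) c.wa σ0 (σ0.setv v 0) := by
    refine ⟨fun x hx => ?_, fun _ _ => rfl⟩
    simp only [List.mem_cons, not_or] at hx
    simp [hx.1]
  have hE := E.hW
  refine Ex.mono (T := 3 + ((N * (T1 + (hi.len + 12))) + ((2 + 1 + 1) + hi.len + 2))) ?_
    (by omega) (fun _ h => h)
  refine Ex.seq (T := 3) (Ex.asgn hv (show (Expr.lit 0).ok E σ0 from Nat.zero_le _) ?_)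
  have := Ex.whl (E := E) (e := .add (.var v) (.lit 1)) (f := hi)
    (c := .seq c (.asgn v (.add (.var v) (.lit 1)))) (σ0 := σ0.setv v 0)
    (Inv := fun σ => ∃ k ≤ N, Inv k σ ∧ σ.v v = k)
    (Φ := fun σ => (N - σ.v v) * (T1 + (hi.len + 12))) ⟨0, Nat.zero_le _, h0, by simp⟩ ?_
  · refine this.mono ?_ ?_
    · simp [Expr.len]
    · rintro σ ⟨hfr, ⟨k, hk, hinv, hvk⟩, hnot⟩
      have hfr2 : Fr (v :: c.wv) c.wa σ0 σ := by
        refine hstart.trans (hfr.mono ?_ ?_) <;> intro x hx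
        · simp only [Cmd.wv, List.mem_append, List.mem_singleton] at hx
          simp only [List.mem_cons]
          tauto
        · simpa [Cmd.wa] using hx
      obtain ⟨h1, h2⟩ := hhi k hk σ hfr2 hinv
      simp only [Expr.eval] at hnot
      have : k = N := by omega
      subst this
      exact ⟨hfr2, hinv, hvk⟩
  · rintro σ hfr ⟨k, hk, hinv, hvk⟩
    have hfr2 : Fr (v :: c.wv) c.wa σ0 σ := by
      refine hstart.trans (hfr.mono ?_ ?_) <;> intro x hx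
      · simp only [Cmd.wv, List.mem_append, List.mem_singleton] at hx
        simp only [List.mem_cons]
        tauto
      · simpa [Cmd.wa] using hx
    obtain ⟨h1, h2⟩ := hhi k hk σ hfr2 hinv
    refine ⟨⟨hv, by simp only [Expr.ok]; omega, by simp only [Expr.eval]; omega⟩, h1, ?_⟩
    intro hc
    simp only [Expr.eval] at hc
    have hkN : k < N := by omega
    refine ⟨T1 + 6, ?_⟩
    refine Ex.seq (T := T1) (T' := 6) ?_
    obtain ⟨σ', t, h3, h4, h5⟩ := h k hkN σ hfr2 hinv hvk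
    refine ⟨σ', t, h3, h4, ?_⟩
    have hv' : σ'.v v = k := by rw [h3.fr.1 v hvc, hvk]
    refine Ex.asgn hv ⟨hv, by simp only [Expr.ok]; omega, by simp only [Expr.eval]; omega⟩ ?_
    simp only [Expr.eval]
    rw [hv']
    refine ⟨⟨k + 1, hkN, h5, by simp⟩, ?_⟩
    simp only [State.setv_v, if_true, hvk, Expr.len]
    obtain ⟨r, hr⟩ : ∃ r, N = k + 1 + r := ⟨N - (k + 1), by omega⟩
    subst hr
    have e1 : k + 1 + r - (k + 1) = r := by omega
    have e2 : k + 1 + r - k = r + 1 := by omega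
    rw [e1, e2, Nat.add_mul]
    omega

/-! ### Budgeted rules for symbolic execution -/

theorem Ex.asg {σ : State} {v : ℕ} {e : Expr} {c : Cmd} {T : ℕ} {Q : State → Prop} (x : ℕ)
    (hT : e.len + 2 ≤ T) (hv : v < 64) (hok : e.ok E σ) (hx : e.eval σ = x)
    (h : Ex E c (σ.setv v x) (T - (e.len + 2)) Q) :
    Ex E (.seq (.asgn v e) c) σ T Q := by
  subst hx
  exact (Ex.seq (Ex.asgn hv hok h)).le (by omega)

theorem Ex.sto {σ : State} {a : ℕ} {i e : Expr} {c : Cmd} {T : ℕ} {Q : State → Prop}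
    (j x : ℕ) (hT : i.len + e.len + 6 ≤ T) (hi : i.ok E σ) (he : e.ok E σ) (hj : i.eval σ = j)
    (hx : e.eval σ = x) (hidx : idxok E σ a j)
    (h : Ex E c (σ.setm a j x) (T - (i.len + e.len + 6)) Q) :
    Ex E (.seq (.store a i e) c) σ T Q := by
  subst hx hj
  exact (Ex.seq (Ex.store hi he hidx h)).le (by omega)

theorem Ex.asg1 {σ : State} {v : ℕ} {e : Expr} {T : ℕ} {Q : State → Prop} (x : ℕ)
    (hT : e.len + 2 ≤ T) (hv : v < 64) (hok : e.ok E σ) (hx : e.eval σ = x)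
    (h : Q (σ.setv v x)) :
    Ex E (.asgn v e) σ T Q := by
  subst hx
  exact (Ex.asgn hv hok h).le hT

theorem Ex.sto1 {σ : State} {a : ℕ} {i e : Expr} {T : ℕ} {Q : State → Prop}
    (j x : ℕ) (hT : i.len + e.len + 6 ≤ T) (hi : i.ok E σ) (he : e.ok E σ) (hj : i.eval σ = j)
    (hx : e.eval σ = x) (hidx : idxok E σ a j) (h : Q (σ.setm a j x)) :
    Ex E (.store a i e) σ T Q := by
  subst hx hj
  exact (Ex.store hi he hidx h).le hT

theorem Ex.sq {c d : Cmd} {σ : State} {T : ℕ} {Q : State → Prop} (T1 : ℕ) (hT : T1 ≤ T)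
    (h : Ex E c σ T1 (fun σ' => Ex E d σ' (T - T1) Q)) : Ex E (.seq c d) σ T Q :=
  (Ex.seq h).le (by omega)

theorem Ex.cond {c d : Cmd} {e f : Expr} {σ : State} {T : ℕ} {Q : State → Prop} (x y : ℕ)
    (hT : e.len + f.len + 2 ≤ T) (he : e.ok E σ) (hf : f.ok E σ) (hx : e.eval σ = x)
    (hy : f.eval σ = y) (h1 : x ≤ y → Ex E c σ (T - (e.len + f.len + 2)) Q)
    (h2 : ¬ x ≤ y → Ex E d σ (T - (e.len + f.len + 2)) Q) :
    Ex E (.ite e f c d) σ T Q := by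
  subst hx hy
  exact (Ex.ite he hf h1 h2).le (by omega)

theorem Ex.assoc {c1 c2 c3 : Cmd} {σ : State} {T : ℕ} {Q : State → Prop}
    (h : Ex E (.seq c1 (.seq c2 c3)) σ T Q) : Ex E (.seq (.seq c1 c2) c3) σ T Q := by
  obtain ⟨σ', t, h1, h2, h3⟩ := h
  cases h1 with
  | seq h4 h5 =>
    cases h5 with
    | seq h6 h7 => exact ⟨σ', _, Run.seq (Run.seq h4 h6) h7, by omega, h3⟩

theorem Ex.skips {c : Cmd} {σ : State} {T : ℕ} {Q : State → Prop}
    (h : Ex E c σ T Q) : Ex E (.seq .skip c) σ T Q := by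
  obtain ⟨σ', t, h1, h2, h3⟩ := h
  exact ⟨σ', _, Run.seq (Run.skip σ) h1, by omega, h3⟩

theorem Ex.skip1 {σ : State} {T : ℕ} {Q : State → Prop} (h : Q σ) : Ex E .skip σ T Q :=
  (Ex.skip h).le (Nat.zero_le _)

theorem Ex.conds {c d r : Cmd} {e f : Expr} {σ : State} {T : ℕ} {Q : State → Prop} (x y : ℕ)
    (hT : e.len + f.len + 2 ≤ T) (he : e.ok E σ) (hf : f.ok E σ) (hx : e.eval σ = x)
    (hy : f.eval σ = y) (h1 : x ≤ y → Ex E (.seq c r) σ (T - (e.len + f.len + 2)) Q)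
    (h2 : ¬ x ≤ y → Ex E (.seq d r) σ (T - (e.len + f.len + 2)) Q) :
    Ex E (.seq (.ite e f c d) r) σ T Q := by
  subst hx hy
  by_cases hc : e.eval σ ≤ f.eval σ
  · obtain ⟨σ', t, h3, h4, h5⟩ := h1 hc
    cases h3 with
    | seq h6 h7 => exact ⟨σ', _, Run.seq (Run.iteT he hf hc h6) h7, by omega, h5⟩
  · obtain ⟨σ', t, h3, h4, h5⟩ := h2 hc
    cases h3 with
    | seq h6 h7 => exact ⟨σ', _, Run.seq (Run.iteF he hf hc h6) h7, by omega, h5⟩

end Pool.Agent.helper9.Jit
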