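import Mathlib

/-!
# A random access machine with unit cost

Registers and memory cells are indexed by `ℕ` and hold natural numbers.
A program is a list of instructions; each instruction takes one step.
-/

set_option autoImplicit false

namespace Pool.Agent.helper9.Jit

/-- Instructions of the random access machine.  `R a` is register `a`, `M x` is memory cell `x`. -/
inductive Instr
  /-- `R a := c` (a constant of the program) -/
  | const (a c : ℕ)
  /-- `R a := R b + R c` -/
  | add (a b c : ℕ)
  /-- `R a := R b - R c` (truncated) -/
  | sub (a b c : ℕ)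
  /-- `R a := R b * R c` -/
  | mul (a b c : ℕ)
  /-- `R a := ⌊R b / R c⌋` (and `0` if `R c = 0`) -/
  | div (a b c : ℕ)
  /-- `R a := M (R b)` -/
  | load (a b : ℕ)
  /-- `M (R a) := R b` -/
  | store (a b : ℕ)
  /-- if `R a ≤ R b` then go to instruction number `t` -/
  | jle (a b t : ℕ)

/-- A configuration: program counter, registers, memory. -/
structure Conf where
  pc : ℕ
  reg : ℕ → ℕ
  mem : ℕ → ℕ

/-- The effect of one instruction. -/
def Instr.exec : Instr → Conf → Conf
  | .const a c, s => ⟨s.pc + 1, Function.update s.reg a c, s.mem⟩
  | .add a b c, s => ⟨s.pc + 1, Function.update s.reg a (s.reg b + s.reg c), s.mem⟩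
  | .sub a b c, s => ⟨s.pc + 1, Function.update s.reg a (s.reg b - s.reg c), s.mem⟩
  | .mul a b c, s => ⟨s.pc + 1, Function.update s.reg a (s.reg b * s.reg c), s.mem⟩
  | .div a b c, s => ⟨s.pc + 1, Function.update s.reg a (s.reg b / s.reg c), s.mem⟩
  | .load a b, s => ⟨s.pc + 1, Function.update s.reg a (s.mem (s.reg b)), s.mem⟩
  | .store a b, s => ⟨s.pc + 1, s.reg, Function.update s.mem (s.reg a) (s.reg b)⟩
  | .jle a b t, s => ⟨if s.reg a ≤ s.reg b then t else s.pc + 1, s.reg, s.mem⟩

/-- One step of the machine with program `P`.  The machine has halted when the program counter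
points outside the program; then it stays as it is. -/
def step (P : List Instr) (s : Conf) : Conf :=
  match P[s.pc]? with
  | some i => i.exec s
  | none => s

/-- All registers and memory cells hold numbers at most `W`. -/
def Bd (W : ℕ) (s : Conf) : Prop := (∀ r, s.reg r ≤ W) ∧ (∀ x, s.mem x ≤ W)

end Pool.Agent.helper9.Jit
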