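import Pool.Agent.helper9.Jit.Comp4

/-!
# One round of the binary search
-/

set_option autoImplicit false

namespace Pool.Agent.helper9.Jit

open Finset

namespace Inst
variable {A : Inst}

theorem cnt_lt {lo hi i k : ℕ} (hi' : i < A.n) (hk : k ≤ A.D) (h1 : lo ≤ A.f i k)
    (h2 : A.f i k < hi) : A.cnt lo < A.cnt hi := by
  unfold cnt
  apply sum_lt_sum
  · intro j _
    apply card_le_card
    intro x hx
    rw [mem_filter] at hx ⊢
    exact ⟨hx.1, by omega⟩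
  · refine ⟨i, mem_range.2 hi', ?_⟩
    apply card_lt_card
    rw [ssubset_iff_of_subset]
    · refine ⟨k, ?_, ?_⟩
      · rw [mem_filter, mem_range]; exact ⟨by omega, h2⟩
      · rw [mem_filter]; omega
    · intro x hx
      rw [mem_filter] at hx ⊢
      exact ⟨hx.1, by omega⟩

end Inst

theorem EP.facts {A : Inst} {e : ℕ → ℕ} (h : EP A e) {lo hi u : ℕ} (h1 : A.cnt lo ≤ u)
    (h2 : u < A.cnt (hi + 1)) :
    lo ≤ e u ∧ e u ≤ hi ∧ A.cnt (e u) ≤ u ∧ u < A.cnt (e u + 1) ∧ e u < A.D := by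
  have h3 := A.cnt_le_N (hi + 1)
  obtain ⟨h4, h5, h6⟩ := h u (by omega)
  refine ⟨?_, ?_, h5, h6, h4⟩
  · by_contra hcon
    have := A.cnt_mono (show e u + 1 ≤ lo by omega)
    omega
  · by_contra hcon
    have := A.cnt_mono (show hi + 1 ≤ e u by omega)
    omega

/-- The bracket. -/
structure BI (E : Env) (A : Inst) (lo hi : ℕ) (σ : State) : Prop where
  ctx : Ctx E A σ
  vl : σ.v 19 = lo
  vh : σ.v 20 = hi
  le : lo ≤ hi
  hiD : hi < A.D
  feas : A.Feas hi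
  inf : ∀ b < lo, ¬ A.Feas b
  ST : ∀ u ≤ A.D, σ.m 4 u = A.cnt u
  ep : EP A (σ.m 3)

structure AUX (m : ℕ) (QP RG RK : ℕ → ℕ) (σ : State) : Prop where
  xm : σ.v 12 = m
  xQP : σ.m 9 = QP
  xRG : σ.m 10 = RG
  xRK : σ.m 11 = RK

/-- what a test may not touch -/
def TW (c : Cmd) : Prop :=
  ((0 ∉ c.wv ∧ 1 ∉ c.wv ∧ 63 ∉ c.wv) ∧ (1 ∉ c.wa ∧ 2 ∉ c.wa)) ∧
  (2 ∉ c.wv ∧ 12 ∉ c.wv ∧ 19 ∉ c.wv ∧ 20 ∉ c.wv ∧ 22 ∉ c.wv ∧ 23 ∉ c.wv) ∧
  (3 ∉ c.wa ∧ 4 ∉ c.wa ∧ 9 ∉ c.wa ∧ 10 ∉ c.wa ∧ 11 ∉ c.wa)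

def TS (E : Env) (A : Inst) (c : Cmd) (T lo0 hi0 : ℕ) (AX : State → Prop) : Prop :=
  ∀ σ b, Ctx E A σ → AX σ → σ.v 2 = b → lo0 ≤ b → b ≤ hi0 →
    Ex E c σ T (fun σ' => (σ'.v 3 = 1 ∧ A.Feas b) ∨ (σ'.v 3 = 0 ∧ ¬ A.Feas b))

section
variable {E : Env} {A : Inst}

theorem BI.fr {lo hi : ℕ} {σ σ' : State} (h : BI E A lo hi σ) {c : Cmd} (hw : TW c)
    (hfr : Fr c.wv c.wa σ σ') : BI E A lo hi σ' := by
  obtain ⟨w0, ⟨w1, w2, w3, w4, w5, w6⟩, ⟨w7, w8, w9, w10, w11⟩⟩ := hw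
  refine ⟨h.ctx.fr hfr w0, ?_, ?_, h.le, h.hiD, h.feas, h.inf, ?_, ?_⟩
  · rw [hfr.1 _ w3, h.vl]
  · rw [hfr.1 _ w4, h.vh]
  · intro u hu; rw [hfr.2 _ w8, h.ST u hu]
  · rw [hfr.2 _ w7]; exact h.ep

theorem AUX.fr {m : ℕ} {QP RG RK : ℕ → ℕ} {σ σ' : State} (h : AUX m QP RG RK σ) {c : Cmd}
    (hw : TW c) (hfr : Fr c.wv c.wa σ σ') : AUX m QP RG RK σ' := by
  obtain ⟨w0, ⟨w1, w2, w3, w4, w5, w6⟩, ⟨w7, w8, w9, w10, w11⟩⟩ := hw
  exact ⟨by rw [hfr.1 _ w2, h.xm], by rw [hfr.2 _ w9, h.xQP], by rw [hfr.2 _ w10, h.xRG],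
    by rw [hfr.2 _ w11, h.xRK]⟩

theorem BI.fr2 {lo hi : ℕ} {σ σ' : State} (h : BI E A lo hi σ) {wv wa : List ℕ}
    (hfr : Fr wv wa σ σ') (hw : ((0 ∉ wv ∧ 1 ∉ wv ∧ 63 ∉ wv) ∧ (1 ∉ wa ∧ 2 ∉ wa)) ∧
      (19 ∉ wv ∧ 20 ∉ wv) ∧ (3 ∉ wa ∧ 4 ∉ wa)) : BI E A lo hi σ' := by
  obtain ⟨w0, ⟨w3, w4⟩, ⟨w7, w8⟩⟩ := hw
  refine ⟨h.ctx.fr hfr w0, ?_, ?_, h.le, h.hiD, h.feas, h.inf, ?_, ?_⟩
  · rw [hfr.1 _ w3, h.vl]
  · rw [hfr.1 _ w4, h.vh]
  · intro u hu; rw [hfr.2 _ w8, h.ST u hu]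
  · rw [hfr.2 _ w7]; exact h.ep

theorem BI.optimal {lo hi : ℕ} {σ : State} (h : BI E A lo hi σ) (hc : A.cnt hi ≤ A.cnt lo) :
    ∀ b < hi, ¬ A.Feas b := by
  intro b hb hf
  have hD := h.hiD
  by_cases hlo : b < lo
  · exact h.inf b hlo hf
  · rcases Nat.eq_zero_or_pos lo with h0 | h0
    · subst h0
      have := Inst.cnt_lt (A := A) (lo := 0) (hi := hi) (i := 0) (k := 0) A.hn (Nat.zero_le _)
        (Nat.zero_le _) (by simp; omega)
      omega
    · refine h.inf (lo - 1) (by omega) (A.feas_congr (b := lo - 1) (b' := b) (by omega) (by omega)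
        ?_ hf)
      rintro i hi' k hk ⟨h1, h2⟩
      have := Inst.cnt_lt (A := A) (lo := lo) (hi := hi) hi' hk (by omega) (by omega)
      omega

end

def part2 (TEST : Cmd) : Cmd :=
  .ite ((Expr.arr 4 ((Expr.var 20)))) (Expr.var 22) (.asgn 23 1) (
    Cmd.seq (.asgn 2 ((Expr.arr 3 ((Expr.arr 4 ((Expr.var 20))) - 1)))) <| Cmd.seq (TEST) <|
    .ite 1 (Expr.var 3) (.asgn 20 (Expr.var 2)) (Cmd.seq (.asgn 19 ((Expr.var 2) + 1)) <| .asgn 23 1))

def iter (TEST : Cmd) : Cmd :=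
  Cmd.seq (.asgn 22 ((Expr.arr 4 ((Expr.var 19))))) <|
  .ite ((Expr.arr 4 ((Expr.var 20)))) (Expr.var 22) (.asgn 23 1) (
    Cmd.seq (.asgn 2 ((Expr.arr 3 (((Expr.var 22) + (Expr.arr 4 ((Expr.var 20) + 1))) / 2)))) <|
    .ite ((Expr.var 2) + 1) (Expr.var 20) (
      Cmd.seq (TEST) <|
      .ite 1 (Expr.var 3) (Cmd.seq (.asgn 20 (Expr.var 2)) <| part2 TEST) (.asgn 19 ((Expr.var 2) + 1)))
    (part2 TEST))

section
variable {E : Env} {A : Inst}

theorem BI.setv {lo hi : ℕ} {σ : State} (h : BI E A lo hi σ) {x y : ℕ} (h0 : 0 ≠ x) (h1 : 1 ≠ x)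
    (h2 : 63 ≠ x) (h3 : 19 ≠ x) (h4 : 20 ≠ x) : BI E A lo hi (σ.setv x y) :=
  ⟨h.ctx.setv h0 h1 h2, by simp [h3, h.vl], by simp [h4, h.vh], h.le, h.hiD, h.feas, h.inf,
    by simpa using h.ST, by simpa using h.ep⟩

theorem AUX.setv {m : ℕ} {QP RG RK : ℕ → ℕ} {σ : State} (h : AUX m QP RG RK σ) {x y : ℕ}
    (h0 : 12 ≠ x) : AUX m QP RG RK (σ.setv x y) :=
  ⟨by simp [h0, h.xm], by simp [h.xQP], by simp [h.xRG], by simp [h.xRK]⟩

theorem part2_spec (hs : Sz E A) {TEST : Cmd} {T lo0 hi0 m Wb : ℕ} {QP RG RK : ℕ → ℕ}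
    (htw : TW TEST) (hts : TS E A TEST T lo0 hi0 (AUX m QP RG RK)) {σ : State} {lo hi : ℕ}
    (h : BI E A lo hi σ) (hax : AUX m QP RG RK σ) (h0 : lo0 ≤ lo) (h1 : hi ≤ hi0)
    (hps : σ.v 22 = A.cnt lo) (hdn : σ.v 23 = 0) (hW : 2 * (A.cnt hi - A.cnt lo) ≤ Wb) :
    Ex E (part2 TEST) σ (T + 100) (fun σ' => ∃ lo' hi', BI E A lo' hi' σ' ∧ AUX m QP RG RK σ' ∧
      lo ≤ lo' ∧ hi' ≤ hi ∧ ((σ'.v 23 = 1 ∧ A.cnt hi' ≤ A.cnt lo') ∨
        (σ'.v 23 = 0 ∧ 2 * (A.cnt (hi' + 1) - A.cnt lo') ≤ Wb))) := by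
  obtain ⟨z1, z2, z3, z4, z5, z6⟩ := hs.facts
  have hN := hs.N_le
  have hB := h.ctx.B
  have hhiD := h.hiD
  have ehi := h.ST hi (by omega)
  have hcN := A.cnt_le_N hi
  have vh := h.vh
  unfold part2
  refine Ex.cond (A.cnt hi) (A.cnt lo) (by (simp <;> omega)) ?_ (by simp) (by simp [h.vh, ehi])
    (by simp [hps]) (fun hle => ?_) (fun hle => ?_)
  · simp [idxok, KA, hB, vh]
    omega
  · refine Ex.asg1 1 (by (simp <;> omega)) (by decide) (by simp; omega) (by simp) ?_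
    exact ⟨lo, hi, h.setv (by decide) (by decide) (by decide) (by decide) (by decide),
      hax.setv (by decide), le_rfl, le_rfl, Or.inl ⟨by simp, hle⟩⟩
  · have hmono := A.cnt_mono (show hi ≤ hi + 1 by omega)
    obtain ⟨f1, f2, f3, f4, f5⟩ := h.ep.facts (lo := lo) (hi := hi) (u := A.cnt hi - 1)
      (by omega) (by omega)
    set v := σ.m 3 (A.cnt hi - 1) with hv
    have hvhi : v < hi := by
      by_contra hcon
      have : v = hi := by omega
      rw [this] at f3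
      omega
    refine Ex.asg v (by (simp <;> omega)) (by decide) ?_ (by simp [h.vh, ehi, hv]) ?_
    · simp [idxok, KA, hB, vh, ehi]
      omega
    have b1 := h.setv (x := 2) (y := v) (by decide) (by decide) (by decide) (by decide) (by decide)
    have a1 := hax.setv (x := 2) (y := v) (by decide)
    refine Ex.sq T (by (simp <;> omega)) ((hts _ v b1.ctx a1 (by simp) (by omega) (by omega)).frame.mono
      le_rfl ?_)
    rintro σ2 ⟨hfr2, h2⟩
    have b2 := b1.fr htw hfr2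
    have a2 := a1.fr htw hfr2
    obtain ⟨-, ⟨w1, w2, w3, w4, w5, w6⟩, -⟩ := htw
    have vb2 : σ2.v 2 = v := by rw [hfr2.1 _ w1]; simp
    have vd2 : σ2.v 23 = 0 := by rw [hfr2.1 _ w6]; simp [hdn]
    refine Ex.cond 1 (σ2.v 3) (by (simp <;> omega)) (by simp; omega) (by simp) (by simp) (by simp)
      (fun hle2 => ?_) (fun hle2 => ?_)
    · have hf : A.Feas v := by
        rcases h2 with ⟨_, h3⟩ | ⟨h3, _⟩
        · exact h3
        · omega
      refine Ex.asg1 v (by (simp <;> omega)) (by decide) (by simp) (by simp [vb2]) ?_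
      refine ⟨lo, v, ?_, a2.setv (by decide), le_rfl, by omega, Or.inr ⟨by simp [vd2], ?_⟩⟩
      · exact ⟨b2.ctx.setv (by decide) (by decide) (by decide), by simp [b2.vl], by simp, f1,
          f5, hf, h.inf, by simpa using b2.ST, by simpa using b2.ep⟩
      · have := A.cnt_mono (show v + 1 ≤ hi by omega)
        omega
    · have hf : ¬ A.Feas v := by
        rcases h2 with ⟨h3, _⟩ | ⟨_, h3⟩
        · omega
        · exact h3
      refine Ex.asg (v + 1) (by (simp <;> omega)) (by decide) (by simp [vb2]; omega) (by simp [vb2]) ?_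
      refine Ex.asg1 1 (by (simp <;> omega)) (by decide) (by simp; omega) (by simp) ?_
      refine ⟨v + 1, hi, ?_, (a2.setv (by decide)).setv (by decide), by omega, le_rfl,
        Or.inl ⟨by simp, by omega⟩⟩
      exact ⟨(b2.ctx.setv (by decide) (by decide) (by decide)).setv (by decide) (by decide)
          (by decide), by simp, by simp [b2.vh], by omega, hhiD, h.feas,
          fun b hb hfb => hf (Inst.Feas.mono A (by omega) hfb), by simpa using b2.ST,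
          by simpa using b2.ep⟩

theorem iter_spec (hs : Sz E A) {TEST : Cmd} {T lo0 hi0 m : ℕ} {QP RG RK : ℕ → ℕ}
    (htw : TW TEST) (hts : TS E A TEST T lo0 hi0 (AUX m QP RG RK)) {σ : State} {lo hi : ℕ}
    (h : BI E A lo hi σ) (hax : AUX m QP RG RK σ) (h0 : lo0 ≤ lo) (h1 : hi ≤ hi0)
    (hdn : σ.v 23 = 0) :
    Ex E (iter TEST) σ (2 * T + 200) (fun σ' => ∃ lo' hi', BI E A lo' hi' σ' ∧
      AUX m QP RG RK σ' ∧ lo ≤ lo' ∧ hi' ≤ hi ∧ ((σ'.v 23 = 1 ∧ A.cnt hi' ≤ A.cnt lo') ∨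
        (σ'.v 23 = 0 ∧ A.cnt lo < A.cnt hi ∧
          2 * (A.cnt (hi' + 1) - A.cnt lo') ≤ A.cnt (hi + 1) - A.cnt lo))) := by
  obtain ⟨z1, z2, z3, z4, z5, z6⟩ := hs.facts
  have hN := hs.N_le
  have hB := h.ctx.B
  have hhiD := h.hiD
  have hlohi := h.le
  have elo := h.ST lo (by omega)
  have ehi := h.ST hi (by omega)
  have ehi1 := h.ST (hi + 1) (by omega)
  have hcN := A.cnt_le_N hi
  have hcN1 := A.cnt_le_N (hi + 1)
  have hcl := A.cnt_le_N lo
  have vh := h.vh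
  have vl := h.vl
  unfold iter
  refine Ex.asg (A.cnt lo) (by (simp <;> omega)) (by decide) ?_ (by simp [vl, elo]) ?_
  · simp [idxok, KA, hB, vl]
    omega
  have b1 := h.setv (x := 22) (y := A.cnt lo) (by decide) (by decide) (by decide) (by decide)
    (by decide)
  have a1 := hax.setv (x := 22) (y := A.cnt lo) (by decide)
  refine Ex.cond (A.cnt hi) (A.cnt lo) (by (simp <;> omega)) ?_ (by simp) (by simp [vh, ehi])
    (by simp) (fun hle => ?_) (fun hle => ?_)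
  · simp [idxok, KA, hB, vh]
    omega
  · refine Ex.asg1 1 (by (simp <;> omega)) (by decide) (by simp; omega) (by simp) ?_
    exact ⟨lo, hi, b1.setv (by decide) (by decide) (by decide) (by decide) (by decide),
      a1.setv (by decide), le_rfl, le_rfl, Or.inl ⟨by simp, hle⟩⟩
  · have hmono := A.cnt_mono (show hi ≤ hi + 1 by omega)
    set mid := (A.cnt lo + A.cnt (hi + 1)) / 2 with hmid
    obtain ⟨f1, f2, f3, f4, f5⟩ := h.ep.facts (lo := lo) (hi := hi) (u := mid)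
      (by omega) (by omega)
    set v := σ.m 3 mid with hv
    refine Ex.asg v (by (simp <;> omega)) (by decide) ?_ ?_ ?_
    · simp [idxok, KA, hB, vh, ehi1]
      omega
    · simp [vh, ehi1, hv, hmid]
    have b2 := b1.setv (x := 2) (y := v) (by decide) (by decide) (by decide) (by decide) (by decide)
    have a2 := a1.setv (x := 2) (y := v) (by decide)
    refine Ex.cond (v + 1) hi (by (simp <;> omega)) (by simp; omega) (by simp) (by simp) (by simp [vh])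
      (fun hle2 => ?_) (fun hle2 => ?_)
    · refine Ex.sq T (by (simp <;> omega)) ((hts _ v b2.ctx a2 (by simp) (by omega) (by omega)).frame.mono
        le_rfl ?_)
      rintro σ3 ⟨hfr3, h3⟩
      have b3 := b2.fr htw hfr3
      have a3 := a2.fr htw hfr3
      obtain ⟨-, ⟨w1, w2, w3, w4, w5, w6⟩, -⟩ := id htw
      have vb3 : σ3.v 2 = v := by rw [hfr3.1 _ w1]; simp
      have vd3 : σ3.v 23 = 0 := by rw [hfr3.1 _ w6]; simp [hdn]
      have vp3 : σ3.v 22 = A.cnt lo := by rw [hfr3.1 _ w5]; simp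
      refine Ex.cond 1 (σ3.v 3) (by (simp <;> omega)) (by simp; omega) (by simp) (by simp) (by simp)
        (fun hle3 => ?_) (fun hle3 => ?_)
      · have hf : A.Feas v := by
          rcases h3 with ⟨_, h4⟩ | ⟨h4, _⟩
          · exact h4
          · omega
        refine Ex.asg v (by (simp <;> omega)) (by decide) (by simp) (by simp [vb3]) ?_
        have b4 : BI E A lo v (σ3.setv 20 v) :=
          ⟨b3.ctx.setv (by decide) (by decide) (by decide), by simp [b3.vl], by simp, f1,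
          f5, hf, h.inf, by simpa using b3.ST, by simpa using b3.ep⟩
        refine (part2_spec hs htw hts (Wb := A.cnt (hi + 1) - A.cnt lo) b4 (a3.setv (by decide))
          h0 (by omega) (by simp [vp3]) (by simp [vd3]) (by omega)).mono (by (simp <;> omega)) ?_
        rintro σ5 ⟨lo', hi', g1, g2, g3, g4, g5⟩
        refine ⟨lo', hi', g1, g2, g3, by omega, ?_⟩
        rcases g5 with g5 | ⟨g5, g6⟩
        · exact Or.inl g5
        · exact Or.inr ⟨g5, by omega, g6⟩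
      · have hf : ¬ A.Feas v := by
          rcases h3 with ⟨h4, _⟩ | ⟨_, h4⟩
          · omega
          · exact h4
        refine Ex.asg1 (v + 1) (by (simp <;> omega)) (by decide) (by simp [vb3]; omega) (by simp [vb3]) ?_
        refine ⟨v + 1, hi, ?_, a3.setv (by decide), by omega, le_rfl,
          Or.inr ⟨by simp [vd3], by omega, by omega⟩⟩
        exact ⟨b3.ctx.setv (by decide) (by decide) (by decide), by simp, by simp [b3.vh], by omega,
          hhiD, h.feas, fun b hb hfb => hf (Inst.Feas.mono A (by omega) hfb), by simpa using b3.ST,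
          by simpa using b3.ep⟩
    · have hvhi : v = hi := by omega
      refine (part2_spec hs htw hts (Wb := A.cnt (hi + 1) - A.cnt lo) b2 a2
          h0 h1 (by simp) (by simp [hdn]) ?_).mono (by (simp <;> omega)) ?_
      · rw [hvhi] at f3
        omega
      · rintro σ5 ⟨lo', hi', g1, g2, g3, g4, g5⟩
        refine ⟨lo', hi', g1, g2, g3, g4, ?_⟩
        rcases g5 with g5 | ⟨g5, g6⟩
        · exact Or.inl g5
        · exact Or.inr ⟨g5, by omega, g6⟩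

end

end Pool.Agent.helper9.Jit
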