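import Pool.Agent.helper9.Jit.Main1

/-!
# The two phases of the search
-/

set_option autoImplicit false

namespace Pool.Agent.helper9.Jit

open Finset

def phase1 : Cmd :=
  Cmd.seq (.asgn 19 0) <| Cmd.seq (.asgn 20 ((Expr.var 1) - 1)) <| Cmd.seq (.asgn 23 0) <| Cmd.seq (.asgn 24 1) <|
  .whl ((Expr.var 24) + 1) (Expr.var 0) (Cmd.seq (.ite (Expr.var 23) 0 (iter edf) .skip) <| .asgn 24 (2 * (Expr.var 24)))

def phase2 : Cmd :=
  Cmd.seq (forr 4 ((Expr.var 1) + 1) (.store 9 (Expr.var 4) (Expr.var 4))) <|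
  Cmd.seq (.asgn 12 ((Expr.var 1) + 1)) <|
  Cmd.seq (recompress) <|
  .whl (Expr.var 23) 0 (Cmd.seq (iter ctest) <| recompress)

section
variable {E : Env} {A : Inst}

theorem TW_edf : TW edf := by
  unfold TW; decide

theorem TW_ctest : TW ctest := by
  unfold TW; decide

theorem TS_edf (hs : Sz E A) {lo0 hi0 : ℕ} (hhi : hi0 < A.D) (AX : State → Prop) :
    TS E A edf (1400 * (A.D * lg A)) lo0 hi0 AX := by
  intro σ b ctx _ hvb _ hb
  refine (edf_spec hs (b := b) (by omega) ctx hvb).mono le_rfl ?_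
  rintro σ' ⟨-, h⟩
  rcases h with ⟨h1, h2, -⟩ | h
  · exact Or.inl ⟨h1, h2⟩
  · exact Or.inr h

theorem TS_ctest (hs : Sz E A) {lo hi m : ℕ} (hhi : hi < A.D) (hf : A.Feas hi)
    {QP RG RK : ℕ → ℕ} (hcs : CS A lo hi m QP RG RK) :
    TS E A ctest ((m + 1) * (2100 * (A.n + 1))) lo hi (AUX m QP RG RK) := by
  intro σ b ctx ax hvb hlo hb
  refine (ctest_spec hs (lo := lo) (hi := hi) (m := m) (b := b) ctx ax.xm ?_ hlo hb hhi hf
    hvb).mono le_rfl (fun _ h => h.2)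
  rw [ax.xQP, ax.xRG, ax.xRK]; exact hcs

theorem lg_succ {x : ℕ} (hx : 1 ≤ x) (hxn : x + 1 ≤ A.n) :
    Nat.log 2 (2 * x) = Nat.log 2 x + 1 ∧ Nat.log 2 x + 1 ≤ lg A := by
  have h1 : Nat.log 2 (2 * x) = Nat.log 2 x + 1 := by
    rw [Nat.mul_comm]; exact Nat.log_mul_base (by norm_num) (by omega)
  refine ⟨h1, ?_⟩
  rw [← h1]
  exact Nat.log_mono_right (by omega)

theorem phase1_spec (hs : Sz E A) {σ : State} (ctx : Ctx E A σ)
    (hST : ∀ u ≤ A.D, σ.m 4 u = A.cnt u) (hE : EP A (σ.m 3)) {m : ℕ} {QP RG RK : ℕ → ℕ}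
    (hax : AUX m QP RG RK σ) :
    Ex E phase1 σ (lg A * (2800 * (A.D * lg A) + 300) + 40) (fun σ' => ∃ lo hi,
      BI E A lo hi σ' ∧ AUX m QP RG RK σ' ∧ ((σ'.v 23 = 1 ∧ A.cnt hi ≤ A.cnt lo) ∨
        (σ'.v 23 = 0 ∧ A.cnt (hi + 1) - A.cnt lo ≤ A.D + 1))) := by
  obtain ⟨z1, z2, z3, z4, z5, z6⟩ := hs.facts
  have hN := hs.N_le
  have hD := A.hDpos
  unfold phase1
  refine Ex.asg 0 (by (simp <;> omega)) (by decide) (by simp) (by simp) ?_
  refine Ex.asg (A.D - 1) (by (simp <;> omega)) (by decide) (by simp; omega) (by simp [ctx.D]) ?_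
  refine Ex.asg 0 (by (simp <;> omega)) (by decide) (by simp) (by simp) ?_
  refine Ex.asg 1 (by (simp <;> omega)) (by decide) (by simp; omega) (by simp) ?_
  set σ1 := (((σ.setv 19 0).setv 20 (A.D - 1)).setv 23 0).setv 24 1 with hσ1
  have b1 : BI E A 0 (A.D - 1) σ1 := by
    refine ⟨(((ctx.setv (by decide) (by decide) (by decide)).setv (by decide) (by decide)
      (by decide)).setv (by decide) (by decide) (by decide)).setv (by decide) (by decide)
      (by decide), by simp [hσ1], by simp [hσ1], Nat.zero_le _, by omega, A.feas_top,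
      fun b hb => by omega, by simpa [hσ1] using hST, by simpa [hσ1] using hE⟩
  have a1 : AUX m QP RG RK σ1 := (((hax.setv (by decide)).setv (by decide)).setv
    (by decide)).setv (by decide)
  refine (Ex.whl (σ0 := σ1)
    (Inv := fun σ' => ∃ lo hi, BI E A lo hi σ' ∧ AUX m QP RG RK σ' ∧ 1 ≤ σ'.v 24 ∧
      σ'.v 24 ≤ 2 * A.n ∧ ((σ'.v 23 = 1 ∧ A.cnt hi ≤ A.cnt lo) ∨
        (σ'.v 23 = 0 ∧ σ'.v 24 * (A.cnt (hi + 1) - A.cnt lo) ≤ A.N)))
    (Φ := fun σ' => (lg A - Nat.log 2 (σ'.v 24)) * (2800 * (A.D * lg A) + 300)) ?_ ?_).mono ?_ ?_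
  · refine ⟨0, A.D - 1, b1, a1, by simp [hσ1], by simp [hσ1]; omega, Or.inr ⟨by simp [hσ1], ?_⟩⟩
    have := A.cnt_le_N (A.D - 1 + 1)
    simp [hσ1]
    omega
  · rintro σ2 - ⟨lo, hi, b2, a2, p1, p2, h2⟩
    have ctx2 := b2.ctx
    refine ⟨by simp; omega, by simp, ?_⟩
    simp only [Expr.eval_add, Expr.eval_var, Expr.eval_ofNat, ctx2.n]
    intro hlt
    obtain ⟨l1, l2⟩ := lg_succ (A := A) p1 hlt
    have hstep : (lg A - Nat.log 2 (2 * σ2.v 24)) * (2800 * (A.D * lg A) + 300) +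
        (2800 * (A.D * lg A) + 300) = (lg A - Nat.log 2 (σ2.v 24)) *
          (2800 * (A.D * lg A) + 300) := by
      rw [l1, show lg A - Nat.log 2 (σ2.v 24) = (lg A - (Nat.log 2 (σ2.v 24) + 1)) + 1 by omega]
      ring
    refine ⟨2800 * (A.D * lg A) + 290, ?_⟩
    refine Ex.conds (σ2.v 23) 0 (by (simp <;> omega)) (by simp) (by simp) (by simp) (by simp)
      (fun hle => ?_) (fun hle => ?_)
    · rcases h2 with ⟨h3, h4⟩ | ⟨h3, h4⟩
      · omega
      · refine Ex.sq (2 * (1400 * (A.D * lg A)) + 200) (by (simp <;> omega)) ((iter_spec hs TW_edf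
          (TS_edf hs (lo0 := 0) (hi0 := A.D - 1) (by omega) (AUX m QP RG RK)) b2 a2
          (Nat.zero_le _) (by have := b2.hiD; omega) h3).frame.mono le_rfl ?_)
        rintro σ3 ⟨hfr3, lo', hi', b3, a3, g1, g2, g3⟩
        have hpw : σ3.v 24 = σ2.v 24 := hfr3.1 _ (by decide)
        refine Ex.asg1 (2 * σ2.v 24) (by (simp <;> omega)) (by decide) (by simp [hpw]; omega)
          (by simp [hpw]) ?_
        refine ⟨⟨lo', hi', b3.setv (by decide) (by decide) (by decide) (by decide) (by decide),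
          a3.setv (by decide), by simp; omega, by simp; omega, ?_⟩, ?_⟩
        · rcases g3 with ⟨g4, g5⟩ | ⟨g4, g5, g6⟩
          · left; exact ⟨by simpa using g4, g5⟩
          · right
            refine ⟨by simpa using g4, ?_⟩
            simp only [State.setv_v, if_true]
            calc 2 * σ2.v 24 * (A.cnt (hi' + 1) - A.cnt lo')
                = σ2.v 24 * (2 * (A.cnt (hi' + 1) - A.cnt lo')) := by ring
              _ ≤ σ2.v 24 * (A.cnt (hi + 1) - A.cnt lo) := Nat.mul_le_mul_left _ g6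
              _ ≤ A.N := h4
        · simp only [State.setv_v, if_true, Expr.len_add, Expr.len_var, Expr.len_ofNat]
          omega
    · refine Ex.skips ?_
      refine Ex.asg1 (2 * σ2.v 24) (by (simp <;> omega)) (by decide) (by simp; omega) (by simp) ?_
      refine ⟨⟨lo, hi, b2.setv (by decide) (by decide) (by decide) (by decide) (by decide),
        a2.setv (by decide), by simp; omega, by simp; omega, ?_⟩, ?_⟩
      · rcases h2 with ⟨h3, h4⟩ | ⟨h3, h4⟩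
        · left; exact ⟨by simpa using h3, h4⟩
        · omega
      · simp only [State.setv_v, if_true, Expr.len_add, Expr.len_var, Expr.len_ofNat]
        omega
  · simp [hσ1]
  · rintro σ2 ⟨-, ⟨lo, hi, b2, a2, p1, p2, h2⟩, h5⟩
    refine ⟨lo, hi, b2, a2, ?_⟩
    simp only [Expr.eval_add, Expr.eval_var, Expr.eval_ofNat, b2.ctx.n] at h5
    rcases h2 with h3 | ⟨h3, h4⟩
    · exact Or.inl h3
    · right
      refine ⟨h3, ?_⟩
      have h6 : A.n * (A.cnt (hi + 1) - A.cnt lo) ≤ A.n * (A.D + 1) := by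
        refine le_trans (Nat.mul_le_mul_right _ (show A.n ≤ σ2.v 24 by omega)) ?_
        exact h4
      exact Nat.le_of_mul_le_mul_left h6 A.hn

/-! ### second phase -/

/-- potential of a state of the second phase -/
def pot (A : Inst) (σ : State) : ℕ :=
  if σ.v 23 = 0 then (A.n + 1) * (40000 * (A.cnt (σ.v 20 + 1) - A.cnt (σ.v 19)) + 7000) else 0

theorem fillQP_spec (hs : Sz E A) {σ : State} (ctx : Ctx E A σ) :
    Ex E (forr 4 ((Expr.var 1) + 1) (.store 9 (Expr.var 4) (Expr.var 4))) σ (26 * (A.D + 1) + 16)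
      (fun σ' => ∀ k ≤ A.D, σ'.m 9 k = k) := by
  obtain ⟨z1, z2, z3, z4, z5, z6⟩ := hs.facts
  refine (Ex.forr (T1 := 10) (A.D + 1) (fun k σ' => ∀ u < k, σ'.m 9 u = u)
      (by decide) (by decide) (by omega) ?_ ?_ ?_).mono ?_ ?_
  · intro u hu; omega
  · intro k hk σ' hfr _
    simp [hfr.1 1 (by decide), ctx.D]
    omega
  · intro k hk σ1 hfr1 hinv1 hv1
    have hB : σ1.v 63 = E.B := by rw [hfr1.1 63 (by decide), ctx.B]
    refine Ex.sto1 k k (by (simp <;> omega)) (by simp) (by simp) (by simp [hv1]) (by simp [hv1])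
      (idxok_arr (by decide) (by decide) hB (by omega)) ?_
    intro u hu
    simp only [State.setv_m, State.setm_m, if_true]
    split
    · rename_i h; rw [h]
    · exact hinv1 u (by omega)
  · (simp <;> omega)
  · rintro σ' ⟨-, h, -⟩ u hu
    exact h u (by omega)

theorem CS.init {lo hi : ℕ} {QP RG RK : ℕ → ℕ} (hQP : ∀ k ≤ A.D, QP k = k) (hRG : ∀ x, RG x = 0)
    (hRK : ∀ x, RK x = 0) : CS A lo hi (A.D + 1) QP RG RK := by
  refine ⟨le_rfl, ?_, ?_, ?_, ?_⟩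
  · intro i j hij hj
    rw [hQP i (by omega), hQP j (by omega)]; exact hij
  · intro i hi'
    rw [hQP i (by omega)]; omega
  · intro t ht _
    exact ⟨t, by omega, hQP t ht⟩
  · intro idx hidx b _ _
    refine ((Inst.IsSum.empty (A := A) b (QP idx)).congrX ?_).congrGK ?_ ?_
    · intro s
      constructor
      · exact fun h => h.elim
      · rintro ⟨h1, h2⟩
        rw [hQP idx (by omega)] at h2
        have := h1 s h2
        rw [hQP s (by omega)] at this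
        omega
    · intro c _; exact hRG _
    · intro i _; exact hRK _

set_option maxRecDepth 50000 in
theorem body2_spec (hs : Sz E A) {σ : State} {lo hi m : ℕ} (b2 : BI E A lo hi σ)
    (hvm : σ.v 12 = m) (hcs : CS A lo hi m (σ.m 9) (σ.m 10) (σ.m 11))
    (hm : m ≤ 2 * (A.cnt (hi + 1) - A.cnt lo)) (hdn : σ.v 23 = 0) :
    Ex E (Cmd.seq (iter ctest) <| recompress) σ
      ((A.n + 1) * (12400 * (A.cnt (hi + 1) - A.cnt lo) + 6500)) (fun σ' =>
      (∃ lo' hi' m', BI E A lo' hi' σ' ∧ σ'.v 12 = m' ∧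
        CS A lo' hi' m' (σ'.m 9) (σ'.m 10) (σ'.m 11) ∧
        m' ≤ 2 * (A.cnt (hi' + 1) - A.cnt lo') ∧
        ((σ'.v 23 = 1 ∧ A.cnt hi' ≤ A.cnt lo') ∨ σ'.v 23 = 0)) ∧
      pot A σ' + (A.n + 1) * (12400 * (A.cnt (hi + 1) - A.cnt lo) + 6500) + 5 ≤ pot A σ) := by
  obtain ⟨z1, z2, z3, z4, z5, z6⟩ := hs.facts
  have hhiD := b2.hiD
  obtain ⟨W, hW⟩ : ∃ W, W = A.cnt (hi + 1) - A.cnt lo := ⟨_, rfl⟩
  rw [← hW] at hm ⊢
  obtain ⟨M, hM⟩ : ∃ M, M = A.n + 1 := ⟨_, rfl⟩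
  have hM1 : 2 ≤ M := by omega
  have e1 : (A.n + 1) * (12400 * W + 6500) = 12400 * (M * W) + 6500 * M := by rw [← hM]; ring
  have hpot : pot A σ = 40000 * (M * W) + 7000 * M := by
    unfold pot
    rw [if_pos hdn, b2.vh, b2.vl, ← hW, ← hM]; ring
  rw [e1, hpot]
  have e2 : (m + 1) * (2100 * (A.n + 1)) = 2100 * (M * m) + 2100 * M := by rw [← hM]; ring
  have e3 : m * (2000 * (A.n + 1)) + 2000 * (A.n + 1) = 2000 * (M * m) + 2000 * M := by
    rw [← hM]; ring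
  have hmM : M * m ≤ 2 * (M * W) := by
    calc M * m ≤ M * (2 * W) := Nat.mul_le_mul_left _ hm
      _ = _ := by ring
  refine Ex.sq (2 * (2100 * (M * m) + 2100 * M) + 200) (by omega) ?_
  have hit := iter_spec hs TW_ctest (TS_ctest hs hhiD b2.feas hcs) b2
    (⟨hvm, rfl, rfl, rfl⟩ : AUX m (σ.m 9) (σ.m 10) (σ.m 11) σ) le_rfl le_rfl hdn
  rw [e2] at hit
  refine hit.mono le_rfl ?_
  rintro σ3 ⟨lo', hi', b3, a3, g1, g2, g3⟩
  have hhi'D := b3.hiD
  have hrc := recompress_spec hs b3.ctx (lo0 := lo) (hi0 := hi) (lo := lo') (hi := hi') (m := m)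
    (by rw [a3.xQP, a3.xRG, a3.xRK]; exact hcs) g1 b3.le g2 hhiD a3.xm b3.vl b3.vh
  rw [e3] at hrc
  refine hrc.mono (by omega) ?_
  rintro σ4 ⟨hfr4, m', k1, k2, k3⟩
  have b4 : BI E A lo' hi' σ4 := b3.fr2 hfr4 (by decide)
  have hdn4 : σ4.v 23 = σ3.v 23 := hfr4.1 _ (by decide)
  refine ⟨⟨lo', hi', m', b4, k1, k2, k3, ?_⟩, ?_⟩
  · rw [hdn4]
    rcases g3 with g3 | ⟨g3, -⟩
    · exact Or.inl g3
    · exact Or.inr g3
  · rcases g3 with ⟨g3, -⟩ | ⟨g3, g4, g5⟩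
    · have : pot A σ4 = 0 := by
        unfold pot
        rw [if_neg (by rw [hdn4, g3]; norm_num)]
      rw [this]
      omega
    · have hp4 : pot A σ4 = 40000 * (M * (A.cnt (hi' + 1) - A.cnt lo')) + 7000 * M := by
        unfold pot
        rw [if_pos (by rw [hdn4, g3]), b4.vh, b4.vl, ← hM]; ring
      obtain ⟨W', hW'⟩ : ∃ W', W' = A.cnt (hi' + 1) - A.cnt lo' := ⟨_, rfl⟩
      rw [hp4, ← hW']
      rw [← hW', ← hW] at g5
      have hmono := A.cnt_mono (show hi ≤ hi + 1 by omega)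
      have hW1 : 1 ≤ W := by omega
      have h5 : 2 * (M * W') ≤ M * W := by
        calc 2 * (M * W') = M * (2 * W') := by ring
          _ ≤ M * W := Nat.mul_le_mul_left _ g5
      have h6 : M ≤ M * W := Nat.le_mul_of_pos_right _ hW1
      omega

set_option maxRecDepth 50000 in
theorem phase2_spec (hs : Sz E A) {σ : State} {lo hi : ℕ} (b1 : BI E A lo hi σ)
    (hdn : σ.v 23 = 0) (hW : A.cnt (hi + 1) - A.cnt lo ≤ A.D + 1)
    (hRG : ∀ x, σ.m 10 x = 0) (hRK : ∀ x, σ.m 11 x = 0) :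
    Ex E phase2 σ (60000 * ((A.n + 1) * (A.D + 1))) (fun σ' => ∃ lo' hi',
      BI E A lo' hi' σ' ∧ A.cnt hi' ≤ A.cnt lo') := by
  obtain ⟨z1, z2, z3, z4, z5, z6⟩ := hs.facts
  have hhiD := b1.hiD
  obtain ⟨M, hM⟩ : ∃ M, M = A.n + 1 := ⟨_, rfl⟩
  obtain ⟨Q, hQ⟩ : ∃ Q, Q = A.D + 1 := ⟨_, rfl⟩
  rw [← hQ] at hW
  rw [← hM, ← hQ]
  have hMQ : M ≤ M * Q := Nat.le_mul_of_pos_right _ (by omega)
  have hQM : Q ≤ M * Q := Nat.le_mul_of_pos_left _ (by omega)
  have e3 : Q * (2000 * (A.n + 1)) + 2000 * (A.n + 1) = 2000 * (M * Q) + 2000 * M := by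
    rw [← hM]; ring
  unfold phase2
  refine Ex.sq (26 * Q + 16) (by omega) ?_
  have hfill := (fillQP_spec hs b1.ctx).frame
  rw [← hQ] at hfill
  refine hfill.mono le_rfl ?_
  rintro σ2 ⟨hfr2, h2⟩
  have b2 : BI E A lo hi σ2 := b1.fr2 hfr2 (by decide)
  refine Ex.asg Q (by simp; omega) (by decide) (by simp [b2.ctx.D]; omega)
    (by simp [b2.ctx.D, hQ]) ?_
  have b3 : BI E A lo hi (σ2.setv 12 Q) := b2.setv (by decide) (by decide) (by decide) (by decide)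
    (by decide)
  have hQP3 : ∀ k ≤ A.D, (σ2.setv 12 Q).m 9 k = k := by simpa using h2
  have hRG3 : ∀ x, (σ2.setv 12 Q).m 10 x = 0 := by
    intro x; simp [hfr2.2 10 (by decide), hRG]
  have hRK3 : ∀ x, (σ2.setv 12 Q).m 11 x = 0 := by
    intro x; simp [hfr2.2 11 (by decide), hRK]
  have hcs := CS.init (A := A) (lo := lo) (hi := hi) hQP3 hRG3 hRK3
  rw [← hQ] at hcs
  refine Ex.sq (2000 * (M * Q) + 2000 * M) (by simp; omega) ?_
  have hrc := recompress_spec hs b3.ctx (lo0 := lo) (hi0 := hi) (lo := lo) (hi := hi) (m := Q)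
    hcs le_rfl b3.le le_rfl hhiD (by simp) b3.vl b3.vh
  rw [e3] at hrc
  refine hrc.mono le_rfl ?_
  rintro σ4 ⟨hfr4, m', k1, k2, k3⟩
  have b4 : BI E A lo hi σ4 := b3.fr2 hfr4 (by decide)
  have hdn4 : σ4.v 23 = 0 := by
    rw [hfr4.1 23 (by decide)]
    simp [hfr2.1 23 (by decide), hdn]
  have hpot4 : pot A σ4 ≤ 47000 * (M * Q) := by
    unfold pot
    rw [if_pos hdn4, b4.vh, b4.vl, ← hM]
    calc M * (40000 * (A.cnt (hi + 1) - A.cnt lo) + 7000) ≤ M * (40000 * Q + 7000) := by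
          apply Nat.mul_le_mul_left; omega
      _ = 40000 * (M * Q) + 7000 * M := by ring
      _ ≤ _ := by omega
  refine (Ex.whl (σ0 := σ4) (Inv := fun σ' => ∃ lo hi m, BI E A lo hi σ' ∧ σ'.v 12 = m ∧
      CS A lo hi m (σ'.m 9) (σ'.m 10) (σ'.m 11) ∧
      m ≤ 2 * (A.cnt (hi + 1) - A.cnt lo) ∧
      ((σ'.v 23 = 1 ∧ A.cnt hi ≤ A.cnt lo) ∨ σ'.v 23 = 0)) (Φ := pot A) ?_ ?_).mono ?_ ?_
  · exact ⟨lo, hi, m', b4, k1, k2, k3, Or.inr hdn4⟩
  · rintro σ5 - ⟨lo5, hi5, m5, b5, l1, l2, l3, l4⟩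
    refine ⟨by simp, by simp, ?_⟩
    simp only [Expr.eval_var, Expr.eval_ofNat]
    intro hle
    refine ⟨_, (body2_spec hs b5 l1 l2 l3 (by omega)).mono le_rfl ?_⟩
    rintro σ6 ⟨h6, h7⟩
    refine ⟨h6, ?_⟩
    have e5 : (Expr.var 23).len + (0 : Expr).len + 2 = 5 := rfl
    rw [e5]; exact h7
  · have e5 : (Expr.var 23).len + (0 : Expr).len + 2 = 5 := rfl
    rw [e5]
    simp only [Expr.len_add, Expr.len_var, Expr.len_ofNat]
    omega
  · rintro σ5 ⟨-, ⟨lo5, hi5, m5, b5, l1, l2, l3, l4⟩, h5⟩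
    simp only [Expr.eval_var, Expr.eval_ofNat] at h5
    rcases l4 with ⟨l5, l6⟩ | l5
    · exact ⟨lo5, hi5, b5, l6⟩
    · omega

end

end Pool.Agent.helper9.Jit
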