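import Pool.Agent.helper9.Jit.Main2

/-!
# The whole program
-/

set_option autoImplicit false

namespace Pool.Agent.helper9.Jit

open Finset

def pre1 : Cmd := forr 6 (Expr.var 0) (.asgn 1 ((Expr.var 1) + (Expr.arr 0 ((Expr.var 6) + 1))))

def pre2 : Cmd := forr 6 (Expr.var 0) (
  Cmd.seq (.store 1 (Expr.var 6) ((Expr.arr 0 ((Expr.var 6) + 1)))) <| Cmd.seq (.store 2 (Expr.var 6) (Expr.var 7)) <| .asgn 7 ((Expr.var 7) + (Expr.arr 0 ((Expr.var 6) + 1))))

/-- read the input -/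
def prelude : Cmd :=
  Cmd.seq (.asgn 0 ((Expr.arr 0 (0)))) <| Cmd.seq (.asgn 1 0) <| Cmd.seq (pre1) <| Cmd.seq (.asgn 63 ((Expr.var 0) + (Expr.var 1) + 1)) <| Cmd.seq (.asgn 7 0) <| pre2

/-- write the output -/
def outp : Cmd := forr 4 (Expr.var 1) (.store 0 ((Expr.var 0) + 1 + (Expr.var 4)) ((Expr.arr 8 ((Expr.var 4)))))

def mainCmd : Cmd :=
  Cmd.seq (prelude) <| Cmd.seq (cs1) <| Cmd.seq (cs2) <| Cmd.seq (cs3) <| Cmd.seq (phase1) <| Cmd.seq (.ite (Expr.var 23) 0 phase2 .skip) <|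
  Cmd.seq (.asgn 2 (Expr.var 20)) <| Cmd.seq (edf) <| outp

/-- The environment of a run. -/
def envOf (A : Inst) : Env where
  W := 200 * (A.D * A.D)
  I := 10 * (A.D * A.D)
  B := A.n + A.D + 1
  hW := by
    have h1 := A.hnD
    have h2 := A.hDpos
    have h3 : A.D ≤ A.D * A.D := Nat.le_mul_of_pos_left _ h2
    show A.n + A.D + 1 + 16 * (10 * (A.D * A.D)) + 16 ≤ 200 * (A.D * A.D)
    omega

/-- The contents of the input cells. -/
def inp (A : Inst) (x : ℕ) : ℕ := if x = 0 then A.n else if x - 1 < A.n then A.d (x - 1) else 0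

/-- The initial state. -/
def st0 (A : Inst) : State := ⟨fun _ => 0, fun a x => if a = 0 then inp A x else 0⟩

theorem envOf_sz (A : Inst) : Sz (envOf A) A := by
  refine ⟨?_, le_rfl⟩
  show 100 * (A.D * A.D) ≤ 200 * (A.D * A.D)
  omega

section
variable {A : Inst}

theorem inp_succ {i : ℕ} (hi : i < A.n) : inp A (i + 1) = A.d i := by
  unfold inp
  rw [if_neg (by omega), if_pos (by simpa using hi)]
  simp

theorem S_le {i : ℕ} (hi : i ≤ A.n) : A.S i ≤ A.D := by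
  rw [← A.S_n]; exact A.S_mono hi

theorem pre1_spec {σ : State} (h1 : σ.v 0 = A.n) (h2 : σ.v 1 = 0)
    (h3 : ∀ x, σ.m 0 x = inp A x) :
    Ex (envOf A) pre1 σ (50 * A.n + 14) (fun σ' => σ'.v 1 = A.D) := by
  obtain ⟨z1, z2, z3, z4, z5, z6⟩ := (envOf_sz A).facts
  have hB : (envOf A).B = A.n + A.D + 1 := rfl
  have hD := A.hDpos
  unfold pre1
  refine (Ex.forr (T1 := 20) A.n (fun k σ' => σ'.v 1 = A.S k)
      (by decide) (by decide) (by omega) ?_ ?_ ?_).mono ?_ ?_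
  · simp [h2, Inst.S]
  · intro k hk σ' hfr _
    simp [hfr.1 0 (by decide), h1]
  · intro k hk σ1 hfr1 hinv1 hv1
    have hm : ∀ x, σ1.m 0 x = inp A x := by intro x; rw [hfr1.2 0 (by decide), h3 x]
    have hd := inp_succ hk
    have e1 := A.S_succ k
    have e2 := S_le (A := A) (show k + 1 ≤ A.n from hk)
    refine Ex.asg1 (A.S (k + 1)) (by (simp <;> omega)) (by decide) ?_ ?_ ?_
    · simp [hv1, hinv1, hm, hd, idxok, hB]
      omega
    · simp [hv1, hinv1, hm, hd, e1]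
    · simp
  · (simp <;> omega)
  · rintro σ' ⟨-, h, -⟩
    rw [h, A.S_n]

theorem pre2_spec {σ : State} (h1 : σ.v 0 = A.n) (h2 : σ.v 7 = 0)
    (h3 : ∀ x, σ.m 0 x = inp A x) (h4 : σ.v 63 = (envOf A).B) :
    Ex (envOf A) pre2 σ (80 * A.n + 14) (fun σ' =>
      (∀ i < A.n, σ'.m 1 i = A.d i) ∧ (∀ i < A.n, σ'.m 2 i = A.S i)) := by
  obtain ⟨z1, z2, z3, z4, z5, z6⟩ := (envOf_sz A).facts
  have hB : (envOf A).B = A.n + A.D + 1 := rfl
  have hD := A.hDpos
  unfold pre2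
  refine (Ex.forr (T1 := 60) A.n (fun k σ' => σ'.v 7 = A.S k ∧
      (∀ i < k, σ'.m 1 i = A.d i) ∧ (∀ i < k, σ'.m 2 i = A.S i))
      (by decide) (by decide) (by omega) ?_ ?_ ?_).mono ?_ (fun σ' h => h.2.1.2)
  · refine ⟨by simp [h2, Inst.S], ?_, ?_⟩ <;> intro i hi <;> omega
  · intro k hk σ' hfr _
    simp [hfr.1 0 (by decide), h1]
  · rintro k hk σ1 hfr1 ⟨i1, i2, i3⟩ hv1
    have hm : ∀ x, σ1.m 0 x = inp A x := by intro x; rw [hfr1.2 0 (by decide), h3 x]
    have hB1 : σ1.v 63 = (envOf A).B := by rw [hfr1.1 63 (by decide), h4]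
    have hd := inp_succ hk
    have e1 := A.S_succ k
    have e2 := S_le (A := A) (show k + 1 ≤ A.n from hk)
    refine Ex.sto k (A.d k) (by (simp <;> omega)) (by simp) ?_ (by simp [hv1]) (by simp [hv1, hm, hd])
      (idxok_arr (by decide) (by decide) hB1 (by omega)) ?_
    · simp [hv1, idxok, hB]
      omega
    refine Ex.sto k (A.S k) (by (simp <;> omega)) (by simp) (by simp) (by simp [hv1]) (by simp [i1])
      (idxok_arr (by decide) (by decide) (by simpa using hB1) (by omega)) ?_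
    refine Ex.asg1 (A.S (k + 1)) (by (simp <;> omega)) (by decide) ?_ ?_ ?_
    · simp [hv1, i1, hm, hd, idxok, hB]
      omega
    · simp [hv1, i1, hm, hd, e1]
    · refine ⟨by simp, ?_, ?_⟩
      · intro i hi
        by_cases hik : i = k
        · subst hik; simp
        · simp [hik, i2 i (by omega)]
      · intro i hi
        by_cases hik : i = k
        · subst hik; simp
        · simp [hik, i3 i (by omega)]
  · (simp <;> omega)

theorem prelude_spec (A : Inst) :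
    Ex (envOf A) prelude (st0 A) (200 * A.n + 100) (Ctx (envOf A) A) := by
  obtain ⟨z1, z2, z3, z4, z5, z6⟩ := (envOf_sz A).facts
  have hB : (envOf A).B = A.n + A.D + 1 := rfl
  have hD := A.hDpos
  unfold prelude
  have e0 : (st0 A).m 0 0 = A.n := by simp [st0, inp]
  refine Ex.asg A.n (by (simp <;> omega)) (by decide) (by simp [idxok, hB]) (by simp [e0]) ?_
  refine Ex.asg 0 (by (simp <;> omega)) (by decide) (by simp) (by simp) ?_
  set σ1 := ((st0 A).setv 0 A.n).setv 1 0 with hσ1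
  have m1 : ∀ x, σ1.m 0 x = inp A x := by intro x; simp [hσ1, st0]
  refine Ex.sq (50 * A.n + 14) (by (simp <;> omega)) ((pre1_spec (by simp [hσ1]) (by simp [hσ1])
    m1).frame.mono le_rfl ?_)
  rintro σ2 ⟨hfr2, h2⟩
  have n2 : σ2.v 0 = A.n := by rw [hfr2.1 0 (by decide)]; simp [hσ1]
  have m2 : ∀ x, σ2.m 0 x = inp A x := by intro x; rw [hfr2.2 0 (by decide), m1 x]
  refine Ex.asg (A.n + A.D + 1) (by (simp <;> omega)) (by decide) (by simp [n2, h2]; omega)
    (by simp [n2, h2]) ?_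
  refine Ex.asg 0 (by (simp <;> omega)) (by decide) (by simp) (by simp) ?_
  set σ3 := (σ2.setv 63 (A.n + A.D + 1)).setv 7 0 with hσ3
  refine (pre2_spec (σ := σ3) (by simp [hσ3, n2]) (by simp [hσ3]) (by intro x; simp [hσ3, m2])
    (by simp [hσ3, hB])).frame.mono (by (simp <;> omega)) ?_
  rintro σ4 ⟨hfr4, h41, h42⟩
  refine ⟨?_, ?_, ?_, h41, h42⟩
  · rw [hfr4.1 0 (by decide)]; simp [hσ3, n2]
  · rw [hfr4.1 1 (by decide)]; simp [hσ3, h2]
  · rw [hfr4.1 63 (by decide)]; simp [hσ3, hB]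

theorem outp_spec {σ : State} (ctx : Ctx (envOf A) A σ) {POS : ℕ → ℕ} (h : σ.m 8 = POS) :
    Ex (envOf A) outp σ (50 * A.D + 14) (fun σ' => ∀ k < A.D, σ'.m 0 (A.n + 1 + k) = POS k) := by
  obtain ⟨z1, z2, z3, z4, z5, z6⟩ := (envOf_sz A).facts
  have hB : (envOf A).B = A.n + A.D + 1 := rfl
  have hD := A.hDpos
  unfold outp
  refine (Ex.forr (T1 := 36) A.D (fun k σ' => ∀ u < k, σ'.m 0 (A.n + 1 + u) = POS u)
      (by decide) (by decide) (by omega) ?_ ?_ ?_).mono ?_ (fun σ' h => h.2.1)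
  · intro u hu; omega
  · intro k hk σ' hfr _
    simp [hfr.1 1 (by decide), ctx.D]
  · intro k hk σ1 hfr1 hinv1 hv1
    have n1 : σ1.v 0 = A.n := by rw [hfr1.1 0 (by decide), ctx.n]
    have b1 : σ1.v 63 = (envOf A).B := by rw [hfr1.1 63 (by decide), ctx.B]
    have p1 : σ1.m 8 = POS := by rw [hfr1.2 8 (by decide), h]
    refine Ex.sto1 (A.n + 1 + k) (POS k) (by (simp <;> omega)) (by simp [n1, hv1]; omega) ?_
      (by simp [n1, hv1]) (by simp [hv1, p1]) (idxok_raw (by omega)) ?_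
    · simp [idxok, KA, hv1, b1]
      omega
    · intro u hu
      simp only [State.setv_m, State.setm_m, if_true]
      by_cases huk : u = k
      · subst huk; simp
      · rw [if_neg (by omega)]
        exact hinv1 u (by omega)
  · (simp <;> omega)

theorem Inst.Good.congr {b : ℕ} {π π' : ℕ × ℕ → ℕ} (h : A.Good b π)
    (he : ∀ c ∈ A.Cs, π' c = π c) : A.Good b π' := by
  refine ⟨?_, ?_⟩
  · intro c hc
    rw [he c hc]; exact h.1 c hc
  · intro c hc c' hc' hcc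
    rw [he c (mem_coe.1 hc), he c' (mem_coe.1 hc')] at hcc
    exact h.2 hc hc' hcc

theorem two_pow_ge (m : ℕ) : (m + 1) * (m + 1) ≤ 3 * 2 ^ m := by
  induction m with
  | zero => norm_num
  | succ m ih =>
    rcases Nat.lt_or_ge m 2 with h | h
    · interval_cases m <;> norm_num
    · rw [pow_succ]
      nlinarith

theorem lg_sq (A : Inst) : lg A * lg A ≤ 3 * A.n := by
  have hn := A.hn
  have h1 : lg A = Nat.log 2 A.n + 1 := by
    unfold lg
    rw [Nat.mul_comm]; exact Nat.log_mul_base (by norm_num) (by omega)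
  rw [h1]
  refine (two_pow_ge _).trans ?_
  exact Nat.mul_le_mul_left _ (Nat.pow_log_le_self 2 (by omega))

set_option maxRecDepth 50000 in
theorem main_spec (A : Inst) :
    Ex (envOf A) mainCmd (st0 A) (400000 * (A.n * A.D)) (fun σ' => ∃ b < A.D,
      A.Good b (fun c => σ'.m 0 (A.n + 1 + (A.S c.1 + c.2)) - 1) ∧
      (∀ b' < b, ¬ A.Feas b') ∧
      ∀ i < A.n, ∀ j < A.d i, 1 ≤ σ'.m 0 (A.n + 1 + (A.S i + j))) := by
  obtain ⟨z1, z2, z3, z4, z5, z6⟩ := (envOf_sz A).facts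
  have hs := envOf_sz A
  have hB : (envOf A).B = A.n + A.D + 1 := rfl
  have hD := A.hDpos
  have hlg := lg_pos (A := A)
  obtain ⟨X, hX⟩ : ∃ X, X = A.n * A.D := ⟨_, rfl⟩
  have hX1 : A.n ≤ X := by rw [hX]; exact Nat.le_mul_of_pos_right _ hD
  have hX2 : A.D ≤ X := by rw [hX]; exact Nat.le_mul_of_pos_left _ A.hn
  have t1 : A.n * ((A.D + 1) * 100 + 40) + 20 = 100 * X + 140 * A.n + 20 := by rw [hX]; ring
  have t2 : A.N * 60 + A.D * 60 + 40 = 60 * X + 60 * A.n + 60 * A.D + 40 := by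
    unfold Inst.N; rw [hX]; ring
  have t3 : A.D * lg A * lg A ≤ 3 * X := by
    calc A.D * lg A * lg A = A.D * (lg A * lg A) := by ring
      _ ≤ A.D * (3 * A.n) := Nat.mul_le_mul_left _ (lg_sq A)
      _ = 3 * X := by rw [hX]; ring
  have t4 : A.D * lg A ≤ 3 * X := le_trans (Nat.le_mul_of_pos_right _ hlg) t3
  have t5 : lg A ≤ 3 * X := le_trans (Nat.le_mul_of_pos_left _ hD) t4
  have t6 : lg A * (2800 * (A.D * lg A) + 300) + 40 = 2800 * (A.D * lg A * lg A) + 300 * lg A + 40 := by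
    ring
  have t7 : 60000 * ((A.n + 1) * (A.D + 1)) = 60000 * X + 60000 * A.n + 60000 * A.D + 60000 := by
    rw [hX]; ring
  obtain ⟨L1, hL1⟩ : ∃ L1, L1 = A.D * lg A * lg A := ⟨_, rfl⟩
  obtain ⟨L2, hL2⟩ : ∃ L2, L2 = A.D * lg A := ⟨_, rfl⟩
  rw [← hL1] at t3 t6
  rw [← hL2] at t4
  rw [← hX]
  unfold mainCmd
  refine Ex.sq (200 * A.n + 100) (by omega) ((prelude_spec A).frame.mono le_rfl ?_)
  rintro σ1 ⟨hfr1, ctx1⟩
  have z : ∀ a, 3 ≤ a → ∀ x, (st0 A).m a x = 0 := by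
    intro a ha x
    simp only [st0]
    rw [if_neg (by omega)]
  have c1 := (cs1_spec hs ctx1 (by
    intro u; rw [hfr1.2 4 (by decide)]; exact z _ (by decide) _)).frame
  rw [t1] at c1
  refine Ex.sq (100 * X + 140 * A.n + 20) (by omega) (c1.mono le_rfl ?_)
  rintro σ2 ⟨hfr2, h2⟩
  have ctx2 := ctx1.fr hfr2 (by decide)
  refine Ex.sq (A.D * 60 + 20) (by omega) ((cs2_spec hs ctx2 h2).frame.mono le_rfl ?_)
  rintro σ3 ⟨hfr3, h3⟩
  have ctx3 := ctx2.fr hfr3 (by decide)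
  have c3 := (cs3_spec hs ctx3 h3).frame
  rw [t2] at c3
  refine Ex.sq (60 * X + 60 * A.n + 60 * A.D + 40) (by omega) (c3.mono le_rfl ?_)
  rintro σ4 ⟨hfr4, h4⟩
  have ctx4 := ctx3.fr hfr4 (by decide)
  have ST4 : ∀ u ≤ A.D, σ4.m 4 u = A.cnt u := by
    intro u hu; rw [hfr4.2 4 (by decide)]; exact h3 u hu
  have RG4 : ∀ x, σ4.m 10 x = 0 := by
    intro x
    rw [hfr4.2 10 (by decide), hfr3.2 10 (by decide), hfr2.2 10 (by decide),
      hfr1.2 10 (by decide)]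
    exact z _ (by decide) _
  have RK4 : ∀ x, σ4.m 11 x = 0 := by
    intro x
    rw [hfr4.2 11 (by decide), hfr3.2 11 (by decide), hfr2.2 11 (by decide),
      hfr1.2 11 (by decide)]
    exact z _ (by decide) _
  have c5 := phase1_spec hs ctx4 ST4 h4 (⟨rfl, rfl, rfl, rfl⟩ :
    AUX (σ4.v 12) (σ4.m 9) (σ4.m 10) (σ4.m 11) σ4)
  rw [t6] at c5
  refine Ex.sq (2800 * L1 + 300 * lg A + 40) (by omega) (c5.mono le_rfl ?_)
  rintro σ5 ⟨lo, hi, b5, a5, h5⟩
  have RG5 : ∀ x, σ5.m 10 x = 0 := by intro x; rw [a5.xRG]; exact RG4 x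
  have RK5 : ∀ x, σ5.m 11 x = 0 := by intro x; rw [a5.xRK]; exact RK4 x
  -- the rest of the program
  have rest : ∀ σ6 lo' hi', BI (envOf A) A lo' hi' σ6 → A.cnt hi' ≤ A.cnt lo' →
      ∀ T, 1400 * L2 + 50 * A.D + 100 ≤ T →
      Ex (envOf A) (Cmd.seq (.asgn 2 (Expr.var 20)) <| Cmd.seq (edf) <| outp) σ6 T (fun σ' => ∃ b < A.D,
      A.Good b (fun c => σ'.m 0 (A.n + 1 + (A.S c.1 + c.2)) - 1) ∧
      (∀ b' < b, ¬ A.Feas b') ∧
      ∀ i < A.n, ∀ j < A.d i, 1 ≤ σ'.m 0 (A.n + 1 + (A.S i + j))) := by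
    intro σ6 lo' hi' b6 hc T hT
    have hopt := b6.optimal hc
    refine Ex.asg hi' (by simp; omega) (by decide) (by simp) (by simp [b6.vh]) ?_
    have ctx6 := b6.ctx.setv (x := 2) (y := hi') (by decide) (by decide) (by decide)
    have c7 := edf_spec hs b6.hiD ctx6 (by simp)
    rw [← hL2] at c7
    refine Ex.sq (1400 * L2) (by simp; omega) (c7.mono le_rfl ?_)
    rintro σ7 ⟨hfr7, h7⟩
    have ctx7 := ctx6.fr hfr7 (by decide)
    rcases h7 with ⟨-, -, h8, h9⟩ | ⟨-, h8⟩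
    · refine (outp_spec ctx7 rfl).mono (by simp; omega) ?_
      intro σ8 h10
      refine ⟨hi', b6.hiD, ?_, hopt, ?_⟩
      · refine h8.congr ?_
        intro c hc
        obtain ⟨k1, k2⟩ := A.mem_Cs.1 hc
        show σ8.m 0 (A.n + 1 + (A.S c.1 + c.2)) - 1 = _
        rw [h10 _ (A.S_lt k1 k2)]
      · intro i hi'' j hj
        rw [h10 _ (A.S_lt hi'' hj)]
        exact (h9 i hi'' j hj).1
    · exact absurd b6.feas h8
  refine Ex.conds (σ5.v 23) 0 (by simp; omega) (by simp) (by simp) (by simp) (by simp)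
    (fun hle => ?_) (fun hle => ?_)
  · rcases h5 with ⟨h6, h7⟩ | ⟨h6, h7⟩
    · omega
    · have c6 := phase2_spec hs b5 h6 h7 RG5 RK5
      rw [t7] at c6
      refine Ex.sq (60000 * X + 60000 * A.n + 60000 * A.D + 60000) (by simp; omega)
        (c6.mono le_rfl ?_)
      rintro σ6 ⟨lo', hi', b6, h8⟩
      exact rest σ6 lo' hi' b6 h8 _ (by simp; omega)
  · rcases h5 with ⟨h6, h7⟩ | ⟨h6, h7⟩
    · refine Ex.skips ?_
      exact rest σ5 lo hi b5 h7 _ (by simp; omega)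
    · omega

end

end Pool.Agent.helper9.Jit
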