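import Mathlib

/-!
# Just-in-time sequencing: windows, Hall condition, symmetry, monotonicity

`n` letters `0,…,n-1`, `d i` copies of letter `i`, `D = ∑ i < n, d i`.
Copies are pairs `(i,j)` with `j < d i`, positions are `p < D` (all `0`-based).
For an integer bound `b < D` the copy `(i,j)` may be put at position `p` (deviation at most `b / D`)
iff `Lb b i p ≤ j < Ub b i (p+1)`.
-/

set_option autoImplicit false

namespace Pool.Agent.helper9.Jit

open Finset

/-- An instance. -/
structure Inst where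
  n : ℕ
  d : ℕ → ℕ
  D : ℕ
  hn : 0 < n
  hd : ∀ i < n, 0 < d i
  hD : D = ∑ i ∈ range n, d i

namespace Inst

variable (A : Inst)

def q (i k : ℕ) : ℕ := k * A.d i / A.D
def f (i k : ℕ) : ℕ := k * A.d i % A.D
def L (b i k : ℕ) : ℕ := A.q i k + if b < A.f i k then 1 else 0
def U (b i k : ℕ) : ℕ := A.q i k + if A.D ≤ A.f i k + b then 1 else 0

/-- copy `(i,j)` may be at position `p` -/
def valid (b i j p : ℕ) : Prop := A.L b i p ≤ j ∧ j < A.U b i (p + 1)

/-- The copies. -/
def Cs : Finset (ℕ × ℕ) :=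
  (range A.n).biUnion (fun i => (range (A.d i)).image (fun j => (i, j)))

theorem mem_Cs {c : ℕ × ℕ} : c ∈ A.Cs ↔ c.1 < A.n ∧ c.2 < A.d c.1 := by
  unfold Cs
  simp only [mem_biUnion, mem_range, mem_image]
  constructor
  · rintro ⟨i, hi, j, hj, rfl⟩; exact ⟨hi, hj⟩
  · rintro ⟨h1, h2⟩; exact ⟨c.1, h1, c.2, h2, rfl⟩

theorem card_filter_Cs (P : ℕ × ℕ → Prop) [DecidablePred P] :
    (A.Cs.filter P).card = ∑ i ∈ range A.n, ((range (A.d i)).filter (fun j => P (i, j))).card := by
  unfold Cs
  rw [filter_biUnion, card_biUnion]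
  · refine sum_congr rfl fun i _ => ?_
    rw [filter_image, card_image_of_injOn]
    intro a _ b _ hab
    simpa using hab
  · intro i _ i' _ hii'
    rw [Function.onFun, disjoint_left]
    intro c hc hc'
    simp only [mem_filter, mem_image] at hc hc'
    obtain ⟨⟨j, -, rfl⟩, -⟩ := hc
    obtain ⟨⟨j', -, hj'⟩, -⟩ := hc'
    exact hii' (by simpa using (congrArg Prod.fst hj').symm)

theorem card_Cs : A.Cs.card = A.D := by
  have := A.card_filter_Cs (fun _ => True)
  simp only [filter_true, card_range] at this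
  rw [this, A.hD]

theorem hDpos : 0 < A.D := by
  rw [A.hD]
  exact sum_pos (fun i hi => A.hd i (mem_range.1 hi)) ⟨0, mem_range.2 A.hn⟩

theorem hdD {i : ℕ} (hi : i < A.n) : A.d i ≤ A.D := by
  rw [A.hD]
  exact single_le_sum (fun _ _ => Nat.zero_le _) (mem_range.2 hi)

theorem hnD : A.n ≤ A.D := by
  rw [A.hD]
  calc A.n = ∑ i ∈ range A.n, 1 := by simp
    _ ≤ _ := sum_le_sum fun i hi => A.hd i (mem_range.1 hi)

/-- A feasible assignment for the bound `b`. -/
def Good (b : ℕ) (π : ℕ × ℕ → ℕ) : Prop :=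
  (∀ c ∈ A.Cs, π c < A.D ∧ A.valid b c.1 c.2 (π c)) ∧ Set.InjOn π A.Cs

def Feas (b : ℕ) : Prop := ∃ π, A.Good b π

/-- The Hall condition for one pair. -/
def Hp (b s t : ℕ) : Prop := ∑ i ∈ range A.n, (A.L b i t - A.U b i s) ≤ t - s

/-- The Hall condition. -/
def HC (b : ℕ) : Prop := ∀ s t, s ≤ t → t ≤ A.D → A.Hp b s t

theorem f_lt (i k : ℕ) : A.f i k < A.D := Nat.mod_lt _ A.hDpos

theorem qf (i k : ℕ) : A.D * A.q i k + A.f i k = k * A.d i := Nat.div_add_mod _ _

theorem q_mono (i : ℕ) {k l : ℕ} (h : k ≤ l) : A.q i k ≤ A.q i l :=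
  Nat.div_le_div_right (Nat.mul_le_mul_right _ h)

/-- `L` as a ceiling -/
theorem L_le_iff {b i k x : ℕ} (hb : b < A.D) : A.L b i k ≤ x ↔ k * A.d i ≤ A.D * x + b := by
  unfold L
  have h1 := A.qf i k
  have h2 := A.f_lt i k
  have hD := A.hDpos
  constructor
  · intro h
    split at h
    · have : A.D * (A.q i k + 1) ≤ A.D * x := Nat.mul_le_mul_left _ h
      rw [Nat.mul_add] at this
      omega
    · have : A.D * (A.q i k) ≤ A.D * x := Nat.mul_le_mul_left _ h
      omega
  · intro h
    split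
    · by_contra hcon
      have : A.D * x ≤ A.D * A.q i k := Nat.mul_le_mul_left _ (by omega)
      omega
    · by_contra hcon
      have : A.D * (x + 1) ≤ A.D * A.q i k := Nat.mul_le_mul_left _ (by omega)
      rw [Nat.mul_add] at this
      omega

theorem lt_U_iff {b i k x : ℕ} (hb : b < A.D) : x < A.U b i k ↔ A.D * (x + 1) ≤ k * A.d i + b := by
  unfold U
  have h1 := A.qf i k
  have h2 := A.f_lt i k
  have hD := A.hDpos
  constructor
  · intro h
    split at h
    · have : A.D * (x + 1) ≤ A.D * (A.q i k + 1) := Nat.mul_le_mul_left _ h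
      rw [Nat.mul_add A.D (A.q i k)] at this
      omega
    · have : A.D * (x + 1) ≤ A.D * (A.q i k) := Nat.mul_le_mul_left _ h
      omega
  · intro h
    split
    · by_contra hcon
      have : A.D * (A.q i k + 1 + 1) ≤ A.D * (x + 1) := Nat.mul_le_mul_left _ (by omega)
      rw [Nat.mul_add, Nat.mul_add A.D (A.q i k)] at this
      omega
    · by_contra hcon
      have : A.D * (A.q i k + 1) ≤ A.D * (x + 1) := Nat.mul_le_mul_left _ (by omega)
      rw [Nat.mul_add] at this
      omega

theorem L_mono {b i : ℕ} (hb : b < A.D) {k l : ℕ} (h : k ≤ l) : A.L b i k ≤ A.L b i l := by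
  rw [A.L_le_iff hb]
  have := (A.L_le_iff (i := i) (k := l) (x := A.L b i l) hb).1 le_rfl
  have h2 : k * A.d i ≤ l * A.d i := Nat.mul_le_mul_right _ h
  omega

theorem U_mono {b i : ℕ} (hb : b < A.D) {k l : ℕ} (h : k ≤ l) : A.U b i k ≤ A.U b i l := by
  by_contra hcon
  have h1 : A.U b i l < A.U b i k := by omega
  rw [A.lt_U_iff hb] at h1
  have h2 : k * A.d i ≤ l * A.d i := Nat.mul_le_mul_right _ h
  have h3 : A.U b i l < A.U b i l := (A.lt_U_iff hb).2 (by omega)
  omega

theorem L_anti {b b' i k : ℕ} (h : b ≤ b') : A.L b' i k ≤ A.L b i k := by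
  unfold L
  split <;> split <;> omega

theorem U_mono_b {b b' i k : ℕ} (h : b ≤ b') : A.U b i k ≤ A.U b' i k := by
  unfold U
  split <;> split <;> omega

theorem q_le_L (b i k : ℕ) : A.q i k ≤ A.L b i k := Nat.le_add_right _ _
theorem L_le_q (b i k : ℕ) : A.L b i k ≤ A.q i k + 1 := by unfold L; split <;> omega
theorem q_le_U (b i k : ℕ) : A.q i k ≤ A.U b i k := Nat.le_add_right _ _
theorem U_le_q (b i k : ℕ) : A.U b i k ≤ A.q i k + 1 := by unfold U; split <;> omega

@[simp] theorem q_zero (i : ℕ) : A.q i 0 = 0 := by simp [q]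
@[simp] theorem f_zero (i : ℕ) : A.f i 0 = 0 := by simp [f]
@[simp] theorem q_D (i : ℕ) : A.q i A.D = A.d i := by
  simp [q, Nat.mul_div_cancel_left _ A.hDpos]
@[simp] theorem f_D (i : ℕ) : A.f i A.D = 0 := by simp [f]

@[simp] theorem L_zero (b i : ℕ) : A.L b i 0 = 0 := by simp [L]
@[simp] theorem L_D (b i : ℕ) : A.L b i A.D = A.d i := by simp [L]
theorem U_zero {b : ℕ} (hb : b < A.D) (i : ℕ) : A.U b i 0 = 0 := by simp [U]; omega
theorem U_D {b : ℕ} (hb : b < A.D) (i : ℕ) : A.U b i A.D = A.d i := by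
  simp [U]; omega

theorem L_le_d {b : ℕ} (hb : b < A.D) {i t : ℕ} (ht : t ≤ A.D) : A.L b i t ≤ A.d i := by
  rw [← A.L_D b i]; exact A.L_mono hb ht

theorem U_le_d {b : ℕ} (hb : b < A.D) {i t : ℕ} (ht : t ≤ A.D) : A.U b i t ≤ A.d i := by
  rw [← A.U_D hb i]; exact A.U_mono hb ht

theorem U_le_succ_q {b : ℕ} (hb : b < A.D) {i s t : ℕ} (h : s ≤ t) :
    A.U b i s ≤ A.q i t + 1 := (A.U_mono hb h).trans (A.U_le_q b i t)

/-! ### monotonicity in `b` -/

theorem Good.mono {b b' : ℕ} (h : b ≤ b') {π : ℕ × ℕ → ℕ} (hπ : A.Good b π) : A.Good b' π := by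
  refine ⟨fun c hc => ⟨(hπ.1 c hc).1, ?_, ?_⟩, hπ.2⟩
  · exact (A.L_anti h).trans (hπ.1 c hc).2.1
  · exact (hπ.1 c hc).2.2.trans_le (A.U_mono_b h)

theorem Feas.mono {b b' : ℕ} (h : b ≤ b') (hb : A.Feas b) : A.Feas b' := by
  obtain ⟨π, hπ⟩ := hb
  exact ⟨π, Good.mono A h hπ⟩

/-! ### Hall -/

theorem card_Ico_filter (x y N : ℕ) (hy : y ≤ N) :
    ((range N).filter (fun j => x ≤ j ∧ j < y)).card = y - x := by
  have : (range N).filter (fun j => x ≤ j ∧ j < y) = Ico x y := by
    ext j
    simp only [mem_filter, mem_range, mem_Ico]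
    omega
  rw [this, Nat.card_Ico]

theorem card_between {b s t : ℕ} (hb : b < A.D) (ht : t ≤ A.D) :
    (A.Cs.filter (fun c => A.U b c.1 s ≤ c.2 ∧ c.2 < A.L b c.1 t)).card =
      ∑ i ∈ range A.n, (A.L b i t - A.U b i s) := by
  rw [A.card_filter_Cs]
  refine sum_congr rfl fun i _ => ?_
  exact card_Ico_filter (A.U b i s) (A.L b i t) (A.d i) (A.L_le_d hb ht)

theorem Feas.hc {b : ℕ} (hb : b < A.D) (h : A.Feas b) : A.HC b := by
  obtain ⟨π, hπ, hinj⟩ := h
  intro s t hst ht
  unfold Hp
  rw [← A.card_between hb ht]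
  have : (A.Cs.filter (fun c => A.U b c.1 s ≤ c.2 ∧ c.2 < A.L b c.1 t)).card ≤ (Ico s t).card := by
    apply card_le_card_of_injOn π
    · intro c hc
      rw [mem_coe, mem_filter] at hc
      obtain ⟨hc, h1, h2⟩ := hc
      obtain ⟨h3, h4, h5⟩ := hπ c hc
      rw [mem_coe, mem_Ico]
      constructor
      · by_contra hcon
        have := A.U_mono (i := c.1) hb (show π c + 1 ≤ s by omega)
        omega
      · by_contra hcon
        have := A.L_mono (i := c.1) hb (show t ≤ π c by omega)
        omega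
    · exact hinj.mono (by intro c hc; exact (mem_filter.1 (mem_coe.1 hc)).1)
  simpa using this

/-- Hall's condition for intervals. -/
theorem interval_hall {ι : Type*} [DecidableEq ι] (r e : ι → ℕ) (S : Finset ι)
    (h : ∀ a c, a ≤ c + 1 → (S.filter (fun x => a ≤ r x ∧ e x ≤ c)).card ≤ c + 1 - a)
    (hne : ∀ x ∈ S, r x ≤ e x) :
    S.card ≤ (S.biUnion (fun x => Icc (r x) (e x))).card := by
  induction S using Finset.strongInduction with
  | H S ih =>
    by_cases hS : S = ∅
    · subst hS; simp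
    · -- the first component
      have hne' : (S.biUnion (fun x => Icc (r x) (e x))).Nonempty := by
        obtain ⟨x, hx⟩ := nonempty_iff_ne_empty.2 hS
        exact ⟨r x, mem_biUnion.2 ⟨x, hx, mem_Icc.2 ⟨le_rfl, hne x hx⟩⟩⟩
      set T := S.biUnion (fun x => Icc (r x) (e x)) with hT
      set a := T.min' hne' with ha
      have haT : a ∈ T := min'_mem _ _
      have hamin : ∀ y ∈ T, a ≤ y := fun y hy => min'_le _ _ hy
      -- largest c with Icc a c ⊆ T
      have hex : ∃ c, Icc a (c + 1) ⊆ T → False := by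
        refine ⟨T.sup id, fun hc => ?_⟩
        have h1 : T.sup id + 1 ∈ T := hc (mem_Icc.2 ⟨by
          have : a ≤ T.sup id := le_sup (f := id) haT
          omega, le_rfl⟩)
        have : T.sup id + 1 ≤ T.sup id := le_sup (f := id) h1
        omega
      have hex2 : ∃ c, a ≤ c ∧ ¬ Icc a (c + 1) ⊆ T := by
        obtain ⟨c, hc⟩ := hex
        refine ⟨max a c, le_max_left _ _, fun hcon => hc (subset_trans ?_ hcon)⟩
        apply Icc_subset_Icc_right
        have := le_max_right a c
        omega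
      classical
      set c := Nat.find hex2 with hc
      have hc1 : a ≤ c := (Nat.find_spec hex2).1
      have hc2 : ¬ Icc a (c + 1) ⊆ T := (Nat.find_spec hex2).2
      have hc3 : Icc a c ⊆ T := by
        by_cases hac : c = a
        · rw [hac, Icc_self]; simpa using haT
        · obtain ⟨c', hc'⟩ : ∃ c', c = c' + 1 := ⟨c - 1, by omega⟩
          by_contra hcon
          have := Nat.find_min hex2 (m := c') (by omega)
          exact this ⟨by omega, by rwa [← hc']⟩
      have hc4 : c + 1 ∉ T := by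
        intro hmem
        apply hc2
        intro y hy
        rw [mem_Icc] at hy
        by_cases hyc : y = c + 1
        · subst hyc; exact hmem
        · exact hc3 (mem_Icc.2 ⟨hy.1, by omega⟩)
      -- split
      set S1 := S.filter (fun x => r x ≤ c) with hS1
      set S2 := S.filter (fun x => ¬ r x ≤ c) with hS2
      have hcard : S1.card + S2.card = S.card := card_filter_add_card_filter_not _
      have hS1a : ∀ x ∈ S1, a ≤ r x ∧ e x ≤ c := by
        intro x hx
        obtain ⟨hx, hxc⟩ := mem_filter.1 hx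
        refine ⟨hamin _ (mem_biUnion.2 ⟨x, hx, mem_Icc.2 ⟨le_rfl, hne x hx⟩⟩), ?_⟩
        by_contra hcon
        exact hc4 (mem_biUnion.2 ⟨x, hx, mem_Icc.2 ⟨by omega, by omega⟩⟩)
      have hS1c : S1.card ≤ c + 1 - a := by
        refine (card_le_card ?_).trans (h a c (by omega))
        intro x hx
        exact mem_filter.2 ⟨(mem_filter.1 hx).1, hS1a x hx⟩
      have hS1ne : S1.Nonempty := by
        obtain ⟨x, hx, hxa⟩ := mem_biUnion.1 haT
        rw [mem_Icc] at hxa
        exact ⟨x, mem_filter.2 ⟨hx, by omega⟩⟩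
      have hS2lt : S2 ⊂ S := by
        refine ⟨filter_subset _ _, fun hcon => ?_⟩
        obtain ⟨x, hx⟩ := hS1ne
        have h1 := mem_filter.1 hx
        have h2 := mem_filter.1 (hcon h1.1)
        exact h2.2 h1.2
      have ihS2 := ih S2 hS2lt (fun a' c' hac' => (card_le_card (filter_subset_filter _ (filter_subset _ _))).trans
        (h a' c' hac')) (fun x hx => hne x (mem_filter.1 hx).1)
      have hdisj : Disjoint (Icc a c) (S2.biUnion (fun x => Icc (r x) (e x))) := by
        rw [disjoint_left]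
        intro y hy hy'
        obtain ⟨x, hx, hxy⟩ := mem_biUnion.1 hy'
        rw [mem_Icc] at hy hxy
        have := (mem_filter.1 hx).2
        omega
      have hsub : Icc a c ∪ S2.biUnion (fun x => Icc (r x) (e x)) ⊆ T := by
        apply union_subset hc3
        exact biUnion_subset_biUnion_of_subset_left _ (filter_subset _ _)
      calc S.card = S1.card + S2.card := hcard.symm
        _ ≤ (Icc a c).card + (S2.biUnion (fun x => Icc (r x) (e x))).card := by
            rw [Nat.card_Icc]; omega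
        _ = (Icc a c ∪ S2.biUnion (fun x => Icc (r x) (e x))).card := (card_union_of_disjoint hdisj).symm
        _ ≤ T.card := card_le_card hsub

open Classical in
theorem HC.feas {b : ℕ} (hb : b < A.D) (h : A.HC b) : A.Feas b := by
  have hD := A.hDpos
  -- windows
  have hexr : ∀ c : ℕ × ℕ, c ∈ A.Cs → ∃ p, c.2 < A.U b c.1 (p + 1) := by
    intro c hc
    refine ⟨A.D - 1, ?_⟩
    rw [Nat.sub_add_cancel hD, A.U_D hb]
    exact ((A.mem_Cs).1 hc).2
  let r : ℕ × ℕ → ℕ := fun c => if hc : c ∈ A.Cs then Nat.find (hexr c hc) else 0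
  let e : ℕ × ℕ → ℕ := fun c => Nat.findGreatest (fun p => A.L b c.1 p ≤ c.2) (A.D - 1)
  have hr : ∀ c ∈ A.Cs, ∀ a, a ≤ r c ↔ A.U b c.1 a ≤ c.2 := by
    intro c hc a
    simp only [r, dif_pos hc]
    rw [Nat.le_find_iff]
    constructor
    · intro h1
      by_cases ha : a = 0
      · subst ha; rw [A.U_zero hb]; exact Nat.zero_le _
      · have := h1 (a - 1) (by omega)
        rw [Nat.sub_add_cancel (by omega)] at this
        omega
    · intro h1 m hm
      have := A.U_mono (i := c.1) hb (show m + 1 ≤ a by omega)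
      omega
  have he : ∀ c ∈ A.Cs, ∀ x, x + 1 ≤ A.D → (e c ≤ x ↔ c.2 < A.L b c.1 (x + 1)) := by
    intro c hc x hx
    have hspec : A.L b c.1 (e c) ≤ c.2 :=
      Nat.findGreatest_spec (P := fun p => A.L b c.1 p ≤ c.2) (Nat.zero_le _) (by simp)
    constructor
    · intro h1
      by_contra hcon
      by_cases hx' : x + 1 = A.D
      · rw [hx', A.L_D] at hcon
        exact hcon ((A.mem_Cs).1 hc).2
      · have : x + 1 ≤ e c := Nat.le_findGreatest (by omega) (by omega)
        omega
    · intro h1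
      by_contra hcon
      have := A.L_mono (i := c.1) hb (show x + 1 ≤ e c by omega)
      omega
  have heD : ∀ c, e c < A.D := by
    intro c
    have : e c ≤ A.D - 1 := Nat.findGreatest_le _
    omega
  have hrD : ∀ c ∈ A.Cs, r c < A.D := by
    intro c hc
    have := (hr c hc A.D).not.2 (by
      rw [A.U_D hb]
      have := ((A.mem_Cs).1 hc).2
      omega)
    omega
  -- counting
  have hcount : ∀ a c, a ≤ c + 1 → (A.Cs.filter (fun x => a ≤ r x ∧ e x ≤ c)).card ≤ c + 1 - a := by
    intro a c hac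
    by_cases hc : c + 1 ≤ A.D
    · have h1 := h a (c + 1) hac hc
      unfold Hp at h1
      rw [← A.card_between hb hc] at h1
      refine le_trans (card_le_card ?_) h1
      intro x hx
      obtain ⟨hx, h2, h3⟩ := mem_filter.1 hx
      exact mem_filter.2 ⟨hx, (hr x hx a).1 h2, (he x hx c hc).1 h3⟩
    · by_cases ha : a ≤ A.D
      · have h1 := h a A.D ha le_rfl
        unfold Hp at h1
        rw [← A.card_between hb le_rfl] at h1
        refine le_trans (card_le_card ?_) (h1.trans (by omega))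
        intro x hx
        obtain ⟨hx, h2, h3⟩ := mem_filter.1 hx
        refine mem_filter.2 ⟨hx, (hr x hx a).1 h2, ?_⟩
        rw [A.L_D]
        exact ((A.mem_Cs).1 hx).2
      · have : A.Cs.filter (fun x => a ≤ r x ∧ e x ≤ c) = ∅ := by
          rw [filter_eq_empty_iff]
          rintro x hx ⟨h2, -⟩
          have := hrD x hx
          omega
        rw [this]; simp
  have hne : ∀ x ∈ A.Cs, r x ≤ e x := by
    intro x hx
    by_contra hcon
    have h1 := h (r x) (r x) le_rfl (hrD x hx).le
    unfold Hp at h1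
    rw [← A.card_between hb (hrD x hx).le] at h1
    simp only [Nat.sub_self, Nat.le_zero, card_eq_zero, filter_eq_empty_iff] at h1
    refine h1 hx ⟨(hr x hx _).1 le_rfl, ?_⟩
    have h2 := (he x hx (r x - 1) (by have := hrD x hx; omega)).1 (by omega)
    rwa [Nat.sub_add_cancel (by omega)] at h2
  -- Hall
  let t : {c // c ∈ A.Cs} → Finset ℕ := fun c => Icc (r c.1) (e c.1)
  have hall : ∀ S : Finset {c // c ∈ A.Cs}, S.card ≤ (S.biUnion t).card := by
    intro S
    have h1 := interval_hall (fun c : {c // c ∈ A.Cs} => r c.1) (fun c => e c.1) S ?_ ?_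
    · exact h1
    · intro a c hac
      refine le_trans ?_ (hcount a c hac)
      apply card_le_card_of_injOn (fun x => x.1)
      · intro x hx
        have := (mem_filter.1 (mem_coe.1 hx)).2
        exact mem_coe.2 (mem_filter.2 ⟨x.2, this⟩)
      · intro x _ y _ hxy
        exact Subtype.ext hxy
    · intro x _
      exact hne x.1 x.2
  obtain ⟨g, hg1, hg2⟩ := (Finset.all_card_le_biUnion_card_iff_exists_injective t).1 hall
  refine ⟨fun c => if hc : c ∈ A.Cs then g ⟨c, hc⟩ else 0, ?_, ?_⟩
  · intro c hc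
    simp only [dif_pos hc]
    have h1 := hg2 ⟨c, hc⟩
    simp only [t, mem_Icc] at h1
    obtain ⟨h1, h2⟩ := h1
    have h3 : g ⟨c, hc⟩ < A.D := by have := heD c; omega
    refine ⟨h3, ?_, ?_⟩
    · have hspec : A.L b c.1 (e c) ≤ c.2 :=
        Nat.findGreatest_spec (P := fun p => A.L b c.1 p ≤ c.2) (Nat.zero_le _) (by simp)
      exact (A.L_mono hb h2).trans hspec
    · by_contra hcon
      have := (hr c hc (g ⟨c, hc⟩ + 1)).2 (by omega)
      omega
  · intro c hc c' hc' hcc'
    rw [mem_coe] at hc hc'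
    simp only [dif_pos hc, dif_pos hc'] at hcc'
    exact congrArg Subtype.val (hg1 hcc')

theorem feas_iff {b : ℕ} (hb : b < A.D) : A.Feas b ↔ A.HC b := ⟨Feas.hc A hb, HC.feas A hb⟩

/-- The bound `D - 1` is always feasible. -/
theorem feas_top : A.Feas (A.D - 1) := by
  have hD := A.hDpos
  apply HC.feas A (by omega)
  intro s t hst ht
  unfold Hp
  have key : A.D * ∑ i ∈ range A.n, (A.L (A.D - 1) i t - A.U (A.D - 1) i s) ≤ A.D * (t - s) := by
    rw [mul_sum]
    calc ∑ i ∈ range A.n, A.D * (A.L (A.D - 1) i t - A.U (A.D - 1) i s)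
        ≤ ∑ i ∈ range A.n, (t - s) * A.d i := by
          refine sum_le_sum fun i _ => ?_
          have h1 : A.L (A.D - 1) i t = A.q i t := by
            unfold L; rw [if_neg (by have := A.f_lt i t; omega)]; rfl
          have h2 := A.qf i t
          have h3 := A.qf i s
          have h4 : s * A.d i ≤ A.D * A.U (A.D - 1) i s := by
            unfold U
            split
            · rw [Nat.mul_add]; have := A.f_lt i s; omega
            · rw [Nat.add_zero]; omega
          rw [h1, Nat.mul_sub, Nat.sub_mul]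
          have h5 : s * A.d i ≤ t * A.d i := Nat.mul_le_mul_right _ hst
          omega
      _ = (t - s) * A.D := by rw [← mul_sum, ← A.hD]
      _ = A.D * (t - s) := Nat.mul_comm _ _
  exact Nat.le_of_mul_le_mul_left key hD

/-! ### symmetry -/

theorem L_add_U {b i k : ℕ} (hb : b < A.D) (hk : k ≤ A.D) :
    A.L b i (A.D - k) + A.U b i k = A.d i := by
  have hD := A.hDpos
  have h1 := A.qf i k
  have h2 := A.f_lt i k
  have h3 := A.qf i (A.D - k)
  have h4 := A.f_lt i (A.D - k)
  have h5 : (A.D - k) * A.d i + k * A.d i = A.D * A.d i := by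
    rw [← Nat.add_mul, Nat.sub_add_cancel hk]
  -- D (q' + q) + f + f' = D d
  have h6 : A.D * (A.q i (A.D - k) + A.q i k) + (A.f i (A.D - k) + A.f i k) = A.D * A.d i := by
    rw [Nat.mul_add]; omega
  have h7 : A.f i (A.D - k) + A.f i k = 0 ∨ A.f i (A.D - k) + A.f i k = A.D := by
    have h8 : (A.f i (A.D - k) + A.f i k) % A.D = 0 := by
      have := congrArg (· % A.D) h6
      simpa [Nat.mul_add_mod] using this
    have h9 : A.f i (A.D - k) + A.f i k < 2 * A.D := by omega
    rcases Nat.lt_or_ge (A.f i (A.D - k) + A.f i k) A.D with h | h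
    · left; rwa [Nat.mod_eq_of_lt h] at h8
    · right
      rw [Nat.mod_eq_sub_mod h, Nat.mod_eq_of_lt (by omega)] at h8
      omega
  unfold L U
  rcases h7 with h7 | h7
  · have h8 : A.q i (A.D - k) + A.q i k = A.d i := by
      rw [h7, Nat.add_zero] at h6
      exact Nat.eq_of_mul_eq_mul_left hD h6
    rw [if_neg (by omega), if_neg (by omega)]
    omega
  · have h8 : A.q i (A.D - k) + A.q i k + 1 = A.d i := by
      rw [h7] at h6
      have : A.D * (A.q i (A.D - k) + A.q i k + 1) = A.D * A.d i := by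
        rw [Nat.mul_add, Nat.mul_one]; exact h6
      exact Nat.eq_of_mul_eq_mul_left hD this
    by_cases hc : b < A.f i (A.D - k)
    · rw [if_pos hc, if_neg (by omega)]; omega
    · rw [if_neg hc, if_pos (by omega)]; omega

theorem Hp_symm {b s t : ℕ} (hb : b < A.D) (hst : s ≤ t) (ht : t ≤ A.D) :
    A.Hp b (A.D - t) (A.D - s) ↔ A.Hp b s t := by
  unfold Hp
  have h1 : A.D - s - (A.D - t) = t - s := by omega
  rw [h1]
  have h2 : ∀ i ∈ range A.n, (A.L b i (A.D - s) - A.U b i (A.D - t)) = A.L b i t - A.U b i s := by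
    intro i _
    have e1 := A.L_add_U (i := i) hb (hst.trans ht)
    have e2 := A.L_add_U (i := i) hb (show A.D - t ≤ A.D by omega)
    rw [show A.D - (A.D - t) = t by omega] at e2
    omega
  rw [sum_congr rfl h2]

theorem f_symm {i k : ℕ} (hk : k ≤ A.D) (h : 0 < A.f i k) :
    A.f i (A.D - k) = A.D - A.f i k := by
  have h1 := A.qf i k
  have h2 := A.f_lt i k
  have h3 := A.qf i (A.D - k)
  have h4 := A.f_lt i (A.D - k)
  have h5 : (A.D - k) * A.d i + k * A.d i = A.D * A.d i := by
    rw [← Nat.add_mul, Nat.sub_add_cancel hk]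
  have h6 : A.D * (A.q i (A.D - k) + A.q i k) + (A.f i (A.D - k) + A.f i k) = A.D * A.d i := by
    rw [Nat.mul_add]; omega
  have h8 : (A.f i (A.D - k) + A.f i k) % A.D = 0 := by
    have := congrArg (· % A.D) h6
    simpa [Nat.mul_add_mod] using this
  rcases Nat.lt_or_ge (A.f i (A.D - k) + A.f i k) A.D with h | h
  · rw [Nat.mod_eq_of_lt h] at h8; omega
  · rw [Nat.mod_eq_sub_mod h, Nat.mod_eq_of_lt (by omega)] at h8
    omega

/-- Constancy of `L` and `U` between thresholds. -/
theorem L_congr {b b' i k : ℕ} (h : b ≤ b') (hf : ¬ (b < A.f i k ∧ A.f i k ≤ b')) :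
    A.L b i k = A.L b' i k := by
  unfold L
  split <;> split <;> omega

theorem U_congr {b b' i k : ℕ} (h : b ≤ b') (hf : ¬ (b < A.D - A.f i k ∧ A.D - A.f i k ≤ b')) :
    A.U b i k = A.U b' i k := by
  unfold U
  have := A.f_lt i k
  split <;> split <;> omega

theorem feas_congr {b b' : ℕ} (h : b ≤ b') (hb' : b' < A.D)
    (hf : ∀ i < A.n, ∀ k ≤ A.D, ¬ (b < A.f i k ∧ A.f i k ≤ b')) :
    A.Feas b' → A.Feas b := by
  rw [A.feas_iff hb', A.feas_iff (h.trans_lt hb')]
  intro H s t hst ht
  have := H s t hst ht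
  unfold Hp at this ⊢
  refine le_trans (le_of_eq ?_) this
  refine sum_congr rfl fun i hi => ?_
  rw [mem_range] at hi
  rw [A.L_congr h (hf i hi t ht)]
  have e1 := A.L_add_U (i := i) (b := b) (h.trans_lt hb') (hst.trans ht)
  have e2 := A.L_add_U (i := i) (b := b') hb' (hst.trans ht)
  have e3 := A.L_congr h (hf i hi (A.D - s) (by omega))
  have : A.U b i s = A.U b' i s := by omega
  rw [this]

end Inst

end Pool.Agent.helper9.Jit
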