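import Pool.Agent.helper9.Jit.Sort

/-!
# Summaries of prefixes for the Hall condition
-/

set_option autoImplicit false

namespace Pool.Agent.helper9.Jit

open Finset

namespace Inst

variable (A : Inst)

/-- open letters -/
def O (b t s : ℕ) : Finset ℕ := (range A.n).filter (fun i => A.U b i s = A.q i t + 1)

def gs (b t s : ℕ) : ℕ := ∑ i ∈ range A.n, (A.q i t - A.U b i s) + (s + A.D + 1 - t)

theorem mem_O {b t s i : ℕ} : i ∈ A.O b t s ↔ i < A.n ∧ A.U b i s = A.q i t + 1 := by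
  unfold O; rw [mem_filter, mem_range]

theorem O_card_le (b t s : ℕ) : (A.O b t s).card ≤ A.n := by
  unfold O
  simpa using card_le_card (filter_subset (fun i => A.U b i s = A.q i t + 1) (range A.n))

theorem O_mono {b t s s' : ℕ} (hb : b < A.D) (h : s ≤ s') (h' : s' ≤ t) :
    A.O b t s ⊆ A.O b t s' := by
  intro i hi
  rw [mem_O] at hi ⊢
  refine ⟨hi.1, ?_⟩
  have h1 := A.U_mono (i := i) hb h
  have h2 := A.U_le_succ_q (i := i) hb h'
  omega

/-- `G`, `K` summarise the set `X` of times with respect to the base time `t`. -/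
structure IsSum (b : ℕ) (X : ℕ → Prop) (t : ℕ) (G K : ℕ → ℕ) : Prop where
  le : ∀ s, X s → s ≤ t
  G1 : ∀ s, X s → A.gs b t s ≤ G (A.O b t s).card
  G2 : ∀ c ≤ A.n, 1 ≤ G c → ∃ s, X s ∧ (A.O b t s).card = c ∧ G c = A.gs b t s
  K1 : ∀ s, X s → ∀ i ∈ A.O b t s, A.n + 1 ≤ K i + (A.O b t s).card
  K2 : ∀ i < A.n, 1 ≤ K i → ∃ s, X s ∧ i ∈ A.O b t s ∧ K i + (A.O b t s).card = A.n + 1

variable {A}

theorem IsSum.mem_iff {b : ℕ} (hb : b < A.D) {X : ℕ → Prop} {t : ℕ} {G K : ℕ → ℕ}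
    (h : A.IsSum b X t G K) {s i : ℕ} (hs : X s) (hi : i < A.n) :
    i ∈ A.O b t s ↔ A.n + 1 ≤ K i + (A.O b t s).card := by
  constructor
  · exact h.K1 s hs i
  · intro h1
    have h2 := A.O_card_le b t s
    obtain ⟨s', hs', h3, h4⟩ := h.K2 i hi (by omega)
    rcases le_total s' s with hss | hss
    · exact A.O_mono hb hss (h.le s hs) h3
    · have h5 := A.O_mono hb hss (h.le s' hs')
      have h6 : A.O b t s = A.O b t s' := eq_of_subset_of_card_le h5 (by omega)
      rw [h6]; exact h3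

theorem IsSum.empty (b t : ℕ) : A.IsSum b (fun _ => False) t (fun _ => 0) (fun _ => 0) := by
  refine ⟨?_, ?_, ?_, ?_, ?_⟩
  · intro s hs; exact hs.elim
  · intro s hs; exact hs.elim
  · intro c _ h; omega
  · intro s hs; exact hs.elim
  · intro c _ h; omega

theorem IsSum.congrX {b : ℕ} {X Y : ℕ → Prop} {t : ℕ} {G K : ℕ → ℕ}
    (h : A.IsSum b X t G K) (hXY : ∀ s, X s ↔ Y s) : A.IsSum b Y t G K := by
  have : X = Y := funext fun s => propext (hXY s)
  rw [← this]; exact h

/-- only the values `G c` for `c ≤ n` and `K i` for `i < n` matter -/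
theorem IsSum.congrGK {b : ℕ} {X : ℕ → Prop} {t : ℕ} {G K G' K' : ℕ → ℕ}
    (h : A.IsSum b X t G K) (hG : ∀ c ≤ A.n, G' c = G c) (hK : ∀ i < A.n, K' i = K i) :
    A.IsSum b X t G' K' := by
  refine ⟨h.le, ?_, ?_, ?_, ?_⟩
  · intro s hs
    rw [hG _ (A.O_card_le b t s)]; exact h.G1 s hs
  · intro c hc h1
    rw [hG c hc] at h1 ⊢
    exact h.G2 c hc h1
  · intro s hs i hi
    rw [hK i (A.mem_O.1 hi).1]; exact h.K1 s hs i hi
  · intro i hi h1
    rw [hK i hi] at h1 ⊢
    exact h.K2 i hi h1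

theorem IsSum.congrU {b b' : ℕ} {X : ℕ → Prop} {t : ℕ} {G K : ℕ → ℕ}
    (h : A.IsSum b X t G K) (hU : ∀ s, X s → ∀ i < A.n, A.U b i s = A.U b' i s) :
    A.IsSum b' X t G K := by
  have hO : ∀ s, X s → A.O b t s = A.O b' t s := by
    intro s hs
    unfold O
    apply filter_congr
    intro i hi
    rw [hU s hs i (mem_range.1 hi)]
  have hg : ∀ s, X s → A.gs b t s = A.gs b' t s := by
    intro s hs
    unfold gs
    congr 1
    refine sum_congr rfl fun i hi => ?_
    rw [hU s hs i (mem_range.1 hi)]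
  refine ⟨h.le, ?_, ?_, ?_, ?_⟩
  · intro s hs; rw [← hO s hs, ← hg s hs]; exact h.G1 s hs
  · intro c hc h1
    obtain ⟨s, hs, h2, h3⟩ := h.G2 c hc h1
    exact ⟨s, hs, by rw [← hO s hs]; exact h2, by rw [← hg s hs]; exact h3⟩
  · intro s hs i hi
    rw [← hO s hs] at hi ⊢
    exact h.K1 s hs i hi
  · intro i hi h1
    obtain ⟨s, hs, h2, h3⟩ := h.K2 i hi h1
    exact ⟨s, hs, by rw [← hO s hs]; exact h2, by rw [← hO s hs]; exact h3⟩

theorem IsSum.union {b : ℕ} {X Y : ℕ → Prop} {t : ℕ} {G K G' K' : ℕ → ℕ}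
    (h : A.IsSum b X t G K) (h' : A.IsSum b Y t G' K') :
    A.IsSum b (fun s => X s ∨ Y s) t (fun c => max (G c) (G' c)) (fun i => max (K i) (K' i)) := by
  refine ⟨?_, ?_, ?_, ?_, ?_⟩
  · rintro s (hs | hs)
    · exact h.le s hs
    · exact h'.le s hs
  · rintro s (hs | hs)
    · exact (h.G1 s hs).trans (le_max_left _ _)
    · exact (h'.G1 s hs).trans (le_max_right _ _)
  · intro c hc h1
    rcases le_total (G c) (G' c) with hle | hle
    · simp only [max_eq_right hle] at h1 ⊢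
      obtain ⟨s, hs, h2⟩ := h'.G2 c hc h1
      exact ⟨s, Or.inr hs, h2⟩
    · simp only [max_eq_left hle] at h1 ⊢
      obtain ⟨s, hs, h2⟩ := h.G2 c hc h1
      exact ⟨s, Or.inl hs, h2⟩
  · rintro s (hs | hs) i hi
    · have h1 := h.K1 s hs i hi
      have h2 := le_max_left (K i) (K' i)
      show A.n + 1 ≤ max (K i) (K' i) + _
      omega
    · have h1 := h'.K1 s hs i hi
      have h2 := le_max_right (K i) (K' i)
      show A.n + 1 ≤ max (K i) (K' i) + _
      omega
  · intro i hi h1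
    rcases le_total (K i) (K' i) with hle | hle
    · simp only [max_eq_right hle] at h1 ⊢
      obtain ⟨s, hs, h2⟩ := h'.K2 i hi h1
      exact ⟨s, Or.inr hs, h2⟩
    · simp only [max_eq_left hle] at h1 ⊢
      obtain ⟨s, hs, h2⟩ := h.K2 i hi h1
      exact ⟨s, Or.inl hs, h2⟩

/-- letters open at their own time -/
theorem mem_O_self {b t i : ℕ} (hi : i < A.n) :
    i ∈ A.O b t t ↔ A.D ≤ A.f i t + b := by
  rw [A.mem_O]
  unfold U
  constructor
  · rintro ⟨-, h⟩
    by_contra hcon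
    rw [if_neg hcon] at h
    omega
  · intro h
    rw [if_pos h]
    exact ⟨hi, rfl⟩

theorem gs_self (b t : ℕ) : A.gs b t t = A.D + 1 := by
  unfold gs
  rw [sum_eq_zero]
  · omega
  · intro i _
    have := A.q_le_U b i t
    omega

theorem IsSum.single (b t : ℕ) {G K : ℕ → ℕ}
    (hG : ∀ c ≤ A.n, G c = if c = (A.O b t t).card then A.D + 1 else 0)
    (hK : ∀ i < A.n, K i = if i ∈ A.O b t t then A.n + 1 - (A.O b t t).card else 0) :
    A.IsSum b (fun s => s = t) t G K := by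
  have hc := A.O_card_le b t t
  refine ⟨?_, ?_, ?_, ?_, ?_⟩
  · intro s hs; exact hs.le
  · rintro s rfl
    rw [hG _ hc, if_pos rfl, gs_self]
  · intro c hc' h1
    refine ⟨t, rfl, ?_, ?_⟩
    · rw [hG c hc'] at h1
      by_contra hcon
      rw [if_neg (Ne.symm hcon)] at h1
      omega
    · rw [hG c hc'] at h1 ⊢
      split
      · rw [gs_self]
      · rename_i h; rw [if_neg h] at h1; omega
  · rintro s rfl i hi
    rw [hK i (A.mem_O.1 hi).1, if_pos hi]
    omega
  · intro i hi h1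
    rw [hK i hi] at h1 ⊢
    split
    · rename_i h
      exact ⟨t, rfl, h, by omega⟩
    · rename_i h
      rw [if_neg h] at h1; omega

/-- histogram after rebasing -/
def Hh (A : Inst) (t t' : ℕ) (K : ℕ → ℕ) (c : ℕ) : ℕ :=
  ((range A.n).filter (fun i => A.q i t' ≤ A.q i t ∧ A.n + 1 ≤ K i + c)).card

theorem Hh_le_n (t t' : ℕ) (K : ℕ → ℕ) (c : ℕ) : Hh A t t' K c ≤ A.n := by
  unfold Hh
  simpa using card_le_card (filter_subset
    (fun i => A.q i t' ≤ A.q i t ∧ A.n + 1 ≤ K i + c) (range A.n))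

theorem Hh_mono (t t' : ℕ) (K : ℕ → ℕ) {c c' : ℕ} (h : c ≤ c') :
    Hh A t t' K c ≤ Hh A t t' K c' := by
  unfold Hh
  apply card_le_card
  intro i hi
  rw [mem_filter] at hi ⊢
  exact ⟨hi.1, hi.2.1, by omega⟩

def Sq (A : Inst) (t : ℕ) : ℕ := ∑ i ∈ range A.n, A.q i t

theorem IsSum.O_rebase {b : ℕ} (hb : b < A.D) {X : ℕ → Prop} {t t' : ℕ} {G K : ℕ → ℕ}
    (h : A.IsSum b X t G K) (htt : t ≤ t') {s : ℕ} (hs : X s) :
    A.O b t' s = (range A.n).filter (fun i => A.q i t' ≤ A.q i t ∧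
      A.n + 1 ≤ K i + (A.O b t s).card) := by
  ext i
  rw [mem_filter, mem_range]
  constructor
  · intro hi
    obtain ⟨h1, h2⟩ := A.mem_O.1 hi
    have h3 := A.U_le_succ_q (i := i) hb (h.le s hs)
    have h4 := A.q_mono i htt
    refine ⟨h1, by omega, (h.mem_iff hb hs h1).1 (A.mem_O.2 ⟨h1, by omega⟩)⟩
  · rintro ⟨h1, h2, h3⟩
    have h4 := A.mem_O.1 ((h.mem_iff hb hs h1).2 h3)
    have h5 := A.q_mono i htt
    exact A.mem_O.2 ⟨h1, by omega⟩

theorem IsSum.card_rebase {b : ℕ} (hb : b < A.D) {X : ℕ → Prop} {t t' : ℕ} {G K : ℕ → ℕ}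
    (h : A.IsSum b X t G K) (htt : t ≤ t') {s : ℕ} (hs : X s) :
    (A.O b t' s).card = Hh A t t' K (A.O b t s).card := by
  rw [h.O_rebase hb htt hs, Hh]

/-- the change of `gs` under rebasing -/
theorem IsSum.gs_rebase {b : ℕ} (hb : b < A.D) {X : ℕ → Prop} {t t' : ℕ} {G K : ℕ → ℕ}
    (h : A.IsSum b X t G K) (htt : t ≤ t') (ht' : t' ≤ A.D) {s : ℕ} (hs : X s) :
    A.gs b t' s + (Sq A t + t' + ((A.O b t s).card - Hh A t t' K (A.O b t s).card)) =
      A.gs b t s + Sq A t' + t := by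
  have hst := h.le s hs
  have hOsub : A.O b t' s ⊆ A.O b t s := by
    intro i hi
    obtain ⟨h1, h2⟩ := A.mem_O.1 hi
    have h3 := A.U_le_succ_q (i := i) hb hst
    have h4 := A.q_mono i htt
    exact A.mem_O.2 ⟨h1, by omega⟩
  have e1 : (A.O b t s).card - Hh A t t' K (A.O b t s).card =
      ∑ i ∈ range A.n, (if i ∈ A.O b t s ∧ i ∉ A.O b t' s then 1 else 0) := by
    rw [← h.card_rebase hb htt hs, ← card_sdiff_of_subset hOsub, ← card_filter]
    congr 1
    ext i
    rw [mem_sdiff, mem_filter, mem_range]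
    constructor
    · intro hi; exact ⟨(A.mem_O.1 hi.1).1, hi⟩
    · intro hi; exact hi.2
  have e2 : ∑ i ∈ range A.n, (A.q i t' - A.U b i s) + ∑ i ∈ range A.n, A.q i t +
      ∑ i ∈ range A.n, (if i ∈ A.O b t s ∧ i ∉ A.O b t' s then 1 else 0) =
      ∑ i ∈ range A.n, (A.q i t - A.U b i s) + ∑ i ∈ range A.n, A.q i t' := by
    rw [← sum_add_distrib, ← sum_add_distrib, ← sum_add_distrib]
    refine sum_congr rfl fun i hi => ?_
    have hi' := mem_range.1 hi
    have h3 := A.U_le_succ_q (i := i) hb hst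
    have h4 := A.q_mono i htt
    split
    · rename_i hc
      have h5 := (A.mem_O.1 hc.1).2
      have h6 : ¬ A.U b i s = A.q i t' + 1 := fun h7 => hc.2 (A.mem_O.2 ⟨hi', h7⟩)
      omega
    · rename_i hc
      by_cases h5 : A.U b i s = A.q i t + 1
      · have h6 : i ∈ A.O b t' s := by
          by_contra h7
          exact hc ⟨A.mem_O.2 ⟨hi', h5⟩, h7⟩
        have := (A.mem_O.1 h6).2
        omega
      · omega
  rw [e1]
  unfold gs Sq
  omega

theorem gs_pos {b t s : ℕ} (ht : t ≤ A.D) : 1 ≤ A.gs b t s := by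
  unfold gs; omega

/-- Rebasing. -/
theorem IsSum.rebase {b : ℕ} (hb : b < A.D) {X : ℕ → Prop} {t t' : ℕ} {G K G' K' : ℕ → ℕ}
    (h : A.IsSum b X t G K) (htt : t ≤ t') (ht' : t' ≤ A.D)
    (hG1 : ∀ c ≤ A.n, 1 ≤ G c → (G c + Sq A t' + t) - (Sq A t + t' + (c - Hh A t t' K c)) ≤
      G' (Hh A t t' K c))
    (hG2 : ∀ c' ≤ A.n, 1 ≤ G' c' → ∃ c ≤ A.n, 1 ≤ G c ∧ Hh A t t' K c = c' ∧
      G' c' = (G c + Sq A t' + t) - (Sq A t + t' + (c - Hh A t t' K c)))
    (hK : ∀ i < A.n, K' i = if A.q i t' ≤ A.q i t ∧ 1 ≤ K i then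
      A.n + 1 - Hh A t t' K (A.n + 1 - K i) else 0) :
    A.IsSum b X t' G' K' := by
  refine ⟨fun s hs => (h.le s hs).trans htt, ?_, ?_, ?_, ?_⟩
  · intro s hs
    have h1 := h.G1 s hs
    have h2 := gs_pos (A := A) (b := b) (s := s) (htt.trans ht')
    have h3 := hG1 _ (A.O_card_le b t s) (by omega)
    have h4 := h.gs_rebase hb htt ht' hs
    rw [h.card_rebase hb htt hs]
    omega
  · intro c' hc' h1
    obtain ⟨c, hc, h2, h3, h4⟩ := hG2 c' hc' h1
    obtain ⟨s, hs, h5, h6⟩ := h.G2 c hc h2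
    have h7 := h.gs_rebase hb htt ht' hs
    rw [h5] at h7
    refine ⟨s, hs, ?_, ?_⟩
    · rw [h.card_rebase hb htt hs, h5, h3]
    · rw [h4, h6]; omega
  · intro s hs i hi
    have hi1 := hi
    rw [h.O_rebase hb htt hs, mem_filter, mem_range] at hi1
    obtain ⟨h1, h2, h3⟩ := hi1
    have hc := A.O_card_le b t s
    rw [hK i h1, if_pos ⟨h2, by omega⟩, h.card_rebase hb htt hs]
    have h4 := Hh_mono (A := A) t t' K (show A.n + 1 - K i ≤ (A.O b t s).card by omega)
    omega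
  · intro i hi h1
    rw [hK i hi] at h1 ⊢
    split
    · rename_i hc
      rw [if_pos hc] at h1
      obtain ⟨s, hs, h2, h3⟩ := h.K2 i hi hc.2
      have h4 : A.n + 1 - K i = (A.O b t s).card := by omega
      refine ⟨s, hs, ?_, ?_⟩
      · rw [h.O_rebase hb htt hs, mem_filter, mem_range]
        exact ⟨hi, hc.1, by omega⟩
      · rw [h.card_rebase hb htt hs, h4]
        have := Hh_le_n (A := A) t t' K (A.O b t s).card
        omega
    · rename_i hc
      rw [if_neg hc] at h1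
      omega

/-- letters whose deadline has just passed -/
def Nn (A : Inst) (b t : ℕ) : Finset ℕ := (range A.n).filter (fun i => b < A.f i t)

def Hn (A : Inst) (b t : ℕ) (K : ℕ → ℕ) (c : ℕ) : ℕ :=
  ((range A.n).filter (fun i => b < A.f i t ∧ A.n + 1 ≤ K i + c)).card

/-- The check. -/
theorem IsSum.check {b : ℕ} (hb : b < A.D) {X : ℕ → Prop} {t : ℕ} {G K : ℕ → ℕ}
    (h : A.IsSum b X t G K) (ht : t ≤ A.D) :
    (∀ c ≤ A.n, 1 ≤ G c → G c + (Nn A b t).card ≤ A.D + 1 + Hn A b t K c) ↔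
      ∀ s, X s → A.Hp b s t := by
  have key : ∀ s, X s → (A.gs b t s + (Nn A b t).card ≤ A.D + 1 +
      Hn A b t K (A.O b t s).card ↔ A.Hp b s t) := by
    intro s hs
    have hst := h.le s hs
    have e1 : Hn A b t K (A.O b t s).card = ∑ i ∈ range A.n,
        (if b < A.f i t ∧ i ∈ A.O b t s then 1 else 0) := by
      unfold Hn
      rw [card_filter]
      refine sum_congr rfl fun i hi => ?_
      have := h.mem_iff hb hs (mem_range.1 hi)
      simp only [this]
    have e2 : (Nn A b t).card = ∑ i ∈ range A.n, (if b < A.f i t then 1 else 0) := by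
      unfold Nn; rw [card_filter]
    have e3 : ∑ i ∈ range A.n, (A.L b i t - A.U b i s) +
        ∑ i ∈ range A.n, (if b < A.f i t ∧ i ∈ A.O b t s then 1 else 0) =
        ∑ i ∈ range A.n, (A.q i t - A.U b i s) +
        ∑ i ∈ range A.n, (if b < A.f i t then 1 else 0) := by
      rw [← sum_add_distrib, ← sum_add_distrib]
      refine sum_congr rfl fun i hi => ?_
      have hi' := mem_range.1 hi
      have h3 := A.U_le_succ_q (i := i) hb hst
      unfold L
      by_cases h5 : A.U b i s = A.q i t + 1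
      · have h6 : i ∈ A.O b t s := A.mem_O.2 ⟨hi', h5⟩
        by_cases h7 : b < A.f i t
        · simp only [h7, h6, and_self, if_true]; omega
        · simp only [h7, false_and, if_false]; omega
      · have h6 : i ∉ A.O b t s := fun h7 => h5 (A.mem_O.1 h7).2
        by_cases h7 : b < A.f i t
        · simp only [h7, h6, and_false, if_true, if_false]; omega
        · simp only [h7, false_and, if_false]; omega
    rw [e1, e2]
    unfold gs Hp
    omega
  constructor
  · intro h1 s hs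
    rw [← key s hs]
    have h2 := h.G1 s hs
    have h3 := gs_pos (A := A) (b := b) (s := s) ht
    have h4 := h1 _ (A.O_card_le b t s) (by omega)
    omega
  · intro h1 c hc h2
    obtain ⟨s, hs, h3, h4⟩ := h.G2 c hc h2
    have h5 := (key s hs).2 (h1 s hs)
    rw [h3] at h5
    rw [h4]; exact h5

variable (A)

/-- Times where the allowed values are not determined by the bracket. -/
def Unc (lo hi t : ℕ) : Prop :=
  ∃ i < A.n, (lo ≤ A.f i t ∧ A.f i t ≤ hi) ∨ (lo ≤ A.D - A.f i t ∧ A.D - A.f i t ≤ hi)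

instance (lo hi t : ℕ) : Decidable (A.Unc lo hi t) := by
  unfold Unc; infer_instance

theorem Unc.mono {lo hi lo' hi' t : ℕ} (h1 : lo ≤ lo') (h2 : hi' ≤ hi) (h : A.Unc lo' hi' t) :
    A.Unc lo hi t := by
  obtain ⟨i, hi, h⟩ := h
  refine ⟨i, hi, ?_⟩
  omega

theorem Unc_symm {lo hi t : ℕ} (hhi : hi < A.D) (ht : t ≤ A.D) (h : A.Unc lo hi t) :
    A.Unc lo hi (A.D - t) := by
  obtain ⟨i, hi', h⟩ := h
  refine ⟨i, hi', ?_⟩
  by_cases h0 : 0 < A.f i t
  · rw [A.f_symm ht h0]
    have := A.f_lt i t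
    omega
  · by_cases h1 : 0 < A.f i (A.D - t)
    · have := A.f_symm (k := A.D - t) (i := i) (by omega) h1
      rw [show A.D - (A.D - t) = t by omega] at this
      have := A.f_lt i (A.D - t)
      omega
    · have e : A.f i (A.D - t) = A.f i t := by omega
      rw [e]; exact h

theorem card_unc {lo hi : ℕ} (_hhi : hi < A.D) (hlo : lo ≤ hi) :
    ((range (A.D + 1)).filter (fun t => A.Unc lo hi t)).card ≤
      2 * (A.cnt (hi + 1) - A.cnt lo) := by
  -- pairs
  have hW : A.cnt (hi + 1) - A.cnt lo = ∑ i ∈ range A.n,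
      ((range (A.D + 1)).filter (fun k => lo ≤ A.f i k ∧ A.f i k ≤ hi)).card := by
    have : A.cnt (hi + 1) = A.cnt lo + ∑ i ∈ range A.n,
        ((range (A.D + 1)).filter (fun k => lo ≤ A.f i k ∧ A.f i k ≤ hi)).card := by
      unfold cnt
      rw [← sum_add_distrib]
      refine sum_congr rfl fun i _ => ?_
      rw [← card_union_of_disjoint]
      · congr 1
        ext k
        simp only [mem_filter, mem_union, mem_range]
        omega
      · rw [disjoint_left]
        intro k hk hk'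
        simp only [mem_filter] at hk hk'
        omega
    omega
  rw [hW]
  have hsub : (range (A.D + 1)).filter (fun t => A.Unc lo hi t) ⊆
      (range A.n).biUnion (fun i => ((range (A.D + 1)).filter
        (fun k => lo ≤ A.f i k ∧ A.f i k ≤ hi)) ∪
        (((range (A.D + 1)).filter (fun k => lo ≤ A.f i k ∧ A.f i k ≤ hi)).image
          (fun k => A.D - k))) := by
    intro t ht
    rw [mem_filter, mem_range] at ht
    obtain ⟨ht, i, hi', h⟩ := ht
    rw [mem_biUnion]
    refine ⟨i, mem_range.2 hi', ?_⟩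
    rw [mem_union]
    rcases h with h | h
    · left; rw [mem_filter, mem_range]; exact ⟨ht, h⟩
    · right
      rw [mem_image]
      refine ⟨A.D - t, ?_, by omega⟩
      rw [mem_filter, mem_range]
      have hf := A.f_lt i t
      rw [A.f_symm (by omega) (by omega)]
      exact ⟨by omega, h⟩
  refine (card_le_card hsub).trans (card_biUnion_le.trans ?_)
  rw [mul_sum]
  refine sum_le_sum fun i _ => ?_
  refine (card_union_le _ _).trans ?_
  have := card_image_le (s := (range (A.D + 1)).filter (fun k => lo ≤ A.f i k ∧ A.f i k ≤ hi))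
    (f := fun k => A.D - k)
  omega

variable {A}

theorem U_certain {lo hi b s : ℕ} (h : ¬ A.Unc lo hi s) (hlo : lo ≤ b) (hhi : b ≤ hi) {i : ℕ}
    (hi' : i < A.n) : A.U b i s = A.U hi i s := by
  apply A.U_congr hhi
  intro hc
  exact h ⟨i, hi', Or.inr ⟨by omega, hc.2⟩⟩

theorem L_certain {lo hi b s : ℕ} (h : ¬ A.Unc lo hi s) (hlo : lo ≤ b) (hhi : b ≤ hi) {i : ℕ}
    (hi' : i < A.n) : A.L b i s = A.L hi i s := by
  apply A.L_congr hhi
  intro hc
  exact h ⟨i, hi', Or.inl ⟨by omega, hc.2⟩⟩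

/-- It is enough to check the uncertain times. -/
theorem feas_of_unc {lo hi b : ℕ} (hlo : lo ≤ b) (hb : b ≤ hi) (hhi : hi < A.D)
    (hfeas : A.Feas hi)
    (h : ∀ t ≤ A.D, A.Unc lo hi t → ∀ s ≤ t, A.Hp b s t) : A.Feas b := by
  rw [A.feas_iff (by omega)]
  rw [A.feas_iff hhi] at hfeas
  intro s t hst ht
  by_cases ht' : A.Unc lo hi t
  · exact h t ht ht' s hst
  · by_cases hs' : A.Unc lo hi s
    · rw [← A.Hp_symm (by omega) hst ht]
      exact h (A.D - s) (by omega) (A.Unc_symm hhi (by omega) hs') (A.D - t) (by omega)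
    · have := hfeas s t hst ht
      unfold Hp at this ⊢
      refine le_trans (le_of_eq ?_) this
      refine sum_congr rfl fun i hi' => ?_
      rw [L_certain ht' hlo hb (mem_range.1 hi'), U_certain hs' hlo hb (mem_range.1 hi')]

end Inst

end Pool.Agent.helper9.Jit
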