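import Pool.Agent.helper9.Jit.Machine

/-!
# A small structured language and its compiler

`Expr` : expressions over scalar variables and finitely many arrays,
together with a compiler into the machine of `Machine.lean`.
-/

set_option autoImplicit false

namespace Pool.Agent.helper9.Jit

/-- `t` steps lead from `s` to `s'`, all configurations on the way being bounded by `W`. -/
def St (P : List Instr) (W : ℕ) (s : Conf) (t : ℕ) (s' : Conf) : Prop :=
  (step P)^[t] s = s' ∧ ∀ t' ≤ t, Bd W ((step P)^[t'] s)

theorem St.refl {P : List Instr} {W : ℕ} {s : Conf} (h : Bd W s) : St P W s 0 s :=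
  ⟨rfl, fun t' ht' => by
    have : t' = 0 := by omega
    subst this; exact h⟩

theorem St.trans {P : List Instr} {W : ℕ} {s s' s'' : Conf} {t t' : ℕ} (h : St P W s t s')
    (h' : St P W s' t' s'') : St P W s (t + t') s'' := by
  refine ⟨?_, ?_⟩
  · rw [Nat.add_comm, Function.iterate_add_apply, h.1, h'.1]
  · intro u hu
    by_cases hut : u ≤ t
    · exact h.2 u hut
    · have : u = (u - t) + t := by omega
      rw [this, Function.iterate_add_apply, h.1]
      exact h'.2 _ (by omega)

theorem St.bd {P : List Instr} {W : ℕ} {s s' : Conf} {t : ℕ} (h : St P W s t s') : Bd W s' := by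
  rw [← h.1]; exact h.2 t le_rfl

theorem St.bd0 {P : List Instr} {W : ℕ} {s s' : Conf} {t : ℕ} (h : St P W s t s') : Bd W s := by
  exact h.2 0 (Nat.zero_le _)

theorem St.one {P : List Instr} {W : ℕ} {s : Conf} {i : Instr} (hi : P[s.pc]? = some i)
    (h : Bd W s) (h' : Bd W (i.exec s)) : St P W s 1 (i.exec s) := by
  have hs : step P s = i.exec s := by unfold step; rw [hi]
  refine ⟨by simp [hs], ?_⟩
  intro t' ht'
  interval_cases t'
  · exact h
  · simpa [hs] using h'

/-! ## The structured language -/

/-- Number of arrays (besides the raw memory). -/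
abbrev KA : ℕ := 16

/-- Number of variables; variable `63` holds the base address of the arrays. -/
abbrev NV : ℕ := 64

inductive Expr
  | lit (c : ℕ)
  | var (v : ℕ)
  | arr (a : ℕ) (e : Expr)
  | add (e f : Expr)
  | sub (e f : Expr)
  | mul (e f : Expr)
  | div (e f : Expr)

/-- A state: variables and arrays.  Array `0` is the raw initial segment of memory. -/
@[ext] structure State where
  v : ℕ → ℕ
  m : ℕ → ℕ → ℕ

def State.setv (σ : State) (x y : ℕ) : State := ⟨Function.update σ.v x y, σ.m⟩
def State.setm (σ : State) (a i y : ℕ) : State :=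
  ⟨σ.v, Function.update σ.m a (Function.update (σ.m a) i y)⟩

@[simp] theorem State.setv_v (σ : State) (x y z : ℕ) :
    (σ.setv x y).v z = if z = x then y else σ.v z := by
  simp [State.setv, Function.update_apply]
@[simp] theorem State.setv_m (σ : State) (x y : ℕ) : (σ.setv x y).m = σ.m := rfl
@[simp] theorem State.setm_v (σ : State) (a i y : ℕ) : (σ.setm a i y).v = σ.v := rfl
@[simp] theorem State.setm_m (σ : State) (a i y b j : ℕ) :
    (σ.setm a i y).m b j = if b = a then (if j = i then y else σ.m b j) else σ.m b j := by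
  unfold State.setm
  by_cases h : b = a
  · subst h
    by_cases h' : j = i
    · subst h'; simp
    · simp [h']
  · simp [Function.update_apply, h]

/-- Parameters of a run: word bound `W`, index bound `I`, base address `B`. -/
structure Env where
  W : ℕ
  I : ℕ
  B : ℕ
  hW : B + KA * I + KA ≤ W

namespace Expr

def eval : Expr → State → ℕ
  | lit c, _ => c
  | var v, σ => σ.v v
  | arr a e, σ => σ.m a (e.eval σ)
  | add e f, σ => e.eval σ + f.eval σ
  | sub e f, σ => e.eval σ - f.eval σ
  | mul e f, σ => e.eval σ * f.eval σ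
  | div e f, σ => e.eval σ / f.eval σ

end Expr

/-- Legal array access. -/
def idxok (E : Env) (σ : State) (a x : ℕ) : Prop :=
  if a = 0 then x < E.B else (a ≤ KA ∧ x ≤ E.I ∧ σ.v 63 = E.B)

namespace Expr

def ok (E : Env) : Expr → State → Prop
  | lit c, _ => c ≤ E.W
  | var v, _ => v < NV
  | arr a e, σ => e.ok E σ ∧ idxok E σ a (e.eval σ)
  | add e f, σ => e.ok E σ ∧ f.ok E σ ∧ e.eval σ + f.eval σ ≤ E.W
  | sub e f, σ => e.ok E σ ∧ f.ok E σ
  | mul e f, σ => e.ok E σ ∧ f.ok E σ ∧ e.eval σ * f.eval σ ≤ E.W
  | div e f, σ => e.ok E σ ∧ f.ok E σ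

/-- number of instructions -/
def len : Expr → ℕ
  | lit _ => 1
  | var _ => 2
  | arr a e => e.len + (if a = 0 then 1 else 6)
  | add e f => e.len + f.len + 1
  | sub e f => e.len + f.len + 1
  | mul e f => e.len + f.len + 1
  | div e f => e.len + f.len + 1

end Expr

/-- Address computation: the index is in register `r`; register `t` is scratch. -/
def addrCode (a r t : ℕ) : List Instr :=
  if a = 0 then [] else
    [.const t KA, .mul r r t, .const t (a - 1), .add r r t, .add r r 63]

def compE : Expr → ℕ → List Instr
  | .lit c, r => [.const r c]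
  | .var v, r => [.const r 0, .add r r v]
  | .arr a e, r => compE e r ++ addrCode a r (r + 1) ++ [.load r r]
  | .add e f, r => compE e r ++ compE f (r + 1) ++ [.add r r (r + 1)]
  | .sub e f, r => compE e r ++ compE f (r + 1) ++ [.sub r r (r + 1)]
  | .mul e f, r => compE e r ++ compE f (r + 1) ++ [.mul r r (r + 1)]
  | .div e f, r => compE e r ++ compE f (r + 1) ++ [.div r r (r + 1)]

theorem addrCode_length (a r t : ℕ) : (addrCode a r t).length = if a = 0 then 0 else 5 := by
  unfold addrCode; split <;> simp

theorem compE_length (e : Expr) (r : ℕ) : (compE e r).length = e.len := by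
  induction e generalizing r with
  | lit c => simp [compE, Expr.len]
  | var v => simp [compE, Expr.len]
  | arr a e ih =>
    simp only [compE, Expr.len, List.length_append, ih, addrCode_length]
    split <;> simp
  | add e f ihe ihf => simp [compE, Expr.len, ihe, ihf]; try omega
  | sub e f ihe ihf => simp [compE, Expr.len, ihe, ihf]; try omega
  | mul e f ihe ihf => simp [compE, Expr.len, ihe, ihf]; try omega
  | div e f ihe ihf => simp [compE, Expr.len, ihe, ihf]; try omega

/-- The block `b` sits in `P` at address `pc`. -/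
def At (P : List Instr) (pc : ℕ) (b : List Instr) : Prop :=
  ∀ i < b.length, P[pc + i]? = b[i]?

theorem At.left {P : List Instr} {pc : ℕ} {b c : List Instr} (h : At P pc (b ++ c)) :
    At P pc b := by
  intro i hi
  rw [h i (by simp; omega), List.getElem?_append_left hi]

theorem At.right {P : List Instr} {pc : ℕ} {b c : List Instr} (h : At P pc (b ++ c)) :
    At P (pc + b.length) c := by
  intro i hi
  have := h (b.length + i) (by simp; omega)
  rw [List.getElem?_append_right (by omega)] at this
  rw [Nat.add_assoc, this]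
  congr 1
  omega

theorem At.head {P : List Instr} {pc : ℕ} {i : Instr} {b : List Instr} (h : At P pc (i :: b)) :
    P[pc]? = some i := by
  have := h 0 (by simp)
  simpa using this

theorem At.tail {P : List Instr} {pc : ℕ} {i : Instr} {b : List Instr} (h : At P pc (i :: b)) :
    At P (pc + 1) b := by
  have : At P pc ([i] ++ b) := h
  simpa using this.right

/-- Memory relation: the arrays are interleaved above the base address. -/
def MemRel (B : ℕ) (σ : State) (μ : ℕ → ℕ) : Prop :=
  (∀ x < B, μ x = σ.m 0 x) ∧
    (∀ a, 1 ≤ a → a ≤ KA → ∀ x, μ (B + KA * x + (a - 1)) = σ.m a x)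

def Sim (B : ℕ) (σ : State) (s : Conf) : Prop :=
  (∀ v < NV, s.reg v = σ.v v) ∧ MemRel B σ s.mem

def addr (B a x : ℕ) : ℕ := if a = 0 then x else B + KA * x + (a - 1)

theorem MemRel.read {B : ℕ} {σ : State} {μ : ℕ → ℕ} (h : MemRel B σ μ) {a x : ℕ} {E : Env}
    (hE : E.B = B) (hi : idxok E σ a x) : μ (addr B a x) = σ.m a x := by
  unfold addr
  unfold idxok at hi
  split
  · rename_i h0
    subst h0
    simp only [if_true] at hi
    exact h.1 x (hE ▸ hi)
  · rename_i h0
    rw [if_neg h0] at hi
    exact h.2 a (by omega) hi.1 x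

theorem MemRel.write {B : ℕ} {σ : State} {μ : ℕ → ℕ} (h : MemRel B σ μ) {a x y : ℕ} {E : Env}
    (hE : E.B = B) (hi : idxok E σ a x) :
    MemRel B (σ.setm a x y) (Function.update μ (addr B a x) y) := by
  unfold idxok at hi
  refine ⟨?_, ?_⟩
  · intro z hz
    unfold addr
    rw [Function.update_apply]
    by_cases h0 : a = 0
    · subst h0
      simp only [if_true, State.setm_m]
      split
      · rfl
      · exact h.1 z hz
    · simp only [if_neg h0, State.setm_m]
      rw [if_neg (by omega), if_neg (Ne.symm h0)]
      exact h.1 z hz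
  · intro b hb1 hb2 z
    unfold addr
    rw [Function.update_apply]
    by_cases h0 : a = 0
    · subst h0
      simp only [if_true] at hi ⊢
      rw [if_neg (by omega)]
      simp only [State.setm_m]
      rw [if_neg (by omega)]
      exact h.2 b hb1 hb2 z
    · rw [if_neg h0] at hi
      simp only [if_neg h0, State.setm_m]
      obtain ⟨ha, -, -⟩ := hi
      by_cases hba : b = a
      · subst hba
        rw [if_pos rfl]
        by_cases hz : z = x
        · subst hz; simp
        · rw [if_neg (by simp only [KA]; omega), if_neg hz]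
          exact h.2 b hb1 hb2 z
      · rw [if_neg hba, if_neg (by simp only [KA] at *; omega)]
        exact h.2 b hb1 hb2 z

theorem Bd.update_reg {W : ℕ} {s : Conf} (h : Bd W s) {a c pc : ℕ} (hc : c ≤ W) :
    Bd W ⟨pc, Function.update s.reg a c, s.mem⟩ := by
  refine ⟨fun r => ?_, h.2⟩
  show Function.update s.reg a c r ≤ W
  rw [Function.update_apply]
  split
  · exact hc
  · exact h.1 r

/-- correctness of the address code -/
theorem addrCode_correct {P : List Instr} {E : Env} {s : Conf} {σ : State} {a r t x : ℕ}
    (hP : At P s.pc (addrCode a r t)) (hs : Bd E.W s) (hr : NV ≤ r) (ht : r < t)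
    (h63 : s.reg 63 = σ.v 63)
    (hx : s.reg r = x) (hi : idxok E σ a x) :
    ∃ s', St P E.W s (if a = 0 then 0 else 5) s' ∧ s'.pc = s.pc + (if a = 0 then 0 else 5) ∧
      s'.mem = s.mem ∧ s'.reg r = addr E.B a x ∧
      (∀ r', r' ≠ r → r' ≠ t → s'.reg r' = s.reg r') := by
  unfold idxok at hi
  unfold addr
  by_cases h0 : a = 0
  · subst h0
    simp only [if_true]
    exact ⟨s, St.refl hs, rfl, rfl, hx, fun _ _ _ => rfl⟩
  · rw [if_neg h0] at hi
    simp only [if_neg h0]
    unfold addrCode at hP
    rw [if_neg h0] at hP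
    obtain ⟨ha, hxI, hB⟩ := hi
    have hEW := E.hW
    have hrt : r ≠ t := by omega
    have hr63 : (63 : ℕ) ≠ r := by simp only [NV] at hr; omega
    have ht63 : (63 : ℕ) ≠ t := by simp only [NV] at hr; omega
    have hKA : KA * x ≤ KA * E.I := Nat.mul_le_mul_left _ hxI
    -- step 1
    set s1 := (Instr.const t KA).exec s with hs1
    have b1 : Bd E.W s1 := hs.update_reg (by simp only [KA] at *; omega)
    have st1 : St P E.W s 1 s1 := St.one hP.head hs b1
    have hP1 := hP.tail
    -- step 2
    set s2 := (Instr.mul r r t).exec s1 with hs2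
    have r1 : s1.reg r = x := by simp [hs1, Instr.exec, hrt, hx]
    have t1 : s1.reg t = KA := by simp [hs1, Instr.exec]
    have b2 : Bd E.W s2 := b1.update_reg (by rw [r1, t1]; rw [Nat.mul_comm]; omega)
    have st2 : St P E.W s1 1 s2 := St.one hP1.head b1 b2
    have hP2 := hP1.tail
    set s3 := (Instr.const t (a - 1)).exec s2 with hs3
    have b3 : Bd E.W s3 := b2.update_reg (by simp only [KA] at *; omega)
    have st3 : St P E.W s2 1 s3 := St.one hP2.head b2 b3
    have hP3 := hP2.tail
    have r2 : s2.reg r = KA * x := by simp only [hs2, Instr.exec]; rw [Function.update_self, r1, t1, Nat.mul_comm]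
    have r3 : s3.reg r = KA * x := by simp only [hs3, Instr.exec]; rw [Function.update_of_ne hrt, r2]
    have t3 : s3.reg t = a - 1 := by simp [hs3, Instr.exec]
    set s4 := (Instr.add r r t).exec s3 with hs4
    have b4 : Bd E.W s4 := b3.update_reg (by rw [r3, t3]; simp only [KA] at *; omega)
    have st4 : St P E.W s3 1 s4 := St.one hP3.head b3 b4
    have hP4 := hP3.tail
    have r4 : s4.reg r = KA * x + (a - 1) := by
      simp only [hs4, Instr.exec]; rw [Function.update_self, r3, t3]
    have k4 : s4.reg 63 = E.B := by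
      simp only [hs4, hs3, hs2, hs1, Instr.exec]
      rw [Function.update_of_ne hr63, Function.update_of_ne ht63, Function.update_of_ne hr63,
        Function.update_of_ne ht63, h63, hB]
    set s5 := (Instr.add r r 63).exec s4 with hs5
    have b5 : Bd E.W s5 := b4.update_reg (by rw [r4, k4]; simp only [KA] at *; omega)
    have st5 : St P E.W s4 1 s5 := St.one hP4.head b4 b5
    refine ⟨s5, (((st1.trans st2).trans st3).trans st4).trans st5, rfl, rfl, ?_, ?_⟩
    · simp only [hs5, Instr.exec]
      rw [Function.update_self, r4, k4]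
      omega
    · intro r' h1 h2
      simp only [hs5, hs4, hs3, hs2, hs1, Instr.exec]
      rw [Function.update_of_ne h1, Function.update_of_ne h1, Function.update_of_ne h2,
        Function.update_of_ne h1, Function.update_of_ne h2]

theorem compE_correct {P : List Instr} {E : Env} (e : Expr) {s : Conf} {σ : State} {r : ℕ}
    (hP : At P s.pc (compE e r)) (hs : Bd E.W s) (hr : NV ≤ r)
    (hsim : ∀ v < NV, s.reg v = σ.v v) (hmem : MemRel E.B σ s.mem) (hok : e.ok E σ) :
    ∃ s', St P E.W s e.len s' ∧ s'.pc = s.pc + e.len ∧ s'.mem = s.mem ∧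
      s'.reg r = e.eval σ ∧ (∀ r' < r, s'.reg r' = s.reg r') := by
  induction e generalizing s r with
  | lit c =>
    have b : Bd E.W ((Instr.const r c).exec s) := hs.update_reg hok
    refine ⟨_, St.one hP.head hs b, rfl, rfl, ?_, ?_⟩
    · simp [Instr.exec, Expr.eval]
    · intro r' hr'
      simp only [Instr.exec]
      rw [Function.update_of_ne (by omega)]
  | var v =>
    have hv : v < NV := hok
    have hvr : v ≠ r := by omega
    set s1 := (Instr.const r 0).exec s with hs1
    have b1 : Bd E.W s1 := hs.update_reg (Nat.zero_le _)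
    have st1 : St P E.W s 1 s1 := St.one hP.head hs b1
    set s2 := (Instr.add r r v).exec s1 with hs2
    have k1 : s1.reg r = 0 := by simp [hs1, Instr.exec]
    have k2 : s1.reg v = σ.v v := by
      simp only [hs1, Instr.exec]; rw [Function.update_of_ne hvr, hsim v hv]
    have b2 : Bd E.W s2 := b1.update_reg (by rw [k1, Nat.zero_add]; exact b1.1 v)
    have st2 : St P E.W s1 1 s2 := St.one hP.tail.head b1 b2
    refine ⟨s2, st1.trans st2, rfl, rfl, ?_, ?_⟩
    · simp only [hs2, Instr.exec]; rw [Function.update_self, k1, k2, Nat.zero_add]; rfl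
    · intro r' hr'
      simp only [hs2, hs1, Instr.exec]
      rw [Function.update_of_ne (by omega), Function.update_of_ne (by omega)]
  | arr a e ih =>
    obtain ⟨hok1, hidx⟩ := hok
    simp only [compE] at hP
    obtain ⟨s1, st1, pc1, mem1, val1, oth1⟩ := ih hP.left.left hs hr hsim hmem hok1
    have hP2 := hP.left.right
    rw [compE_length, ← pc1] at hP2
    have h63 : s1.reg 63 = σ.v 63 := by
      rw [oth1 63 (by simp only [NV] at hr; omega), hsim 63 (by simp)]
    obtain ⟨s2, st2, pc2, mem2, val2, oth2⟩ :=
      addrCode_correct hP2 st1.bd hr (Nat.lt_succ_self r) h63 val1 hidx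
    have hP3 := hP.right
    rw [List.length_append, compE_length, addrCode_length, ← Nat.add_assoc, ← pc1, ← pc2] at hP3
    have hm : s2.mem (s2.reg r) = σ.m a (e.eval σ) := by
      rw [val2, mem2, mem1]
      exact hmem.read rfl hidx
    set s3 := (Instr.load r r).exec s2 with hs3
    have b3 : Bd E.W s3 := st2.bd.update_reg (st2.bd.2 _)
    have st3 : St P E.W s2 1 s3 := St.one hP3.head st2.bd b3
    refine ⟨s3, ?_, ?_, ?_, ?_, ?_⟩
    · have := (st1.trans st2).trans st3
      convert this using 1
      simp only [Expr.len]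
      split <;> omega
    · simp only [hs3, Instr.exec, Expr.len]
      rw [pc2, pc1]
      split <;> omega
    · simp only [hs3, Instr.exec]; rw [mem2, mem1]
    · simp only [hs3, Instr.exec]; rw [Function.update_self, hm]; rfl
    · intro r' hr'
      simp only [hs3, Instr.exec]
      rw [Function.update_of_ne (by omega), oth2 r' (by omega) (by omega), oth1 r' hr']
  | add e f ihe ihf =>
    obtain ⟨hok1, hok2, hok3⟩ := hok
    simp only [compE] at hP
    obtain ⟨s1, st1, pc1, mem1, val1, oth1⟩ := ihe hP.left.left hs hr hsim hmem hok1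
    have hP2 := hP.left.right
    rw [compE_length, ← pc1] at hP2
    obtain ⟨s2, st2, pc2, mem2, val2, oth2⟩ := ihf hP2 st1.bd (by omega)
      (fun v hv => by rw [oth1 v (by omega)]; exact hsim v hv) (mem1 ▸ hmem) hok2
    have hP3 := hP.right
    rw [List.length_append, compE_length, compE_length, ← Nat.add_assoc, ← pc1, ← pc2] at hP3
    have v1 : s2.reg r = e.eval σ := by rw [oth2 r (by omega), val1]
    set s3 := (Instr.add r r (r + 1)).exec s2 with hs3
    have b3 : Bd E.W s3 := st2.bd.update_reg (by rw [v1, val2]; exact hok3)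
    have st3 : St P E.W s2 1 s3 := St.one hP3.head st2.bd b3
    refine ⟨s3, (st1.trans st2).trans st3, ?_, ?_, ?_, ?_⟩
    · simp only [hs3, Instr.exec, Expr.len]; rw [pc2, pc1]; omega
    · simp only [hs3, Instr.exec]; rw [mem2, mem1]
    · simp only [hs3, Instr.exec]; rw [Function.update_self, v1, val2]; rfl
    · intro r' hr'
      simp only [hs3, Instr.exec]
      rw [Function.update_of_ne (by omega), oth2 r' (by omega), oth1 r' hr']
  | sub e f ihe ihf =>
    obtain ⟨hok1, hok2⟩ := hok
    simp only [compE] at hP
    obtain ⟨s1, st1, pc1, mem1, val1, oth1⟩ := ihe hP.left.left hs hr hsim hmem hok1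
    have hP2 := hP.left.right
    rw [compE_length, ← pc1] at hP2
    obtain ⟨s2, st2, pc2, mem2, val2, oth2⟩ := ihf hP2 st1.bd (by omega)
      (fun v hv => by rw [oth1 v (by omega)]; exact hsim v hv) (mem1 ▸ hmem) hok2
    have hP3 := hP.right
    rw [List.length_append, compE_length, compE_length, ← Nat.add_assoc, ← pc1, ← pc2] at hP3
    have v1 : s2.reg r = e.eval σ := by rw [oth2 r (by omega), val1]
    set s3 := (Instr.sub r r (r + 1)).exec s2 with hs3
    have b3 : Bd E.W s3 := st2.bd.update_reg ((Nat.sub_le _ _).trans (st2.bd.1 r))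
    have st3 : St P E.W s2 1 s3 := St.one hP3.head st2.bd b3
    refine ⟨s3, (st1.trans st2).trans st3, ?_, ?_, ?_, ?_⟩
    · simp only [hs3, Instr.exec, Expr.len]; rw [pc2, pc1]; omega
    · simp only [hs3, Instr.exec]; rw [mem2, mem1]
    · simp only [hs3, Instr.exec]; rw [Function.update_self, v1, val2]; rfl
    · intro r' hr'
      simp only [hs3, Instr.exec]
      rw [Function.update_of_ne (by omega), oth2 r' (by omega), oth1 r' hr']
  | mul e f ihe ihf =>
    obtain ⟨hok1, hok2, hok3⟩ := hok
    simp only [compE] at hP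
    obtain ⟨s1, st1, pc1, mem1, val1, oth1⟩ := ihe hP.left.left hs hr hsim hmem hok1
    have hP2 := hP.left.right
    rw [compE_length, ← pc1] at hP2
    obtain ⟨s2, st2, pc2, mem2, val2, oth2⟩ := ihf hP2 st1.bd (by omega)
      (fun v hv => by rw [oth1 v (by omega)]; exact hsim v hv) (mem1 ▸ hmem) hok2
    have hP3 := hP.right
    rw [List.length_append, compE_length, compE_length, ← Nat.add_assoc, ← pc1, ← pc2] at hP3
    have v1 : s2.reg r = e.eval σ := by rw [oth2 r (by omega), val1]
    set s3 := (Instr.mul r r (r + 1)).exec s2 with hs3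
    have b3 : Bd E.W s3 := st2.bd.update_reg (by rw [v1, val2]; exact hok3)
    have st3 : St P E.W s2 1 s3 := St.one hP3.head st2.bd b3
    refine ⟨s3, (st1.trans st2).trans st3, ?_, ?_, ?_, ?_⟩
    · simp only [hs3, Instr.exec, Expr.len]; rw [pc2, pc1]; omega
    · simp only [hs3, Instr.exec]; rw [mem2, mem1]
    · simp only [hs3, Instr.exec]; rw [Function.update_self, v1, val2]; rfl
    · intro r' hr'
      simp only [hs3, Instr.exec]
      rw [Function.update_of_ne (by omega), oth2 r' (by omega), oth1 r' hr']
  | div e f ihe ihf =>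
    obtain ⟨hok1, hok2⟩ := hok
    simp only [compE] at hP
    obtain ⟨s1, st1, pc1, mem1, val1, oth1⟩ := ihe hP.left.left hs hr hsim hmem hok1
    have hP2 := hP.left.right
    rw [compE_length, ← pc1] at hP2
    obtain ⟨s2, st2, pc2, mem2, val2, oth2⟩ := ihf hP2 st1.bd (by omega)
      (fun v hv => by rw [oth1 v (by omega)]; exact hsim v hv) (mem1 ▸ hmem) hok2
    have hP3 := hP.right
    rw [List.length_append, compE_length, compE_length, ← Nat.add_assoc, ← pc1, ← pc2] at hP3
    have v1 : s2.reg r = e.eval σ := by rw [oth2 r (by omega), val1]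
    set s3 := (Instr.div r r (r + 1)).exec s2 with hs3
    have b3 : Bd E.W s3 := st2.bd.update_reg ((Nat.div_le_self _ _).trans (st2.bd.1 r))
    have st3 : St P E.W s2 1 s3 := St.one hP3.head st2.bd b3
    refine ⟨s3, (st1.trans st2).trans st3, ?_, ?_, ?_, ?_⟩
    · simp only [hs3, Instr.exec, Expr.len]; rw [pc2, pc1]; omega
    · simp only [hs3, Instr.exec]; rw [mem2, mem1]
    · simp only [hs3, Instr.exec]; rw [Function.update_self, v1, val2]; rfl
    · intro r' hr'
      simp only [hs3, Instr.exec]
      rw [Function.update_of_ne (by omega), oth2 r' (by omega), oth1 r' hr']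

end Pool.Agent.helper9.Jit
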