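import Pool.Agent.helper9.Jit.Edf2

/-!
# Counting the thresholds
-/

set_option autoImplicit false

namespace Pool.Agent.helper9.Jit

open Finset

namespace Inst

variable (A : Inst)

/-- number of pairs (letter, time) with threshold `< v` -/
def cnt (v : ℕ) : ℕ := ∑ i ∈ range A.n, ((range (A.D + 1)).filter (fun k => A.f i k < v)).card

/-- number of thresholds -/
def N : ℕ := A.n * (A.D + 1)

theorem cnt_zero : A.cnt 0 = 0 := by
  unfold cnt; simp

theorem cnt_mono {u v : ℕ} (h : u ≤ v) : A.cnt u ≤ A.cnt v := by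
  unfold cnt
  refine sum_le_sum fun i _ => card_le_card ?_
  intro k hk
  rw [mem_filter] at hk ⊢
  exact ⟨hk.1, hk.2.trans_le h⟩

theorem cnt_D : A.cnt A.D = A.N := by
  unfold cnt N
  have : ∀ i ∈ range A.n, ((range (A.D + 1)).filter (fun k => A.f i k < A.D)).card = A.D + 1 := by
    intro i _
    rw [filter_true_of_mem (fun k _ => A.f_lt i k), card_range]
  rw [sum_congr rfl this]; simp

theorem cnt_le_N (v : ℕ) : A.cnt v ≤ A.N := by
  unfold cnt N
  calc _ ≤ ∑ i ∈ range A.n, (A.D + 1) := sum_le_sum fun i _ => by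
        simpa using card_le_card (filter_subset (fun k => A.f i k < v) (range (A.D + 1)))
    _ = _ := by simp

/-- number of pairs with threshold exactly `v`, restricted -/
def cpt (i κ u : ℕ) : ℕ := (∑ i' ∈ range i, ((range (A.D + 1)).filter (fun k => A.f i' k + 1 = u)).card) +
  ((range κ).filter (fun k => A.f i k + 1 = u)).card

theorem cpt_succ (i κ u : ℕ) :
    A.cpt i (κ + 1) u = A.cpt i κ u + if u = A.f i κ + 1 then 1 else 0 := by
  unfold cpt
  rw [show range (κ + 1) = insert κ (range κ) from range_add_one, filter_insert]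
  by_cases h : A.f i κ + 1 = u
  · rw [if_pos h, card_insert_of_notMem (by simp), if_pos h.symm]; omega
  · rw [if_neg h, if_neg (Ne.symm h)]; omega

theorem cpt_next (i u : ℕ) : A.cpt (i + 1) 0 u = A.cpt i (A.D + 1) u := by
  unfold cpt
  rw [sum_range_succ]; simp

theorem cnt_succ (v : ℕ) : A.cnt (v + 1) = A.cpt A.n 0 (v + 1) + A.cnt v := by
  unfold cnt cpt
  simp only [range_zero, filter_empty, card_empty, Nat.add_zero]
  rw [← sum_add_distrib]
  refine sum_congr rfl fun i _ => ?_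
  rw [← card_union_of_disjoint]
  · congr 1
    ext k
    simp only [mem_filter, mem_union, mem_range]
    omega
  · rw [disjoint_left]
    intro k hk hk'
    simp only [mem_filter] at hk hk'
    omega

end Inst

/-- Specification of the array `aE`. -/
def EP (A : Inst) (e : ℕ → ℕ) : Prop := ∀ u < A.N, e u < A.D ∧ A.cnt (e u) ≤ u ∧ u < A.cnt (e u + 1)

def cs1 : Cmd := forr 6 (Expr.var 0) (forr 4 ((Expr.var 1) + 1) (
  Cmd.seq (.asgn 8 ((Expr.var 4) * (Expr.arr 1 ((Expr.var 6))))) <|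
  Cmd.seq (.asgn 8 ((Expr.var 8) - (Expr.var 8) / (Expr.var 1) * (Expr.var 1))) <|
  .store 4 ((Expr.var 8) + 1) ((Expr.arr 4 ((Expr.var 8) + 1)) + 1)))

def cs2 : Cmd := forr 6 (Expr.var 1) (.store 4 ((Expr.var 6) + 1) ((Expr.arr 4 ((Expr.var 6) + 1)) + (Expr.arr 4 ((Expr.var 6)))))

def cs3 : Cmd :=
  Cmd.seq (.asgn 6 0) <|
  Cmd.seq (.asgn 7 0) <|
  .whl ((Expr.var 7) + 1) ((Expr.var 0) * ((Expr.var 1) + 1)) (
    .ite ((Expr.arr 4 ((Expr.var 6) + 1))) (Expr.var 7) (.asgn 6 ((Expr.var 6) + 1)) (Cmd.seq (.store 3 (Expr.var 7) (Expr.var 6)) <| .asgn 7 ((Expr.var 7) + 1)))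

section
variable {E : Env} {A : Inst}

theorem Sz.N_le (hs : Sz E A) : A.N ≤ 2 * (A.D * A.D) := by
  obtain ⟨z1, z2, z3, z4, z5, z6⟩ := hs.facts
  unfold Inst.N
  rw [Nat.mul_add]
  have : A.n * A.D = A.D * A.n := Nat.mul_comm _ _
  omega

theorem Ctx.setv {σ : State} (h : Ctx E A σ) {x y : ℕ} (h0 : 0 ≠ x) (h1 : 1 ≠ x) (h2 : 63 ≠ x) :
    Ctx E A (σ.setv x y) :=
  ⟨by simp [h0, h.n], by simp [h1, h.D], by simp [h2, h.B], by simpa using h.d, by simpa using h.S⟩

theorem Ctx.setm {σ : State} (h : Ctx E A σ) {a x y : ℕ} (h0 : 1 ≠ a) (h1 : 2 ≠ a) :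
    Ctx E A (σ.setm a x y) :=
  ⟨by simp [h.n], by simp [h.D], by simp [h.B], by simpa [h0] using h.d, by simpa [h1] using h.S⟩

theorem cs1_spec (hs : Sz E A) {σ : State} (ctx : Ctx E A σ) (h0 : ∀ u, σ.m 4 u = 0) :
    Ex E cs1 σ (A.n * ((A.D + 1) * 100 + 40) + 20) (fun σ' =>
      ∀ u, σ'.m 4 u = A.cpt A.n 0 u) := by
  obtain ⟨z1, z2, z3, z4, z5, z6⟩ := hs.facts
  have hN := hs.N_le
  unfold cs1
  refine (Ex.forr (T1 := (A.D + 1) * 100 + 20) A.n (fun i σ' => ∀ u, σ'.m 4 u = A.cpt i 0 u)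
      (by decide) (by decide) (by omega) ?_ ?_ ?_).mono ?_ (fun σ' h => h.2.1)
  · intro u; simp [h0, Inst.cpt]
  · intro k hk σ' hfr _
    simp [hfr.1 0 (by decide), ctx.n]
  · intro i hi σ1 hfr1 hinv1 hv1
    have ctx1 := ctx.fr hfr1 (by decide)
    have hdi := ctx1.d i hi
    have hdD := A.hdD hi
    refine (Ex.forr (T1 := 80) (A.D + 1) (fun κ σ' => ∀ u, σ'.m 4 u = A.cpt i κ u)
      (by decide) (by decide) (by omega) ?_ ?_ ?_).mono ?_ ?_
    · intro u; simpa using hinv1 u
    · intro k hk σ' hfr _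
      simp [hfr.1 1 (by decide), ctx1.D]
      omega
    · intro κ hκ σ2 hfr2 hinv2 hv2
      have ctx2 := ctx1.fr hfr2 (by decide)
      have hi2 : σ2.v 6 = i := by rw [hfr2.1 6 (by decide), hv1]
      have hdi2 := ctx2.d i hi
      have hkd : κ * A.d i ≤ A.D * A.D := Nat.mul_le_mul (by omega) hdD
      have hdiv := Nat.div_mul_le_self (κ * A.d i) A.D
      have hf : κ * A.d i - κ * A.d i / A.D * A.D = A.f i κ := by
        unfold Inst.f
        have := Nat.div_add_mod (κ * A.d i) A.D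
        rw [Nat.mul_comm A.D] at this
        omega
      have hfl := A.f_lt i κ
      have hcp : A.cpt i κ (A.f i κ + 1) + 1 ≤ 100 * (A.D * A.D) := by
        have h1 : A.cpt i κ (A.f i κ + 1) ≤ A.N + (A.D + 1) := by
          unfold Inst.cpt Inst.N
          refine Nat.add_le_add ?_ ?_
          · calc _ ≤ ∑ i' ∈ range i, (A.D + 1) := sum_le_sum fun i' _ => by
                  simpa using card_le_card (filter_subset (fun k => A.f i' k + 1 = A.f i κ + 1)
                    (range (A.D + 1)))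
              _ = i * (A.D + 1) := by simp
              _ ≤ _ := Nat.mul_le_mul_right _ hi.le
          · calc _ ≤ (range κ).card := card_le_card (filter_subset _ _)
              _ = κ := card_range _
              _ ≤ _ := by omega
        omega
      refine Ex.asg (κ * A.d i) (by (simp <;> omega)) (by decide) ?_ (by simp [hv2, hi2, hdi2]) ?_
      · simp [idxok, KA, hv2, hi2, ctx2.B, hdi2]
        omega
      refine Ex.asg (A.f i κ) (by (simp <;> omega)) (by decide) (by simp [ctx2.D]; omega)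
        (by simp [ctx2.D, hf]) ?_
      refine Ex.sto1 (A.f i κ + 1) (A.cpt i κ (A.f i κ + 1) + 1) (by (simp <;> omega)) (by simp; omega)
        ?_ (by simp) (by simp [hinv2]) (idxok_arr (by decide) (by decide) (by simpa using ctx2.B)
          (by omega)) ?_
      · simp [idxok, KA, ctx2.B, hinv2]
        omega
      · intro u
        simp only [State.setv_m, State.setm_m, if_true, hinv2]
        rw [Inst.cpt_succ]
        split
        · rename_i h; rw [h]
        · rfl
    · simp only [Expr.len_add, Expr.len_var, Expr.len_ofNat]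
      have : (A.D + 1) * (80 + (2 + 1 + 1 + 12)) ≤ (A.D + 1) * 100 :=
        Nat.mul_le_mul_left _ (by norm_num)
      omega
    · rintro σ2 ⟨-, h, -⟩
      intro u
      simp only [State.setv_m]
      rw [Inst.cpt_next]; exact h u
  · simp only [Expr.len_var]
    have : A.n * ((A.D + 1) * 100 + 20 + (2 + 12)) ≤ A.n * ((A.D + 1) * 100 + 40) :=
      Nat.mul_le_mul_left _ (by omega)
    omega

theorem cs2_spec (hs : Sz E A) {σ : State} (ctx : Ctx E A σ)
    (h0 : ∀ u, σ.m 4 u = A.cpt A.n 0 u) :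
    Ex E cs2 σ (A.D * 60 + 20) (fun σ' => ∀ u ≤ A.D, σ'.m 4 u = A.cnt u) := by
  obtain ⟨z1, z2, z3, z4, z5, z6⟩ := hs.facts
  have hN := hs.N_le
  unfold cs2
  refine (Ex.forr (T1 := 46) A.D (fun k σ' => (∀ u ≤ k, σ'.m 4 u = A.cnt u) ∧
      ∀ u, k < u → σ'.m 4 u = A.cpt A.n 0 u)
      (by decide) (by decide) (by omega) ?_ ?_ ?_).mono ?_ (fun σ' h => h.2.1.1)
  · refine ⟨?_, ?_⟩
    · intro u hu
      have : u = 0 := by omega
      subst this
      simp [h0, Inst.cpt, Inst.cnt_zero]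
    · intro u hu; simpa using h0 u
  · intro k hk σ' hfr _
    simp [hfr.1 1 (by decide), ctx.D]
  · intro k hk σ1 hfr1 hinv1 hv1
    have ctx1 := ctx.fr hfr1 (by decide)
    have e1 := hinv1.1 k le_rfl
    have e2 := hinv1.2 (k + 1) (by omega)
    have e3 := A.cnt_succ k
    have e4 := A.cnt_le_N (k + 1)
    refine Ex.sto1 (k + 1) (A.cnt (k + 1)) (by (simp <;> omega)) (by simp [hv1]; omega) ?_ (by simp [hv1]) ?_
      (idxok_arr (by decide) (by decide) ctx1.B (by omega)) ?_
    · simp [idxok, KA, ctx1.B, hv1, e1, e2]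
      omega
    · simp [hv1, e1, e2, e3]
    · refine ⟨?_, ?_⟩
      · intro u hu
        simp only [State.setv_m, State.setm_m, if_true]
        split
        · rename_i h; rw [h]
        · exact hinv1.1 u (by omega)
      · intro u hu
        simp only [State.setv_m, State.setm_m, if_true]
        rw [if_neg (by omega)]
        exact hinv1.2 u (by omega)
  · simp only [Expr.len_var]
    have : A.D * (46 + (2 + 12)) = A.D * 60 := by norm_num
    omega

theorem cs3_spec (hs : Sz E A) {σ : State} (ctx : Ctx E A σ)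
    (h0 : ∀ u ≤ A.D, σ.m 4 u = A.cnt u) :
    Ex E cs3 σ (A.N * 60 + A.D * 60 + 40) (fun σ' => EP A (σ'.m 3)) := by
  obtain ⟨z1, z2, z3, z4, z5, z6⟩ := hs.facts
  have hN := hs.N_le
  have hNdef : A.n * (A.D + 1) = A.N := rfl
  unfold cs3
  refine Ex.asg 0 (by (simp <;> omega)) (by decide) (by simp) (by simp) ?_
  refine Ex.asg 0 (by (simp <;> omega)) (by decide) (by simp) (by simp) ?_
  set σ1 := (σ.setv 6 0).setv 7 0 with hσ1
  refine (Ex.whl (σ0 := σ1)
    (Inv := fun σ' => σ'.v 6 ≤ A.D ∧ A.cnt (σ'.v 6) ≤ σ'.v 7 ∧ σ'.v 7 ≤ A.N ∧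
      (∀ u < σ'.v 7, σ'.m 3 u < A.D ∧ A.cnt (σ'.m 3 u) ≤ u ∧ u < A.cnt (σ'.m 3 u + 1)))
    (Φ := fun σ' => (A.N - σ'.v 7) * 60 + (A.D - σ'.v 6) * 60) ?_ ?_).mono ?_ ?_
  · simp [hσ1, Inst.cnt_zero]
  · rintro σ2 hfr ⟨h1, h2, h3, h4⟩
    have ctx2 : Ctx E A σ2 := (ctx.setv (by decide) (by decide) (by decide)
      |>.setv (by decide) (by decide) (by decide)).fr hfr (by decide)
    have hST : σ2.m 4 = σ.m 4 := by rw [hfr.2 4 (by decide)]; simp [hσ1]
    refine ⟨by simp; omega, by simp [ctx2.n, ctx2.D, hNdef]; omega, ?_⟩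
    simp only [Expr.eval_add, Expr.eval_var, Expr.eval_ofNat, Expr.eval_mul, ctx2.n, ctx2.D, hNdef]
    intro hlt
    have hvD : σ2.v 6 < A.D := by
      by_contra hcon
      have := A.cnt_mono (show A.D ≤ σ2.v 6 by omega)
      rw [Inst.cnt_D] at this
      omega
    have hSTv := h0 (σ2.v 6 + 1) (by omega)
    have hcN := A.cnt_le_N (σ2.v 6 + 1)
    refine ⟨45, ?_⟩
    refine Ex.cond (A.cnt (σ2.v 6 + 1)) (σ2.v 7) (by (simp <;> omega)) ?_ (by simp)
      (by simp [hST, hSTv]) (by simp) (fun hle => ?_) (fun hle => ?_)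
    · simp [idxok, KA, ctx2.B]
      omega
    · refine Ex.asg1 (σ2.v 6 + 1) (by (simp <;> omega)) (by decide) (by simp; omega) (by simp) ?_
      refine ⟨⟨by simp; omega, by simpa using hle, by simpa using h3, by simpa using h4⟩, ?_⟩
      simp
      omega
    · refine Ex.sto (σ2.v 7) (σ2.v 6) (by (simp <;> omega)) (by simp) (by simp) (by simp) (by simp)
        (idxok_arr (by decide) (by decide) ctx2.B (by omega)) ?_
      refine Ex.asg1 (σ2.v 7 + 1) (by (simp <;> omega)) (by decide) (by simp; omega) (by simp) ?_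
      refine ⟨⟨by simpa using h1, by simp; omega, by simp; omega, ?_⟩, ?_⟩
      · intro u hu
        simp only [State.setv_v, State.setv_m, State.setm_m, if_true] at hu ⊢
        split
        · rename_i h; subst h
          exact ⟨hvD, h2, by omega⟩
        · exact h4 u (by omega)
      · simp
        omega
  · simp [hσ1]
  · rintro σ2 ⟨hfr, ⟨h1, h2, h3, h4⟩, h5⟩
    have ctx2 : Ctx E A σ2 := (ctx.setv (by decide) (by decide) (by decide)
      |>.setv (by decide) (by decide) (by decide)).fr hfr (by decide)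
    simp only [Expr.eval_add, Expr.eval_var, Expr.eval_ofNat, Expr.eval_mul, ctx2.n, ctx2.D,
      hNdef] at h5
    intro u hu
    exact h4 u (by omega)

end

end Pool.Agent.helper9.Jit
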